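import Pool.Agent.N604.MW.Stm13
import Pool.Agent.N401.AD_AASY

/-!
# Project AP (helper604), part PASY (helper903): the asymptotic formula for the smoothed sum

Adapted from `Pool/Agent/N401/AD_AASY.lean` (helper401).
-/

set_option autoImplicit false
set_option linter.all false

namespace Pool.Agent.N903.AP

open Finset MeasureTheory Filter Pool.Agent.N604.MW
open Pool.Agent.N401.AD (tangent seqs two_pow tend_M tend_U win_up win_lo fin_lo fin_up sum_err)

theorem lam_nonneg (x : ℕ) : 0 ≤ lam x := by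
  unfold lam
  split_ifs
  · exact Real.log_natCast_nonneg x
  · exact le_rfl

theorem sum_lam (ν : ℕ) : ∑ x ∈ range (2 ^ ν), lam x ≤ 2 ^ ν * ((ν : ℝ) + 1) := by
  have hν : (0 : ℝ) ≤ ν := Nat.cast_nonneg ν
  have h : ∀ x ∈ range (2 ^ ν), lam x ≤ (ν : ℝ) + 1 := by
    intro x hx
    unfold lam
    split_ifs with hp
    · have hx0 : (0 : ℝ) < x := by exact_mod_cast hp.pos
      have h1 : (x : ℝ) ≤ 2 ^ ν := by exact_mod_cast (mem_range.1 hx).le
      have h2 : Real.log x ≤ Real.log (2 ^ ν) := Real.log_le_log hx0 h1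
      rw [Real.log_pow] at h2
      have h3 : Real.log 2 ≤ 1 := by
        have := Real.log_two_lt_d9
        linarith
      nlinarith
    · linarith
  calc ∑ x ∈ range (2 ^ ν), lam x ≤ ∑ x ∈ range (2 ^ ν), ((ν : ℝ) + 1) := sum_le_sum h
    _ = 2 ^ ν * ((ν : ℝ) + 1) := by
      rw [sum_const, card_range, nsmul_eq_mul]
      push_cast
      ring

/-- the domain of summation does not matter -/
theorem RW_congr {s : ℕ} (w : ℕ → ℝ) (f : Fin s → ℕ → ℝ) (hf : ∀ i x, 0 ≤ f i x) (n : ℤ)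
    (A B : Fin s → Finset ℕ) (hA : ∀ i x, f i x < n + 1 → x ∈ A i)
    (hB : ∀ i x, f i x < n + 1 → x ∈ B i) : RW A w f n = RW B w f n := by
  classical
  have key : ∀ A B : Fin s → Finset ℕ, (∀ i x, f i x < n + 1 → x ∈ A i) →
      (∀ i x, f i x < n + 1 → x ∈ B i) → RW A w f n =
      ∑ x ∈ Fintype.piFinset (fun i => A i ∩ B i), (∏ i, w (x i)) * Lam (∑ i, f i (x i) - n) := by
    intro A B hA hB
    unfold RW
    symm
    refine Finset.sum_subset ?_ ?_
    · intro x hx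
      rw [Fintype.mem_piFinset] at hx ⊢
      exact fun i => (Finset.mem_inter.1 (hx i)).1
    · intro x hx hx'
      have h1 : ¬ ∑ i, f i (x i) < n + 1 := by
        intro hlt
        apply hx'
        rw [Fintype.mem_piFinset]
        intro i
        have h2 : f i (x i) ≤ ∑ j, f j (x j) :=
          Finset.single_le_sum (f := fun j => f j (x j)) (fun j _ => hf j (x j))
            (Finset.mem_univ i)
        exact Finset.mem_inter.2 ⟨hA i _ (lt_of_le_of_lt h2 hlt), hB i _ (lt_of_le_of_lt h2 hlt)⟩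
      push Not at h1
      have h3 : Lam (∑ i, f i (x i) - n) = 0 := by
        unfold Lam
        refine max_eq_left ?_
        have h2 : (1 : ℝ) ≤ |∑ i, f i (x i) - n| := by
          refine le_trans ?_ (le_abs_self _)
          linarith
        linarith
      rw [h3, mul_zero]
  rw [key A B hA hB, key B A hB hA]
  congr 1
  refine congrArg _ ?_
  funext i
  exact Finset.inter_comm _ _

theorem polyexp (d : ℕ) : ∀ᶠ m : ℕ in atTop, ((m : ℝ) + 1) ^ d ≤ 2 ^ m := by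
  have h := (tendsto_pow_const_div_const_pow_of_one_lt d (one_lt_two (α := ℝ))).comp (tendsto_add_atTop_nat 1)
  have h2 := h.eventually (gt_mem_nhds (show (0 : ℝ) < 1 / 2 by norm_num))
  filter_upwards [h2] with m hm
  simp only [Function.comp_apply] at hm
  rw [div_lt_iff₀ (by positivity)] at hm
  push_cast at hm
  have e : (1 : ℝ) / 2 * 2 ^ (m + 1) = 2 ^ m := by
    rw [pow_succ]
    ring
  rw [e] at hm
  exact hm.le

/-- the error term of the count -/
theorem zb {C θ y n : ℝ} {B : ℕ} (hC : 0 ≤ C) (hθ : 0 ≤ θ) (hn : 3 ≤ n) (h1 : n - 1 ≤ y) (h2 : y ≤ 2 * n) :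
    C * y ^ θ / Real.log y ^ B ≤ C * (2 ^ θ * n ^ θ * 2 ^ B / Real.log n ^ B) := by
  have hy : 2 ≤ y := by linarith
  have hn0 : 0 < n := by linarith
  have hlogn : 0 < Real.log n := Real.log_pos (by linarith)
  have hlog : Real.log n / 2 ≤ Real.log y := by
    have h3 : n ≤ y ^ 2 := by nlinarith
    have h4 := Real.log_le_log hn0 h3
    rw [Real.log_pow] at h4
    push_cast at h4
    linarith
  have h5 : y ^ θ ≤ 2 ^ θ * n ^ θ := by
    rw [← Real.mul_rpow (by norm_num) hn0.le]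
    exact Real.rpow_le_rpow (by linarith) h2 hθ
  have h6 : (Real.log n / 2) ^ B ≤ Real.log y ^ B := pow_le_pow_left₀ (by positivity) hlog B
  have h7 : 0 < (Real.log n / 2) ^ B := by positivity
  rw [mul_div_assoc]
  refine mul_le_mul_of_nonneg_left ?_ hC
  calc y ^ θ / Real.log y ^ B ≤ (2 ^ θ * n ^ θ) / (Real.log n / 2) ^ B := by
        apply div_le_div₀ (by positivity) h5 h7 h6
    _ = 2 ^ θ * n ^ θ * 2 ^ B / Real.log n ^ B := by
        rw [div_pow]
        field_simp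

theorem lt_pow_range {k : ℕ} {a : ℝ} (ha : 0 < a) {ν x : ℕ} {z : ℝ} (hz : z ≤ a * ((2 : ℝ) ^ ν) ^ k)
    (hx : nk k a x < z) : x ∈ range (2 ^ ν) := by
  unfold nk at hx
  have h1 : (x : ℝ) ^ k < ((2 : ℝ) ^ ν) ^ k := lt_of_mul_lt_mul_left (hx.trans_le hz) ha.le
  have h2 : (x : ℝ) < 2 ^ ν := lt_of_pow_lt_pow_left₀ k (by positivity) h1
  rw [mem_range]
  exact_mod_cast h2

theorem pasy (h1 : S_PCIRC) (h2 : S_PWIN) (h3 : S_PLAT) (h4 : S_PPNT) : S_PASY := by
  classical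
  intro s k α D hk hks hα hG ε hε
  obtain ⟨ν0, hν0⟩ := hG
  have hs1 : 1 ≤ s := by omega
  obtain ⟨c0, hc0, hc0'⟩ : ∃ c0 : ℝ, 0 < c0 ∧ ∀ i, c0 ≤ α i := by
    haveI : Nonempty (Fin s) := ⟨⟨0, hs1⟩⟩
    obtain ⟨i0, hi0⟩ := Finite.exists_min α
    exact ⟨α i0, hα i0, hi0⟩
  obtain ⟨ν, K1, hK1, hν1, hν2, hν3⟩ := seqs k hk c0 hc0
  have hkR : (1 : ℝ) ≤ k := by exact_mod_cast hk
  have hk0 : (0 : ℝ) < k := by linarith
  have hsk : (k : ℝ) < s := by exact_mod_cast hks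
  obtain ⟨D', hD'⟩ : ∃ D' : ℕ, D' = 2 * D + s + 2 := ⟨_, rfl⟩
  obtain ⟨C, hC, hCF⟩ := h3 s k α (D' + 1) hs1 hk hα
  obtain ⟨θ, hθ⟩ : ∃ θ : ℝ, θ = (s : ℝ) / k := ⟨_, rfl⟩
  obtain ⟨κ, hκ⟩ : ∃ κ : ℝ, κ = θ - 1 := ⟨_, rfl⟩
  obtain ⟨V, hVd⟩ : ∃ V : ℝ, V = Real.Gamma (1 + 1 / (k : ℝ)) ^ s / Real.Gamma (1 + (s : ℝ) / k) *
    (∏ i, α i ^ (-(1 / (k : ℝ)))) := ⟨_, rfl⟩
  have hθ1 : 1 < θ := by
    rw [hθ, lt_div_iff₀ hk0]
    linarith
  have hθ0 : 0 < θ := by linarith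
  have hκ0 : 0 < κ := by rw [hκ]; linarith
  have hVθ : Real.Gamma (1 + 1 / (k : ℝ)) ^ s / Real.Gamma ((s : ℝ) / k) *
      ∏ i, α i ^ (-(1 / (k : ℝ))) = V * θ := by
    rw [hVd, ← hθ, add_comm (1 : ℝ) θ, Real.Gamma_add_one hθ0.ne']
    have := Real.Gamma_pos_of_pos hθ0
    field_simp
  rw [hVθ, ← hθ, ← hκ]
  rw [← hθ] at hVd hCF
  rw [← hVd] at hCF
  have hV : 0 < V := by
    rw [hVd]
    have g1 := Real.Gamma_pos_of_pos (show 0 < 1 + 1 / (k : ℝ) by positivity)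
    have g2 := Real.Gamma_pos_of_pos (show 0 < 1 + θ by positivity)
    have g3 : 0 < ∏ i, α i ^ (-(1 / (k : ℝ))) := Finset.prod_pos fun i _ => Real.rpow_pos_of_pos (hα i) _
    positivity
  obtain ⟨M, hMd⟩ : ∃ M : ℕ → ℝ, M = fun n => (2 : ℝ) ^ ((ν n : ℝ) * k) := ⟨_, rfl⟩
  have hMn : ∀ n, (2 : ℝ) ^ ((ν n : ℝ) * k) = M n := fun n => by rw [hMd]
  simp only [hMn] at hν1 hν2
  have hM1 : ∀ n, 1 ≤ M n := fun n => by
    rw [hMd]
    exact Real.one_le_rpow one_le_two (by positivity)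
  have hM0 : ∀ n, 0 < M n := fun n => lt_of_lt_of_le one_pos (hM1 n)
  have hMpow : ∀ n, M n = ((2 : ℝ) ^ (ν n)) ^ k := fun n => by
    rw [← hMn, Real.rpow_mul (by norm_num), Real.rpow_natCast, Real.rpow_natCast]
  have hM2 : ∀ n, (2 : ℝ) ^ (ν n) ≤ M n := fun n => by
    rw [hMpow]
    exact le_self_pow₀ (one_le_pow₀ one_le_two) (by omega)
  obtain ⟨L, hLd⟩ : ∃ L : ℕ → ℝ, L = fun n => (ν n : ℝ) + 1 := ⟨_, rfl⟩
  have hLn : ∀ n, (ν n : ℝ) + 1 = L n := fun n => by rw [hLd]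
  have hL1 : ∀ n, 1 ≤ L n := fun n => by
    rw [← hLn]
    have : (0 : ℝ) ≤ ν n := Nat.cast_nonneg _
    linarith
  have hL0 : ∀ n, 0 < L n := fun n => lt_of_lt_of_le one_pos (hL1 n)
  have tL : Tendsto (fun n => (L n)⁻¹) atTop (nhds 0) := by
    have : Tendsto L atTop atTop := by
      rw [hLd]
      exact tendsto_atTop_add_const_right _ _ (tendsto_natCast_atTop_atTop.comp hν3)
    exact this.inv_tendsto_atTop
  obtain ⟨W, hWd⟩ : ∃ W : ℕ → ℕ, W = fun n => ⌈M n / L n ^ D'⌉₊ := ⟨_, rfl⟩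
  have hW1 : ∀ n, M n / L n ^ D' ≤ W n := fun n => by
    rw [hWd]
    exact Nat.le_ceil _
  have hWp : ∀ n, (0 : ℝ) < W n := fun n => by
    have := hM0 n
    have := hL0 n
    exact lt_of_lt_of_le (by positivity) (hW1 n)
  have hWnat : ∀ n, 1 ≤ W n := fun n => by
    have := hWp n
    exact_mod_cast this
  have hpe : ∀ d : ℕ, ∀ᶠ n : ℕ in atTop, L n ^ d ≤ 2 ^ (ν n) := fun d => by
    have := hν3.eventually (polyexp d)
    filter_upwards [this] with n hn
    rw [← hLn]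
    exact hn
  have eW2 : ∀ᶠ n : ℕ in atTop, (W n : ℝ) ≤ 2 * (M n / L n ^ D') := by
    filter_upwards [hpe D'] with n hn
    have h5 : 1 ≤ M n / L n ^ D' := by
      have := hL0 n
      rw [one_le_div (by positivity)]
      exact hn.trans (hM2 n)
    have h6 := (Nat.ceil_lt_add_one (zero_le_one.trans h5)).le
    rw [hWd]
    linarith
  have eWn : ∀ᶠ n : ℕ in atTop, (W n : ℝ) / n ≤ 2 * K1 * (L n)⁻¹ := by
    filter_upwards [eW2, hν2, eventually_gt_atTop 0] with n hn e hn0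
    have hn0' : (0 : ℝ) < n := by exact_mod_cast hn0
    have hL := hL0 n
    have h5 : L n ≤ L n ^ D' := le_self_pow₀ (hL1 n) (by omega)
    rw [div_le_iff₀ hn0']
    have h6 : M n / L n ^ D' ≤ K1 * n / L n := div_le_div₀ (by positivity) e hL h5
    calc (W n : ℝ) ≤ 2 * (K1 * n / L n) := by linarith
      _ = _ := by field_simp
  have t1 : Tendsto (fun n : ℕ => (W n : ℝ) / n) atTop (nhds 0) := by
    refine squeeze_zero' (Eventually.of_forall fun n => by positivity) eWn ?_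
    have := tL.const_mul (2 * K1)
    rwa [mul_zero] at this
  have t2 : Tendsto (fun n : ℕ => ((W n : ℝ))⁻¹) atTop (nhds 0) := by
    refine squeeze_zero' (Eventually.of_forall fun n => by positivity) ?_ tL
    filter_upwards [hpe (D' + 1)] with n hn
    have hL := hL0 n
    have h5 : L n ≤ W n := by
      refine le_trans ?_ (hW1 n)
      rw [le_div_iff₀ (by positivity)]
      calc L n * L n ^ D' = L n ^ (D' + 1) := by ring
        _ ≤ M n := hn.trans (hM2 n)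
    exact inv_anti₀ hL h5
  have eW : ∀ᶠ n : ℕ in atTop, (W n : ℝ) ≤ n := by
    have h3 := t1.eventually (gt_mem_nhds (zero_lt_one (α := ℝ)))
    filter_upwards [h3, eventually_gt_atTop 0] with n hn hn0
    have hn0' : (0 : ℝ) < n := by exact_mod_cast hn0
    rw [div_lt_one hn0'] at hn
    exact hn.le
  have eLog : ∀ᶠ n : ℕ in atTop, L n ≤ 4 * Real.log n := by
    obtain ⟨N1, hN1⟩ := exists_nat_gt K1
    filter_upwards [hν2, eventually_ge_atTop (N1 + 3)] with n e hn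
    have hnR : (N1 : ℝ) + 3 ≤ n := by exact_mod_cast hn
    have hN0 : (0 : ℝ) ≤ N1 := Nat.cast_nonneg _
    have hn0 : (0 : ℝ) < n := by linarith
    have h5 : (2 : ℝ) ^ (ν n) ≤ (n : ℝ) ^ 2 := by
      calc (2 : ℝ) ^ (ν n) ≤ K1 * n := (hM2 n).trans e
        _ ≤ n * n := mul_le_mul_of_nonneg_right (by linarith) hn0.le
        _ = _ := by ring
    have h6 := Real.log_le_log (by positivity) h5
    rw [Real.log_pow, Real.log_pow] at h6
    push_cast at h6
    have h7 := Real.log_two_gt_d9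
    have h8 : 1 ≤ Real.log n := by
      rw [Real.le_log_iff_exp_le hn0]
      have := Real.exp_one_lt_d9
      linarith
    rw [← hLn]
    have h9 : (0 : ℝ) ≤ ν n := Nat.cast_nonneg _
    nlinarith
  have hMt : Tendsto M atTop atTop := tend_M hc0 hν1
  obtain ⟨K2, hK2⟩ : ∃ K2 : ℝ, K2 = 2 ^ θ * 2 ^ (D' + 1) * (c0 / 4) * 4 ^ D' := ⟨_, rfl⟩
  have t3 : Tendsto (fun n : ℕ => K2 / Real.log n) atTop (nhds 0) := by
    have h5 : Tendsto (fun n : ℕ => (Real.log (n : ℝ))⁻¹) atTop (nhds 0) :=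
      (Real.tendsto_log_atTop.comp tendsto_natCast_atTop_atTop).inv_tendsto_atTop
    have := h5.const_mul K2
    rwa [mul_zero] at this
  obtain ⟨tU, tLo⟩ := tend_U (W := fun n => (W n : ℝ)) (κ := κ) (Vθ := V * θ) (C := C) t1 t2 t3
  have t4 : Tendsto (fun n => K1 ^ κ * (36 * (L n)⁻¹)) atTop (nhds 0) := by
    have := (tL.const_mul (36 : ℝ)).const_mul (K1 ^ κ)
    simpa using this
  have t5 : Tendsto (fun n => M n ^ (1 / (4 * (k : ℝ)))) atTop atTop :=
    (tendsto_rpow_atTop (by positivity)).comp hMt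
  have eU := (tU.sub_const (V * θ)).abs.eventually (gt_mem_nhds (show |V * θ - V * θ| < ε / 2 by
    rw [sub_self, abs_zero]; positivity))
  have eL := (tLo.sub_const (V * θ)).abs.eventually (gt_mem_nhds (show |V * θ - V * θ| < ε / 2 by
    rw [sub_self, abs_zero]; positivity))
  have eE := t4.eventually (gt_mem_nhds (show (0 : ℝ) < ε / 2 by positivity))
  have hev : ∀ᶠ n : ℕ in atTop, ∀ ν' : ℕ, (∀ i, (n : ℝ) + 1 ≤ α i * ((2 : ℝ) ^ ν') ^ k) →
      |RW (fun _ => range (2 ^ ν')) lam (fun i => nk k (α i)) n - V * θ * (n : ℝ) ^ κ| ≤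
        ε * (n : ℝ) ^ κ := by
    filter_upwards [hν2, eW, hν3.eventually_ge_atTop ν0, eventually_ge_atTop 3,
      t5.eventually_ge_atTop (c0 / 2), eU, eL, eE, eW2, hpe (2 * D), eLog] with n e1 e2 e3 e4 e5 e6 e7 e8 e9 e10 e11 ν' hν'
    have hn3 : (3 : ℝ) ≤ n := by exact_mod_cast e4
    have hn0 : (0 : ℝ) < n := by linarith
    have hWn0 := hWp n
    have hL := hL0 n
    have hlogn : 0 < Real.log n := Real.log_pos (by linarith)
    obtain ⟨f, hf⟩ : ∃ f : Fin s → ℕ → ℝ, f = fun i => nk k (α i) := ⟨_, rfl⟩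
    have hf0 : ∀ i x, 0 ≤ f i x := by
      intro i x
      rw [hf]
      exact mul_nonneg (hα i).le (by positivity)
    obtain ⟨P, hP⟩ : ∃ P : Fin s → Finset ℕ, P = fun _ => range (2 ^ (ν n)) := ⟨_, rfl⟩
    have hPm : ∀ (i : Fin s) (y : ℝ), y ≤ 2 * n → y ≤ α i * ((2 : ℝ) ^ (ν n)) ^ k := by
      intro i y hy
      rw [← hMpow]
      have h5 := hν1 n
      have h6 := mul_le_mul_of_nonneg_right (hc0' i) (hM0 n).le
      linarith
    have hRG : RW (fun _ => range (2 ^ ν')) lam (fun i => nk k (α i)) n = RW P lam f n := by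
      rw [hf, hP]
      refine RW_congr lam (fun i => nk k (α i)) (fun i x => mul_nonneg (hα i).le (by positivity)) n _ _
        (fun i x hx => ?_) fun i x hx => ?_
      · rw [Int.cast_natCast] at hx
        exact lt_pow_range (hα i) (hν' i) hx
      · rw [Int.cast_natCast] at hx
        exact lt_pow_range (hα i) (hPm i _ (by linarith)) hx
    obtain ⟨g1, g2⟩ := hν0 (ν n) e3
    rw [hLn] at g1
    simp only [hLn] at g2
    have p1 : (2 : ℝ) ^ ((ν n : ℝ) * ((s : ℝ) - k)) = M n ^ κ := by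
      rw [two_pow _ k hk, hMn, hκ, hθ]
      congr 1
      field_simp
    have p2 : (2 : ℝ) ^ ((ν n : ℝ) * ((k : ℝ) + 1 / 4)) = M n * M n ^ (1 / (4 * (k : ℝ))) := by
      rw [two_pow _ k hk, hMn]
      conv_rhs => rw [← Real.rpow_one (M n), ← Real.rpow_mul (hM0 n).le, ← Real.rpow_add (hM0 n)]
      congr 1
      field_simp
    have p3 : (2 : ℝ) ^ (-((k : ℝ) * ν n)) = (M n)⁻¹ := by
      rw [Real.rpow_neg (by norm_num), mul_comm, hMn]
    rw [p1] at g1
    simp only [p1] at g2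
    have hη : (2 : ℝ) ^ (-((k : ℝ) * ν n)) * L n ^ D ≤ (2 : ℝ) ^ (-((k : ℝ) * ν n / 2)) := by
      obtain ⟨Q, hQ⟩ : ∃ Q : ℝ, Q = (2 : ℝ) ^ ((k : ℝ) * ν n / 2) := ⟨_, rfl⟩
      have hQ0 : 0 < Q := by rw [hQ]; positivity
      have q1 : M n = Q ^ 2 := by
        rw [hQ, ← hMn, ← Real.rpow_natCast, ← Real.rpow_mul (by norm_num)]
        congr 1
        push_cast
        ring
      have q2 : L n ^ D ≤ Q := by
        refine le_of_sq_le_sq ?_ hQ0.le
        calc (L n ^ D) ^ 2 = L n ^ (2 * D) := by rw [← pow_mul, mul_comm]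
          _ ≤ M n := e10.trans (hM2 n)
          _ = Q ^ 2 := q1
      rw [p3, Real.rpow_neg (by norm_num), ← hQ, q1, inv_mul_le_iff₀ (by positivity)]
      calc L n ^ D ≤ Q := q2
        _ = Q ^ 2 * Q⁻¹ := by field_simp
    have c1 := h1 s P lam f n (W n) ((2 : ℝ) ^ (-((k : ℝ) * ν n)) * L n ^ D)
      ((2 : ℝ) ^ (-((k : ℝ) * ν n / 2))) (M n ^ κ / L n) lam_nonneg (hWnat n)
      (by positivity) hη (by
        intro h hh
        rw [hP, hf]
        refine g2 _ ?_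
        have h3 : (h : ℝ) ≤ W n := by exact_mod_cast hh.le
        have h4 : (0 : ℝ) ≤ h := Nat.cast_nonneg _
        push_cast
        rw [abs_of_nonneg (by positivity), p2]
        have h5 := hν1 n
        have h6 := mul_le_mul_of_nonneg_left e5 (hM0 n).le
        nlinarith)
    obtain ⟨c3, c4⟩ := h2 s P lam f n (W n) (hWnat n) lam_nonneg
    obtain ⟨Sm, hSm⟩ : ∃ Sm : ℝ, Sm = ∑ h ∈ range (W n), RW P lam f (n + h) := ⟨_, rfl⟩
    rw [← hSm] at c1 c3 c4
    rw [hRG]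
    obtain ⟨Er, hEr⟩ : ∃ Er : ℝ, Er = 16 * (W n : ℝ) * ((2 : ℝ) ^ (-((k : ℝ) * ν n)) * L n ^ D) ^ 2 *
      (∏ i : Fin s, ∑ x ∈ P i, lam x) +
      2 * (∫ t in Arc ((2 : ℝ) ^ (-((k : ℝ) * ν n)) * L n ^ D) ((2 : ℝ) ^ (-((k : ℝ) * ν n / 2))),
        ∏ i, ‖SW (P i) lam (f i) t‖) + 2 * (M n ^ κ / L n) := ⟨_, rfl⟩
    have c1' : |RW P lam f n - Sm / W n| ≤ Er := by
      rw [hEr]
      exact c1
    have hMκ : M n ^ κ ≤ K1 ^ κ * (n : ℝ) ^ κ := by
      rw [← Real.mul_rpow hK1.le hn0.le]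
      exact Real.rpow_le_rpow (hM0 n).le e1 hκ0.le
    have hMκ0 : 0 < M n ^ κ := Real.rpow_pos_of_pos (hM0 n) κ
    have hErb : Er ≤ ε / 2 * (n : ℝ) ^ κ := by
      have q1 : (∏ i : Fin s, ∑ x ∈ P i, lam x) ≤ M n ^ θ * L n ^ s := by
        rw [hP, Finset.prod_const, Finset.card_univ, Fintype.card_fin]
        have h3 : (∑ x ∈ range (2 ^ (ν n)), lam x) ^ s ≤ (2 ^ (ν n) * L n) ^ s := by
          refine pow_le_pow_left₀ (sum_nonneg fun x _ => lam_nonneg x) ?_ s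
          rw [← hLn]
          exact sum_lam _
        have h4 : ((2 : ℝ) ^ (ν n) * L n) ^ s = M n ^ θ * L n ^ s := by
          rw [mul_pow]
          congr 1
          rw [hθ, ← hMn, ← two_pow _ k hk, ← Real.rpow_natCast, ← Real.rpow_natCast,
            ← Real.rpow_mul (by norm_num)]
        rw [← h4]
        exact h3
      have q2 : 16 * (W n : ℝ) * ((2 : ℝ) ^ (-((k : ℝ) * ν n)) * L n ^ D) ^ 2 *
          (∏ i : Fin s, ∑ x ∈ P i, lam x) ≤ 32 * (M n ^ κ * (L n)⁻¹) := by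
        rw [p3]
        have hMθ : M n ^ θ = M n ^ κ * M n := by
          rw [hκ, Real.rpow_sub_one (hM0 n).ne']
          have := hM0 n
          field_simp
        have h4 : 0 ≤ ((M n)⁻¹ * L n ^ D) ^ 2 := sq_nonneg _
        have hM := hM0 n
        calc 16 * (W n : ℝ) * ((M n)⁻¹ * L n ^ D) ^ 2 * (∏ i : Fin s, ∑ x ∈ P i, lam x)
            ≤ 16 * (2 * (M n / L n ^ D')) * ((M n)⁻¹ * L n ^ D) ^ 2 * (M n ^ θ * L n ^ s) := by
              refine mul_le_mul ?_ q1 ?_ (by positivity)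
              · refine mul_le_mul_of_nonneg_right ?_ h4
                linarith [e9]
              · exact Finset.prod_nonneg fun i _ => sum_nonneg fun x _ => lam_nonneg x
          _ = 32 * (M n ^ κ * ((L n ^ 2)⁻¹)) := by
              rw [hMθ, hD']
              have e : L n ^ (2 * D + s + 2) = (L n ^ D) ^ 2 * L n ^ s * L n ^ 2 := by
                rw [← pow_mul, ← pow_add, ← pow_add]
                congr 1
                ring
              rw [e]
              field_simp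
              ring
          _ ≤ 32 * (M n ^ κ * (L n)⁻¹) := by
              have h5 : L n ≤ L n ^ 2 := le_self_pow₀ (hL1 n) (by norm_num)
              have h6 : (L n ^ 2)⁻¹ ≤ (L n)⁻¹ := inv_anti₀ hL h5
              have h7 := mul_le_mul_of_nonneg_left h6 hMκ0.le
              linarith
      have q3 : (∫ t in Arc ((2 : ℝ) ^ (-((k : ℝ) * ν n)) * L n ^ D) ((2 : ℝ) ^ (-((k : ℝ) * ν n / 2))),
        ∏ i, ‖SW (P i) lam (f i) t‖) ≤ M n ^ κ * (L n)⁻¹ := by
        rw [hP, hf, ← div_eq_mul_inv (M n ^ κ) (L n)]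
        exact g1
      have q4 : Er ≤ M n ^ κ * (36 * (L n)⁻¹) := by
        rw [hEr, div_eq_mul_inv (M n ^ κ) (L n)]
        linarith
      refine q4.trans ?_
      have q5 : 0 ≤ 36 * (L n)⁻¹ := by positivity
      calc M n ^ κ * (36 * (L n)⁻¹)
          ≤ (K1 ^ κ * (n : ℝ) ^ κ) * (36 * (L n)⁻¹) := mul_le_mul_of_nonneg_right hMκ q5
        _ = (K1 ^ κ * (36 * (L n)⁻¹)) * (n : ℝ) ^ κ := by ring
        _ ≤ ε / 2 * (n : ℝ) ^ κ :=
            mul_le_mul_of_nonneg_right e8.le (Real.rpow_nonneg hn0.le _)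
    -- the average
    have hnW : (0 : ℝ) < (n : ℝ) + W n := by positivity
    obtain ⟨Z, hZ⟩ : ∃ Z : ℝ, Z = 2 ^ θ * (n : ℝ) ^ θ * 2 ^ (D' + 1) / Real.log n ^ (D' + 1) := ⟨_, rfl⟩
    have hWge : (1 : ℝ) ≤ W n := by exact_mod_cast hWnat n
    have hb : ∀ y : ℝ, (n : ℝ) - 1 ≤ y → y ≤ 2 * n → |CW P lam f y - V * y ^ θ| ≤ C * Z := by
      intro y hy1 hy2
      rw [hP, hf, hZ]
      exact (hCF (ν n) y (by linarith) (fun i => hPm i y hy2)).trans (zb hC.le hθ0.le hn3 hy1 hy2)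
    have b1 := abs_le.1 (hb ((n : ℝ) + W n) (by linarith) (by linarith))
    have b2 := abs_le.1 (hb ((n : ℝ) - 1) (by linarith) (by linarith))
    have b3 := abs_le.1 (hb ((n : ℝ) + W n - 1) (by linarith) (by linarith))
    have b4 := abs_le.1 (hb (n : ℝ) (by linarith) (by linarith))
    have k1 := tangent hnW (show (0 : ℝ) ≤ (n : ℝ) - 1 by linarith) hθ1.le
    have k2 := tangent hn0 (show (0 : ℝ) ≤ (n : ℝ) + W n - 1 by linarith) hθ1.le
    rw [← hκ] at k1 k2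
    have k1' := mul_le_mul_of_nonneg_left k1 hV.le
    have k2' := mul_le_mul_of_nonneg_left k2 hV.le
    have u1 : Sm ≤ V * θ * ((n : ℝ) + W n) ^ κ * (W n + 1) + 2 * C * Z :=
      win_up c4 b1.2 b2.1 le_rfl k1'
    have u2 : V * θ * (n : ℝ) ^ κ * (W n - 1) - 2 * C * Z ≤ Sm :=
      win_lo c3 b3.1 b4.2 le_rfl le_rfl k2'
    have nκ : 0 < (n : ℝ) ^ κ := Real.rpow_pos_of_pos hn0 κ
    have hZb : Z ≤ K2 / Real.log n * (W n * (n : ℝ) ^ κ) := by
      have z1 : (n : ℝ) ^ θ = (n : ℝ) ^ κ * n := by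
        rw [hκ, Real.rpow_sub_one hn0.ne']
        field_simp
      have z2 : (n : ℝ) ≤ c0 / 4 * (W n * (4 ^ D' * Real.log n ^ D')) := by
        have h5 := hν1 n
        have h6 : M n ≤ W n * L n ^ D' := by
          have := hW1 n
          rwa [div_le_iff₀ (by positivity)] at this
        have h7 : L n ^ D' ≤ 4 ^ D' * Real.log n ^ D' := by
          rw [← mul_pow]
          exact pow_le_pow_left₀ hL.le e11 D'
        have h8 := mul_le_mul_of_nonneg_left h7 hWn0.le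
        have h9 := mul_le_mul_of_nonneg_left (h6.trans h8) (show 0 ≤ c0 / 4 by positivity)
        linarith
      rw [hZ, hK2, z1]
      have z3 := mul_le_mul_of_nonneg_left z2
        (show 0 ≤ 2 ^ θ * (n : ℝ) ^ κ * 2 ^ (D' + 1) / Real.log n ^ (D' + 1) by positivity)
      calc 2 ^ θ * ((n : ℝ) ^ κ * n) * 2 ^ (D' + 1) / Real.log n ^ (D' + 1)
          = 2 ^ θ * (n : ℝ) ^ κ * 2 ^ (D' + 1) / Real.log n ^ (D' + 1) * n := by ring
        _ ≤ 2 ^ θ * (n : ℝ) ^ κ * 2 ^ (D' + 1) / Real.log n ^ (D' + 1) *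
            (c0 / 4 * (W n * (4 ^ D' * Real.log n ^ D'))) := z3
        _ = _ := by
            rw [pow_succ (Real.log n)]
            field_simp
    have v0 : ((n : ℝ) + W n) ^ κ = (n : ℝ) ^ κ * (1 + (W n : ℝ) / n) ^ κ := by
      rw [← Real.mul_rpow hn0.le (by positivity)]
      congr 1
      field_simp
    have hZC := mul_le_mul_of_nonneg_left hZb (show 0 ≤ 2 * C by positivity)
    have v1 : Sm / W n ≤ (V * θ * (1 + (W n : ℝ) / n) ^ κ * (1 + ((W n : ℝ))⁻¹) +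
        2 * C * (K2 / Real.log n)) * (n : ℝ) ^ κ := by
      rw [div_le_iff₀ hWn0]
      refine u1.trans ?_
      rw [v0]
      have e : (V * θ * (1 + (W n : ℝ) / n) ^ κ * (1 + ((W n : ℝ))⁻¹) +
        2 * C * (K2 / Real.log n)) * (n : ℝ) ^ κ * W n =
        V * θ * ((n : ℝ) ^ κ * (1 + (W n : ℝ) / n) ^ κ) * (W n + 1) +
          2 * C * (K2 / Real.log n * (W n * (n : ℝ) ^ κ)) := by
        field_simp
      rw [e]
      linarith
    have v2 : (V * θ * (1 - ((W n : ℝ))⁻¹) -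
        2 * C * (K2 / Real.log n)) * (n : ℝ) ^ κ ≤ Sm / W n := by
      rw [le_div_iff₀ hWn0]
      refine le_trans ?_ u2
      have e : (V * θ * (1 - ((W n : ℝ))⁻¹) -
        2 * C * (K2 / Real.log n)) * (n : ℝ) ^ κ * W n =
        V * θ * (n : ℝ) ^ κ * (W n - 1) - 2 * C * (K2 / Real.log n * (W n * (n : ℝ) ^ κ)) := by
        field_simp
      rw [e]
      linarith
    have w1 := (abs_lt.1 e6).2
    have w2 := (abs_lt.1 e7).1
    have w1' := mul_le_mul_of_nonneg_right w1.le nκ.le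
    have w2' := mul_le_mul_of_nonneg_right w2.le nκ.le
    have z1 := abs_le.1 c1'
    rw [abs_le]
    exact ⟨fin_lo z1.1 v2 w2' hErb, fin_up z1.2 v1 w1' hErb⟩
  obtain ⟨n0, hn0⟩ := eventually_atTop.1 hev
  exact ⟨n0, fun n ν' hn hν' => hn0 n hn ν' hν'⟩

end Pool.Agent.N903.AP
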