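import Mathlib

set_option autoImplicit false

/-!
Counting fractional parts of a sequence which is, block by block, close to a rotation.
-/

namespace Pool.Agent.N903.BF

open Finset

theorem card_le_of_icc {ι : Type*} (F : Finset ι) (g : ι → ℤ) (hg : Set.InjOn g F) (A B : ℝ)
    (h : ∀ i ∈ F, A ≤ (g i : ℝ) ∧ (g i : ℝ) ≤ B) (hAB : A ≤ B) : (F.card : ℝ) ≤ B - A + 1 := by
  have hcard : F.card ≤ (Finset.Icc ⌈A⌉ ⌊B⌋).card := by
    apply card_le_card_of_injOn g _ hg
    intro i hi
    have h1 := h i hi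
    rw [Finset.mem_coe, Finset.mem_Icc, Int.ceil_le, Int.le_floor]
    exact h1
  rw [Int.card_Icc] at hcard
  have h5 : (((⌊B⌋ + 1 - ⌈A⌉).toNat : ℕ) : ℝ) ≤ B - A + 1 := by
    rcases le_or_gt 0 (⌊B⌋ + 1 - ⌈A⌉) with h6 | h6
    · have h7 : (((⌊B⌋ + 1 - ⌈A⌉).toNat : ℤ) : ℝ) = ((⌊B⌋ + 1 - ⌈A⌉ : ℤ) : ℝ) := by
        rw [Int.toNat_of_nonneg h6]
      have h8 : (((⌊B⌋ + 1 - ⌈A⌉).toNat : ℕ) : ℝ) = ((⌊B⌋ + 1 - ⌈A⌉ : ℤ) : ℝ) := by
        rw [← h7]; norm_cast
      rw [h8]; push_cast
      have h9 := Int.floor_le B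
      have h10 := Int.le_ceil A
      linarith
    · rw [Int.toNat_of_nonpos h6.le]
      norm_num; linarith
  have h11 : (F.card : ℝ) ≤ (((⌊B⌋ + 1 - ⌈A⌉).toNat : ℕ) : ℝ) := by exact_mod_cast hcard
  linarith

/-- one block: phases near an arithmetic progression with difference `h / q` -/
theorem block_upper (q : ℕ) (h : ℤ) (hq : 0 < q) (hcop : IsCoprime h (q : ℤ)) {ι : Type*}
    (F : Finset ι) (t : ι → ℕ) (ht : Set.InjOn t F) (htq : ∀ i ∈ F, t i < q) (v : ι → ℝ)
    (α δ : ℝ) (hδ : 0 ≤ δ)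
    (hv : ∀ i ∈ F, ∃ z : ℤ, |v i - α - t i * ((h : ℝ) / q) - z| ≤ δ / q)
    (a b : ℝ) (hab : a ≤ b) (hF : ∀ i ∈ F, a ≤ Int.fract (v i) ∧ Int.fract (v i) < b) :
    (F.card : ℝ) ≤ q * (b - a) + 2 * δ + 1 := by
  have hqr : (0 : ℝ) < q := by exact_mod_cast hq
  choose! z hz using hv
  have key := card_le_of_icc F (fun i => (t i : ℤ) * h + q * (z i - ⌊v i⌋)) (by
    intro i hi j hj hij
    have h1 : (q : ℤ) ∣ ((t i : ℤ) - t j) * h := by
      refine ⟨(z j - ⌊v j⌋) - (z i - ⌊v i⌋), ?_⟩
      simp only at hij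
      linear_combination hij
    have h2 : (q : ℤ) ∣ (t i : ℤ) - t j := hcop.symm.dvd_of_dvd_mul_right h1
    have h3 := htq i hi
    have h4 := htq j hj
    apply ht hi hj
    obtain ⟨c, hc⟩ := h2
    have hq' : (0 : ℤ) < q := by exact_mod_cast hq
    have hc0 : c = 0 := by
      rcases lt_trichotomy c 0 with hc1 | hc1 | hc1
      · have : (q : ℤ) * c ≤ -q := by nlinarith
        omega
      · exact hc1
      · have : (q : ℤ) ≤ q * c := by nlinarith
        omega
    rw [hc0, mul_zero] at hc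
    omega) (q * a - q * α - δ) (q * b - q * α + δ) (by
    intro i hi
    have h1 := hz i hi
    have h2 := hF i hi
    have e : (((t i : ℤ) * h + q * (z i - ⌊v i⌋) : ℤ) : ℝ) =
        q * Int.fract (v i) - q * α - q * (v i - α - t i * ((h : ℝ) / q) - z i) := by
      rw [← Int.self_sub_floor]
      push_cast
      field_simp
      ring
    have h3 : |(q : ℝ) * (v i - α - t i * ((h : ℝ) / q) - z i)| ≤ δ := by
      rw [abs_mul, abs_of_pos hqr]
      calc (q : ℝ) * |v i - α - t i * ((h : ℝ) / q) - z i| ≤ q * (δ / q) :=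
            mul_le_mul_of_nonneg_left h1 hqr.le
        _ = δ := by field_simp
    rw [e]
    rw [abs_le] at h3
    have h4 := mul_le_mul_of_nonneg_left h2.1 hqr.le
    have h5 := mul_le_mul_of_nonneg_left h2.2.le hqr.le
    constructor <;> linarith [h3.1, h3.2]) (by nlinarith)
  linarith

/-- upper bound over many blocks -/
theorem count_upper (q : ℕ) (h : ℤ) (hq : 0 < q) (hcop : IsCoprime h (q : ℤ)) (θ : ℝ)
    (hθ : |(q : ℝ) * θ - h| ≤ 1 / q) {ι : Type*} (F : Finset ι) (t : ι → ℕ)
    (ht : Set.InjOn t F) (N : ℕ) (htN : ∀ i ∈ F, t i < N) (v : ι → ℝ) (bad : Finset ℕ)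
    (hv : ∀ i ∈ F, ∀ j ∈ F, t i / q = t j / q → t i / q ∉ bad → t i ≤ t j →
      ∃ z : ℤ, |v j - v i - ((t j : ℝ) - t i) * θ - z| ≤ 1 / q)
    (a b : ℝ) (hab : a ≤ b) (hF : ∀ i ∈ F, a ≤ Int.fract (v i) ∧ Int.fract (v i) < b) :
    (F.card : ℝ) ≤ ((N : ℝ) / q + 1) * (q * (b - a) + 5) + q * bad.card := by
  classical
  have hqr : (0 : ℝ) < q := by exact_mod_cast hq
  have hmaps : ∀ i ∈ F, t i / q ∈ range (N / q + 1) := by
    intro i hi
    rw [mem_range]
    exact Nat.lt_succ_of_le (Nat.div_le_div_right (htN i hi).le)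
  have hc : F.card = ∑ β ∈ range (N / q + 1), (F.filter fun i => t i / q = β).card :=
    card_eq_sum_card_fiberwise hmaps
  have hab0 : 0 ≤ b - a := by linarith
  have htmod : ∀ β : ℕ, Set.InjOn (fun i => t i % q) (F.filter fun i => t i / q = β) := by
    intro β i hi j hj hij
    rw [mem_coe, mem_filter] at hi hj
    apply ht hi.1 hj.1
    have h1 := Nat.div_add_mod (t i) q
    have h2 := Nat.div_add_mod (t j) q
    rw [hi.2] at h1
    rw [hj.2] at h2
    simp only at hij
    rw [hij] at h1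
    omega
  have hb : ∀ β ∈ range (N / q + 1), (((F.filter fun i => t i / q = β).card : ℕ) : ℝ) ≤
      (q * (b - a) + 5) + (if β ∈ bad then (q : ℝ) else 0) := by
    intro β _
    by_cases hβ : β ∈ bad
    · rw [if_pos hβ]
      have h1 : (F.filter fun i => t i / q = β).card ≤ (range q).card := by
        apply card_le_card_of_injOn (fun i => t i % q) _ (htmod β)
        intro i _
        simp only [coe_range, Set.mem_Iio]
        exact Nat.mod_lt _ hq
      rw [card_range] at h1
      have h2 : ((F.filter fun i => t i / q = β).card : ℝ) ≤ q := by exact_mod_cast h1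
      have h3 : 0 ≤ (q : ℝ) * (b - a) := by positivity
      linarith
    · rw [if_neg hβ, add_zero]
      rcases (F.filter fun i => t i / q = β).eq_empty_or_nonempty with h0 | ⟨i0, hi0⟩
      · rw [h0]; simp; positivity
      rw [mem_filter] at hi0
      have hkey := block_upper q h hq hcop (F.filter fun i => t i / q = β) (fun i => t i % q)
        (htmod β) (fun i _ => Nat.mod_lt _ hq) v (v i0 - ((t i0 % q : ℕ) : ℝ) * ((h : ℝ) / q)) 2
        (by norm_num) (by
        intro i hi
        rw [mem_filter] at hi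
        -- the difference in time
        have hti : (t i : ℝ) - t i0 = ((t i % q : ℕ) : ℝ) - ((t i0 % q : ℕ) : ℝ) := by
          have h1 := Nat.div_add_mod (t i) q
          have h2 := Nat.div_add_mod (t i0) q
          rw [hi.2] at h1
          rw [hi0.2] at h2
          have h1' : (q : ℝ) * β + ((t i % q : ℕ) : ℝ) = t i := by exact_mod_cast h1
          have h2' : (q : ℝ) * β + ((t i0 % q : ℕ) : ℝ) = t i0 := by exact_mod_cast h2
          linarith
        have hdiff : |((t i : ℝ) - t i0) * (θ - (h : ℝ) / q)| ≤ 1 / q := by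
          have h1 : |(t i : ℝ) - t i0| ≤ q := by
            rw [hti, abs_le]
            have h1 : ((t i % q : ℕ) : ℝ) < q := by exact_mod_cast Nat.mod_lt _ hq
            have h2 : ((t i0 % q : ℕ) : ℝ) < q := by exact_mod_cast Nat.mod_lt _ hq
            have h3 : (0 : ℝ) ≤ ((t i % q : ℕ) : ℝ) := Nat.cast_nonneg _
            have h4 : (0 : ℝ) ≤ ((t i0 % q : ℕ) : ℝ) := Nat.cast_nonneg _
            constructor <;> linarith
          have h2 : |θ - (h : ℝ) / q| ≤ 1 / q / q := by
            have e : θ - (h : ℝ) / q = (q * θ - h) / q := by field_simp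
            rw [e, abs_div, abs_of_pos hqr]
            exact div_le_div_of_nonneg_right hθ hqr.le
          rw [abs_mul]
          calc |(t i : ℝ) - t i0| * |θ - (h : ℝ) / q| ≤ q * (1 / q / q) :=
                mul_le_mul h1 h2 (abs_nonneg _) hqr.le
            _ = 1 / q := by field_simp
        have hz : ∃ z : ℤ, |v i - v i0 - ((t i : ℝ) - t i0) * θ - z| ≤ 1 / q := by
          rcases le_total (t i0) (t i) with hle | hle
          · exact hv i0 hi0.1 i hi.1 (by rw [hi0.2, hi.2]) (by rw [hi0.2]; exact hβ) hle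
          · obtain ⟨z, hz⟩ := hv i hi.1 i0 hi0.1 (by rw [hi0.2, hi.2]) (by rw [hi.2]; exact hβ) hle
            refine ⟨-z, ?_⟩
            rw [← abs_neg]
            have e : -(v i - v i0 - ((t i : ℝ) - t i0) * θ - ((-z : ℤ) : ℝ)) =
                v i0 - v i - ((t i0 : ℝ) - t i) * θ - z := by push_cast; ring
            rw [e]; exact hz
        obtain ⟨z, hz⟩ := hz
        refine ⟨z, ?_⟩
        have e : v i - (v i0 - ((t i0 % q : ℕ) : ℝ) * ((h : ℝ) / q)) -
            ((t i % q : ℕ) : ℝ) * ((h : ℝ) / q) - z =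
            (v i - v i0 - ((t i : ℝ) - t i0) * θ - z) + ((t i : ℝ) - t i0) * (θ - (h : ℝ) / q) := by
          rw [hti]; ring
        rw [e]
        refine (abs_add_le _ _).trans ?_
        have e2 : (2 : ℝ) / q = 1 / q + 1 / q := by ring
        rw [e2]
        exact add_le_add hz hdiff) a b hab (fun i hi => hF i (mem_filter.1 hi).1)
      linarith
  have h3 : (F.card : ℝ) ≤ ∑ β ∈ range (N / q + 1), ((q * (b - a) + 5) + (if β ∈ bad then (q : ℝ) else 0)) := by
    rw [hc]; push_cast
    exact sum_le_sum hb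
  rw [sum_add_distrib, sum_const, card_range, nsmul_eq_mul, ← sum_filter, sum_const, nsmul_eq_mul] at h3
  have h4 : (((range (N / q + 1)).filter fun β => β ∈ bad).card : ℝ) ≤ bad.card := by
    have : ((range (N / q + 1)).filter fun β => β ∈ bad).card ≤ bad.card := by
      apply card_le_card
      intro β hβ
      exact (mem_filter.1 hβ).2
    exact_mod_cast this
  have h5 : ((N / q : ℕ) : ℝ) ≤ (N : ℝ) / q := Nat.cast_div_le
  have h6 : (((N / q + 1 : ℕ) : ℝ)) * (q * (b - a) + 5) ≤ ((N : ℝ) / q + 1) * (q * (b - a) + 5) := by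
    apply mul_le_mul_of_nonneg_right _ (by positivity)
    push_cast; linarith
  have h7 := mul_le_mul_of_nonneg_right h4 hqr.le
  linarith

/-- two-sided bound -/
theorem count_two (q : ℕ) (h : ℤ) (hq : 0 < q) (hcop : IsCoprime h (q : ℤ)) (θ : ℝ)
    (hθ : |(q : ℝ) * θ - h| ≤ 1 / q) {ι : Type*} (G : Finset ι) (t : ι → ℕ)
    (ht : Set.InjOn t G) (htN : ∀ i ∈ G, t i < G.card) (v : ι → ℝ) (bad : Finset ℕ)
    (hv : ∀ i ∈ G, ∀ j ∈ G, t i / q = t j / q → t i / q ∉ bad → t i ≤ t j →
      ∃ z : ℤ, |v j - v i - ((t j : ℝ) - t i) * θ - z| ≤ 1 / q)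
    (a b : ℝ) (ha : 0 ≤ a) (hab : a ≤ b) (hb : b ≤ 1) :
    |((G.filter fun i => a ≤ Int.fract (v i) ∧ Int.fract (v i) < b).card : ℝ) - (b - a) * G.card| ≤
      2 * (5 * ((G.card : ℝ) / q) + q + 5 + q * bad.card) := by
  classical
  have hqr : (0 : ℝ) < q := by exact_mod_cast hq
  have up : ∀ a b : ℝ, 0 ≤ a → a ≤ b → b ≤ 1 →
      ((G.filter fun i => a ≤ Int.fract (v i) ∧ Int.fract (v i) < b).card : ℝ) ≤
      (b - a) * G.card + (5 * ((G.card : ℝ) / q) + q + 5 + q * bad.card) := by
    intro a b ha hab hb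
    have h1 := count_upper q h hq hcop θ hθ (G.filter fun i => a ≤ Int.fract (v i) ∧ Int.fract (v i) < b)
      t (ht.mono (by intro i hi; exact (mem_filter.1 hi).1)) G.card
      (fun i hi => htN i (mem_filter.1 hi).1) v bad
      (fun i hi j hj => hv i (mem_filter.1 hi).1 j (mem_filter.1 hj).1) a b hab
      (fun i hi => (mem_filter.1 hi).2)
    refine h1.trans ?_
    have e : ((G.card : ℝ) / q + 1) * (q * (b - a) + 5) =
        (b - a) * G.card + 5 * ((G.card : ℝ) / q) + q * (b - a) + 5 := by field_simp; ring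
    rw [e]
    have : (q : ℝ) * (b - a) ≤ q * 1 := mul_le_mul_of_nonneg_left (by linarith) hqr.le
    linarith
  have e3 : (G.card : ℝ) = ((G.filter fun i => 0 ≤ Int.fract (v i) ∧ Int.fract (v i) < a).card : ℝ) +
      ((G.filter fun i => a ≤ Int.fract (v i) ∧ Int.fract (v i) < b).card : ℝ) +
      ((G.filter fun i => b ≤ Int.fract (v i) ∧ Int.fract (v i) < 1).card : ℝ) := by
    have hd : ∀ i ∈ G, (1 : ℝ) = (if 0 ≤ Int.fract (v i) ∧ Int.fract (v i) < a then 1 else 0) +
        (if a ≤ Int.fract (v i) ∧ Int.fract (v i) < b then 1 else 0) +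
        (if b ≤ Int.fract (v i) ∧ Int.fract (v i) < 1 then 1 else 0) := by
      intro i _
      have h0 := Int.fract_nonneg (v i)
      have h1 := Int.fract_lt_one (v i)
      rcases lt_or_ge (Int.fract (v i)) a with h2 | h2
      · rw [if_pos ⟨h0, h2⟩, if_neg (by intro h; linarith [h.1]), if_neg (by intro h; linarith [h.1])]
        norm_num
      · rcases lt_or_ge (Int.fract (v i)) b with h3 | h3
        · rw [if_neg (by intro h; linarith [h.2]), if_pos ⟨h2, h3⟩, if_neg (by intro h; linarith [h.1])]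
          norm_num
        · rw [if_neg (by intro h; linarith [h.2]), if_neg (by intro h; linarith [h.2]), if_pos ⟨h3, h1⟩]
          norm_num
    simp only [card_filter, Nat.cast_sum, Nat.cast_ite, Nat.cast_one, Nat.cast_zero]
    rw [← sum_add_distrib, ← sum_add_distrib, ← sum_congr rfl hd]
    simp
  have u1 := up 0 a le_rfl ha (by linarith)
  have u2 := up a b ha hab hb
  have u3 := up b 1 (by linarith) hb le_rfl
  have hE : 0 ≤ 5 * ((G.card : ℝ) / q) + q + 5 + q * bad.card := by positivity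
  rw [abs_le]
  constructor <;> nlinarith

end Pool.Agent.N903.BF
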