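import Mathlib
import Pool.Agent.N903.Blocks
import Pool.Agent.H319R2.Rigid
import Pool.Agent.H319R2.Bohr

set_option autoImplicit false

/-!
Leading digits along the trajectories of the 3x+1 map.
-/

namespace Pool.Agent.N903.BF

open Finset Pool.Agent.H319R2

/-- good denominators of a number which is not a Liouville number -/
theorem good_den (θ c : ℝ)
    (hm : ∀ (q : ℕ) (h : ℤ), 0 < q → c ≤ (q : ℝ) ^ 13 * |(q : ℝ) * θ - h|) (Q : ℕ) (hQ : 1 ≤ Q) :
    ∃ (q : ℕ) (h : ℤ), 0 < q ∧ q ≤ Q ∧ IsCoprime h (q : ℤ) ∧ |(q : ℝ) * θ - h| ≤ 1 / q ∧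
      c * Q ≤ (q : ℝ) ^ 13 := by
  have hQr : (1 : ℝ) ≤ Q := by exact_mod_cast hQ
  obtain ⟨x, hx1, hx2⟩ := Real.exists_rat_abs_sub_le_and_den_le θ (n := Q) (by omega)
  set q : ℕ := x.den with hq
  set h : ℤ := x.num with hh
  have hq0 : 0 < q := x.den_pos
  have hqr : (0 : ℝ) < q := by exact_mod_cast hq0
  have hqP : (q : ℝ) ≤ Q := by exact_mod_cast hx2
  have hxq : (x : ℝ) = (h : ℝ) / q := by
    rw [hh, hq]; exact Rat.cast_def x
  have happ : |(q : ℝ) * θ - h| ≤ 1 / ((Q : ℝ) + 1) := by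
    rw [hxq] at hx1
    have e : (q : ℝ) * θ - h = q * (θ - h / q) := by field_simp
    rw [e, abs_mul, abs_of_pos hqr]
    calc (q : ℝ) * |θ - h / q| ≤ q * (1 / (((Q : ℝ) + 1) * q)) :=
          mul_le_mul_of_nonneg_left hx1 hqr.le
      _ = 1 / ((Q : ℝ) + 1) := by field_simp
  have hcop : IsCoprime h (q : ℤ) := by
    rw [Int.isCoprime_iff_gcd_eq_one]
    have := x.reduced
    rw [hh, hq]
    rw [Int.gcd_eq_natAbs]
    simpa using this
  refine ⟨q, h, hq0, hx2, hcop, happ.trans (one_div_le_one_div_of_le hqr (by linarith)), ?_⟩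
  have h1 := hm q h hq0
  have h2 : (q : ℝ) ^ 13 * |(q : ℝ) * θ - h| ≤ (q : ℝ) ^ 13 * (1 / Q) :=
    mul_le_mul_of_nonneg_left (happ.trans (one_div_le_one_div_of_le (by linarith) (by linarith)))
      (by positivity)
  have h3 : c ≤ (q : ℝ) ^ 13 * (1 / Q) := h1.trans h2
  rw [mul_one_div, le_div_iff₀ (by linarith)] at h3
  exact h3

/-- `|u log 2 + v log 3|` with `|v| ≤ 3 |u|` or so: measure for the ratio `log 2 / log 3` -/
theorem measure_23 : ∃ c : ℝ, 0 < c ∧ ∀ (q : ℕ) (h : ℤ), 0 < q →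
    c ≤ (q : ℝ) ^ 13 * |(q : ℝ) * (-(Real.log 2 / Real.log 3)) - h| := by
  obtain ⟨c, hc, hm⟩ := Pool.Agent.H319R2.measure
  have hl2 : 0 < Real.log 2 := Real.log_pos (by norm_num)
  have hl3 : 0 < Real.log 3 := Real.log_pos (by norm_num)
  have hl31 := log3_gt_one
  have hr1 : Real.log 2 / Real.log 3 < 1 := by
    rw [div_lt_one hl3]; exact Real.log_lt_log (by norm_num) (by norm_num)
  have hr0 : 0 < Real.log 2 / Real.log 3 := by positivity
  have hl34 : Real.log 3 < 2 := by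
    have h : Real.log 3 < Real.log (2 ^ 2) := Real.log_lt_log (by norm_num) (by norm_num)
    rw [Real.log_pow] at h
    have := Real.log_two_lt_d9
    push_cast at h
    linarith
  refine ⟨min 1 (c / (3 ^ 13 * 2)), by positivity, ?_⟩
  intro q h hq
  have hq1 : (1 : ℝ) ≤ q := by exact_mod_cast hq
  set d := (q : ℝ) * (-(Real.log 2 / Real.log 3)) - h with hd
  rcases le_or_gt 1 |d| with hbig | hsmall
  · have h1 : (1 : ℝ) ≤ (q : ℝ) ^ 13 := one_le_pow₀ hq1
    calc min 1 (c / (3 ^ 13 * 2)) ≤ 1 := min_le_left _ _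
      _ ≤ (q : ℝ) ^ 13 * |d| := by nlinarith
  · have hm1 := hm (q : ℤ) h (Or.inl (by exact_mod_cast hq.ne'))
    have e : ((q : ℤ) : ℝ) * Real.log 2 + (h : ℝ) * Real.log 3 = -(Real.log 3 * d) := by
      rw [hd]; push_cast; field_simp; ring
    rw [e, abs_neg, abs_mul, abs_of_pos hl3] at hm1
    have hh : |(h : ℝ)| ≤ 2 * q := by
      have e2 : (h : ℝ) = -((q : ℝ) * (Real.log 2 / Real.log 3)) - d := by rw [hd]; ring
      rw [e2]
      refine (abs_sub _ _).trans ?_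
      rw [abs_neg, abs_of_pos (by positivity)]
      nlinarith
    have hsum : ((|(q : ℤ)| + |h| : ℤ) : ℝ) ≤ 3 * q := by
      push_cast
      rw [abs_of_nonneg (by linarith : (0 : ℝ) ≤ (q : ℝ))]
      linarith
    have hsum0 : (0 : ℝ) ≤ ((|(q : ℤ)| + |h| : ℤ) : ℝ) := by
      have : (0 : ℤ) ≤ |(q : ℤ)| + |h| := by positivity
      exact_mod_cast this
    have h2 : c ≤ (3 * (q : ℝ)) ^ 13 * (2 * |d|) := by
      refine hm1.trans ?_
      apply mul_le_mul (pow_le_pow_left₀ hsum0 hsum 13) _ (by positivity) (by positivity)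
      exact mul_le_mul_of_nonneg_right hl34.le (abs_nonneg _)
    calc min 1 (c / (3 ^ 13 * 2)) ≤ c / (3 ^ 13 * 2) := min_le_right _ _
      _ ≤ (q : ℝ) ^ 13 * |d| := by
        rw [div_le_iff₀ (by positivity)]
        calc c ≤ (3 * (q : ℝ)) ^ 13 * (2 * |d|) := h2
          _ = _ := by ring

theorem measure_32 : ∃ c : ℝ, 0 < c ∧ ∀ (q : ℕ) (h : ℤ), 0 < q →
    c ≤ (q : ℝ) ^ 13 * |(q : ℝ) * (Real.log 3 / Real.log 2) - h| := by
  obtain ⟨c, hc, hm⟩ := Pool.Agent.H319R2.measure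
  have hl2 : 0 < Real.log 2 := Real.log_pos (by norm_num)
  have hl3 : 0 < Real.log 3 := Real.log_pos (by norm_num)
  have hr1 : Real.log 3 / Real.log 2 < 2 := by
    rw [div_lt_iff₀ hl2]
    have h : Real.log 3 < Real.log (2 ^ 2) := Real.log_lt_log (by norm_num) (by norm_num)
    rw [Real.log_pow] at h
    push_cast at h
    linarith
  have hr0 : 0 < Real.log 3 / Real.log 2 := by positivity
  have hl21 : Real.log 2 < 1 := by
    have := Real.log_two_lt_d9
    linarith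
  refine ⟨min 1 (c / 4 ^ 13), by positivity, ?_⟩
  intro q h hq
  have hq1 : (1 : ℝ) ≤ q := by exact_mod_cast hq
  set d := (q : ℝ) * (Real.log 3 / Real.log 2) - h with hd
  rcases le_or_gt 1 |d| with hbig | hsmall
  · have h1 : (1 : ℝ) ≤ (q : ℝ) ^ 13 := one_le_pow₀ hq1
    calc min 1 (c / 4 ^ 13) ≤ 1 := min_le_left _ _
      _ ≤ (q : ℝ) ^ 13 * |d| := by nlinarith
  · have hm1 := hm (-h) (q : ℤ) (Or.inr (by exact_mod_cast hq.ne'))
    have e : ((-h : ℤ) : ℝ) * Real.log 2 + ((q : ℤ) : ℝ) * Real.log 3 = Real.log 2 * d := by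
      rw [hd]; push_cast; field_simp; ring
    rw [e, abs_mul, abs_of_pos hl2] at hm1
    have hh : |(h : ℝ)| ≤ 3 * q := by
      have e2 : (h : ℝ) = ((q : ℝ) * (Real.log 3 / Real.log 2)) - d := by rw [hd]; ring
      rw [e2]
      refine (abs_sub _ _).trans ?_
      rw [abs_of_pos (by positivity)]
      nlinarith
    have hsum : ((|-h| + |(q : ℤ)| : ℤ) : ℝ) ≤ 4 * q := by
      push_cast
      rw [abs_neg, abs_of_nonneg (by linarith : (0 : ℝ) ≤ (q : ℝ))]
      linarith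
    have hsum0 : (0 : ℝ) ≤ ((|-h| + |(q : ℤ)| : ℤ) : ℝ) := by
      have : (0 : ℤ) ≤ |-h| + |(q : ℤ)| := by positivity
      exact_mod_cast this
    have h2 : c ≤ (4 * (q : ℝ)) ^ 13 * (1 * |d|) := by
      refine hm1.trans ?_
      apply mul_le_mul (pow_le_pow_left₀ hsum0 hsum 13) _ (by positivity) (by positivity)
      exact mul_le_mul_of_nonneg_right hl21.le (abs_nonneg _)
    calc min 1 (c / 4 ^ 13) ≤ c / 4 ^ 13 := min_le_right _ _
      _ ≤ (q : ℝ) ^ 13 * |d| := by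
        rw [div_le_iff₀ (by positivity)]
        calc c ≤ (4 * (q : ℝ)) ^ 13 * (1 * |d|) := h2
          _ = _ := by ring

/-- the odd indices below `n` -/
def odds (n : ℕ) (x : ℤ) : Finset ℕ := (range n).filter fun i => (T^[i] x) % 2 = 1

theorem odds_card (n : ℕ) (x : ℤ) : (odds n x).card = od n x := rfl

theorem od_mono {x : ℤ} {m n : ℕ} (h : m ≤ n) : od m x ≤ od n x := by
  unfold od
  apply card_le_card
  apply filter_subset_filter
  intro i hi
  rw [mem_range] at hi ⊢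
  omega

theorem od_lt_of_odd {x : ℤ} {i j : ℕ} (hi : (T^[i] x) % 2 = 1) (hij : i < j) : od i x < od j x := by
  have h1 := od_succ_odd hi
  have h2 := od_mono (x := x) (show i + 1 ≤ j by omega)
  omega

/-- the logarithm along the trajectory: only the odd terms contribute an error -/
theorem log_piece (x : ℤ) (hx : x ≠ 0) (i k : ℕ) (X : ℝ) (hX : 1 ≤ X)
    (h : ∀ l, i ≤ l → l < i + k → (T^[l] x) % 2 = 1 → X ≤ |((T^[l] x : ℤ) : ℝ)|) :
    |Real.log |((T^[i + k] x : ℤ) : ℝ)| - Real.log |((T^[i] x : ℤ) : ℝ)| + k * Real.log 2 -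
      ((od (i + k) x : ℝ) - od i x) * Real.log 3| ≤ ((od (i + k) x : ℝ) - od i x) * (1 / (2 * X)) := by
  induction k with
  | zero => simp
  | succ k ih =>
    have ih := ih (fun l h1 h2 h3 => h l h1 (by omega) h3)
    have hzne := iter_ne_zero hx (i + k)
    rw [← add_assoc, Function.iterate_succ_apply']
    rcases par (T^[i + k] x) with h' | h'
    · rw [od_succ_even h']
      have h1 := T_even h'
      have h2 : (2 : ℝ) * ((T (T^[i + k] x) : ℤ) : ℝ) = ((T^[i + k] x : ℤ) : ℝ) := by exact_mod_cast h1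
      have h4 : ((T (T^[i + k] x) : ℤ) : ℝ) ≠ 0 := by exact_mod_cast T_ne_zero hzne
      have h3 : Real.log |((T^[i + k] x : ℤ) : ℝ)| =
          Real.log 2 + Real.log |((T (T^[i + k] x) : ℤ) : ℝ)| := by
        rw [← h2, abs_mul, Real.log_mul (by norm_num) (abs_ne_zero.2 h4)]
        norm_num
      rw [h3] at ih
      push_cast
      have e : Real.log |((T (T^[i + k] x) : ℤ) : ℝ)| - Real.log |((T^[i] x : ℤ) : ℝ)| +
          ((k : ℝ) + 1) * Real.log 2 - ((od (i + k) x : ℝ) - od i x) * Real.log 3 =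
          Real.log 2 + Real.log |((T (T^[i + k] x) : ℤ) : ℝ)| - Real.log |((T^[i] x : ℤ) : ℝ)| +
          k * Real.log 2 - ((od (i + k) x : ℝ) - od i x) * Real.log 3 := by ring
      rw [e]
      exact ih
    · rw [od_succ_odd h']
      have h1 := T_odd h'
      have h2 : (2 : ℝ) * ((T (T^[i + k] x) : ℤ) : ℝ) = 3 * ((T^[i + k] x : ℤ) : ℝ) + 1 := by
        exact_mod_cast h1
      have hTz : ((T (T^[i + k] x) : ℤ) : ℝ) ≠ 0 := by exact_mod_cast T_ne_zero hzne
      have h3 : Real.log |((T (T^[i + k] x) : ℤ) : ℝ)| =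
          Real.log |3 * ((T^[i + k] x : ℤ) : ℝ) + 1| - Real.log 2 := by
        rw [← h2, abs_mul, Real.log_mul (by norm_num) (abs_ne_zero.2 hTz)]
        norm_num
      have h4 := log_step (y := T^[i + k] x) hX (h (i + k) (by omega) (by omega) h')
      rw [h3]
      push_cast
      have e : Real.log |3 * ((T^[i + k] x : ℤ) : ℝ) + 1| - Real.log 2 -
          Real.log |((T^[i] x : ℤ) : ℝ)| + ((k : ℝ) + 1) * Real.log 2 -
          ((od (i + k) x : ℝ) + 1 - od i x) * Real.log 3 =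
          (Real.log |((T^[i + k] x : ℤ) : ℝ)| - Real.log |((T^[i] x : ℤ) : ℝ)| + k * Real.log 2 -
          ((od (i + k) x : ℝ) - od i x) * Real.log 3) +
          (Real.log |3 * ((T^[i + k] x : ℤ) : ℝ) + 1| - Real.log |((T^[i + k] x : ℤ) : ℝ)| -
          Real.log 3) := by ring
      rw [e]
      refine (abs_add_le _ _).trans ?_
      have e5 : ((od (i + k) x : ℝ) + 1 - od i x) * (1 / (2 * X)) =
          ((od (i + k) x : ℝ) - od i x) * (1 / (2 * X)) + 1 / (2 * X) := by ring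
      rw [e5]
      exact add_le_add ih h4

/-- the counting law, for a sequence indexed by a finite set `G` with a time function `t` -/
theorem law (θ c C1 : ℝ) (hc : 0 < c) (hC1 : 0 ≤ C1)
    (hm : ∀ (q : ℕ) (h : ℤ), 0 < q → c ≤ (q : ℝ) ^ 13 * |(q : ℝ) * θ - h|) :
    ∃ C : ℝ, 0 < C ∧ ∀ (G : Finset ℕ) (n : ℕ), G.card ≤ n → ∀ t : ℕ → ℕ, Set.InjOn t G →
      (∀ i ∈ G, t i < G.card) → ∀ v : ℕ → ℝ,
      (∀ q : ℕ, 0 < q → ∃ bad : Finset ℕ, (bad.card : ℝ) ≤ C1 * ((q : ℝ) ^ 2) ^ (0.951 : ℝ) ∧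
        ∀ i ∈ G, ∀ j ∈ G, t i / q = t j / q → t i / q ∉ bad → t i ≤ t j →
          ∃ z : ℤ, |v j - v i - ((t j : ℝ) - t i) * θ - z| ≤ 1 / q) →
      ∀ a b : ℝ, 0 ≤ a → a ≤ b → b ≤ 1 →
        |((G.filter fun i => a ≤ Int.fract (v i) ∧ Int.fract (v i) < b).card : ℝ) - (b - a) * G.card| ≤
          C * (n : ℝ) ^ (38 / 39 : ℝ) := by
  refine ⟨2 * (5 * c ^ (-(1 / 13 : ℝ)) + 2 + 5 + C1 * 8), by positivity, ?_⟩
  intro G n hGn t ht htN v hv a b ha hab hb
  rcases Nat.eq_zero_or_pos n with hn0 | hn0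
  · subst hn0
    have hG : G = ∅ := by rw [← card_eq_zero]; omega
    rw [hG]; simp
  have hn1 : (1 : ℝ) ≤ n := by exact_mod_cast hn0
  have hnpos : (0 : ℝ) < n := by linarith
  have h13 : (1 : ℝ) ≤ (n : ℝ) ^ (1 / 3 : ℝ) := Real.one_le_rpow hn1 (by norm_num)
  set Q : ℕ := ⌈(n : ℝ) ^ (1 / 3 : ℝ)⌉₊ with hQ
  have hQ1 : (n : ℝ) ^ (1 / 3 : ℝ) ≤ Q := Nat.le_ceil _
  have hQ2 : (Q : ℝ) ≤ 2 * (n : ℝ) ^ (1 / 3 : ℝ) := by
    have := Nat.ceil_lt_add_one (show (0 : ℝ) ≤ (n : ℝ) ^ (1 / 3 : ℝ) by positivity)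
    rw [← hQ] at this
    linarith
  have hQpos : 1 ≤ Q := by
    have : (1 : ℝ) ≤ Q := h13.trans hQ1
    exact_mod_cast this
  obtain ⟨q, h, hq0, hqQ, hcop, happ, hqbig⟩ := good_den θ c hm Q hQpos
  have hqr : (0 : ℝ) < q := by exact_mod_cast hq0
  have hq1 : (1 : ℝ) ≤ q := by exact_mod_cast hq0
  have hqQr : (q : ℝ) ≤ 2 * (n : ℝ) ^ (1 / 3 : ℝ) := by
    have : (q : ℝ) ≤ Q := by exact_mod_cast hqQ
    linarith
  obtain ⟨bad, hbad, hv⟩ := hv q hq0
  have key := count_two q h hq0 hcop θ happ G t ht htN v bad hv a b ha hab hb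
  refine key.trans ?_
  have hP : (1 : ℝ) ≤ (n : ℝ) ^ (38 / 39 : ℝ) := Real.one_le_rpow hn1 (by norm_num)
  -- n / q
  have e1 : (G.card : ℝ) / q ≤ c ^ (-(1 / 13 : ℝ)) * (n : ℝ) ^ (38 / 39 : ℝ) := by
    have g1 : (G.card : ℝ) / q ≤ n / q :=
      div_le_div_of_nonneg_right (by exact_mod_cast hGn) hqr.le
    refine g1.trans ?_
    rw [div_le_iff₀ hqr]
    have g2 : c ^ (1 / 13 : ℝ) * (n : ℝ) ^ (1 / 39 : ℝ) ≤ q := by
      have g3 : c * (n : ℝ) ^ (1 / 3 : ℝ) ≤ (q : ℝ) ^ 13 :=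
        (mul_le_mul_of_nonneg_left hQ1 hc.le).trans hqbig
      have g4 := Real.rpow_le_rpow (by positivity) g3 (show (0 : ℝ) ≤ 1 / 13 by norm_num)
      rw [Real.mul_rpow hc.le (by positivity), ← Real.rpow_natCast, ← Real.rpow_mul hqr.le,
        ← Real.rpow_mul hnpos.le] at g4
      norm_num at g4 ⊢
      exact g4
    have g5 : (n : ℝ) = c ^ (-(1 / 13 : ℝ)) * (n : ℝ) ^ (38 / 39 : ℝ) *
        (c ^ (1 / 13 : ℝ) * (n : ℝ) ^ (1 / 39 : ℝ)) := by
      have g6 : c ^ (-(1 / 13 : ℝ)) * c ^ (1 / 13 : ℝ) = 1 := by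
        rw [← Real.rpow_add hc]; norm_num
      have g7 : (n : ℝ) ^ (38 / 39 : ℝ) * (n : ℝ) ^ (1 / 39 : ℝ) = n := by
        rw [← Real.rpow_add hnpos]; norm_num
      calc (n : ℝ) = 1 * n := (one_mul _).symm
        _ = (c ^ (-(1 / 13 : ℝ)) * c ^ (1 / 13 : ℝ)) * ((n : ℝ) ^ (38 / 39 : ℝ) * (n : ℝ) ^ (1 / 39 : ℝ)) := by
          rw [g6, g7]
        _ = _ := by ring
    calc (n : ℝ) = c ^ (-(1 / 13 : ℝ)) * (n : ℝ) ^ (38 / 39 : ℝ) *
        (c ^ (1 / 13 : ℝ) * (n : ℝ) ^ (1 / 39 : ℝ)) := g5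
      _ ≤ _ := mul_le_mul_of_nonneg_left g2 (by positivity)
  -- q
  have e2 : (q : ℝ) ≤ 2 * (n : ℝ) ^ (38 / 39 : ℝ) := by
    refine hqQr.trans ?_
    apply mul_le_mul_of_nonneg_left _ (by norm_num)
    exact Real.rpow_le_rpow_of_exponent_le hn1 (by norm_num)
  -- q * bad
  have e3 : (q : ℝ) * bad.card ≤ C1 * 8 * (n : ℝ) ^ (38 / 39 : ℝ) := by
    have g1 : (q : ℝ) * ((q : ℝ) ^ 2) ^ (0.951 : ℝ) ≤ 8 * (n : ℝ) ^ (38 / 39 : ℝ) := by
      have g2 : (q : ℝ) * ((q : ℝ) ^ 2) ^ (0.951 : ℝ) = (q : ℝ) ^ (2.902 : ℝ) := by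
        rw [← Real.rpow_natCast, ← Real.rpow_mul hqr.le]
        nth_rewrite 1 [← Real.rpow_one (q : ℝ)]
        rw [← Real.rpow_add hqr]
        norm_num
      rw [g2]
      have g3 := Real.rpow_le_rpow hqr.le hqQr (show (0 : ℝ) ≤ 2.902 by norm_num)
      refine g3.trans ?_
      rw [Real.mul_rpow (by norm_num) (by positivity), ← Real.rpow_mul hnpos.le]
      apply mul_le_mul _ _ (by positivity) (by norm_num)
      · calc (2 : ℝ) ^ (2.902 : ℝ) ≤ (2 : ℝ) ^ (3 : ℝ) :=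
              Real.rpow_le_rpow_of_exponent_le (by norm_num) (by norm_num)
          _ = 8 := by norm_num
      · exact Real.rpow_le_rpow_of_exponent_le hn1 (by norm_num)
    calc (q : ℝ) * bad.card ≤ q * (C1 * ((q : ℝ) ^ 2) ^ (0.951 : ℝ)) :=
          mul_le_mul_of_nonneg_left hbad hqr.le
      _ = C1 * (q * ((q : ℝ) ^ 2) ^ (0.951 : ℝ)) := by ring
      _ ≤ C1 * (8 * (n : ℝ) ^ (38 / 39 : ℝ)) := mul_le_mul_of_nonneg_left g1 hC1
      _ = _ := by ring
  nlinarith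

/-- the blocks which contain a small term -/
theorem small_blocks (C1 : ℝ)
    (hsp : ∀ S : Set ℤ, Tame S → ∀ X : ℝ, 1 ≤ X → ∀ F : Finset ℤ,
      (∀ x ∈ F, x ∈ S ∧ |(x : ℝ)| ≤ X) → (F.card : ℝ) ≤ C1 * X ^ (0.951 : ℝ))
    (x : ℤ) (n : ℕ) (hinj : Set.InjOn (fun i => T^[i] x) (Set.Iio n)) (t : ℕ → ℕ) (q : ℕ)
    (hq : 0 < q) :
    (((((range n).filter fun i => |((T^[i] x : ℤ) : ℝ)| < (q : ℝ) ^ 2).image fun i => t i / q).card : ℕ) : ℝ) ≤
      C1 * ((q : ℝ) ^ 2) ^ (0.951 : ℝ) := by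
  have hq1 : (1 : ℝ) ≤ (q : ℝ) ^ 2 := by
    have : (1 : ℝ) ≤ q := by exact_mod_cast hq
    exact one_le_pow₀ this
  have h1 := hsp _ (tame_path x n hinj) ((q : ℝ) ^ 2) hq1
    (((range n).filter fun i => |((T^[i] x : ℤ) : ℝ)| < (q : ℝ) ^ 2).image fun i => T^[i] x) (by
    intro y hy
    rw [mem_image] at hy
    obtain ⟨i, hi, rfl⟩ := hy
    rw [mem_filter, mem_range] at hi
    exact ⟨⟨i, hi.1, rfl⟩, hi.2.le⟩)
  rw [card_image_of_injOn] at h1
  · refine le_trans ?_ h1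
    exact_mod_cast card_image_le
  · intro i hi j hj hij
    have hi' := (mem_filter.1 (mem_coe.1 hi)).1
    have hj' := (mem_filter.1 (mem_coe.1 hj)).1
    rw [mem_range] at hi' hj'
    exact hinj hi' hj' hij

/-- **Base three.** -/
theorem base_three : ∃ C : ℝ, 0 < C ∧ ∀ (x : ℤ) (n : ℕ), x ≠ 0 →
    Set.InjOn (fun i => T^[i] x) (Set.Iio n) → ∀ a b : ℝ, 0 ≤ a → a ≤ b → b ≤ 1 →
      |(((range n).filter fun i => a ≤ Int.fract (Real.logb 3 |((T^[i] x : ℤ) : ℝ)|) ∧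
        Int.fract (Real.logb 3 |((T^[i] x : ℤ) : ℝ)|) < b).card : ℝ) - (b - a) * n| ≤
        C * (n : ℝ) ^ (38 / 39 : ℝ) := by
  obtain ⟨c, hc, hm⟩ := measure_23
  obtain ⟨C1, hC1, hsp⟩ := sparse 0.951 beta_lt
  obtain ⟨C, hC, hlaw⟩ := law _ c C1 hc hC1.le hm
  have hl3 : 0 < Real.log 3 := Real.log_pos (by norm_num)
  have hl31 := log3_gt_one
  refine ⟨C, hC, ?_⟩
  intro x n hx hinj a b ha hab hb
  have key := hlaw (range n) n (by rw [card_range]) (fun i => i) (fun i _ j _ h => h)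
    (fun i hi => by rw [card_range]; exact mem_range.1 hi)
    (fun i => Real.logb 3 |((T^[i] x : ℤ) : ℝ)|) (by
    intro q hq
    refine ⟨_, small_blocks C1 hsp x n hinj (fun i => i) q hq, ?_⟩
    intro i hi j hj hij hbad hle
    rw [mem_range] at hi hj
    obtain ⟨k, rfl⟩ := Nat.exists_eq_add_of_le hle
    have hqr : (1 : ℝ) ≤ q := by exact_mod_cast hq
    have hq2 : (1 : ℝ) ≤ (q : ℝ) ^ 2 := one_le_pow₀ hqr
    have hlog := log_piece x hx i k ((q : ℝ) ^ 2) hq2 (by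
      intro l h1 h2 _
      by_contra hlt
      push Not at hlt
      apply hbad
      rw [mem_image]
      refine ⟨l, by rw [mem_filter, mem_range]; exact ⟨by omega, hlt⟩, ?_⟩
      have e1 : i / q ≤ l / q := Nat.div_le_div_right h1
      have e2 : l / q ≤ (i + k) / q := Nat.div_le_div_right (by omega)
      omega)
    have hod : ((od (i + k) x : ℝ) - od i x) ≤ q := by
      have h1 : od (i + k) x ≤ od i x + k := by
        unfold od
        rw [range_eq_Ico, range_eq_Ico, ← Finset.Ico_union_Ico_eq_Ico (Nat.zero_le i) (Nat.le_add_right i k),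
          filter_union]
        refine (card_union_le _ _).trans ?_
        have : ((Ico i (i + k)).filter fun l => (T^[l] x) % 2 = 1).card ≤ k :=
          (card_filter_le _ _).trans (by simp)
        omega
      have h2 : k ≤ q := by
        have e1 := Nat.div_add_mod i q
        have e2 := Nat.div_add_mod (i + k) q
        have e3 := Nat.mod_lt (i + k) hq
        rw [← hij] at e2
        have : i % q ≤ i := Nat.mod_le _ _
        omega
      have h3 : (od (i + k) x : ℝ) ≤ od i x + k := by exact_mod_cast h1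
      have h4 : (k : ℝ) ≤ q := by exact_mod_cast h2
      linarith
    refine ⟨(od (i + k) x : ℤ) - od i x, ?_⟩
    have e : Real.logb 3 |((T^[i + k] x : ℤ) : ℝ)| - Real.logb 3 |((T^[i] x : ℤ) : ℝ)| -
        (((i + k : ℕ) : ℝ) - (i : ℕ)) * -(Real.log 2 / Real.log 3) - (((od (i + k) x : ℤ) - od i x : ℤ) : ℝ) =
        (Real.log |((T^[i + k] x : ℤ) : ℝ)| - Real.log |((T^[i] x : ℤ) : ℝ)| + k * Real.log 2 -
      ((od (i + k) x : ℝ) - od i x) * Real.log 3) / Real.log 3 := by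
      unfold Real.logb
      push_cast
      field_simp
      ring
    rw [e, abs_div, abs_of_pos hl3, div_le_iff₀ hl3]
    refine hlog.trans ?_
    have h5 : ((od (i + k) x : ℝ) - od i x) * (1 / (2 * (q : ℝ) ^ 2)) ≤ q * (1 / (2 * (q : ℝ) ^ 2)) :=
      mul_le_mul_of_nonneg_right hod (by positivity)
    refine h5.trans ?_
    have h6 : (q : ℝ) * (1 / (2 * (q : ℝ) ^ 2)) = 1 / q * (1 / 2) := by field_simp
    rw [h6]
    apply mul_le_mul_of_nonneg_left _ (by positivity)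
    linarith) a b ha hab hb
  rw [card_range] at key
  exact key

/-- **Base two.** -/
theorem base_two : ∃ C : ℝ, 0 < C ∧ ∀ (x : ℤ) (n : ℕ), x ≠ 0 →
    Set.InjOn (fun i => T^[i] x) (Set.Iio n) → ∀ a b : ℝ, 0 ≤ a → a ≤ b → b ≤ 1 →
      |(((odds n x).filter fun i => a ≤ Int.fract (Real.logb 2 |((T^[i] x : ℤ) : ℝ)|) ∧
        Int.fract (Real.logb 2 |((T^[i] x : ℤ) : ℝ)|) < b).card : ℝ) - (b - a) * (odds n x).card| ≤
        C * (n : ℝ) ^ (38 / 39 : ℝ) := by
  obtain ⟨c, hc, hm⟩ := measure_32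
  obtain ⟨C1, hC1, hsp⟩ := sparse 0.951 beta_lt
  obtain ⟨C, hC, hlaw⟩ := law _ c C1 hc hC1.le hm
  have hl2 : 0 < Real.log 2 := Real.log_pos (by norm_num)
  have hl21 : 1 / 2 < Real.log 2 := by
    have := Real.log_two_gt_d9
    linarith
  refine ⟨C, hC, ?_⟩
  intro x n hx hinj a b ha hab hb
  have hodd : ∀ i ∈ odds n x, i < n ∧ (T^[i] x) % 2 = 1 := by
    intro i hi
    unfold odds at hi
    rw [mem_filter, mem_range] at hi
    exact hi
  refine hlaw (odds n x) n ?_ (fun i => od i x) ?_ ?_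
    (fun i => Real.logb 2 |((T^[i] x : ℤ) : ℝ)|) ?_ a b ha hab hb
  · rw [odds_card]; exact od_le n x
  · intro i hi j hj hij
    have hi' := hodd i hi
    have hj' := hodd j hj
    simp only at hij
    rcases lt_trichotomy i j with h | h | h
    · have := od_lt_of_odd hi'.2 h; omega
    · exact h
    · have := od_lt_of_odd hj'.2 h; omega
  · intro i hi
    have hi' := hodd i hi
    rw [odds_card]
    exact od_lt_of_odd hi'.2 hi'.1
  · intro q hq
    refine ⟨_, small_blocks C1 hsp x n hinj (fun i => od i x) q hq, ?_⟩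
    intro i hi j hj hij hbad hle
    have hi' := hodd i hi
    have hj' := hodd j hj
    have hle' : i ≤ j := by
      by_contra hlt
      push Not at hlt
      have := od_lt_of_odd hj'.2 hlt
      omega
    obtain ⟨k, rfl⟩ := Nat.exists_eq_add_of_le hle'
    have hqr : (1 : ℝ) ≤ q := by exact_mod_cast hq
    have hq2 : (1 : ℝ) ≤ (q : ℝ) ^ 2 := one_le_pow₀ hqr
    have hlog := log_piece x hx i k ((q : ℝ) ^ 2) hq2 (by
      intro l h1 h2 h3
      by_contra hlt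
      push Not at hlt
      apply hbad
      rw [mem_image]
      refine ⟨l, by rw [mem_filter, mem_range]; exact ⟨by omega, hlt⟩, ?_⟩
      have e1 : od i x / q ≤ od l x / q := Nat.div_le_div_right (od_mono h1)
      have e2 : od l x / q ≤ od (i + k) x / q := Nat.div_le_div_right (od_mono (by omega))
      omega)
    have hod : ((od (i + k) x : ℝ) - od i x) ≤ q := by
      have h2 : od (i + k) x ≤ od i x + q := by
        have e1 := Nat.div_add_mod (od i x) q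
        have e2 := Nat.div_add_mod (od (i + k) x) q
        have e3 := Nat.mod_lt (od (i + k) x) hq
        rw [← hij] at e2
        omega
      have h3 : (od (i + k) x : ℝ) ≤ od i x + q := by exact_mod_cast h2
      linarith
    refine ⟨-(k : ℤ), ?_⟩
    have e : Real.logb 2 |((T^[i + k] x : ℤ) : ℝ)| - Real.logb 2 |((T^[i] x : ℤ) : ℝ)| -
        ((od (i + k) x : ℝ) - (od i x : ℝ)) * (Real.log 3 / Real.log 2) - ((-(k : ℤ) : ℤ) : ℝ) =
        (Real.log |((T^[i + k] x : ℤ) : ℝ)| - Real.log |((T^[i] x : ℤ) : ℝ)| + k * Real.log 2 -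
      ((od (i + k) x : ℝ) - od i x) * Real.log 3) / Real.log 2 := by
      unfold Real.logb
      push_cast
      field_simp
      ring
    rw [e, abs_div, abs_of_pos hl2, div_le_iff₀ hl2]
    refine hlog.trans ?_
    have h5 : ((od (i + k) x : ℝ) - od i x) * (1 / (2 * (q : ℝ) ^ 2)) ≤ q * (1 / (2 * (q : ℝ) ^ 2)) :=
      mul_le_mul_of_nonneg_right hod (by positivity)
    refine h5.trans ?_
    have h6 : (q : ℝ) * (1 / (2 * (q : ℝ) ^ 2)) = 1 / q * (1 / 2) := by field_simp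
    rw [h6]
    apply mul_le_mul_of_nonneg_left _ (by positivity)
    linarith

end Pool.Agent.N903.BF
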