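import Mathlib
import Pool.Agent.N903.Blocks
import Pool.Agent.H440R2.LFL2

set_option autoImplicit false

/-!
Leading digits along the trajectories of the maps `T_{a,b}`.
-/

namespace Pool.Agent.N903.BG

open Finset Pool.Agent.N903.BF

/-- The map `T_{a,b}` on the integers. -/
def T (a b x : ℤ) : ℤ := if x % 2 = 0 then x / 2 else (a * x + b) / 2

theorem T_even {a b x : ℤ} (h : x % 2 = 0) : 2 * T a b x = x := by
  unfold T; rw [if_pos h]; omega

theorem T_odd {a b x : ℤ} (ha : a % 2 = 1) (hb : b % 2 = 1) (h : x % 2 = 1) :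
    2 * T a b x = a * x + b := by
  unfold T; rw [if_neg (by omega)]
  have h1 : (a * x + b) % 2 = 0 := by
    rw [Int.add_emod, Int.mul_emod, ha, hb, h]; norm_num
  omega

theorem par (x : ℤ) : x % 2 = 0 ∨ x % 2 = 1 := by omega

/-- number of odd terms among the first `k` terms -/
def od (a b : ℤ) (k : ℕ) (x : ℤ) : ℕ := ((range k).filter fun i => ((T a b)^[i] x) % 2 = 1).card

theorem od_succ_even {a b : ℤ} {k : ℕ} {x : ℤ} (h : ((T a b)^[k] x) % 2 = 0) :
    od a b (k + 1) x = od a b k x := by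
  unfold od
  rw [range_add_one, filter_insert, if_neg (by omega)]

theorem od_succ_odd {a b : ℤ} {k : ℕ} {x : ℤ} (h : ((T a b)^[k] x) % 2 = 1) :
    od a b (k + 1) x = od a b k x + 1 := by
  unfold od
  rw [range_add_one, filter_insert, if_pos h, card_insert_of_notMem]
  simp

theorem od_le (a b : ℤ) (k : ℕ) (x : ℤ) : od a b k x ≤ k := by
  unfold od
  exact (card_filter_le _ _).trans (by simp)

theorem od_mono {a b : ℤ} {x : ℤ} {m n : ℕ} (h : m ≤ n) : od a b m x ≤ od a b n x := by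
  unfold od
  apply card_le_card
  apply filter_subset_filter
  intro i hi
  rw [mem_range] at hi ⊢
  omega

theorem od_add_le {a b : ℤ} {x : ℤ} (i k : ℕ) : od a b (i + k) x ≤ od a b i x + k := by
  induction k with
  | zero => simp
  | succ k ih =>
    rw [← add_assoc]
    rcases par ((T a b)^[i + k] x) with h | h
    · rw [od_succ_even h]; omega
    · rw [od_succ_odd h]; omega

theorem od_lt_of_odd {a b : ℤ} {x : ℤ} {i j : ℕ} (hi : ((T a b)^[i] x) % 2 = 1) (hij : i < j) :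
    od a b i x < od a b j x := by
  have h1 := od_succ_odd hi
  have h2 := od_mono (a := a) (b := b) (x := x) (show i + 1 ≤ j by omega)
  omega

theorem abs_log_one_add {u : ℝ} (hu : |u| ≤ 1 / 2) : |Real.log (1 + u)| ≤ 2 * |u| := by
  have h := abs_le.1 hu
  have h0 : 0 < 1 + u := by linarith
  rw [abs_le]
  constructor
  · have h1 := Real.one_sub_inv_le_log_of_pos h0
    have h2 : 1 - (1 + u)⁻¹ = u / (1 + u) := by field_simp; ring
    rw [h2] at h1
    refine le_trans ?_ h1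
    rw [le_div_iff₀ h0]
    rcases le_or_gt 0 u with h3 | h3
    · rw [abs_of_nonneg h3]; nlinarith
    · rw [abs_of_neg h3]; nlinarith
  · have h1 := Real.log_le_sub_one_of_pos h0
    have h2 := le_abs_self u
    have h3 := abs_nonneg u
    linarith

theorem log_step {a b : ℤ} (ha : 3 ≤ a) {X : ℝ} (hX : 0 < X) (hbX : |(b : ℝ)| ≤ X) {y : ℤ}
    (hy : X ≤ |(y : ℝ)|) :
    (a : ℝ) * y + b ≠ 0 ∧
    |Real.log |(a : ℝ) * y + b| - Real.log |(y : ℝ)| - Real.log a| ≤ |(b : ℝ)| / X := by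
  have ha' : (3 : ℝ) ≤ a := by exact_mod_cast ha
  have hy0 : 0 < |(y : ℝ)| := by linarith
  have hyne : (y : ℝ) ≠ 0 := abs_pos.1 hy0
  set u : ℝ := b / (a * y) with hu
  have hu1 : |u| ≤ |(b : ℝ)| / (3 * X) := by
    rw [hu, abs_div, abs_mul, abs_of_pos (by linarith : (0 : ℝ) < a)]
    apply div_le_div_of_nonneg_left (abs_nonneg _) (by positivity)
    nlinarith
  have hu2 : |(b : ℝ)| / (3 * X) ≤ 1 / 3 := by
    rw [div_le_div_iff₀ (by positivity) (by norm_num)]; linarith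
  have hu3 : |u| ≤ 1 / 2 := by linarith
  have h1u : 0 < 1 + u := by have := (abs_le.1 hu3).1; linarith
  have e : (a : ℝ) * y + b = a * y * (1 + u) := by
    rw [hu]; field_simp
  refine ⟨?_, ?_⟩
  · rw [e]
    have : (a : ℝ) ≠ 0 := by linarith
    positivity
  rw [e, abs_mul, abs_mul, abs_of_pos (by linarith : (0 : ℝ) < a), abs_of_pos h1u,
    Real.log_mul (by positivity) h1u.ne', Real.log_mul (by positivity) hy0.ne']
  have e2 : Real.log (a : ℝ) + Real.log |(y : ℝ)| + Real.log (1 + u) - Real.log |(y : ℝ)| -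
      Real.log a = Real.log (1 + u) := by ring
  rw [e2]
  refine (abs_log_one_add hu3).trans ?_
  calc 2 * |u| ≤ 2 * (|(b : ℝ)| / (3 * X)) := mul_le_mul_of_nonneg_left hu1 (by norm_num)
    _ = |(b : ℝ)| / X * (2 / 3) := by field_simp
    _ ≤ |(b : ℝ)| / X * 1 := mul_le_mul_of_nonneg_left (by norm_num) (by positivity)
    _ = _ := mul_one _

/-- the logarithm along the trajectory, while the terms are large -/
theorem log_piece {a b : ℤ} (ha : 3 ≤ a) (ha2 : a % 2 = 1) (hb2 : b % 2 = 1) (x : ℤ) (i k : ℕ)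
    (X : ℝ) (hX : 0 < X) (hbX : |(b : ℝ)| ≤ X)
    (h : ∀ l, i ≤ l → l ≤ i + k → X ≤ |(((T a b)^[l] x : ℤ) : ℝ)|) :
    |Real.log |(((T a b)^[i + k] x : ℤ) : ℝ)| - Real.log |(((T a b)^[i] x : ℤ) : ℝ)| + k * Real.log 2 -
      ((od a b (i + k) x : ℝ) - od a b i x) * Real.log a| ≤
      ((od a b (i + k) x : ℝ) - od a b i x) * (|(b : ℝ)| / X) := by
  induction k with
  | zero => simp
  | succ k ih =>
    have ih := ih (fun l h1 h2 => h l h1 (by omega))
    have hz := h (i + k) (by omega) (by omega)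
    have hz1 := h (i + (k + 1)) (by omega) le_rfl
    rw [← add_assoc, Function.iterate_succ_apply'] at hz1
    have hTz : (((T a b) ((T a b)^[i + k] x) : ℤ) : ℝ) ≠ 0 := by
      intro h0
      rw [h0, abs_zero] at hz1
      linarith
    rw [← add_assoc, Function.iterate_succ_apply']
    rcases par ((T a b)^[i + k] x) with h' | h'
    · rw [od_succ_even h']
      have h1 := T_even (a := a) (b := b) h'
      have h2 : (2 : ℝ) * (((T a b) ((T a b)^[i + k] x) : ℤ) : ℝ) = (((T a b)^[i + k] x : ℤ) : ℝ) := by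
        exact_mod_cast h1
      have h3 : Real.log |(((T a b)^[i + k] x : ℤ) : ℝ)| =
          Real.log 2 + Real.log |(((T a b) ((T a b)^[i + k] x) : ℤ) : ℝ)| := by
        rw [← h2, abs_mul, Real.log_mul (by norm_num) (abs_ne_zero.2 hTz)]
        norm_num
      rw [h3] at ih
      push_cast
      have e : Real.log |(((T a b) ((T a b)^[i + k] x) : ℤ) : ℝ)| -
          Real.log |(((T a b)^[i] x : ℤ) : ℝ)| +
          ((k : ℝ) + 1) * Real.log 2 - ((od a b (i + k) x : ℝ) - od a b i x) * Real.log a =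
          Real.log 2 + Real.log |(((T a b) ((T a b)^[i + k] x) : ℤ) : ℝ)| -
          Real.log |(((T a b)^[i] x : ℤ) : ℝ)| +
          k * Real.log 2 - ((od a b (i + k) x : ℝ) - od a b i x) * Real.log a := by ring
      rw [e]
      exact ih
    · rw [od_succ_odd h']
      have h1 := T_odd ha2 hb2 h'
      have h2 : (2 : ℝ) * (((T a b) ((T a b)^[i + k] x) : ℤ) : ℝ) =
          a * (((T a b)^[i + k] x : ℤ) : ℝ) + b := by
        exact_mod_cast h1
      have h3 : Real.log |(((T a b) ((T a b)^[i + k] x) : ℤ) : ℝ)| =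
          Real.log |a * (((T a b)^[i + k] x : ℤ) : ℝ) + b| - Real.log 2 := by
        rw [← h2, abs_mul, Real.log_mul (by norm_num) (abs_ne_zero.2 hTz)]
        norm_num
      have h4 := (log_step ha hX hbX (y := (T a b)^[i + k] x) hz).2
      rw [h3]
      push_cast
      have e : Real.log |a * (((T a b)^[i + k] x : ℤ) : ℝ) + b| - Real.log 2 -
          Real.log |(((T a b)^[i] x : ℤ) : ℝ)| + ((k : ℝ) + 1) * Real.log 2 -
          ((od a b (i + k) x : ℝ) + 1 - od a b i x) * Real.log a =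
          (Real.log |(((T a b)^[i + k] x : ℤ) : ℝ)| - Real.log |(((T a b)^[i] x : ℤ) : ℝ)| +
          k * Real.log 2 - ((od a b (i + k) x : ℝ) - od a b i x) * Real.log a) +
          (Real.log |a * (((T a b)^[i + k] x : ℤ) : ℝ) + b| - Real.log |(((T a b)^[i + k] x : ℤ) : ℝ)| -
          Real.log a) := by ring
      rw [e]
      refine (abs_add_le _ _).trans ?_
      have e5 : ((od a b (i + k) x : ℝ) + 1 - od a b i x) * (|(b : ℝ)| / X) =
          ((od a b (i + k) x : ℝ) - od a b i x) * (|(b : ℝ)| / X) + |(b : ℝ)| / X := by ring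
      rw [e5]
      exact add_le_add ih h4

/-- the blocks which contain a small term -/
theorem small_blocks (f : ℕ → ℤ) (n : ℕ) (hinj : Set.InjOn f (Set.Iio n)) (t : ℕ → ℕ) (q : ℕ)
    (X : ℝ) (hX : 1 ≤ X) :
    (((((range n).filter fun i => |((f i : ℤ) : ℝ)| < X).image fun i => t i / q).card : ℕ) : ℝ) ≤
      3 * X := by
  have h1 : ((range n).filter fun i => |((f i : ℤ) : ℝ)| < X).card ≤ (Icc (-⌊X⌋) ⌊X⌋).card := by
    apply card_le_card_of_injOn f
    · intro i hi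
      rw [mem_coe, mem_filter] at hi
      rw [mem_coe, mem_Icc]
      have h2 := abs_lt.1 hi.2
      constructor
      · rw [neg_le, Int.le_floor]; push_cast; linarith
      · rw [Int.le_floor]; linarith
    · intro i hi j hj hij
      have hi' := (mem_filter.1 (mem_coe.1 hi)).1
      have hj' := (mem_filter.1 (mem_coe.1 hj)).1
      rw [mem_range] at hi' hj'
      exact hinj hi' hj' hij
  rw [Int.card_Icc] at h1
  have h2 : (((range n).filter fun i => |((f i : ℤ) : ℝ)| < X).image fun i => t i / q).card ≤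
      (⌊X⌋ + 1 - -⌊X⌋).toNat := card_image_le.trans h1
  have h3 : (0 : ℤ) ≤ ⌊X⌋ := Int.floor_nonneg.2 (by linarith)
  have h4 : (((⌊X⌋ + 1 - -⌊X⌋).toNat : ℕ) : ℝ) = 2 * ⌊X⌋ + 1 := by
    have h5 : (((⌊X⌋ + 1 - -⌊X⌋).toNat : ℤ) : ℝ) = ((⌊X⌋ + 1 - -⌊X⌋ : ℤ) : ℝ) := by
      rw [Int.toNat_of_nonneg (by omega)]
    have h6 : (((⌊X⌋ + 1 - -⌊X⌋).toNat : ℕ) : ℝ) = ((⌊X⌋ + 1 - -⌊X⌋ : ℤ) : ℝ) := by
      rw [← h5]; norm_cast
    rw [h6]; push_cast; ring
  have h7 : ((((range n).filter fun i => |((f i : ℤ) : ℝ)| < X).image fun i => t i / q).card : ℝ) ≤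
      (((⌊X⌋ + 1 - -⌊X⌋).toNat : ℕ) : ℝ) := by exact_mod_cast h2
  rw [h4] at h7
  have h8 := Int.floor_le X
  linarith

/-- good denominators from a quasi-polynomial irrationality measure -/
theorem good_den (θ c B : ℝ)
    (hm : ∀ (q : ℕ) (h : ℤ), 0 < q → c * Real.exp (-(B * (1 + Real.log q) ^ 2)) ≤ |(q : ℝ) * θ - h|)
    (Q : ℕ) (hQ : 1 ≤ Q) :
    ∃ (q : ℕ) (h : ℤ), 0 < q ∧ q ≤ Q ∧ IsCoprime h (q : ℤ) ∧ |(q : ℝ) * θ - h| ≤ 1 / q ∧
      c * Q ≤ Real.exp (B * (1 + Real.log q) ^ 2) := by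
  have hQr : (1 : ℝ) ≤ Q := by exact_mod_cast hQ
  obtain ⟨x, hx1, hx2⟩ := Real.exists_rat_abs_sub_le_and_den_le θ (n := Q) (by omega)
  set q : ℕ := x.den with hq
  set h : ℤ := x.num with hh
  have hq0 : 0 < q := x.den_pos
  have hqr : (0 : ℝ) < q := by exact_mod_cast hq0
  have hqP : (q : ℝ) ≤ Q := by exact_mod_cast hx2
  have hxq : (x : ℝ) = (h : ℝ) / q := by
    rw [hh, hq]; exact Rat.cast_def x
  have happ : |(q : ℝ) * θ - h| ≤ 1 / ((Q : ℝ) + 1) := by
    rw [hxq] at hx1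
    have e : (q : ℝ) * θ - h = q * (θ - h / q) := by field_simp
    rw [e, abs_mul, abs_of_pos hqr]
    calc (q : ℝ) * |θ - h / q| ≤ q * (1 / (((Q : ℝ) + 1) * q)) :=
          mul_le_mul_of_nonneg_left hx1 hqr.le
      _ = 1 / ((Q : ℝ) + 1) := by field_simp
  have hcop : IsCoprime h (q : ℤ) := by
    rw [Int.isCoprime_iff_gcd_eq_one]
    have := x.reduced
    rw [hh, hq]
    rw [Int.gcd_eq_natAbs]
    simpa using this
  refine ⟨q, h, hq0, hx2, hcop, happ.trans (one_div_le_one_div_of_le hqr (by linarith)), ?_⟩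
  have h1 := hm q h hq0
  have h2 : c * Real.exp (-(B * (1 + Real.log q) ^ 2)) ≤ 1 / Q :=
    h1.trans (happ.trans (one_div_le_one_div_of_le (by linarith) (by linarith)))
  rw [Real.exp_neg] at h2
  have he := Real.exp_pos (B * (1 + Real.log q) ^ 2)
  rw [← div_eq_mul_inv, div_le_div_iff₀ he (by linarith)] at h2
  linarith

/-- the error term -/
noncomputable def err (κ : ℝ) (n : ℕ) : ℝ := n * Real.exp (-(κ * Real.sqrt (Real.log n)))

theorem err_nonneg (κ : ℝ) (n : ℕ) : 0 ≤ err κ n := by unfold err; positivity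

/-- powers below the error term -/
theorem pow_le_err (κ : ℝ) (n : ℕ) (hn : 1 ≤ n) :
    (n : ℝ) ^ (3 / 4 : ℝ) ≤ Real.exp (κ ^ 2) * err κ n := by
  have hn1 : (1 : ℝ) ≤ n := by exact_mod_cast hn
  have hn0 : (0 : ℝ) < n := by linarith
  have hlog : 0 ≤ Real.log n := Real.log_nonneg hn1
  have hs := Real.sq_sqrt hlog
  set s := Real.sqrt (Real.log n) with hsd
  have e1 : (n : ℝ) ^ (3 / 4 : ℝ) = Real.exp (Real.log n * (3 / 4)) := Real.rpow_def_of_pos hn0 _
  have e2 : (n : ℝ) = Real.exp (Real.log n) := (Real.exp_log hn0).symm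
  unfold err
  rw [e1]
  calc Real.exp (Real.log n * (3 / 4)) ≤ Real.exp (κ ^ 2 + (Real.log n + -(κ * s))) := by
        apply Real.exp_le_exp.2
        rw [← hs]
        nlinarith [sq_nonneg (s / 2 - κ)]
    _ = Real.exp (κ ^ 2) * (n * Real.exp (-(κ * s))) := by
        rw [Real.exp_add, Real.exp_add, ← e2]

/-- the counting law with a quasi-polynomial measure; `A` is a bound for the size of the exceptional
terms -/
theorem law (θ c B : ℝ) (hc : 0 < c) (hB : 1 ≤ B)
    (hm : ∀ (q : ℕ) (h : ℤ), 0 < q → c * Real.exp (-(B * (1 + Real.log q) ^ 2)) ≤ |(q : ℝ) * θ - h|) :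
    ∃ C κ : ℝ, 0 < C ∧ 0 < κ ∧ ∀ (A : ℝ), 1 ≤ A → ∀ (G : Finset ℕ) (n : ℕ), G.card ≤ n →
      ∀ t : ℕ → ℕ, Set.InjOn t G →
      (∀ i ∈ G, t i < G.card) → ∀ v : ℕ → ℝ,
      (∀ q : ℕ, 0 < q → ∃ bad : Finset ℕ, (bad.card : ℝ) ≤ A * (q : ℝ) ^ 2 ∧
        ∀ i ∈ G, ∀ j ∈ G, t i / q = t j / q → t i / q ∉ bad → t i ≤ t j →
          ∃ z : ℤ, |v j - v i - ((t j : ℝ) - t i) * θ - z| ≤ 1 / q) →
      ∀ a b : ℝ, 0 ≤ a → a ≤ b → b ≤ 1 →
        |((G.filter fun i => a ≤ Int.fract (v i) ∧ Int.fract (v i) < b).card : ℝ) - (b - a) * G.card| ≤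
          A * C * err κ n := by
  have hB0 : 0 < B := by linarith
  set κ : ℝ := 1 / (2 * Real.sqrt B) with hκ
  have hsB : 0 < Real.sqrt B := Real.sqrt_pos.2 hB0
  have hκ0 : 0 < κ := by positivity
  set R : ℝ := Real.sqrt (|Real.log c| / B) with hR
  set E : ℝ := Real.exp (κ ^ 2) with hE
  have hE0 : 0 < E := Real.exp_pos _
  refine ⟨2 * (5 * Real.exp (1 + R) + 2 * E + 5 * E + 8 * E), κ, by positivity, hκ0, ?_⟩
  intro A hA G n hGn t ht htN v hv a b ha hab hb
  rcases Nat.eq_zero_or_pos n with hn0 | hn0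
  · subst hn0
    have hG : G = ∅ := by rw [← card_eq_zero]; omega
    rw [hG]; simp [err]
  have hn1 : (1 : ℝ) ≤ n := by exact_mod_cast hn0
  have hnpos : (0 : ℝ) < n := by linarith
  have hlogn : 0 ≤ Real.log n := Real.log_nonneg hn1
  have h14 : (1 : ℝ) ≤ (n : ℝ) ^ (1 / 4 : ℝ) := Real.one_le_rpow hn1 (by norm_num)
  set Q : ℕ := ⌈(n : ℝ) ^ (1 / 4 : ℝ)⌉₊ with hQ
  have hQ1 : (n : ℝ) ^ (1 / 4 : ℝ) ≤ Q := Nat.le_ceil _
  have hQ2 : (Q : ℝ) ≤ 2 * (n : ℝ) ^ (1 / 4 : ℝ) := by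
    have := Nat.ceil_lt_add_one (show (0 : ℝ) ≤ (n : ℝ) ^ (1 / 4 : ℝ) by positivity)
    rw [← hQ] at this
    linarith
  have hQpos : 1 ≤ Q := by
    have : (1 : ℝ) ≤ Q := h14.trans hQ1
    exact_mod_cast this
  obtain ⟨q, h, hq0, hqQ, hcop, happ, hqbig⟩ := good_den θ c B hm Q hQpos
  have hqr : (0 : ℝ) < q := by exact_mod_cast hq0
  have hq1 : (1 : ℝ) ≤ q := by exact_mod_cast hq0
  have hlogq : 0 ≤ Real.log q := Real.log_nonneg hq1
  have hqQr : (q : ℝ) ≤ 2 * (n : ℝ) ^ (1 / 4 : ℝ) := by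
    have : (q : ℝ) ≤ Q := by exact_mod_cast hqQ
    linarith
  obtain ⟨bad, hbad, hv⟩ := hv q hq0
  have key := count_two q h hq0 hcop θ happ G t ht htN v bad hv a b ha hab hb
  refine key.trans ?_
  have hpe := pow_le_err κ n hn0
  have herr := err_nonneg κ n
  -- n / q
  have e1 : (G.card : ℝ) / q ≤ Real.exp (1 + R) * err κ n := by
    have g1 : (G.card : ℝ) / q ≤ n / q :=
      div_le_div_of_nonneg_right (by exact_mod_cast hGn) hqr.le
    refine g1.trans ?_
    -- lower bound for log q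
    have g2 : Real.log n / 4 ≤ B * (1 + Real.log q) ^ 2 + |Real.log c| := by
      have g3 : c * (n : ℝ) ^ (1 / 4 : ℝ) ≤ Real.exp (B * (1 + Real.log q) ^ 2) :=
        (mul_le_mul_of_nonneg_left hQ1 hc.le).trans hqbig
      have g4 := Real.log_le_log (by positivity) g3
      rw [Real.log_exp, Real.log_mul hc.ne' (by positivity), Real.log_rpow hnpos] at g4
      have := neg_abs_le (Real.log c)
      linarith
    have g5 : κ * Real.sqrt (Real.log n) ≤ (1 + Real.log q) + R := by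
      have g6 : Real.log n / (4 * B) ≤ ((1 + Real.log q) + R) ^ 2 := by
        have g7 : R ^ 2 = |Real.log c| / B := Real.sq_sqrt (by positivity)
        have g8 : Real.log n / (4 * B) ≤ (1 + Real.log q) ^ 2 + |Real.log c| / B := by
          rw [div_le_iff₀ (by positivity)]
          have : ((1 + Real.log q) ^ 2 + |Real.log c| / B) * (4 * B) =
              4 * (B * (1 + Real.log q) ^ 2 + |Real.log c|) := by field_simp
          rw [this]; linarith
        have g9 : 0 ≤ R := Real.sqrt_nonneg _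
        have g10 : 0 ≤ (1 + Real.log q) * R := by positivity
        nlinarith
      have g11 : κ * Real.sqrt (Real.log n) = Real.sqrt (Real.log n / (4 * B)) := by
        rw [Real.sqrt_div hlogn, Real.sqrt_mul (by norm_num)]
        have : Real.sqrt 4 = 2 := by
          rw [show (4 : ℝ) = 2 ^ 2 by norm_num]; exact Real.sqrt_sq (by norm_num)
        rw [this, hκ]; field_simp
      rw [g11]
      have g12 : 0 ≤ (1 + Real.log q) + R := by
        have : 0 ≤ R := Real.sqrt_nonneg _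
        linarith
      rw [← Real.sqrt_sq g12]
      exact Real.sqrt_le_sqrt g6
    have g13 : 1 / (q : ℝ) ≤ Real.exp (1 + R) * Real.exp (-(κ * Real.sqrt (Real.log n))) := by
      rw [← Real.exp_add]
      have g14 : (1 : ℝ) / q = Real.exp (-Real.log q) := by
        rw [Real.exp_neg, Real.exp_log hqr, one_div]
      rw [g14]
      apply Real.exp_le_exp.2
      linarith
    unfold err
    calc (n : ℝ) / q = n * (1 / q) := by ring
      _ ≤ n * (Real.exp (1 + R) * Real.exp (-(κ * Real.sqrt (Real.log n)))) :=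
          mul_le_mul_of_nonneg_left g13 hnpos.le
      _ = _ := by ring
  -- q
  have e2 : (q : ℝ) ≤ 2 * E * err κ n := by
    have g1 : (n : ℝ) ^ (1 / 4 : ℝ) ≤ (n : ℝ) ^ (3 / 4 : ℝ) :=
      Real.rpow_le_rpow_of_exponent_le hn1 (by norm_num)
    calc (q : ℝ) ≤ 2 * (n : ℝ) ^ (1 / 4 : ℝ) := hqQr
      _ ≤ 2 * (n : ℝ) ^ (3 / 4 : ℝ) := mul_le_mul_of_nonneg_left g1 (by norm_num)
      _ ≤ 2 * (E * err κ n) := mul_le_mul_of_nonneg_left hpe (by norm_num)
      _ = _ := by ring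
  have e4 : (5 : ℝ) ≤ 5 * E * err κ n := by
    have g1 : (1 : ℝ) ≤ (n : ℝ) ^ (3 / 4 : ℝ) := Real.one_le_rpow hn1 (by norm_num)
    have g2 := g1.trans hpe
    rw [← hE] at g2
    linarith
  -- q * bad
  have e3 : (q : ℝ) * bad.card ≤ A * (8 * E * err κ n) := by
    have g1 : (q : ℝ) * (q : ℝ) ^ 2 ≤ 8 * (n : ℝ) ^ (3 / 4 : ℝ) := by
      have g2 := pow_le_pow_left₀ hqr.le hqQr 3
      have g3 : (2 * (n : ℝ) ^ (1 / 4 : ℝ)) ^ 3 = 8 * (n : ℝ) ^ (3 / 4 : ℝ) := by
        rw [mul_pow, ← Real.rpow_natCast ((n : ℝ) ^ (1 / 4 : ℝ)), ← Real.rpow_mul hnpos.le]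
        norm_num
      rw [g3] at g2
      calc (q : ℝ) * (q : ℝ) ^ 2 = (q : ℝ) ^ 3 := by ring
        _ ≤ _ := g2
    calc (q : ℝ) * bad.card ≤ q * (A * (q : ℝ) ^ 2) :=
          mul_le_mul_of_nonneg_left hbad hqr.le
      _ = A * (q * (q : ℝ) ^ 2) := by ring
      _ ≤ A * (8 * (n : ℝ) ^ (3 / 4 : ℝ)) := mul_le_mul_of_nonneg_left g1 (by linarith)
      _ ≤ A * (8 * (E * err κ n)) :=
          mul_le_mul_of_nonneg_left (mul_le_mul_of_nonneg_left hpe (by norm_num)) (by linarith)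
      _ = _ := by ring
  have f1 : 0 ≤ Real.exp (1 + R) * err κ n := by positivity
  have f2 : 0 ≤ E * err κ n := by positivity
  nlinarith [mul_nonneg (sub_nonneg.2 hA) f1, mul_nonneg (sub_nonneg.2 hA) f2]

/-- the measure for `log 2 / log a`, `a` an odd prime -/
theorem lin_form {a : ℕ} (ha : a.Prime) (ha2 : a ≠ 2) : ∃ B : ℝ, 1 ≤ B ∧ ∀ u v : ℕ, 1 ≤ u → 1 ≤ v →
    Real.exp (-(B * (1 + Real.log (u + v)) ^ 2)) ≤ |(v : ℝ) * Real.log a - u * Real.log 2| := by
  set Y : ℕ := ⌈Real.log a⌉₊ + 1 with hY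
  have hY1 : 1 ≤ Y := by omega
  have hYR : (1 : ℝ) ≤ Y := by exact_mod_cast hY1
  have haY : Real.log a ≤ Y := by
    have := Nat.le_ceil (Real.log a)
    rw [hY]; push_cast; linarith
  have h2Y : Real.log (2 : ℕ) ≤ Y := by
    have := Real.log_two_lt_d9
    push_cast
    linarith
  set K : ℝ := 16 * (1 + Real.log (4640 * Y)) with hK
  have hlogY : 0 ≤ Real.log (4640 * Y) := Real.log_nonneg (by linarith)
  have hK16 : 16 ≤ K := by rw [hK]; linarith
  refine ⟨20880 * (Y : ℝ) ^ 2 * (K + 1) ^ 2, ?_, ?_⟩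
  · have h1 : (1 : ℝ) ≤ (Y : ℝ) ^ 2 := one_le_pow₀ hYR
    have h2 : (1 : ℝ) ≤ (K + 1) ^ 2 := one_le_pow₀ (by linarith)
    nlinarith
  intro u v hu hv
  have huR : (1 : ℝ) ≤ u := by exact_mod_cast hu
  have hvR : (1 : ℝ) ≤ v := by exact_mod_cast hv
  have hN0 : (0 : ℝ) < (u : ℝ) + v := by linarith
  have hlogN : 0 ≤ Real.log ((u : ℝ) + v) := Real.log_nonneg (by linarith)
  set L : ℕ := ⌈K * (1 + Real.log (u + v))⌉₊ with hL
  have hKp : 16 ≤ K * (1 + Real.log (u + v)) := by nlinarith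
  have hLge : K * (1 + Real.log (u + v)) ≤ L := Nat.le_ceil _
  have hL16 : (16 : ℝ) ≤ L := by linarith
  have hL1 : 1 ≤ L := by
    have : (1 : ℝ) ≤ L := by linarith
    exact_mod_cast this
  have hLle : (L : ℝ) ≤ (K + 1) * (1 + Real.log (u + v)) := by
    have := Nat.ceil_lt_add_one (show (0 : ℝ) ≤ K * (1 + Real.log (u + v)) by linarith)
    rw [← hL] at this
    nlinarith
  have hlfl := Pool.Agent.H440R2.lfl 2 a u v Y L Nat.prime_two ha (Ne.symm ha2) hu hv hY1 hL1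
    h2Y haY (by
      have hL0 : (0 : ℝ) < L := by linarith
      have h5 : Real.log (L / 16) ≤ L / 16 - 1 := Real.log_le_sub_one_of_pos (by positivity)
      have h6 : Real.log (290 * Y * L * ((u : ℝ) + v)) =
          Real.log (4640 * Y) + Real.log (L / 16) + Real.log (u + v) := by
        rw [← Real.log_mul (by positivity) (by positivity), ← Real.log_mul (by positivity)
          (by positivity)]
        congr 1; ring
      rw [h6]
      have h7 : K * (1 + Real.log (u + v)) ≥ 16 * (1 + Real.log (4640 * Y)) + 16 * Real.log (u + v) := by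
        rw [hK]
        nlinarith
      linarith)
  have h10 : (L : ℝ) ^ 2 ≤ (K + 1) ^ 2 * (1 + Real.log (u + v)) ^ 2 := by
    rw [← mul_pow]
    exact pow_le_pow_left₀ (by positivity) hLle 2
  refine le_trans ?_ (le_of_lt (by push_cast at hlfl; exact hlfl))
  apply Real.exp_le_exp.2
  have : 20880 * (Y : ℝ) ^ 2 * (L : ℝ) ^ 2 ≤
      20880 * (Y : ℝ) ^ 2 * ((K + 1) ^ 2 * (1 + Real.log (u + v)) ^ 2) :=
    mul_le_mul_of_nonneg_left h10 (by positivity)
  linarith

end Pool.Agent.N903.BG
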