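import Mathlib
import Pool.Agent.N903.BenfordG

set_option autoImplicit false

namespace Pool.Agent.N903.BG

open Finset Pool.Agent.N903.BF

theorem exp_conv {B M q s : ℝ} (hB : 0 ≤ B) (hM : 1 ≤ M) (hq : 1 ≤ q) (hs0 : 0 < s) (hs : s ≤ M * q) :
    Real.exp (-(B * (1 + Real.log M) ^ 2 * (1 + Real.log q) ^ 2)) ≤
      Real.exp (-(B * (1 + Real.log s) ^ 2)) ∨ s < 1 := by
  rcases lt_or_ge s 1 with h1 | h1
  · right; exact h1
  left
  apply Real.exp_le_exp.2
  have hlM : 0 ≤ Real.log M := Real.log_nonneg hM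
  have hlq : 0 ≤ Real.log q := Real.log_nonneg hq
  have hls : 0 ≤ Real.log s := Real.log_nonneg h1
  have h2 : Real.log s ≤ Real.log M + Real.log q := by
    rw [← Real.log_mul (by linarith) (by linarith)]
    exact Real.log_le_log hs0 hs
  have h3 : 1 + Real.log s ≤ (1 + Real.log M) * (1 + Real.log q) := by nlinarith
  have h4 : (1 + Real.log s) ^ 2 ≤ ((1 + Real.log M) * (1 + Real.log q)) ^ 2 :=
    pow_le_pow_left₀ (by linarith) h3 2
  rw [mul_pow] at h4
  have h5 := mul_le_mul_of_nonneg_left h4 hB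
  have h6 : B * (1 + Real.log M) ^ 2 * (1 + Real.log q) ^ 2 =
      B * ((1 + Real.log M) ^ 2 * (1 + Real.log q) ^ 2) := by ring
  rw [h6]
  linarith

theorem measure_down {a : ℕ} (ha : a.Prime) (ha2 : a ≠ 2) : ∃ c B : ℝ, 0 < c ∧ 1 ≤ B ∧
    ∀ (q : ℕ) (h : ℤ), 0 < q →
    c * Real.exp (-(B * (1 + Real.log q) ^ 2)) ≤ |(q : ℝ) * (-(Real.log 2 / Real.log a)) - h| := by
  obtain ⟨B, hB, hm⟩ := lin_form ha ha2
  have ha3 : 3 ≤ a := by have := ha.two_le; omega
  have haR : (3 : ℝ) ≤ a := by exact_mod_cast ha3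
  have hl2 : 0 < Real.log 2 := Real.log_pos (by norm_num)
  have hla : 0 < Real.log a := Real.log_pos (by linarith)
  have hr1 : Real.log 2 / Real.log a < 1 := by
    rw [div_lt_one hla]; exact Real.log_lt_log (by norm_num) (by linarith)
  have hr0 : 0 < Real.log 2 / Real.log a := by positivity
  have hl3 : 0 ≤ Real.log 3 := Real.log_nonneg (by norm_num)
  have hB' : 1 ≤ B * (1 + Real.log 3) ^ 2 := by
    have : (1 : ℝ) ≤ (1 + Real.log 3) ^ 2 := one_le_pow₀ (by linarith)
    nlinarith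
  refine ⟨min (Real.log 2 / Real.log a) (1 / Real.log a), B * (1 + Real.log 3) ^ 2,
    lt_min hr0 (by positivity), hB', ?_⟩
  intro q h hq
  have hq1 : (1 : ℝ) ≤ q := by exact_mod_cast hq
  have hexp1 : Real.exp (-(B * (1 + Real.log 3) ^ 2 * (1 + Real.log q) ^ 2)) ≤ 1 := by
    rw [Real.exp_le_one_iff]
    have : 0 ≤ B * (1 + Real.log 3) ^ 2 * (1 + Real.log q) ^ 2 := by positivity
    linarith
  have hexp0 := Real.exp_pos (-(B * (1 + Real.log 3) ^ 2 * (1 + Real.log q) ^ 2))
  set d := (q : ℝ) * (-(Real.log 2 / Real.log a)) - h with hd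
  rcases le_or_gt 1 |d| with hbig | hsmall
  · calc min (Real.log 2 / Real.log a) (1 / Real.log a) * _ ≤
        (Real.log 2 / Real.log a) * 1 := by
          apply mul_le_mul (min_le_left _ _) hexp1 hexp0.le hr0.le
      _ ≤ |d| := by linarith
  rcases le_or_gt 0 h with hh | hh
  · -- `h ≥ 0`
    have hh' : (0 : ℝ) ≤ h := by exact_mod_cast hh
    have h1 : Real.log 2 / Real.log a ≤ |d| := by
      rw [hd, ← abs_neg, le_abs]
      left
      nlinarith
    calc min (Real.log 2 / Real.log a) (1 / Real.log a) * _ ≤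
        (Real.log 2 / Real.log a) * 1 := by
          apply mul_le_mul (min_le_left _ _) hexp1 hexp0.le hr0.le
      _ ≤ |d| := by linarith
  · obtain ⟨v, hv⟩ := Int.eq_ofNat_of_zero_le (show 0 ≤ -h by omega)
    have hv1 : 1 ≤ v := by omega
    have hvh : (h : ℝ) = -(v : ℝ) := by
      have : h = -(v : ℤ) := by omega
      rw [this]; push_cast; ring
    have hvq : (v : ℝ) ≤ 2 * q := by
      have h1 := (abs_lt.1 hsmall).2
      rw [hd, hvh] at h1
      nlinarith
    have h1 := hm q v hq hv1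
    have h2 : |(v : ℝ) * Real.log a - q * Real.log 2| = Real.log a * |d| := by
      rw [hd, hvh, ← abs_of_pos hla, ← abs_mul, abs_of_pos hla]
      congr 1
      field_simp
      ring
    rw [h2] at h1
    have h3 := (exp_conv (B := B) (by linarith) (show (1 : ℝ) ≤ 3 by norm_num) hq1
      (show (0 : ℝ) < (q : ℝ) + v by positivity) (by linarith)).resolve_right (by
        have : (1 : ℝ) ≤ v := by exact_mod_cast hv1
        push Not
        linarith)
    have h4 := h3.trans h1
    calc min (Real.log 2 / Real.log a) (1 / Real.log a) *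
          Real.exp (-(B * (1 + Real.log 3) ^ 2 * (1 + Real.log q) ^ 2)) ≤
        (1 / Real.log a) * (Real.log a * |d|) := by
          apply mul_le_mul (min_le_right _ _) h4 hexp0.le (by positivity)
      _ = |d| := by field_simp

theorem measure_up {a : ℕ} (ha : a.Prime) (ha2 : a ≠ 2) : ∃ c B : ℝ, 0 < c ∧ 1 ≤ B ∧
    ∀ (q : ℕ) (h : ℤ), 0 < q →
    c * Real.exp (-(B * (1 + Real.log q) ^ 2)) ≤ |(q : ℝ) * (Real.log a / Real.log 2) - h| := by
  obtain ⟨B, hB, hm⟩ := lin_form ha ha2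
  have ha3 : 3 ≤ a := by have := ha.two_le; omega
  have haR : (3 : ℝ) ≤ a := by exact_mod_cast ha3
  have hl2 : 0 < Real.log 2 := Real.log_pos (by norm_num)
  have hl21 : Real.log 2 < 1 := by have := Real.log_two_lt_d9; linarith
  have hla : 0 < Real.log a := Real.log_pos (by linarith)
  set r := Real.log a / Real.log 2 with hr
  have hr1 : 1 < r := by
    rw [hr, lt_div_iff₀ hl2, one_mul]; exact Real.log_lt_log (by norm_num) (by linarith)
  have hM : 1 ≤ r + 2 := by linarith
  have hlM : 0 ≤ Real.log (r + 2) := Real.log_nonneg hM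
  have hB' : 1 ≤ B * (1 + Real.log (r + 2)) ^ 2 := by
    have : (1 : ℝ) ≤ (1 + Real.log (r + 2)) ^ 2 := one_le_pow₀ (by linarith)
    nlinarith
  refine ⟨1, B * (1 + Real.log (r + 2)) ^ 2, one_pos, hB', ?_⟩
  intro q h hq
  have hq1 : (1 : ℝ) ≤ q := by exact_mod_cast hq
  have hexp1 : Real.exp (-(B * (1 + Real.log (r + 2)) ^ 2 * (1 + Real.log q) ^ 2)) ≤ 1 := by
    rw [Real.exp_le_one_iff]
    have : 0 ≤ B * (1 + Real.log (r + 2)) ^ 2 * (1 + Real.log q) ^ 2 := by positivity
    linarith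
  rw [one_mul]
  set d := (q : ℝ) * r - h with hd
  rcases le_or_gt 1 |d| with hbig | hsmall
  · exact hexp1.trans hbig
  rcases le_or_gt h 0 with hh | hh
  · have hh' : (h : ℝ) ≤ 0 := by exact_mod_cast hh
    have h1 : 1 ≤ |d| := by
      rw [hd, le_abs]
      left
      nlinarith
    linarith
  · obtain ⟨u, hu⟩ := Int.eq_ofNat_of_zero_le hh.le
    have hu1 : 1 ≤ u := by omega
    have huh : (h : ℝ) = (u : ℝ) := by rw [hu]; push_cast; ring
    have huq : (u : ℝ) ≤ (r + 1) * q := by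
      have h1 := (abs_lt.1 hsmall).1
      rw [hd, huh] at h1
      nlinarith
    have h1 := hm u q hu1 hq
    have h2 : |(q : ℝ) * Real.log a - u * Real.log 2| = Real.log 2 * |d| := by
      rw [hd, huh, ← abs_of_pos hl2, ← abs_mul, abs_of_pos hl2]
      congr 1
      rw [hr]
      field_simp
    rw [h2] at h1
    have h3 := (exp_conv (B := B) (by linarith) hM hq1
      (show (0 : ℝ) < (u : ℝ) + q by positivity) (by linarith)).resolve_right (by
        have : (1 : ℝ) ≤ u := by exact_mod_cast hu1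
        push Not
        linarith)
    have h4 := h3.trans h1
    refine h4.trans ?_
    have := abs_nonneg d
    nlinarith

/-- **Base `a`.** -/
theorem base_a {a : ℕ} (ha : a.Prime) (ha2 : a ≠ 2) : ∃ C κ : ℝ, 0 < C ∧ 0 < κ ∧
    ∀ b : ℤ, b % 2 = 1 → ∀ (x : ℤ) (n : ℕ), Set.InjOn (fun i => (T a b)^[i] x) (Set.Iio n) →
    ∀ s t : ℝ, 0 ≤ s → s ≤ t → t ≤ 1 →
      |(((range n).filter fun i => s ≤ Int.fract (Real.logb a |(((T a b)^[i] x : ℤ) : ℝ)|) ∧
        Int.fract (Real.logb a |(((T a b)^[i] x : ℤ) : ℝ)|) < t).card : ℝ) - (t - s) * n| ≤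
        |(b : ℝ)| * C * err κ n := by
  obtain ⟨c, B, hc, hB, hm⟩ := measure_down ha ha2
  obtain ⟨C, κ, hC, hκ, hlaw⟩ := law _ c B hc hB hm
  have ha3 : 3 ≤ a := by have := ha.two_le; omega
  have haR : (3 : ℝ) ≤ a := by exact_mod_cast ha3
  have haZ : (3 : ℤ) ≤ (a : ℤ) := by exact_mod_cast ha3
  have haodd : (a : ℤ) % 2 = 1 := by
    rcases ha.eq_two_or_odd with h | h
    · exact absurd h ha2
    · omega
  have hla1 : 1 < Real.log a := by
    rw [Real.lt_log_iff_exp_lt (by linarith)]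
    have := Real.exp_one_lt_d9
    linarith
  have hla : 0 < Real.log a := by linarith
  refine ⟨3 * C, κ, by positivity, hκ, ?_⟩
  intro b hb x n hinj s t hs hst ht
  have hb1 : (1 : ℝ) ≤ |(b : ℝ)| := by
    have h1 : b ≠ 0 := by rintro rfl; simp at hb
    have h2 : 1 ≤ |b| := Int.one_le_abs h1
    exact_mod_cast h2
  have key := hlaw (3 * |(b : ℝ)|) (by linarith) (range n) n (by rw [card_range]) (fun i => i)
    (fun i _ j _ h => h)
    (fun i hi => by rw [card_range]; exact mem_range.1 hi)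
    (fun i => Real.logb a |(((T a b)^[i] x : ℤ) : ℝ)|) (by
    intro q hq
    have hqr : (1 : ℝ) ≤ q := by exact_mod_cast hq
    have hq2 : (1 : ℝ) ≤ (q : ℝ) ^ 2 := one_le_pow₀ hqr
    have hX1 : 1 ≤ |(b : ℝ)| * (q : ℝ) ^ 2 := by nlinarith
    have hbX : |(b : ℝ)| ≤ |(b : ℝ)| * (q : ℝ) ^ 2 := le_mul_of_one_le_right (by linarith) hq2
    have hsb := small_blocks (fun i => (T a b)^[i] x) n hinj (fun i => i) q (|(b : ℝ)| * (q : ℝ) ^ 2) hX1
    refine ⟨_, hsb.trans (le_of_eq (by ring)), ?_⟩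
    intro i hi j hj hij hbad hle
    rw [mem_range] at hi hj
    obtain ⟨k, rfl⟩ := Nat.exists_eq_add_of_le hle
    have hlog := log_piece haZ haodd hb x i k (|(b : ℝ)| * (q : ℝ) ^ 2) (by linarith) hbX (by
      intro l h1 h2
      by_contra hlt
      push Not at hlt
      apply hbad
      rw [mem_image]
      refine ⟨l, by rw [mem_filter, mem_range]; exact ⟨by omega, hlt⟩, ?_⟩
      have e1 : i / q ≤ l / q := Nat.div_le_div_right h1
      have e2 : l / q ≤ (i + k) / q := Nat.div_le_div_right (by omega)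
      omega)
    have hod : ((od a b (i + k) x : ℝ) - od a b i x) ≤ q := by
      have h1 : od a b (i + k) x ≤ od a b i x + k := od_add_le i k
      have h2 : k ≤ q := by
        have e1 := Nat.div_add_mod i q
        have e2 := Nat.div_add_mod (i + k) q
        have e3 := Nat.mod_lt (i + k) hq
        rw [← hij] at e2
        have : i % q ≤ i := Nat.mod_le _ _
        omega
      have h3 : (od a b (i + k) x : ℝ) ≤ od a b i x + k := by exact_mod_cast h1
      have h4 : (k : ℝ) ≤ q := by exact_mod_cast h2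
      linarith
    refine ⟨(od a b (i + k) x : ℤ) - od a b i x, ?_⟩
    have e : Real.logb a |(((T a b)^[i + k] x : ℤ) : ℝ)| - Real.logb a |(((T a b)^[i] x : ℤ) : ℝ)| -
        (((i + k : ℕ) : ℝ) - (i : ℕ)) * -(Real.log 2 / Real.log a) -
        (((od a b (i + k) x : ℤ) - od a b i x : ℤ) : ℝ) =
        (Real.log |(((T a b)^[i + k] x : ℤ) : ℝ)| - Real.log |(((T a b)^[i] x : ℤ) : ℝ)| +
        k * Real.log 2 - ((od a b (i + k) x : ℝ) - od a b i x) * Real.log a) / Real.log a := by
      unfold Real.logb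
      push_cast
      field_simp
      ring
    rw [e, abs_div, abs_of_pos hla, div_le_iff₀ hla]
    push_cast at hlog
    refine hlog.trans ?_
    have h6 : |(b : ℝ)| / (|(b : ℝ)| * (q : ℝ) ^ 2) = 1 / (q : ℝ) ^ 2 := by
      field_simp
    rw [h6]
    have h5 : ((od a b (i + k) x : ℝ) - od a b i x) * (1 / (q : ℝ) ^ 2) ≤ q * (1 / (q : ℝ) ^ 2) :=
      mul_le_mul_of_nonneg_right hod (by positivity)
    refine h5.trans ?_
    have h7 : (q : ℝ) * (1 / (q : ℝ) ^ 2) = 1 / q * 1 := by field_simp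
    rw [h7]
    exact mul_le_mul_of_nonneg_left hla1.le (by positivity)) s t hs hst ht
  rw [card_range] at key
  refine key.trans (le_of_eq ?_)
  ring

/-- the odd indices below `n` -/
def odds (a b : ℤ) (n : ℕ) (x : ℤ) : Finset ℕ := (range n).filter fun i => ((T a b)^[i] x) % 2 = 1

theorem odds_card (a b : ℤ) (n : ℕ) (x : ℤ) : (odds a b n x).card = od a b n x := rfl

/-- **Base two.** -/
theorem base_two {a : ℕ} (ha : a.Prime) (ha2 : a ≠ 2) : ∃ C κ : ℝ, 0 < C ∧ 0 < κ ∧
    ∀ b : ℤ, b % 2 = 1 → ∀ (x : ℤ) (n : ℕ), Set.InjOn (fun i => (T a b)^[i] x) (Set.Iio n) →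
    ∀ s t : ℝ, 0 ≤ s → s ≤ t → t ≤ 1 →
      |(((odds a b n x).filter fun i => s ≤ Int.fract (Real.logb 2 |(((T a b)^[i] x : ℤ) : ℝ)|) ∧
        Int.fract (Real.logb 2 |(((T a b)^[i] x : ℤ) : ℝ)|) < t).card : ℝ) -
        (t - s) * (odds a b n x).card| ≤ |(b : ℝ)| * C * err κ n := by
  obtain ⟨c, B, hc, hB, hm⟩ := measure_up ha ha2
  obtain ⟨C, κ, hC, hκ, hlaw⟩ := law _ c B hc hB hm
  have ha3 : 3 ≤ a := by have := ha.two_le; omega
  have haR : (3 : ℝ) ≤ a := by exact_mod_cast ha3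
  have haZ : (3 : ℤ) ≤ (a : ℤ) := by exact_mod_cast ha3
  have haodd : (a : ℤ) % 2 = 1 := by
    rcases ha.eq_two_or_odd with h | h
    · exact absurd h ha2
    · omega
  have hl2 : 0 < Real.log 2 := Real.log_pos (by norm_num)
  have hl21 : 1 / 2 < Real.log 2 := by
    have := Real.log_two_gt_d9
    linarith
  refine ⟨6 * C, κ, by positivity, hκ, ?_⟩
  intro b hb x n hinj s t hs hst ht
  have hb1 : (1 : ℝ) ≤ |(b : ℝ)| := by
    have h1 : b ≠ 0 := by rintro rfl; simp at hb
    have h2 : 1 ≤ |b| := Int.one_le_abs h1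
    exact_mod_cast h2
  have hodd : ∀ i ∈ odds a b n x, i < n ∧ ((T a b)^[i] x) % 2 = 1 := by
    intro i hi
    unfold odds at hi
    rw [mem_filter, mem_range] at hi
    exact hi
  have key := hlaw (6 * |(b : ℝ)|) (by linarith) (odds a b n x) n (by rw [odds_card]; exact od_le _ _ _ _)
    (fun i => od a b i x) ?_ ?_
    (fun i => Real.logb 2 |(((T a b)^[i] x : ℤ) : ℝ)|) ?_ s t hs hst ht
  · refine key.trans (le_of_eq ?_)
    ring
  · intro i hi j hj hij
    have hi' := hodd i hi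
    have hj' := hodd j hj
    simp only at hij
    rcases lt_trichotomy i j with h | h | h
    · have := od_lt_of_odd hi'.2 h; omega
    · exact h
    · have := od_lt_of_odd hj'.2 h; omega
  · intro i hi
    have hi' := hodd i hi
    rw [odds_card]
    exact od_lt_of_odd hi'.2 hi'.1
  · intro q hq
    have hqr : (1 : ℝ) ≤ q := by exact_mod_cast hq
    have hq2 : (1 : ℝ) ≤ (q : ℝ) ^ 2 := one_le_pow₀ hqr
    have hX1 : 1 ≤ 2 * |(b : ℝ)| * (q : ℝ) ^ 2 := by nlinarith
    have hbX : |(b : ℝ)| ≤ 2 * |(b : ℝ)| * (q : ℝ) ^ 2 := by nlinarith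
    have hsb := small_blocks (fun i => (T a b)^[i] x) n hinj (fun i => od a b i x) q
      (2 * |(b : ℝ)| * (q : ℝ) ^ 2) hX1
    refine ⟨_, hsb.trans (le_of_eq (by ring)), ?_⟩
    intro i hi j hj hij hbad hle
    have hi' := hodd i hi
    have hj' := hodd j hj
    have hle' : i ≤ j := by
      by_contra hlt
      push Not at hlt
      have := od_lt_of_odd hj'.2 hlt
      omega
    obtain ⟨k, rfl⟩ := Nat.exists_eq_add_of_le hle'
    have hlog := log_piece haZ haodd hb x i k (2 * |(b : ℝ)| * (q : ℝ) ^ 2) (by linarith) hbX (by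
      intro l h1 h2
      by_contra hlt
      push Not at hlt
      apply hbad
      rw [mem_image]
      refine ⟨l, by rw [mem_filter, mem_range]; exact ⟨by omega, hlt⟩, ?_⟩
      have e1 : od a b i x / q ≤ od a b l x / q := Nat.div_le_div_right (od_mono h1)
      have e2 : od a b l x / q ≤ od a b (i + k) x / q := Nat.div_le_div_right (od_mono (by omega))
      omega)
    have hod : ((od a b (i + k) x : ℝ) - od a b i x) ≤ q := by
      have h2 : od a b (i + k) x ≤ od a b i x + q := by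
        have e1 := Nat.div_add_mod (od a b i x) q
        have e2 := Nat.div_add_mod (od a b (i + k) x) q
        have e3 := Nat.mod_lt (od a b (i + k) x) hq
        rw [← hij] at e2
        omega
      have h3 : (od a b (i + k) x : ℝ) ≤ od a b i x + q := by exact_mod_cast h2
      linarith
    refine ⟨-(k : ℤ), ?_⟩
    have e : Real.logb 2 |(((T a b)^[i + k] x : ℤ) : ℝ)| - Real.logb 2 |(((T a b)^[i] x : ℤ) : ℝ)| -
        ((od a b (i + k) x : ℝ) - (od a b i x : ℝ)) * (Real.log a / Real.log 2) - ((-(k : ℤ) : ℤ) : ℝ) =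
        (Real.log |(((T a b)^[i + k] x : ℤ) : ℝ)| - Real.log |(((T a b)^[i] x : ℤ) : ℝ)| +
        k * Real.log 2 - ((od a b (i + k) x : ℝ) - od a b i x) * Real.log a) / Real.log 2 := by
      unfold Real.logb
      push_cast
      field_simp
      ring
    rw [e, abs_div, abs_of_pos hl2, div_le_iff₀ hl2]
    push_cast at hlog
    refine hlog.trans ?_
    have h6 : |(b : ℝ)| / (2 * |(b : ℝ)| * (q : ℝ) ^ 2) = 1 / (2 * (q : ℝ) ^ 2) := by
      field_simp
    rw [h6]
    have h5 : ((od a b (i + k) x : ℝ) - od a b i x) * (1 / (2 * (q : ℝ) ^ 2)) ≤ q * (1 / (2 * (q : ℝ) ^ 2)) :=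
      mul_le_mul_of_nonneg_right hod (by positivity)
    refine h5.trans ?_
    have h7 : (q : ℝ) * (1 / (2 * (q : ℝ) ^ 2)) = 1 / q * (1 / 2) := by field_simp
    rw [h7]
    apply mul_le_mul_of_nonneg_left _ (by positivity)
    linarith

end Pool.Agent.N903.BG
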