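import Mathlib

set_option autoImplicit false

/-!
A larger sieve argument for sets of integers whose images under several affine maps are composed of
the primes of a given finite set.
-/

namespace Pool.Agent.N903.SV

open Finset

/-- the truncated logarithmic mass of `n` on the primes of `S` -/
noncomputable def tau (S : Finset ℕ) (E : ℕ → ℕ) (n : ℕ) : ℝ :=
  ∑ l ∈ S, ((min (n.factorization l) (E l) : ℕ) : ℝ) * Real.log l

theorem mass_eq_log {S : Finset ℕ} {n : ℕ} (h : n.primeFactors ⊆ S) :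
    ∑ l ∈ S, (n.factorization l : ℝ) * Real.log l = Real.log n := by
  rw [Real.log_nat_eq_sum_factorization, Finsupp.sum, Nat.support_factorization]
  symm
  apply sum_subset h
  intro p _ hp
  have : n.factorization p = 0 := by
    rw [← Nat.support_factorization, Finsupp.notMem_support_iff] at hp
    exact hp
  rw [this]; simp

theorem mass_le_log (S : Finset ℕ) (n : ℕ) :
    ∑ l ∈ S, (n.factorization l : ℝ) * Real.log l ≤ Real.log n := by
  rw [← mass_eq_log (S := S ∪ n.primeFactors) subset_union_right]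
  apply sum_le_sum_of_subset_of_nonneg subset_union_left
  intro i _ _
  exact mul_nonneg (Nat.cast_nonneg _) (Real.log_natCast_nonneg _)

theorem tau_le_mass (S : Finset ℕ) (E : ℕ → ℕ) (n : ℕ) :
    tau S E n ≤ ∑ l ∈ S, (n.factorization l : ℝ) * Real.log l := by
  unfold tau
  apply sum_le_sum
  intro l _
  apply mul_le_mul_of_nonneg_right _ (Real.log_natCast_nonneg _)
  exact_mod_cast min_le_left _ _

theorem tau_le_log (S : Finset ℕ) (E : ℕ → ℕ) (n : ℕ) : tau S E n ≤ Real.log n :=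
  (tau_le_mass S E n).trans (mass_le_log S n)

/-- the prime powers -/
def Q (S : Finset ℕ) (E : ℕ → ℕ) : Finset ((_ : ℕ) × ℕ) := S.sigma fun l => Icc 1 (E l)

theorem sum_Q {S : Finset ℕ} (hS : ∀ l ∈ S, l.Prime) (E : ℕ → ℕ) {n : ℕ} (hn : n ≠ 0) :
    ∑ q ∈ Q S E, (if q.1 ^ q.2 ∣ n then Real.log (q.1 : ℕ) else 0) = tau S E n := by
  unfold Q tau
  rw [sum_sigma]
  apply sum_congr rfl
  intro l hl
  dsimp only
  rw [← sum_filter, sum_const, nsmul_eq_mul]
  congr 2
  have : (Icc 1 (E l)).filter (fun e => l ^ e ∣ n) = Icc 1 (min (n.factorization l) (E l)) := by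
    ext e
    simp only [mem_filter, mem_Icc, le_min_iff]
    rw [(hS l hl).pow_dvd_iff_le_factorization hn]
    tauto
  rw [this, Nat.card_Icc]
  omega

theorem sum_Q_all {S : Finset ℕ} (E : ℕ → ℕ) {β : ℕ}
    (hE : ∀ l ∈ S, (E l : ℝ) * Real.log l ≤ β * Real.log 2) :
    ∑ q ∈ Q S E, Real.log (q.1 : ℕ) ≤ S.card * β * Real.log 2 := by
  unfold Q
  rw [sum_sigma]
  have : ∀ l ∈ S, ∑ _e ∈ Icc 1 (E l), Real.log (l : ℕ) ≤ β * Real.log 2 := by
    intro l hl
    rw [sum_const, nsmul_eq_mul, Nat.card_Icc]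
    have := hE l hl
    rw [show E l + 1 - 1 = E l by omega]
    exact this
  refine (sum_le_sum this).trans ?_
  rw [sum_const, nsmul_eq_mul]
  linarith

section lemB

variable {A : Finset ℤ} {J S : Finset ℕ} {f : ℕ → ℤ → ℤ} {h β : ℕ} {E : ℕ → ℕ}

theorem lemB (hS : ∀ l ∈ S, l.Prime) (hβh : β ≤ h) (h1 : 1 ≤ h)
    (hE : ∀ l ∈ S, (E l : ℝ) * Real.log l ≤ β * Real.log 2)
    (hne : ∀ x ∈ A, ∀ j ∈ J, f j x ≠ 0)
    (hdiff : ∀ x ∈ A, ∀ y ∈ A, x ≠ y → Real.log (x - y).natAbs ≤ (2 * h + 1) * Real.log 2)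
    (hcong : ∀ x ∈ A, ∀ y ∈ A, ∀ j ∈ J, ∀ l ∈ S, ∀ e, l ^ e ∣ (f j x).natAbs → l ^ e ∣ (f j y).natAbs →
      l ^ e ∣ (x - y).natAbs)
    (c : ℕ → ℕ → ℕ) (hc0 : ∀ i ∈ J, ∀ j ∈ J, i ≠ j → c i j ≠ 0)
    (hc : ∀ i ∈ J, ∀ j ∈ J, i ≠ j → ∀ x ∈ A, ∀ l ∈ S, ∀ e, l ^ e ∣ (f i x).natAbs →
      l ^ e ∣ (f j x).natAbs → l ^ e ∣ c i j)
    {Γ : ℝ} (hΓ0 : 0 ≤ Γ) (hΓ : ∀ i ∈ J, ∀ j ∈ J, i ≠ j → Real.log (c i j) ≤ Γ)
    (hΓh : 128 * Γ ≤ h * Real.log 2)
    (htau : ∀ x ∈ A, J.card * h * Real.log 2 / 4 ≤ ∑ j ∈ J, tau S E (f j x).natAbs)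
    (hSA : S.card ≤ A.card) (hA : 0 < A.card) : J.card * h ≤ 128 * (S.card * β) := by
  classical
  have hl2 : 0 < Real.log 2 := Real.log_pos (by norm_num)
  have hlog : ∀ q : (_ : ℕ) × ℕ, 0 ≤ Real.log (q.1 : ℕ) := fun q => Real.log_natCast_nonneg _
  set H : (_ : ℕ) × ℕ → ℤ → ℝ := fun q x => ((J.filter fun j => q.1 ^ q.2 ∣ (f j x).natAbs).card : ℝ)
    with hH
  set N : (_ : ℕ) × ℕ → ℤ → ℝ := fun q x => ((A.filter fun y => q.1 ^ q.2 ∣ (x - y).natAbs).card : ℝ)
    with hN
  have hN1 : ∀ q, ∀ x ∈ A, 1 ≤ N q x := by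
    intro q x hx
    simp only [hN]
    have : 0 < (A.filter fun y => q.1 ^ q.2 ∣ (x - y).natAbs).card := by
      apply card_pos.2
      exact ⟨x, by simp [hx]⟩
    exact_mod_cast this
  -- Cauchy-Schwarz
  have CS := sum_sq_le_sum_mul_sum_of_sq_le_mul (Q S E ×ˢ A)
    (r := fun z => Real.log (z.1.1 : ℕ) * H z.1 z.2) (f := fun z => Real.log (z.1.1 : ℕ) * N z.1 z.2)
    (g := fun z => Real.log (z.1.1 : ℕ) * (H z.1 z.2 ^ 2 / N z.1 z.2))
    (by
      intro z hz
      rw [mem_product] at hz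
      exact mul_nonneg (hlog _) (by linarith [hN1 z.1 z.2 hz.2]))
    (by
      intro z hz
      rw [mem_product] at hz
      exact mul_nonneg (hlog _) (div_nonneg (sq_nonneg _) (by linarith [hN1 z.1 z.2 hz.2])))
    (by
      intro z hz
      rw [mem_product] at hz
      have := hN1 z.1 z.2 hz.2
      apply le_of_eq
      field_simp)
  -- the left side
  have hY : A.card * (J.card * h * Real.log 2 / 4) ≤
      ∑ z ∈ Q S E ×ˢ A, Real.log (z.1.1 : ℕ) * H z.1 z.2 := by
    rw [sum_product_right]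
    have : ∀ x ∈ A, J.card * h * Real.log 2 / 4 ≤ ∑ q ∈ Q S E, Real.log (q.1 : ℕ) * H q x := by
      intro x hx
      refine (htau x hx).trans (le_of_eq ?_)
      have e1 : ∀ q ∈ Q S E, Real.log (q.1 : ℕ) * H q x =
          ∑ j ∈ J, (if q.1 ^ q.2 ∣ (f j x).natAbs then Real.log (q.1 : ℕ) else 0) := by
        intro q _
        rw [← sum_filter, sum_const, nsmul_eq_mul, mul_comm]
      rw [sum_congr rfl e1, sum_comm]
      apply sum_congr rfl
      intro j hj
      rw [sum_Q hS E (by have := hne x hx j hj; omega)]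
    calc (A.card : ℝ) * (J.card * h * Real.log 2 / 4) = ∑ _x ∈ A, (J.card * h * Real.log 2 / 4) := by
          rw [sum_const, nsmul_eq_mul]
      _ ≤ _ := sum_le_sum this
  -- the first factor
  have hF : ∑ z ∈ Q S E ×ˢ A, Real.log (z.1.1 : ℕ) * N z.1 z.2 ≤
      A.card ^ 2 * ((2 * h + 1) * Real.log 2) + A.card * (S.card * β * Real.log 2) := by
    rw [sum_product_right]
    have e1 : ∀ x ∈ A, ∑ q ∈ Q S E, Real.log (q.1 : ℕ) * N q x ≤
        A.card * ((2 * h + 1) * Real.log 2) + S.card * β * Real.log 2 := by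
      intro x hx
      have e2 : ∀ q ∈ Q S E, Real.log (q.1 : ℕ) * N q x =
          ∑ y ∈ A, (if q.1 ^ q.2 ∣ (x - y).natAbs then Real.log (q.1 : ℕ) else 0) := by
        intro q _
        rw [← sum_filter, sum_const, nsmul_eq_mul, mul_comm]
      rw [sum_congr rfl e2, sum_comm]
      rw [← add_sum_erase A _ hx]
      have e3 : ∑ q ∈ Q S E, (if q.1 ^ q.2 ∣ (x - x).natAbs then Real.log (q.1 : ℕ) else 0) ≤
          S.card * β * Real.log 2 := by
        refine le_trans (le_of_eq ?_) (sum_Q_all E hE)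
        apply sum_congr rfl
        intro q _
        simp
      have e4 : ∑ y ∈ A.erase x, ∑ q ∈ Q S E, (if q.1 ^ q.2 ∣ (x - y).natAbs then
          Real.log (q.1 : ℕ) else 0) ≤ A.card * ((2 * h + 1) * Real.log 2) := by
        have e5 : ∀ y ∈ A.erase x, ∑ q ∈ Q S E, (if q.1 ^ q.2 ∣ (x - y).natAbs then
            Real.log (q.1 : ℕ) else 0) ≤ (2 * h + 1) * Real.log 2 := by
          intro y hy
          rw [mem_erase] at hy
          rw [sum_Q hS E (by have := hy.1; omega)]
          exact (tau_le_log _ _ _).trans (hdiff x hx y hy.2 (Ne.symm hy.1))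
        refine (sum_le_sum e5).trans ?_
        rw [sum_const, nsmul_eq_mul]
        apply mul_le_mul_of_nonneg_right _ (by positivity)
        exact_mod_cast card_le_card (erase_subset x A)
      linarith
    refine (sum_le_sum e1).trans (le_of_eq ?_)
    rw [sum_const, nsmul_eq_mul]
    ring
  -- the second factor
  have hG : ∑ z ∈ Q S E ×ˢ A, Real.log (z.1.1 : ℕ) * (H z.1 z.2 ^ 2 / N z.1 z.2) ≤
      J.card * (S.card * β * Real.log 2) + J.card ^ 2 * Γ := by
    rw [sum_product]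
    have e1 : ∀ q ∈ Q S E, ∑ x ∈ A, Real.log (q.1 : ℕ) * (H q x ^ 2 / N q x) ≤
        ∑ i ∈ J, ∑ j ∈ J, (if i = j then Real.log (q.1 : ℕ) else
          (if q.1 ^ q.2 ∣ c i j then Real.log (q.1 : ℕ) else 0)) := by
      intro q hq
      have hqS : q.1 ∈ S := by
        unfold Q at hq
        exact (mem_sigma.1 hq).1
      have e2 : ∀ x ∈ A, Real.log (q.1 : ℕ) * (H q x ^ 2 / N q x) =
          ∑ i ∈ J, ∑ j ∈ J, (if q.1 ^ q.2 ∣ (f i x).natAbs ∧ q.1 ^ q.2 ∣ (f j x).natAbs then
            Real.log (q.1 : ℕ) / N q x else 0) := by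
        intro x _
        have e3 : H q x = ∑ i ∈ J, (if q.1 ^ q.2 ∣ (f i x).natAbs then (1 : ℝ) else 0) := by
          rw [← sum_filter, sum_const, nsmul_eq_mul, mul_one]
        rw [sq, e3, sum_mul_sum, mul_div_assoc', mul_sum, sum_div]
        apply sum_congr rfl
        intro i _
        rw [mul_sum, sum_div]
        apply sum_congr rfl
        intro j _
        by_cases h1 : q.1 ^ q.2 ∣ (f i x).natAbs <;> by_cases h2 : q.1 ^ q.2 ∣ (f j x).natAbs <;>
          simp [h1, h2]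
      rw [sum_congr rfl e2, sum_comm]
      apply sum_le_sum
      intro i hi
      rw [sum_comm]
      apply sum_le_sum
      intro j hj
      rw [← sum_filter]
      set Aij := A.filter (fun x => q.1 ^ q.2 ∣ (f i x).natAbs ∧ q.1 ^ q.2 ∣ (f j x).natAbs) with hAij
      have e4 : ∀ x ∈ Aij, Real.log (q.1 : ℕ) / N q x ≤ Real.log (q.1 : ℕ) / Aij.card := by
        intro x hx
        have hx' := mem_filter.1 hx
        have hpos : (0 : ℝ) < Aij.card := by exact_mod_cast card_pos.2 ⟨x, hx⟩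
        apply div_le_div_of_nonneg_left (hlog q) hpos
        simp only [hN]
        have : Aij ⊆ A.filter fun y => q.1 ^ q.2 ∣ (x - y).natAbs := by
          intro y hy
          have hy' := mem_filter.1 hy
          rw [mem_filter]
          exact ⟨hy'.1, hcong x hx'.1 y hy'.1 i hi q.1 hqS q.2 hx'.2.1 hy'.2.1⟩
        exact_mod_cast card_le_card this
      have e5 : ∑ x ∈ Aij, Real.log (q.1 : ℕ) / N q x ≤ if Aij.Nonempty then Real.log (q.1 : ℕ) else 0 := by
        split_ifs with hn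
        · refine (sum_le_sum e4).trans ?_
          rw [sum_const, nsmul_eq_mul]
          have hpos : (0 : ℝ) < Aij.card := by exact_mod_cast card_pos.2 hn
          rw [mul_div_cancel₀ _ hpos.ne']
        · rw [not_nonempty_iff_eq_empty] at hn
          rw [hn]; simp
      refine e5.trans ?_
      by_cases hij : i = j
      · rw [if_pos hij]
        split_ifs
        · exact le_rfl
        · exact hlog q
      · rw [if_neg hij]
        split_ifs with h1 h2
        · exact le_rfl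
        · exfalso
          obtain ⟨x, hx⟩ := h1
          have hx' := mem_filter.1 hx
          exact h2 (hc i hi j hj hij x hx'.1 q.1 hqS q.2 hx'.2.1 hx'.2.2)
        · exact hlog q
        · exact le_rfl
    refine (sum_le_sum e1).trans ?_
    rw [sum_comm]
    have e6 : ∀ i ∈ J, ∑ q ∈ Q S E, ∑ j ∈ J, (if i = j then Real.log (q.1 : ℕ) else
          (if q.1 ^ q.2 ∣ c i j then Real.log (q.1 : ℕ) else 0)) ≤
          S.card * β * Real.log 2 + J.card * Γ := by
      intro i hi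
      rw [sum_comm, ← add_sum_erase J _ hi]
      have e7 : ∑ q ∈ Q S E, (if i = i then Real.log (q.1 : ℕ) else
          (if q.1 ^ q.2 ∣ c i i then Real.log (q.1 : ℕ) else 0)) ≤ S.card * β * Real.log 2 := by
        simp only [if_true]
        exact sum_Q_all E hE
      have e8 : ∑ j ∈ J.erase i, ∑ q ∈ Q S E, (if i = j then Real.log (q.1 : ℕ) else
          (if q.1 ^ q.2 ∣ c i j then Real.log (q.1 : ℕ) else 0)) ≤ J.card * Γ := by
        have e9 : ∀ j ∈ J.erase i, ∑ q ∈ Q S E, (if i = j then Real.log (q.1 : ℕ) else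
          (if q.1 ^ q.2 ∣ c i j then Real.log (q.1 : ℕ) else 0)) ≤ Γ := by
          intro j hj
          rw [mem_erase] at hj
          have hij : i ≠ j := Ne.symm hj.1
          simp only [if_neg hij]
          rw [sum_Q hS E (hc0 i hi j hj.2 hij)]
          exact (tau_le_log _ _ _).trans (hΓ i hi j hj.2 hij)
        refine (sum_le_sum e9).trans ?_
        rw [sum_const, nsmul_eq_mul]
        apply mul_le_mul_of_nonneg_right _ hΓ0
        exact_mod_cast card_le_card (erase_subset i J)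
      linarith
    refine (sum_le_sum e6).trans (le_of_eq ?_)
    rw [sum_const, nsmul_eq_mul]
    ring
  -- conclusion
  set a : ℝ := (A.card : ℝ) with ha
  set n : ℝ := (J.card : ℝ) with hn
  set s : ℝ := (S.card : ℝ) with hs
  have ha0 : 0 < a := by rw [ha]; exact_mod_cast hA
  have hn0 : 0 ≤ n := Nat.cast_nonneg _
  have hs0 : 0 ≤ s := Nat.cast_nonneg _
  have hsa : s ≤ a := by rw [hs, ha]; exact_mod_cast hSA
  have hh1 : (1 : ℝ) ≤ h := by exact_mod_cast h1
  have hβ0 : (0 : ℝ) ≤ β := Nat.cast_nonneg _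
  have hβh' : (β : ℝ) ≤ h := by exact_mod_cast hβh
  set L2 := Real.log 2 with hL2
  have hG0 : 0 ≤ n * (s * β * L2) + n ^ 2 * Γ := by positivity
  have k1 : a ^ 2 * ((2 * h + 1) * L2) + a * (s * β * L2) ≤ 4 * a ^ 2 * h * L2 := by
    have h2 : s * β ≤ a * h := mul_le_mul hsa hβh' hβ0 ha0.le
    have h3 : a * (s * β * L2) ≤ a * (a * h * L2) := by
      apply mul_le_mul_of_nonneg_left _ ha0.le
      exact mul_le_mul_of_nonneg_right h2 hl2.le
    have h4 : a ^ 2 * ((2 * h + 1) * L2) ≤ a ^ 2 * (3 * h * L2) := by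
      apply mul_le_mul_of_nonneg_left _ (by positivity)
      apply mul_le_mul_of_nonneg_right _ hl2.le
      linarith
    nlinarith
  have k2 : (a * (n * h * L2 / 4)) ^ 2 ≤ 4 * a ^ 2 * h * L2 * (n * (s * β * L2) + n ^ 2 * Γ) := by
    calc (a * (n * h * L2 / 4)) ^ 2 ≤ (∑ z ∈ Q S E ×ˢ A, Real.log (z.1.1 : ℕ) * H z.1 z.2) ^ 2 :=
          pow_le_pow_left₀ (by positivity) hY 2
      _ ≤ _ := CS
      _ ≤ (a ^ 2 * ((2 * h + 1) * L2) + a * (s * β * L2)) * (n * (s * β * L2) + n ^ 2 * Γ) := by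
          apply mul_le_mul hF hG
          · apply sum_nonneg
            intro z hz
            rw [mem_product] at hz
            exact mul_nonneg (hlog _) (div_nonneg (sq_nonneg _) (by linarith [hN1 z.1 z.2 hz.2]))
          · positivity
      _ ≤ _ := mul_le_mul_of_nonneg_right k1 hG0
  rcases hn0.eq_or_lt with hn00 | hn00
  · have : J.card = 0 := by
      have : (J.card : ℝ) = 0 := by rw [← hn, ← hn00]
      exact_mod_cast this
    rw [this]; omega
  have hpos : 0 < a ^ 2 * n * h * L2 := by positivity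
  have k3 : a ^ 2 * n * h * L2 * (n * h * L2 / 16) ≤ a ^ 2 * n * h * L2 * (4 * (s * β * L2 + n * Γ)) := by
    nlinarith
  have k4 := le_of_mul_le_mul_left k3 hpos
  have k5 : n * (128 * Γ) ≤ n * (h * L2) := mul_le_mul_of_nonneg_left hΓh hn00.le
  have k6 : n * h * L2 ≤ 128 * (s * β) * L2 := by linarith
  have k7 := le_of_mul_le_mul_right k6 hl2
  have : ((J.card * h : ℕ) : ℝ) ≤ ((128 * (S.card * β) : ℕ) : ℝ) := by
    push_cast
    exact k7
  exact_mod_cast this

end lemB

end Pool.Agent.N903.SV
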