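import Mathlib
import Pool.Agent.N903.Sieve

set_option autoImplicit false

/-!
The part of the larger sieve argument which deals with the large prime powers.
-/

namespace Pool.Agent.N903.SV

open Finset

theorem card_small_subsets {α : Type*} [DecidableEq α] (U : Finset α) (t : ℕ) :
    (U.powerset.filter fun s => s.card ≤ t).card ≤ (U.card + 1) ^ t := by
  induction t with
  | zero =>
    rw [pow_zero]
    apply card_le_one.2
    intro a ha b hb
    have h1 := (mem_filter.1 ha).2
    have h2 := (mem_filter.1 hb).2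
    rw [Nat.le_zero, card_eq_zero] at h1 h2
    rw [h1, h2]
  | succ t ih =>
    have hsub : (U.powerset.filter fun s => s.card ≤ t + 1) ⊆
        ((U.powerset.filter fun s => s.card ≤ t) ×ˢ insertNone U).image
          (fun z => match z.2 with
            | none => z.1
            | some u => insert u z.1) := by
      intro s hs
      rw [mem_filter, mem_powerset] at hs
      rw [mem_image]
      by_cases h : s.card ≤ t
      · refine ⟨(s, none), ?_, rfl⟩
        rw [mem_product, mem_filter, mem_powerset]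
        exact ⟨⟨hs.1, h⟩, by simp⟩
      · have hne : s.Nonempty := by
          rw [← card_pos]; omega
        obtain ⟨u, hu⟩ := hne
        refine ⟨(s.erase u, some u), ?_, ?_⟩
        · rw [mem_product, mem_filter, mem_powerset]
          refine ⟨⟨(erase_subset u s).trans hs.1, ?_⟩, ?_⟩
          · rw [card_erase_of_mem hu]; omega
          · rw [some_mem_insertNone]
            exact hs.1 hu
        · exact insert_erase hu
    refine (card_le_card hsub).trans (card_image_le.trans ?_)
    rw [card_product, card_insertNone, pow_succ]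
    exact Nat.mul_le_mul_right _ ih

theorem bonf {R : Finset ℕ} {a : ℕ → ℝ} {m : ℕ → ℕ → ℝ} {M : ℝ} (hM : 0 ≤ M)
    (ha : ∀ j ∈ R, a j ≤ M) (hm0 : ∀ i j, 0 ≤ m i j)
    (hm : ∀ i ∈ R, ∀ j ∈ R, i ≠ j → min (a i) (a j) ≤ m i j) :
    ∑ j ∈ R, a j ≤ M + ∑ i ∈ R, ∑ j ∈ R.erase i, m i j := by
  have hs0 : 0 ≤ ∑ i ∈ R, ∑ j ∈ R.erase i, m i j := sum_nonneg fun i _ => sum_nonneg fun j _ => hm0 i j
  rcases R.eq_empty_or_nonempty with h | h
  · rw [h]; simp [hM]
  · obtain ⟨i, hi, hmax⟩ := exists_max_image R a h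
    rw [← add_sum_erase R a hi]
    have h1 : ∑ j ∈ R.erase i, a j ≤ ∑ j ∈ R.erase i, m i j := by
      apply sum_le_sum
      intro j hj
      rw [mem_erase] at hj
      have := hm i hi j hj.2 (Ne.symm hj.1)
      rwa [min_eq_right (hmax j hj.2)] at this
    have h2 : ∑ j ∈ R.erase i, m i j ≤ ∑ i ∈ R, ∑ j ∈ R.erase i, m i j :=
      single_le_sum (f := fun i => ∑ j ∈ R.erase i, m i j) (fun i _ => sum_nonneg fun j _ => hm0 i j) hi
    linarith [ha i hi]

section lemA

variable {A : Finset ℤ} {J S : Finset ℕ} {f : ℕ → ℤ → ℤ} {h β : ℕ} {E : ℕ → ℕ}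

theorem lemA (hS : ∀ l ∈ S, l.Prime) (h1 : 1 ≤ h) (hβ : 1 ≤ β)
    (hE1 : ∀ l ∈ S, β * Real.log 2 ≤ ((E l : ℝ) + 1) * Real.log l)
    (hne : ∀ x ∈ A, ∀ j ∈ J, f j x ≠ 0)
    (hSupp : ∀ x ∈ A, ∀ j ∈ J, (f j x).natAbs.primeFactors ⊆ S)
    (hlow : ∀ x ∈ A, ∀ j ∈ J, h * Real.log 2 / 2 ≤ Real.log (f j x).natAbs)
    (hup : ∀ x ∈ A, ∀ j ∈ J, Real.log (f j x).natAbs ≤ 3 * h * Real.log 2)
    (hdiff : ∀ x ∈ A, ∀ y ∈ A, x ≠ y → Real.log (x - y).natAbs ≤ (2 * h + 1) * Real.log 2)
    (hcong : ∀ x ∈ A, ∀ y ∈ A, ∀ j ∈ J, ∀ l ∈ S, ∀ e, l ^ e ∣ (f j x).natAbs → l ^ e ∣ (f j y).natAbs →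
      l ^ e ∣ (x - y).natAbs)
    (c : ℕ → ℕ → ℕ) (hc0 : ∀ i ∈ J, ∀ j ∈ J, i ≠ j → c i j ≠ 0)
    (hc : ∀ i ∈ J, ∀ j ∈ J, i ≠ j → ∀ x ∈ A, ∀ l ∈ S, ∀ e, l ^ e ∣ (f i x).natAbs →
      l ^ e ∣ (f j x).natAbs → l ^ e ∣ c i j)
    {Γ : ℝ} (hΓ0 : 0 ≤ Γ) (hΓ : ∀ i ∈ J, ∀ j ∈ J, i ≠ j → Real.log (c i j) ≤ Γ)
    (hΓh : 8192 * Γ ≤ h * Real.log 2)
    (htau : ∀ x ∈ A, ∑ j ∈ J, tau S E (f j x).natAbs < J.card * h * Real.log 2 / 4)
    (hJ : 24 * 64 ≤ J.card) :
    A.card ≤ (J.card * S.card * (3 * h / β + 1) + 1) ^ (64 * (3 * h / β)) := by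
  classical
  have hl2 : 0 < Real.log 2 := Real.log_pos (by norm_num)
  have hh1 : (1 : ℝ) ≤ h := by exact_mod_cast h1
  have hlogS : ∀ l ∈ S, 0 < Real.log (l : ℕ) := by
    intro l hl
    exact Real.log_pos (by exact_mod_cast (hS l hl).one_lt)
  set v : ℕ → ℤ → ℕ → ℕ := fun j x l => (f j x).natAbs.factorization l with hv
  set mass : ℕ → ℤ → ℝ := fun j x => ∑ l ∈ S, if E l < v j x l then (v j x l : ℝ) * Real.log l else 0
    with hmass
  have m1 : ∀ x ∈ A, ∀ j ∈ J, Real.log (f j x).natAbs - tau S E (f j x).natAbs ≤ mass j x := by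
    intro x hx j hj
    rw [← mass_eq_log (hSupp x hx j hj)]
    unfold tau
    rw [← sum_sub_distrib]
    simp only [hmass]
    apply sum_le_sum
    intro l hl
    have hll := (hlogS l hl).le
    split_ifs with hlt
    · have : (0 : ℝ) ≤ ((min (v j x l) (E l) : ℕ) : ℝ) * Real.log l :=
        mul_nonneg (Nat.cast_nonneg _) hll
      simp only [hv] at this ⊢
      linarith
    · rw [min_eq_left (not_lt.1 hlt)]
      exact (sub_self _).le
  have m2 : ∀ x ∈ A, ∀ j ∈ J, mass j x ≤ 3 * h * Real.log 2 := by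
    intro x hx j hj
    refine le_trans ?_ (hup x hx j hj)
    refine le_trans ?_ (mass_le_log S _)
    simp only [hmass]
    apply sum_le_sum
    intro l hl
    have : 0 ≤ (v j x l : ℝ) * Real.log l := mul_nonneg (Nat.cast_nonneg _) (hlogS l hl).le
    split_ifs
    · exact le_rfl
    · exact this
  -- good rows
  set G : ℤ → Finset ℕ := fun x => J.filter fun j => h * Real.log 2 / 8 ≤ mass j x with hG
  have hGcard : ∀ x ∈ A, 64 ≤ (G x).card := by
    intro x hx
    have s1 : J.card * h * Real.log 2 / 4 ≤ ∑ j ∈ J, mass j x := by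
      have t1 : ∑ j ∈ J, (Real.log (f j x).natAbs - tau S E (f j x).natAbs) ≤ ∑ j ∈ J, mass j x :=
        sum_le_sum fun j hj => m1 x hx j hj
      rw [sum_sub_distrib] at t1
      have t2 : (J.card : ℝ) * (h * Real.log 2 / 2) ≤ ∑ j ∈ J, Real.log (f j x).natAbs := by
        calc (J.card : ℝ) * (h * Real.log 2 / 2) = ∑ _j ∈ J, (h * Real.log 2 / 2) := by
              rw [sum_const, nsmul_eq_mul]
          _ ≤ _ := sum_le_sum fun j hj => hlow x hx j hj
      have := htau x hx
      linarith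
    have s2 : ∑ j ∈ J, mass j x ≤ (G x).card * (3 * h * Real.log 2) + J.card * (h * Real.log 2 / 8) := by
      rw [← sum_filter_add_sum_filter_not J (fun j => h * Real.log 2 / 8 ≤ mass j x)]
      apply add_le_add
      · refine (sum_le_sum fun j hj => m2 x hx j (mem_filter.1 hj).1).trans ?_
        rw [sum_const, nsmul_eq_mul]
      · refine (sum_le_sum fun j hj => (not_le.1 (mem_filter.1 hj).2).le).trans ?_
        rw [sum_const, nsmul_eq_mul]
        apply mul_le_mul_of_nonneg_right _ (by positivity)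
        exact_mod_cast card_filter_le _ _
    have s3 : (J.card : ℝ) * (h * Real.log 2) ≤ (24 * (G x).card) * (h * Real.log 2) := by nlinarith
    have s4 := le_of_mul_le_mul_right s3 (by positivity)
    have s5 : J.card ≤ 24 * (G x).card := by exact_mod_cast s4
    omega
  have hR : ∀ x ∈ A, ∃ R : Finset ℕ, R ⊆ G x ∧ R.card = 64 := fun x hx =>
    exists_subset_card_eq (hGcard x hx)
  choose! R hRG hRcard using hR
  have hRJ : ∀ x ∈ A, R x ⊆ J := fun x hx => (hRG x hx).trans (filter_subset _ _)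
  -- the codes
  set τ := 3 * h / β with hτ
  set pr : ℤ → Finset (ℕ × ℕ) := fun x => (R x ×ˢ S).filter fun z => E z.2 < v z.1 x z.2 with hpr
  set code : ℤ → Finset (ℕ × ℕ × ℕ) := fun x => (pr x).image fun z =>
    (z.1, z.2, v z.1 x z.2 / (E z.2 + 1)) with hcode
  have hvle : ∀ x ∈ A, ∀ j ∈ J, ∀ l ∈ S, (v j x l : ℝ) * Real.log l ≤ 3 * h * Real.log 2 := by
    intro x hx j hj l hl
    refine le_trans ?_ (hup x hx j hj)
    refine le_trans ?_ (mass_le_log S _)
    exact single_le_sum (f := fun l => (v j x l : ℝ) * Real.log l)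
      (fun l hl => mul_nonneg (Nat.cast_nonneg _) (hlogS l hl).le) hl
  have hi : ∀ x ∈ A, ∀ j ∈ J, ∀ l ∈ S, v j x l / (E l + 1) ≤ τ := by
    intro x hx j hj l hl
    rw [hτ, Nat.le_div_iff_mul_le hβ]
    set i := v j x l / (E l + 1) with hidef
    have u1 : i * (E l + 1) ≤ v j x l := Nat.div_mul_le_self _ _
    have u1' : (i : ℝ) * ((E l : ℝ) + 1) ≤ v j x l := by exact_mod_cast u1
    have u2 := hE1 l hl
    have u3 := hvle x hx j hj l hl
    have u4 : (i : ℝ) * (β * Real.log 2) ≤ i * (((E l : ℝ) + 1) * Real.log l) :=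
      mul_le_mul_of_nonneg_left u2 (Nat.cast_nonneg _)
    have u5 : (i : ℝ) * ((E l : ℝ) + 1) * Real.log l ≤ v j x l * Real.log l :=
      mul_le_mul_of_nonneg_right u1' (hlogS l hl).le
    have u6 : ((i * β : ℕ) : ℝ) * Real.log 2 ≤ ((3 * h : ℕ) : ℝ) * Real.log 2 := by
      push_cast
      linarith
    have u7 := le_of_mul_le_mul_right u6 hl2
    exact_mod_cast u7
  have hlarge : ∀ x ∈ A, ∀ j ∈ J, (S.filter fun l => E l < v j x l).card ≤ τ := by
    intro x hx j hj
    rw [hτ, Nat.le_div_iff_mul_le hβ]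
    have u1 : ∑ l ∈ S.filter (fun l => E l < v j x l), (β * Real.log 2) ≤ 3 * h * Real.log 2 := by
      refine le_trans ?_ (hup x hx j hj)
      refine le_trans ?_ (mass_le_log (S.filter fun l => E l < v j x l) _)
      apply sum_le_sum
      intro l hl
      rw [mem_filter] at hl
      refine (hE1 l hl.1).trans ?_
      apply mul_le_mul_of_nonneg_right _ (hlogS l hl.1).le
      have : E l + 1 ≤ (f j x).natAbs.factorization l := hl.2
      exact_mod_cast this
    rw [sum_const, nsmul_eq_mul] at u1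
    have u6 : (((S.filter fun l => E l < v j x l).card * β : ℕ) : ℝ) * Real.log 2 ≤
        ((3 * h : ℕ) : ℝ) * Real.log 2 := by
      push_cast
      linarith
    have u7 := le_of_mul_le_mul_right u6 hl2
    exact_mod_cast u7
  have hcodecard : ∀ x ∈ A, (code x).card ≤ 64 * τ := by
    intro x hx
    refine card_image_le.trans ?_
    have : pr x = (R x).biUnion fun j => (S.filter fun l => E l < v j x l).image fun l => (j, l) := by
      ext z
      simp only [hpr, mem_filter, mem_product, mem_biUnion, mem_image]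
      constructor
      · rintro ⟨⟨h1, h2⟩, h3⟩
        exact ⟨z.1, h1, z.2, ⟨h2, h3⟩, rfl⟩
      · rintro ⟨j, h1, l, ⟨h2, h3⟩, rfl⟩
        exact ⟨⟨h1, h2⟩, h3⟩
    rw [this]
    refine card_biUnion_le.trans ?_
    have : ∀ j ∈ R x, ((S.filter fun l => E l < v j x l).image fun l => (j, l)).card ≤ τ := by
      intro j hj
      exact card_image_le.trans (hlarge x hx j (hRJ x hx hj))
    refine (sum_le_sum this).trans ?_
    rw [sum_const, smul_eq_mul, hRcard x hx]
  have hcodesub : ∀ x ∈ A, code x ⊆ J ×ˢ S ×ˢ range (τ + 1) := by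
    intro x hx z hz
    simp only [hcode, mem_image] at hz
    obtain ⟨w, hw, rfl⟩ := hz
    simp only [hpr, mem_filter, mem_product] at hw
    rw [mem_product, mem_product, mem_range]
    refine ⟨hRJ x hx hw.1.1, hw.1.2, ?_⟩
    exact Nat.lt_succ_of_le (hi x hx w.1 (hRJ x hx hw.1.1) w.2 hw.1.2)
  have hmaps : ∀ x ∈ A, code x ∈ (J ×ˢ S ×ˢ range (τ + 1)).powerset.filter fun s => s.card ≤ 64 * τ := by
    intro x hx
    rw [mem_filter, mem_powerset]
    exact ⟨hcodesub x hx, hcodecard x hx⟩
  have hinj : Set.InjOn code (A : Set ℤ) := by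
    intro x hx y hy hxy
    by_contra hne'
    rw [mem_coe] at hx hy
    have hD0 : (x - y).natAbs ≠ 0 := by omega
    -- the exponents
    have hkey : ∀ j ∈ R x, ∀ l ∈ S, E l < v j x l →
        v j x l / (E l + 1) * (E l + 1) ≤ (x - y).natAbs.factorization l := by
      intro j hj l hl hlt
      have hz : (j, l, v j x l / (E l + 1)) ∈ code x := by
        simp only [hcode, mem_image]
        exact ⟨(j, l), by simp only [hpr, mem_filter, mem_product]; exact ⟨⟨hj, hl⟩, hlt⟩, rfl⟩
      rw [hxy] at hz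
      simp only [hcode, mem_image] at hz
      obtain ⟨w, hw, hw'⟩ := hz
      simp only [Prod.mk.injEq] at hw'
      obtain ⟨e1, e2, e3⟩ := hw'
      rw [e1, e2] at e3
      have hjJ := hRJ x hx hj
      have d1 : l ^ (v j x l / (E l + 1) * (E l + 1)) ∣ (f j x).natAbs := by
        rw [(hS l hl).pow_dvd_iff_le_factorization (by have := hne x hx j hjJ; omega)]
        exact Nat.div_mul_le_self _ _
      have d2 : l ^ (v j x l / (E l + 1) * (E l + 1)) ∣ (f j y).natAbs := by
        rw [(hS l hl).pow_dvd_iff_le_factorization (by have := hne y hy j hjJ; omega)]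
        rw [← e3]
        exact Nat.div_mul_le_self _ _
      have d3 := hcong x hx y hy j hjJ l hl _ d1 d2
      rwa [(hS l hl).pow_dvd_iff_le_factorization hD0] at d3
    -- the total
    set a : ℕ → ℕ → ℝ := fun l j => if E l < v j x l then
      ((v j x l / (E l + 1) * (E l + 1) : ℕ) : ℝ) * Real.log l else 0 with ha
    have b1 : ∀ l ∈ S, ∑ j ∈ R x, a l j ≤ ((x - y).natAbs.factorization l : ℝ) * Real.log l +
        ∑ i ∈ R x, ∑ j ∈ (R x).erase i, ((c i j).factorization l : ℝ) * Real.log l := by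
      intro l hl
      have hll := (hlogS l hl).le
      apply bonf
      · exact mul_nonneg (Nat.cast_nonneg _) hll
      · intro j hj
        simp only [ha]
        split_ifs with hlt
        · apply mul_le_mul_of_nonneg_right _ hll
          exact_mod_cast hkey j hj l hl hlt
        · exact mul_nonneg (Nat.cast_nonneg _) hll
      · intro i j
        exact mul_nonneg (Nat.cast_nonneg _) hll
      · intro i hi j hj hij
        have hiJ := hRJ x hx hi
        have hjJ := hRJ x hx hj
        have hcij := hc0 i hiJ j hjJ hij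
        have hnn : 0 ≤ ((c i j).factorization l : ℝ) * Real.log l := mul_nonneg (Nat.cast_nonneg _) hll
        simp only [ha]
        by_cases hlt1 : E l < v i x l
        · by_cases hlt2 : E l < v j x l
          · rw [if_pos hlt1, if_pos hlt2, ← min_mul_of_nonneg _ _ hll]
            apply mul_le_mul_of_nonneg_right _ hll
            rw [← Nat.cast_min, Nat.cast_le]
            rw [← (hS l hl).pow_dvd_iff_le_factorization hcij]
            apply hc i hiJ j hjJ hij x hx l hl
            · rw [(hS l hl).pow_dvd_iff_le_factorization (by have := hne x hx i hiJ; omega)]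
              exact (min_le_left _ _).trans (Nat.div_mul_le_self _ _)
            · rw [(hS l hl).pow_dvd_iff_le_factorization (by have := hne x hx j hjJ; omega)]
              exact (min_le_right _ _).trans (Nat.div_mul_le_self _ _)
          · rw [if_neg hlt2]
            exact (min_le_right _ _).trans hnn
        · rw [if_neg hlt1]
          exact (min_le_left _ _).trans hnn
    have b2 : ∑ l ∈ S, ∑ j ∈ R x, a l j ≤ (2 * h + 1) * Real.log 2 + 64 * (64 * Γ) := by
      refine (sum_le_sum b1).trans ?_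
      rw [sum_add_distrib]
      apply add_le_add
      · exact (mass_le_log S _).trans (hdiff x hx y hy hne')
      · rw [sum_comm]
        have : ∀ i ∈ R x, ∑ l ∈ S, ∑ j ∈ (R x).erase i, ((c i j).factorization l : ℝ) * Real.log l ≤
            64 * Γ := by
          intro i hi
          rw [sum_comm]
          have : ∀ j ∈ (R x).erase i, ∑ l ∈ S, ((c i j).factorization l : ℝ) * Real.log l ≤ Γ := by
            intro j hj
            rw [mem_erase] at hj
            exact (mass_le_log S _).trans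
              (hΓ i (hRJ x hx hi) j (hRJ x hx hj.2) (Ne.symm hj.1))
          refine (sum_le_sum this).trans ?_
          rw [sum_const, nsmul_eq_mul]
          apply mul_le_mul_of_nonneg_right _ hΓ0
          have h64 := card_le_card (erase_subset i (R x))
          rw [hRcard x hx] at h64
          exact_mod_cast h64
        refine (sum_le_sum this).trans (le_of_eq ?_)
        rw [sum_const, nsmul_eq_mul, hRcard x hx]
        norm_num
    have b3 : 4 * (h * Real.log 2) ≤ ∑ l ∈ S, ∑ j ∈ R x, a l j := by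
      rw [sum_comm]
      have : ∀ j ∈ R x, h * Real.log 2 / 16 ≤ ∑ l ∈ S, a l j := by
        intro j hj
        have hg := (mem_filter.1 (hRG x hx hj)).2
        have : mass j x / 2 ≤ ∑ l ∈ S, a l j := by
          simp only [hmass, ha]
          rw [sum_div]
          apply sum_le_sum
          intro l hl
          split_ifs with hlt
          · have hll := (hlogS l hl).le
            rw [mul_div_right_comm]
            apply mul_le_mul_of_nonneg_right _ hll
            rw [div_le_iff₀ (by norm_num)]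
            have e1 : v j x l < (v j x l / (E l + 1) + 1) * (E l + 1) := by
              rw [mul_comm]
              exact Nat.lt_mul_div_succ _ (by omega)
            have e2 : 1 ≤ v j x l / (E l + 1) := by
              rw [Nat.le_div_iff_mul_le (by omega)]; omega
            have e3 : v j x l ≤ v j x l / (E l + 1) * (E l + 1) * 2 := by nlinarith
            exact_mod_cast e3
          · simp
        linarith
      calc 4 * (h * Real.log 2) = ∑ _j ∈ R x, h * Real.log 2 / 16 := by
            rw [sum_const, nsmul_eq_mul, hRcard x hx]; push_cast; ring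
        _ ≤ _ := sum_le_sum this
    nlinarith
  have hfin := card_le_card_of_injOn code hmaps hinj
  refine hfin.trans ((card_small_subsets _ _).trans (le_of_eq ?_))
  rw [card_product, card_product, card_range]
  congr 1
  ring

/-- the combination of the two parts -/
theorem core (hS : ∀ l ∈ S, l.Prime) (hβ : 1 ≤ β) (hβh : β ≤ h)
    (hne : ∀ x ∈ A, ∀ j ∈ J, f j x ≠ 0)
    (hSupp : ∀ x ∈ A, ∀ j ∈ J, (f j x).natAbs.primeFactors ⊆ S)
    (hlow : ∀ x ∈ A, ∀ j ∈ J, h * Real.log 2 / 2 ≤ Real.log (f j x).natAbs)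
    (hup : ∀ x ∈ A, ∀ j ∈ J, Real.log (f j x).natAbs ≤ 3 * h * Real.log 2)
    (hdiff : ∀ x ∈ A, ∀ y ∈ A, x ≠ y → Real.log (x - y).natAbs ≤ (2 * h + 1) * Real.log 2)
    (hcong : ∀ x ∈ A, ∀ y ∈ A, ∀ j ∈ J, ∀ l ∈ S, ∀ e, l ^ e ∣ (f j x).natAbs → l ^ e ∣ (f j y).natAbs →
      l ^ e ∣ (x - y).natAbs)
    (c : ℕ → ℕ → ℕ) (hc0 : ∀ i ∈ J, ∀ j ∈ J, i ≠ j → c i j ≠ 0)
    (hc : ∀ i ∈ J, ∀ j ∈ J, i ≠ j → ∀ x ∈ A, ∀ l ∈ S, ∀ e, l ^ e ∣ (f i x).natAbs →
      l ^ e ∣ (f j x).natAbs → l ^ e ∣ c i j)
    {Γ : ℝ} (hΓ0 : 0 ≤ Γ) (hΓ : ∀ i ∈ J, ∀ j ∈ J, i ≠ j → Real.log (c i j) ≤ Γ)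
    (hΓh : 8192 * Γ ≤ h * Real.log 2) (hJ : 24 * 64 ≤ J.card) :
    A.card ≤ (J.card * S.card * (3 * h / β + 1) + 1) ^ (64 * (3 * h / β)) + S.card ∨
      J.card * h ≤ 128 * (S.card * β) := by
  classical
  have h1 : 1 ≤ h := hβ.trans hβh
  set E : ℕ → ℕ := fun l => Nat.log l (2 ^ β) with hE
  have hlB : Real.log ((2 ^ β : ℕ) : ℝ) = β * Real.log 2 := by
    push_cast; rw [Real.log_pow]
  have e1 : ∀ l ∈ S, (E l : ℝ) * Real.log l ≤ β * Real.log 2 := by
    intro l hl
    rw [← hlB, ← Real.log_pow]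
    apply Real.log_le_log
    · have := (hS l hl).pos
      positivity
    · exact_mod_cast Nat.pow_log_le_self l (by positivity)
  have e2 : ∀ l ∈ S, β * Real.log 2 ≤ ((E l : ℝ) + 1) * Real.log l := by
    intro l hl
    have : ((E l : ℝ) + 1) = ((E l + 1 : ℕ) : ℝ) := by push_cast; ring
    rw [← hlB, this, ← Real.log_pow]
    apply Real.log_le_log (by positivity)
    exact_mod_cast (Nat.lt_pow_succ_log_self (hS l hl).one_lt (2 ^ β)).le
  by_contra hcon
  push Not at hcon
  obtain ⟨hc1, hc2⟩ := hcon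
  set P : ℤ → Prop := fun x => J.card * h * Real.log 2 / 4 ≤ ∑ j ∈ J, tau S E (f j x).natAbs with hP
  have hA1 := lemA (A := A.filter fun x => ¬ P x) (E := E) hS h1 hβ e2
    (fun x hx => hne x (mem_filter.1 hx).1) (fun x hx => hSupp x (mem_filter.1 hx).1)
    (fun x hx => hlow x (mem_filter.1 hx).1) (fun x hx => hup x (mem_filter.1 hx).1)
    (fun x hx y hy => hdiff x (mem_filter.1 hx).1 y (mem_filter.1 hy).1)
    (fun x hx y hy => hcong x (mem_filter.1 hx).1 y (mem_filter.1 hy).1) c hc0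
    (fun i hi j hj hij x hx => hc i hi j hj hij x (mem_filter.1 hx).1) hΓ0 hΓ hΓh
    (fun x hx => not_le.1 (mem_filter.1 hx).2) hJ
  have hsplit : (A.filter fun x => P x).card + (A.filter fun x => ¬ P x).card = A.card :=
    card_filter_add_card_filter_not _
  have hA2 : S.card < (A.filter fun x => P x).card := by omega
  have hB := lemB (A := A.filter fun x => P x) (E := E) hS hβh h1 e1
    (fun x hx => hne x (mem_filter.1 hx).1)
    (fun x hx y hy => hdiff x (mem_filter.1 hx).1 y (mem_filter.1 hy).1)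
    (fun x hx y hy => hcong x (mem_filter.1 hx).1 y (mem_filter.1 hy).1) c hc0
    (fun i hi j hj hij x hx => hc i hi j hj hij x (mem_filter.1 hx).1) hΓ0 hΓ (by linarith)
    (fun x hx => (mem_filter.1 hx).2) hA2.le (by omega)
  omega

end lemA

end Pool.Agent.N903.SV
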