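import Mathlib
import Pool.Agent.N903.Sieve2

set_option autoImplicit false

/-!
Windows of orbits of the maps `T_{a,b}` with a common parity pattern.
-/

namespace Pool.Agent.N903.PS

open Finset

/-- the map `T_{a,b}` -/
def T (a b x : ℤ) : ℤ := if x % 2 = 0 then x / 2 else (a * x + b) / 2

theorem T_even {a b x : ℤ} (h : x % 2 = 0) : 2 * T a b x = x := by
  unfold T; rw [if_pos h]; omega

theorem T_odd {a b x : ℤ} (ha : a % 2 = 1) (hb : b % 2 = 1) (h : x % 2 = 1) :
    2 * T a b x = a * x + b := by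
  unfold T
  rw [if_neg (by omega)]
  have h1 : (a * x + b) % 2 = 0 := by
    rw [Int.add_emod, Int.mul_emod, ha, h, hb]; rfl
  omega

theorem par (x : ℤ) : x % 2 = 0 ∨ x % 2 = 1 := by omega

/-- the constant term -/
def cc (a b : ℤ) (w : ℕ → ℤ) (i : ℕ) : ℕ → ℤ
  | 0 => 0
  | n + 1 => if w (i + n) = 1 then a * cc a b w i n + 2 ^ n * b else cc a b w i n

/-- the number of odd steps -/
def oo (w : ℕ → ℤ) (i : ℕ) : ℕ → ℕ
  | 0 => 0
  | n + 1 => if w (i + n) = 1 then oo w i n + 1 else oo w i n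

theorem formula {a b : ℤ} (ha : a % 2 = 1) (hb : b % 2 = 1) (x : ℤ) (w : ℕ → ℤ) (i n : ℕ)
    (hw : ∀ t < n, (T a b)^[i + t] x % 2 = w (i + t)) :
    2 ^ n * (T a b)^[i + n] x = a ^ oo w i n * (T a b)^[i] x + cc a b w i n := by
  induction n with
  | zero => simp [oo, cc]
  | succ n ih =>
    have ih' := ih fun t ht => hw t (by omega)
    have h1 := hw n (by omega)
    rw [← add_assoc, Function.iterate_succ_apply']
    unfold oo cc
    rcases par ((T a b)^[i + n] x) with h | h
    · rw [if_neg (by omega), if_neg (by omega), ← ih', pow_succ]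
      have := T_even (a := a) (b := b) h
      linear_combination 2 ^ n * this
    · rw [if_pos (by omega), if_pos (by omega)]
      have := T_odd ha hb h
      rw [pow_succ, pow_succ]
      linear_combination 2 ^ n * this + a * ih'

theorem cc_odd {a b : ℤ} (ha : a % 2 = 1) (hb : b % 2 = 1) (w : ℕ → ℤ) (i : ℕ) (hi : w i = 1) (n : ℕ) :
    cc a b w i (n + 1) % 2 = 1 := by
  induction n with
  | zero =>
    unfold cc
    rw [if_pos (by simpa using hi)]
    simp [cc, hb]
  | succ n ih =>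
    unfold cc
    split_ifs
    · rw [Int.add_emod, Int.mul_emod, ha, ih]
      have : (2 : ℤ) ^ (n + 1) * b % 2 = 0 := by
        rw [pow_succ, mul_assoc, mul_comm, mul_assoc]
        exact Int.mul_emod_right _ _
      rw [this]; rfl
    · exact ih

theorem cc_le {a b : ℤ} (ha : 2 ≤ |a|) (w : ℕ → ℤ) (i n : ℕ) : |cc a b w i n| ≤ (|a| + |b|) ^ n := by
  induction n with
  | zero => simp [cc]
  | succ n ih =>
    have hb := abs_nonneg b
    have h2 : (2 : ℤ) ^ n ≤ (|a| + |b|) ^ n := pow_le_pow_left₀ (by norm_num) (by linarith) n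
    unfold cc
    split_ifs
    · calc |a * cc a b w i n + 2 ^ n * b| ≤ |a * cc a b w i n| + |2 ^ n * b| := abs_add_le _ _
        _ = |a| * |cc a b w i n| + 2 ^ n * |b| := by
          rw [abs_mul, abs_mul, abs_of_pos (show (0 : ℤ) < 2 ^ n by positivity)]
        _ ≤ |a| * (|a| + |b|) ^ n + (|a| + |b|) ^ n * |b| := by
          apply add_le_add
          · exact mul_le_mul_of_nonneg_left ih (abs_nonneg a)
          · exact mul_le_mul_of_nonneg_right h2 hb
        _ = (|a| + |b|) ^ (n + 1) := by ring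
    · refine ih.trans ?_
      apply pow_le_pow_right₀ _ (by omega)
      linarith

/-- upper bound for one step -/
theorem T_le {a b : ℤ} (ha : a % 2 = 1) (hb : b % 2 = 1) {x : ℤ} (hx : x ≠ 0) (h : x % 2 = 1) :
    2 * |T a b x| ≤ (|a| + |b|) * |x| := by
  have h1 := T_odd ha hb h
  have h2 : (2 : ℤ) * |T a b x| = |a * x + b| := by
    rw [← h1, abs_mul]; norm_num
  rw [h2]
  have h3 : |a * x + b| ≤ |a| * |x| + |b| := by
    rw [← abs_mul]; exact abs_add_le _ _
  have h4 : 1 ≤ |x| := Int.one_le_abs hx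
  nlinarith [abs_nonneg b]

theorem T_abs_even {a b x : ℤ} (h : x % 2 = 0) : 2 * |T a b x| = |x| := by
  have h1 := T_even (a := a) (b := b) h
  have h2 : |2 * T a b x| = |x| := by rw [h1]
  rw [abs_mul] at h2
  simpa using h2

theorem T_ne_zero {a b : ℤ} (ha3 : 3 ≤ a) {x : ℤ} (hx : |b| ≤ |x|) (_hx0 : x ≠ 0)
    (ha : a % 2 = 1) (hb : b % 2 = 1) : |x| ≤ 2 * |T a b x| := by
  rcases par x with h | h
  · rw [T_abs_even h]
  · have h1 := T_odd ha hb h
    have h2 : (2 : ℤ) * |T a b x| = |a * x + b| := by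
      rw [← h1, abs_mul]; norm_num
    rw [h2]
    have h3 : |a * x| ≤ |a * x + b| + |b| := by
      have := abs_sub (a * x + b) b
      simpa using this
    rw [abs_mul, abs_of_pos (by linarith : (0 : ℤ) < a)] at h3
    have h4 := abs_nonneg x
    nlinarith

theorem iter_low {a b : ℤ} (ha3 : 3 ≤ a) (ha : a % 2 = 1) (hb : b % 2 = 1) {x : ℤ} (hx0 : x ≠ 0) (j : ℕ)
    (hx : 2 ^ j * |b| ≤ |x|) : |x| ≤ 2 ^ j * |(T a b)^[j] x| := by
  induction j with
  | zero => simp
  | succ j ih =>
    have hb0 := abs_nonneg b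
    have h2 : (0 : ℤ) < 2 ^ j := by positivity
    rw [pow_succ] at hx
    have ih' := ih (by nlinarith)
    have h3 : 2 * |b| ≤ |(T a b)^[j] x| := by
      have : (2 : ℤ) ^ j * (2 * |b|) ≤ 2 ^ j * |(T a b)^[j] x| := by linarith
      exact le_of_mul_le_mul_left this h2
    have hxpos : 0 < |x| := abs_pos.2 hx0
    have h4 : (T a b)^[j] x ≠ 0 := by
      intro h0
      rw [h0] at ih'
      simp only [abs_zero, mul_zero] at ih'
      linarith
    have h5 := T_ne_zero (b := b) ha3 (x := (T a b)^[j] x) (by linarith) h4 ha hb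
    rw [Function.iterate_succ_apply', pow_succ]
    nlinarith

theorem iter_up {a b : ℤ} (ha : a % 2 = 1) (hb : b % 2 = 1) (ha2 : 2 ≤ |a|) (x : ℤ)
    (hne : ∀ j, (T a b)^[j] x ≠ 0) (j : ℕ) : |(T a b)^[j] x| ≤ (|a| + |b|) ^ j * |x| := by
  induction j with
  | zero => simp
  | succ j ih =>
    rw [Function.iterate_succ_apply', pow_succ]
    have hb0 := abs_nonneg b
    have h0 := abs_nonneg ((T a b)^[j] x)
    have h1 : |T a b ((T a b)^[j] x)| ≤ (|a| + |b|) * |(T a b)^[j] x| := by
      rcases par ((T a b)^[j] x) with h | h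
      · have := T_abs_even (a := a) (b := b) h
        nlinarith [abs_nonneg (T a b ((T a b)^[j] x))]
      · have := T_le ha hb (hne j) h
        nlinarith [abs_nonneg (T a b ((T a b)^[j] x))]
    calc |T a b ((T a b)^[j] x)| ≤ (|a| + |b|) * |(T a b)^[j] x| := h1
      _ ≤ (|a| + |b|) * ((|a| + |b|) ^ j * |x|) := mul_le_mul_of_nonneg_left ih (by linarith)
      _ = (|a| + |b|) ^ j * (|a| + |b|) * |x| := by ring

theorem dvd_aux {z : ℤ} {l e : ℕ} : l ^ e ∣ z.natAbs ↔ ((l : ℤ) ^ e) ∣ z := by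
  rw [← Int.natCast_dvd]; push_cast; rfl

theorem window_core {a b : ℤ} (ha3 : 3 ≤ a) (ha : a % 2 = 1) (hb : b % 2 = 1) {μ : ℕ}
    (hM : |a| + |b| ≤ 2 ^ μ) {k h β : ℕ} (hβ : 1 ≤ β) (hβh : β ≤ h) (hk : 8192 * (k * μ) ≤ h)
    {A : Finset ℤ} (w : ℕ → ℤ) (hw : ∀ x ∈ A, ∀ t < k, (T a b)^[t] x % 2 = w t)
    (hne : ∀ x ∈ A, ∀ j, (T a b)^[j] x ≠ 0)
    (hA1 : ∀ x ∈ A, (2 : ℤ) ^ h ≤ |x|) (hA2 : ∀ x ∈ A, |x| ≤ (2 : ℤ) ^ (2 * h)) {S : Finset ℕ}
    (hS : ∀ l ∈ S, l.Prime) (hSa : ∀ l ∈ S, ¬ (l : ℤ) ∣ a)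
    (hsupp : ∀ x ∈ A, ∀ t < k, w t = 1 → ((T a b)^[t] x).natAbs.primeFactors ⊆ S)
    (hJ : 24 * 64 ≤ ((range k).filter fun t => w t = 1).card) :
    A.card ≤ (((range k).filter fun t => w t = 1).card * S.card * (3 * h / β + 1) + 1) ^
        (64 * (3 * h / β)) + S.card ∨
      ((range k).filter fun t => w t = 1).card * h ≤ 128 * (S.card * β) := by
  classical
  have ha' : |a| = a := abs_of_pos (by linarith)
  have hl2 : 0 < Real.log 2 := Real.log_pos (by norm_num)
  have hb0 := abs_nonneg b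
  have hμ : 1 ≤ μ := by
    by_contra hcon
    have : μ = 0 := by omega
    rw [this] at hM
    simp only [pow_zero] at hM
    linarith
  have hkh : 8192 * k ≤ h := by nlinarith
  have hk0 : 1 ≤ k := by
    by_contra hcon
    have : k = 0 := by omega
    rw [this] at hJ
    simp at hJ
  have hM1 : (1 : ℤ) ≤ |a| + |b| := by linarith
  have hb2 : |b| ≤ 2 ^ μ := by linarith
  have hpow : ∀ j ≤ k, (|a| + |b|) ^ j ≤ (2 : ℤ) ^ (k * μ) := by
    intro j hj
    calc (|a| + |b|) ^ j ≤ (2 ^ μ) ^ j := pow_le_pow_left₀ (by linarith) hM j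
      _ = 2 ^ (j * μ) := by rw [← pow_mul, mul_comm]
      _ ≤ 2 ^ (k * μ) := pow_le_pow_right₀ (by norm_num) (Nat.mul_le_mul_right μ hj)
  have hlow : ∀ x ∈ A, ∀ j < k, (2 : ℤ) ^ h ≤ 2 ^ j * |(T a b)^[j] x| := by
    intro x hx j hj
    refine (hA1 x hx).trans (iter_low ha3 ha hb (hne x hx 0) j ?_)
    refine le_trans ?_ (hA1 x hx)
    calc (2 : ℤ) ^ j * |b| ≤ 2 ^ j * 2 ^ μ := mul_le_mul_of_nonneg_left hb2 (by positivity)
      _ = 2 ^ (j + μ) := by rw [pow_add]
      _ ≤ 2 ^ h := pow_le_pow_right₀ (by norm_num) (by nlinarith)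
  have hcast : ∀ z : ℤ, ((z.natAbs : ℕ) : ℝ) = |(z : ℝ)| := fun z => by
    rw [Nat.cast_natAbs]; push_cast; rfl
  refine SV.core (A := A) (J := (range k).filter fun t => w t = 1) (S := S)
    (f := fun j x => (T a b)^[j] x) (h := h) (β := β) hS hβ hβh ?_ ?_ ?_ ?_ ?_ ?_
    (fun i j => (cc a b w (min i j) (max i j - min i j)).natAbs) ?_ ?_
    (Γ := k * μ * Real.log 2) (by positivity) ?_ ?_ hJ
  · exact fun x hx j _ => hne x hx j
  · intro x hx j hj
    rw [mem_filter, mem_range] at hj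
    exact hsupp x hx j hj.1 hj.2
  · intro x hx j hj
    rw [mem_filter, mem_range] at hj
    have h1 := hlow x hx j hj.1
    have h2 : (2 : ℝ) ^ h ≤ 2 ^ j * |(((T a b)^[j] x : ℤ) : ℝ)| := by exact_mod_cast h1
    have h3 : 0 < |(((T a b)^[j] x : ℤ) : ℝ)| := abs_pos.2 (by exact_mod_cast hne x hx j)
    have h4 := Real.log_le_log (by positivity) h2
    rw [Real.log_pow, Real.log_mul (by positivity) h3.ne', Real.log_pow] at h4
    rw [hcast]
    have h5 : (j : ℝ) ≤ h / 2 := by
      rw [le_div_iff₀ (by norm_num)]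
      have : j * 2 ≤ h := by omega
      exact_mod_cast this
    nlinarith
  · intro x hx j hj
    rw [mem_filter, mem_range] at hj
    have h1 := iter_up ha hb (by rw [ha']; linarith) x (hne x hx) j
    have h2 : |(T a b)^[j] x| ≤ 2 ^ (3 * h) := by
      calc |(T a b)^[j] x| ≤ (|a| + |b|) ^ j * |x| := h1
        _ ≤ 2 ^ (k * μ) * 2 ^ (2 * h) :=
          mul_le_mul (hpow j hj.1.le) (hA2 x hx) (abs_nonneg x) (by positivity)
        _ = 2 ^ (k * μ + 2 * h) := by rw [pow_add]
        _ ≤ 2 ^ (3 * h) := pow_le_pow_right₀ (by norm_num) (by omega)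
    rw [hcast]
    have h3 : 0 < |(((T a b)^[j] x : ℤ) : ℝ)| := abs_pos.2 (by exact_mod_cast hne x hx j)
    have h4 : |(((T a b)^[j] x : ℤ) : ℝ)| ≤ 2 ^ (3 * h) := by exact_mod_cast h2
    have h5 := Real.log_le_log h3 h4
    rw [Real.log_pow] at h5
    push_cast at h5
    exact h5
  · intro x hx y hy hxy
    have h1 : |x - y| ≤ 2 ^ (2 * h + 1) := by
      calc |x - y| ≤ |x| + |y| := abs_sub x y
        _ ≤ 2 ^ (2 * h) + 2 ^ (2 * h) := add_le_add (hA2 x hx) (hA2 y hy)
        _ = 2 ^ (2 * h + 1) := by ring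
    have h0 : (0 : ℝ) < |((x - y : ℤ) : ℝ)| := abs_pos.2 (by exact_mod_cast sub_ne_zero.2 hxy)
    have h2 : |((x - y : ℤ) : ℝ)| ≤ 2 ^ (2 * h + 1) := by exact_mod_cast h1
    rw [hcast]
    have h5 := Real.log_le_log h0 h2
    rw [Real.log_pow] at h5
    push_cast at h5 ⊢
    exact h5
  · intro x hx y hy j hj l hl e h1 h2
    rw [mem_filter, mem_range] at hj
    rw [dvd_aux] at h1 h2 ⊢
    have f1 := formula ha hb x w 0 j (fun t ht => by rw [zero_add]; exact hw x hx t (by omega))
    have f2 := formula ha hb y w 0 j (fun t ht => by rw [zero_add]; exact hw y hy t (by omega))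
    rw [zero_add] at f1 f2
    simp only [Function.iterate_zero, id] at f1 f2
    have f3 : (l : ℤ) ^ e ∣ a ^ oo w 0 j * (x - y) := by
      have : a ^ oo w 0 j * (x - y) = 2 ^ j * ((T a b)^[j] x - (T a b)^[j] y) := by
        linear_combination f2 - f1
      rw [this]
      exact Dvd.dvd.mul_left (dvd_sub h1 h2) _
    have hcop : IsCoprime ((l : ℤ) ^ e) (a ^ oo w 0 j) := by
      apply IsCoprime.pow
      have hp : Prime (l : ℤ) := Nat.prime_iff_prime_int.1 (hS l hl)
      exact (Prime.coprime_iff_not_dvd hp).2 (hSa l hl)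
    exact hcop.dvd_of_dvd_mul_left f3
  · intro i hi j hj hij
    rw [mem_filter] at hi hj
    have hlt : min i j < max i j := by
      rcases lt_or_gt_of_ne hij with h | h
      · rw [min_eq_left h.le, max_eq_right h.le]; exact h
      · rw [min_eq_right h.le, max_eq_left h.le]; exact h
    have hwm : w (min i j) = 1 := by
      rcases min_choice i j with h | h <;> rw [h]
      · exact hi.2
      · exact hj.2
    obtain ⟨n, hn⟩ : ∃ n, max i j - min i j = n + 1 := ⟨max i j - min i j - 1, by omega⟩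
    have := cc_odd ha hb w (min i j) hwm n
    simp only [hn]
    omega
  · intro i hi j hj hij x hx l hl e h1 h2
    rw [mem_filter, mem_range] at hi hj
    rw [dvd_aux] at h1 h2 ⊢
    have hlt : min i j < max i j := by
      rcases lt_or_gt_of_ne hij with h | h
      · rw [min_eq_left h.le, max_eq_right h.le]; exact h
      · rw [min_eq_right h.le, max_eq_left h.le]; exact h
    have hm1 : (l : ℤ) ^ e ∣ (T a b)^[min i j] x := by
      rcases min_choice i j with h | h <;> rw [h]
      · exact h1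
      · exact h2
    have hm2 : (l : ℤ) ^ e ∣ (T a b)^[max i j] x := by
      rcases max_choice i j with h | h <;> rw [h]
      · exact h1
      · exact h2
    have hmax : max i j < k := max_lt hi.1 hj.1
    have f1 := formula ha hb x w (min i j) (max i j - min i j) (fun t ht => hw x hx _ (by omega))
    rw [show min i j + (max i j - min i j) = max i j by omega] at f1
    have : cc a b w (min i j) (max i j - min i j) = 2 ^ (max i j - min i j) * (T a b)^[max i j] x -
        a ^ oo w (min i j) (max i j - min i j) * (T a b)^[min i j] x := by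
      linear_combination -f1
    rw [this]
    exact dvd_sub (Dvd.dvd.mul_left hm2 _) (Dvd.dvd.mul_left hm1 _)
  · intro i hi j hj hij
    rw [mem_filter, mem_range] at hi hj
    have h1 := cc_le (a := a) (b := b) (by rw [ha']; linarith) w (min i j) (max i j - min i j)
    have hmax : max i j < k := max_lt hi.1 hj.1
    have h2 := h1.trans (hpow (max i j - min i j) (by omega))
    rw [hcast]
    rcases eq_or_ne (cc a b w (min i j) (max i j - min i j)) 0 with h0 | h0
    · rw [h0]; simp; positivity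
    · have h3 : 0 < |((cc a b w (min i j) (max i j - min i j) : ℤ) : ℝ)| :=
        abs_pos.2 (by exact_mod_cast h0)
      have h4 : |((cc a b w (min i j) (max i j - min i j) : ℤ) : ℝ)| ≤ 2 ^ (k * μ) := by
        exact_mod_cast h2
      have h5 := Real.log_le_log h3 h4
      rw [Real.log_pow] at h5
      push_cast at h5
      exact h5
  · have : ((8192 * (k * μ) : ℕ) : ℝ) ≤ h := by exact_mod_cast hk
    push_cast at this
    nlinarith

end Pool.Agent.N903.PS
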