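import Mathlib
import Pool.Agent.N903.Window

set_option autoImplicit false

/-!
The number of the primes which divide the elements of a cycle.
-/

namespace Pool.Agent.N903.PS

open Finset

theorem growth {a b : ℤ} (ha : a % 2 = 1) (hb : b % 2 = 1) (x : ℤ)
    (hne : ∀ j, (T a b)^[j] x ≠ 0) (n : ℕ) :
    |(T a b)^[n] x| * 2 ^ n ≤ |x| * (|a| + |b|) ^ Nat.count (fun i => (T a b)^[i] x % 2 = 1) n := by
  induction n with
  | zero => simp
  | succ n ih =>
    have hb0 := abs_nonneg b
    have ha0 := abs_nonneg a
    rw [Function.iterate_succ_apply', Nat.count_succ]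
    have h2 : (0 : ℤ) < 2 ^ n := by positivity
    rcases par ((T a b)^[n] x) with h | h
    · rw [if_neg (by omega), add_zero]
      have := T_abs_even (a := a) (b := b) h
      calc |T a b ((T a b)^[n] x)| * 2 ^ (n + 1) = (2 * |T a b ((T a b)^[n] x)|) * 2 ^ n := by ring
        _ = |(T a b)^[n] x| * 2 ^ n := by rw [this]
        _ ≤ _ := ih
    · rw [if_pos h]
      have := T_le ha hb (hne n) h
      calc |T a b ((T a b)^[n] x)| * 2 ^ (n + 1) = (2 * |T a b ((T a b)^[n] x)|) * 2 ^ n := by ring
        _ ≤ ((|a| + |b|) * |(T a b)^[n] x|) * 2 ^ n := mul_le_mul_of_nonneg_right this h2.le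
        _ = (|a| + |b|) * (|(T a b)^[n] x| * 2 ^ n) := by ring
        _ ≤ (|a| + |b|) * (|x| * (|a| + |b|) ^ Nat.count (fun i => (T a b)^[i] x % 2 = 1) n) :=
          mul_le_mul_of_nonneg_left ih (by linarith)
        _ = _ := by ring

theorem T_zero (a b : ℤ) : T a b 0 = 0 := by simp [T]

theorem iter_ne {a b x0 : ℤ} {p : ℕ} (hx0 : x0 ≠ 0) (hp : 0 < p) (hper : (T a b)^[p] x0 = x0) (j : ℕ) :
    (T a b)^[j] x0 ≠ 0 := by
  intro h0
  apply hx0
  have h1 : ∀ n, (T a b)^[n] 0 = 0 := by
    intro n
    induction n with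
    | zero => rfl
    | succ n ih => rw [Function.iterate_succ_apply', ih, T_zero]
  have h2 : (T a b)^[j * p] x0 = x0 := by
    rw [mul_comm, Function.iterate_mul]
    exact Function.iterate_fixed hper j
  rw [← h2]
  have h3 : j ≤ j * p := Nat.le_mul_of_pos_right j hp
  obtain ⟨m, hm⟩ := Nat.exists_eq_add_of_le h3
  rw [hm, add_comm, Function.iterate_add_apply, h0, h1]

theorem odd_count {a b : ℤ} (ha : a % 2 = 1) (hb : b % 2 = 1) {μ : ℕ}
    (hM : |a| + |b| ≤ 2 ^ μ) {x0 : ℤ} {p : ℕ} (hx0 : x0 ≠ 0) (hp : 0 < p)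
    (hper : (T a b)^[p] x0 = x0) :
    p ≤ μ * Nat.count (fun i => (T a b)^[i] x0 % 2 = 1) p := by
  have h1 := growth ha hb x0 (iter_ne hx0 hp hper) p
  rw [hper] at h1
  have h2 := le_of_mul_le_mul_left h1 (abs_pos.2 hx0)
  have h3 : (2 : ℤ) ^ p ≤ 2 ^ (μ * Nat.count (fun i => (T a b)^[i] x0 % 2 = 1) p) := by
    refine h2.trans ?_
    rw [pow_mul]
    exact pow_le_pow_left₀ (by linarith [abs_nonneg a, abs_nonneg b]) hM _
  exact (pow_le_pow_iff_right₀ (by norm_num)).1 h3

theorem not_dvd {a b : ℤ} (ha : a % 2 = 1) (hb : b % 2 = 1) (hab : IsCoprime a b) {μ : ℕ}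
    (hM : |a| + |b| ≤ 2 ^ μ) {x0 : ℤ} {p : ℕ} (hx0 : x0 ≠ 0) (hp : 0 < p)
    (hper : (T a b)^[p] x0 = x0) {l : ℤ} (hl : Prime l) (hla : l ∣ a) (j : ℕ) :
    ¬ l ∣ (T a b)^[j] x0 := by
  have hlb : ¬ l ∣ b := by
    intro h
    exact hl.not_isUnit (hab.isUnit_of_dvd' hla h)
  have hodd : ∀ y : ℤ, y % 2 = 1 → ¬ l ∣ T a b y := by
    intro y hy hd
    have h1 := T_odd ha hb hy
    apply hlb
    have : b = 2 * T a b y - a * y := by linear_combination -h1
    rw [this]
    exact dvd_sub (Dvd.dvd.mul_left hd _) (Dvd.dvd.mul_right hla _)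
  have heven : ∀ y : ℤ, ¬ l ∣ y → ¬ l ∣ T a b y := by
    intro y hy
    rcases par y with h | h
    · intro hd
      apply hy
      rw [← T_even (a := a) (b := b) h]
      exact Dvd.dvd.mul_left hd _
    · exact hodd y h
  obtain ⟨i, hi⟩ : ∃ i, (T a b)^[i] x0 % 2 = 1 := by
    by_contra hcon
    push Not at hcon
    have h1 := odd_count ha hb hM hx0 hp hper
    have h2 : Nat.count (fun i => (T a b)^[i] x0 % 2 = 1) p = 0 := by
      rw [Nat.count_eq_card_filter_range, card_eq_zero, filter_eq_empty_iff]
      intro i _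
      exact hcon i
    rw [h2] at h1
    omega
  have hge : ∀ n, ¬ l ∣ (T a b)^[i + 1 + n] x0 := by
    intro n
    induction n with
    | zero =>
      rw [add_zero, Function.iterate_succ_apply']
      exact hodd _ hi
    | succ n ih =>
      rw [← add_assoc, Function.iterate_succ_apply']
      exact heven _ ih
  have h2 : (T a b)^[(i + 1) * p] x0 = x0 := by
    rw [mul_comm, Function.iterate_mul]
    exact Function.iterate_fixed hper _
  have h3 : i + 1 ≤ (i + 1) * p := Nat.le_mul_of_pos_right _ hp
  obtain ⟨m, hm⟩ := Nat.exists_eq_add_of_le h3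
  have h4 : (T a b)^[j] x0 = (T a b)^[i + 1 + (m + j)] x0 := by
    rw [show i + 1 + (m + j) = j + (i + 1) * p by omega, Function.iterate_add_apply, h2]
  rw [h4]
  exact hge _

theorem window_count {P : ℕ → Prop} [DecidablePred P] {p : ℕ} (hP : Function.Periodic P p) (k : ℕ) :
    ∑ i ∈ range p, ((range k).filter fun t => P (i + t)).card = k * p.count P := by
  simp only [card_filter]
  rw [sum_comm]
  have : ∀ t ∈ range k, ∑ i ∈ range p, (if P (i + t) then 1 else 0) = p.count P := by
    intro t _
    rw [← Nat.filter_Ico_card_eq_of_periodic t p P hP, card_filter, sum_Ico_eq_sum_range,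
      show t + p - t = p by omega]
    apply sum_congr rfl
    intro i _
    rw [add_comm]
  rw [sum_congr rfl this, sum_const, card_range, smul_eq_mul]

theorem good_windows {P : ℕ → Prop} [DecidablePred P] {p : ℕ} (hP : Function.Periodic P p) {k κ μ : ℕ}
    (hk : 0 < k) (hκ : 2 * μ * κ ≤ k) (ho : p ≤ μ * p.count P) :
    p ≤ 2 * μ * ((range p).filter fun i => κ ≤ ((range k).filter fun t => P (i + t)).card).card := by
  have h1 := window_count hP k
  rw [← sum_filter_add_sum_filter_not (range p)
    (fun i => κ ≤ ((range k).filter fun t => P (i + t)).card)] at h1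
  have h2 : ∑ i ∈ (range p).filter (fun i => κ ≤ ((range k).filter fun t => P (i + t)).card),
      ((range k).filter fun t => P (i + t)).card ≤
      ((range p).filter fun i => κ ≤ ((range k).filter fun t => P (i + t)).card).card * k := by
    rw [← smul_eq_mul]
    apply sum_le_card_nsmul
    intro i _
    exact (card_filter_le _ _).trans (by rw [card_range])
  have h3 : ∑ i ∈ (range p).filter (fun i => ¬ κ ≤ ((range k).filter fun t => P (i + t)).card),
      ((range k).filter fun t => P (i + t)).card ≤ p * κ := by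
    have : ∑ i ∈ (range p).filter (fun i => ¬ κ ≤ ((range k).filter fun t => P (i + t)).card),
      ((range k).filter fun t => P (i + t)).card ≤
      ((range p).filter (fun i => ¬ κ ≤ ((range k).filter fun t => P (i + t)).card)).card • κ := by
      apply sum_le_card_nsmul
      intro i hi
      exact (not_le.1 (mem_filter.1 hi).2).le
    refine this.trans ?_
    rw [smul_eq_mul]
    apply Nat.mul_le_mul_right
    exact (card_filter_le _ _).trans (by rw [card_range])
  set g := ((range p).filter fun i => κ ≤ ((range k).filter fun t => P (i + t)).card).card with hg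
  set o := p.count P with ho'
  have h4 : k * o ≤ g * k + p * κ := by omega
  have h5 : 2 * μ * (k * o) ≤ 2 * μ * (g * k + p * κ) := Nat.mul_le_mul_left _ h4
  have h6 : 2 * k * p ≤ 2 * μ * (k * o) := by
    calc 2 * k * p ≤ 2 * k * (μ * o) := Nat.mul_le_mul_left _ ho
      _ = 2 * μ * (k * o) := by ring
  have h7 : p * (2 * μ * κ) ≤ p * k := Nat.mul_le_mul_left _ hκ
  have h8 : k * p ≤ k * (2 * μ * g) := by nlinarith
  exact Nat.le_of_mul_le_mul_left h8 hk

set_option maxHeartbeats 2000000 in
theorem nat_bound {a b : ℤ} (ha3 : 3 ≤ a) (ha : a % 2 = 1) (hb : b % 2 = 1) (hab : IsCoprime a b)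
    {μ : ℕ} (hM : |a| + |b| ≤ 2 ^ μ) {x0 : ℤ} {p : ℕ} (hx0 : x0 ≠ 0) (hp : 0 < p)
    (hper : (T a b)^[p] x0 = x0) (hinj : Set.InjOn (fun i => (T a b)^[i] x0) (Set.Iio p))
    {S : Finset ℕ} (hsupp : ∀ i, ((T a b)^[i] x0).natAbs.primeFactors ⊆ S)
    {k κ h0 ω B : ℕ} (hω : 1 ≤ ω) (hωh : ω ≤ h0) (hk : 8192 * (k * μ) ≤ h0) (hκ : 2 * μ * κ ≤ k)
    (hκ2 : 24 * 64 ≤ κ)
    (hB : (k * S.card * (6 * ω + 1) + 1) ^ (64 * (6 * ω)) + S.card ≤ B)
    (hlt : 2 * μ * ((Nat.log 2 (μ * p + 2) + 1) * 2 ^ k * B + 2 ^ (h0 + 1)) < p) :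
    κ * ω ≤ 128 * S.card := by
  classical
  by_contra hcon
  push Not at hcon
  have ha' : |a| = a := abs_of_pos (by linarith)
  have hb0 := abs_nonneg b
  have hμ1 : 1 ≤ μ := by
    by_contra hc
    have : μ = 0 := by omega
    rw [this] at hM
    simp only [pow_zero] at hM
    linarith
  have hh0 : 1 ≤ h0 := hω.trans hωh
  have hk0 : 0 < k := by nlinarith
  set X : ℕ → ℤ := fun i => (T a b)^[i] x0 with hX
  have hXne : ∀ i, X i ≠ 0 := iter_ne hx0 hp hper
  set P : ℕ → Prop := fun i => X i % 2 = 1 with hP
  have hper' : Function.Periodic P p := by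
    intro i
    simp only [hP, hX]
    rw [Function.iterate_add_apply, hper]
  have ho : p ≤ μ * p.count P := odd_count ha hb hM hx0 hp hper
  have hgood := good_windows hper' hk0 hκ ho
  -- the smallest element
  obtain ⟨im, him, hmin⟩ := exists_min_image (range p) (fun i => (X i).natAbs) ⟨0, by simpa using hp⟩
  set y : ℕ → ℕ := fun i => Nat.log 2 (X i).natAbs with hy
  set H := max h0 (y im) with hH
  have hymin : ∀ i ∈ range p, y im ≤ y i := fun i hi => Nat.log_mono_right (hmin i hi)
  -- the largest possible size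
  have hymax : ∀ i ∈ range p, y i ≤ y im + μ * p + 1 := by
    intro i hi
    rw [mem_range] at hi him
    have h1 : X i = (T a b)^[i + (p - im)] (X im) := by
      simp only [hX]
      rw [← Function.iterate_add_apply, show i + (p - im) + im = i + p by omega,
        Function.iterate_add_apply, hper]
    -- number of steps modulo `p`
    have h2 : ∃ t ≤ p, X i = (T a b)^[t] (X im) := by
      rcases le_or_gt im i with h | h
      · refine ⟨i - im, by omega, ?_⟩
        simp only [hX]
        rw [← Function.iterate_add_apply, show i - im + im = i by omega]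
      · exact ⟨i + (p - im), by omega, h1⟩
    obtain ⟨t, ht, h3⟩ := h2
    have h4 := iter_up ha hb (by rw [ha']; linarith) (X im) (by
      intro j
      simp only [hX]
      rw [← Function.iterate_add_apply]
      exact hXne _) t
    rw [← h3] at h4
    have h5 : |X i| ≤ 2 ^ (μ * p) * |X im| := by
      refine h4.trans (mul_le_mul_of_nonneg_right ?_ (abs_nonneg _))
      calc (|a| + |b|) ^ t ≤ (2 ^ μ) ^ t := pow_le_pow_left₀ (by linarith) hM t
        _ = 2 ^ (μ * t) := by rw [pow_mul]
        _ ≤ 2 ^ (μ * p) := pow_le_pow_right₀ (by norm_num) (Nat.mul_le_mul_left μ ht)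
    have h6 : (X i).natAbs ≤ 2 ^ (μ * p) * (X im).natAbs := by
      zify
      exact h5
    have h7 : (X im).natAbs < 2 ^ (y im + 1) := Nat.lt_pow_succ_log_self (by norm_num) _
    have h8 : (X i).natAbs < 2 ^ (μ * p + (y im + 1)) := by
      rw [pow_add]
      exact h6.trans_lt (Nat.mul_lt_mul_of_pos_left h7 (by positivity))
    have h9 := Nat.log_lt_of_lt_pow (by have := hXne i; omega) h8
    simp only [hy] at h9 ⊢
    omega
  -- the indices
  set I := (range p).filter fun i => H ≤ y i ∧ κ ≤ ((range k).filter fun t => P (i + t)).card with hI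
  have hsmall : ((range p).filter fun i => y i < H).card ≤ 2 ^ (h0 + 1) := by
    rcases le_or_gt (y im) h0 with h | h
    · rw [hH, max_eq_left h]
      have hmaps : ∀ i ∈ (range p).filter (fun i => y i < h0), X i ∈ Ioo (-(2 : ℤ) ^ h0) (2 ^ h0) := by
        intro i hi
        rw [mem_filter] at hi
        have h1 : (X i).natAbs < 2 ^ h0 := Nat.lt_pow_of_log_lt (by norm_num) hi.2
        have h2 : |X i| < 2 ^ h0 := by zify at h1; exact h1
        rw [mem_Ioo]
        exact abs_lt.1 h2
      have hinj' : Set.InjOn X ((range p).filter (fun i => y i < h0) : Set ℕ) := by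
        apply hinj.mono
        intro i hi
        rw [mem_coe, mem_filter, mem_range] at hi
        exact hi.1
      refine (card_le_card_of_injOn X hmaps hinj').trans ?_
      rw [Int.card_Ioo, pow_succ]
      have : ((2 : ℤ) ^ h0 - -2 ^ h0 - 1).toNat = 2 ^ h0 * 2 - 1 := by
        have : ((2 : ℤ) ^ h0 - -2 ^ h0 - 1) = ((2 ^ h0 * 2 : ℕ) : ℤ) - 1 := by push_cast; ring
        rw [this]
        omega
      omega
    · rw [hH, max_eq_right h.le]
      have : (range p).filter (fun i => y i < y im) = ∅ := by
        rw [filter_eq_empty_iff]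
        intro i hi
        have := hymin i hi
        omega
      rw [this]; simp
  have hIcard : p ≤ 2 * μ * (I.card + 2 ^ (h0 + 1)) := by
    refine hgood.trans (Nat.mul_le_mul_left _ ?_)
    have : (range p).filter (fun i => κ ≤ ((range k).filter fun t => P (i + t)).card) ⊆
        I ∪ (range p).filter fun i => y i < H := by
      intro i hi
      rw [mem_filter] at hi
      rw [mem_union, hI, mem_filter, mem_filter]
      rcases le_or_gt H (y i) with h | h
      · exact Or.inl ⟨hi.1, h, hi.2⟩
      · exact Or.inr ⟨hi.1, h⟩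
    exact (card_le_card this).trans ((card_union_le _ _).trans (Nat.add_le_add_left hsmall _))
  -- the classes
  set φ : ℕ → ℕ × (Fin k → Bool) := fun i => (Nat.log 2 (y i / H), fun t => decide (P (i + t))) with hφ
  have hHpos : 0 < H := lt_of_lt_of_le hh0 (le_max_left _ _)
  have hmaps : ∀ i ∈ I, φ i ∈ range (Nat.log 2 (μ * p + 2) + 1) ×ˢ (univ : Finset (Fin k → Bool)) := by
    intro i hi
    rw [hI, mem_filter] at hi
    rw [mem_product, mem_range]
    refine ⟨?_, mem_univ _⟩
    apply Nat.lt_succ_of_le
    show Nat.log 2 (y i / H) ≤ Nat.log 2 (μ * p + 2)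
    apply Nat.log_mono_right
    apply Nat.div_le_of_le_mul
    have h1 := hymax i hi.1
    have h2 : y im ≤ H := le_max_right _ _
    nlinarith
  have hfib : ∀ z ∈ range (Nat.log 2 (μ * p + 2) + 1) ×ˢ (univ : Finset (Fin k → Bool)),
      (I.filter fun i => φ i = z).card ≤ B := by
    intro z _
    rcases (I.filter fun i => φ i = z).eq_empty_or_nonempty with he | ⟨i0, hi0⟩
    · rw [he]; simp
    set F := I.filter fun i => φ i = z with hF
    rw [mem_filter] at hi0
    set A := F.image X with hA
    have hFp : ∀ i ∈ F, i < p := by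
      intro i hi
      have := (mem_filter.1 (mem_filter.1 hi).1).1
      exact mem_range.1 this
    have hAcard : A.card = F.card := by
      apply card_image_of_injOn
      apply hinj.mono
      intro i hi
      exact hFp i hi
    set h := H * 2 ^ z.1 with hh
    have hhH : H ≤ h := Nat.le_mul_of_pos_right _ (by positivity)
    have hh0' : h0 ≤ h := (le_max_left _ _).trans hhH
    set w : ℕ → ℤ := fun t => X (i0 + t) % 2 with hw
    have hwt : ∀ i ∈ F, ∀ t < k, X (i + t) % 2 = w t := by
      intro i hi t ht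
      have h1 := (mem_filter.1 hi).2
      have h2 := hi0.2
      rw [← h2] at h1
      have h3 := congrFun (congrArg Prod.snd h1) ⟨t, ht⟩
      simp only [hφ] at h3
      rw [decide_eq_decide] at h3
      simp only [hP] at h3
      simp only [hw]
      rcases par (X (i + t)) with h4 | h4 <;> rcases par (X (i0 + t)) with h5 | h5
      · rw [h4, h5]
      · exfalso; have := h3.2 h5; omega
      · exfalso; have := h3.1 h4; omega
      · rw [h4, h5]
    have hys : ∀ i ∈ F, h ≤ y i ∧ y i < 2 * h := by
      intro i hi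
      have h1 := (mem_filter.1 hi).2
      have h2 : Nat.log 2 (y i / H) = z.1 := congrArg Prod.fst h1
      have h3 : H ≤ y i := (mem_filter.1 (mem_filter.1 hi).1).2.1
      have h4 : 1 ≤ y i / H := (Nat.one_le_div_iff hHpos).2 h3
      have h5 := Nat.pow_log_le_self 2 (x := y i / H) (by omega)
      have h6 := Nat.lt_pow_succ_log_self (b := 2) (by norm_num) (y i / H)
      rw [h2] at h5 h6
      constructor
      · rw [hh, mul_comm]
        exact (Nat.le_div_iff_mul_le hHpos).1 h5
      · rw [Nat.div_lt_iff_lt_mul hHpos] at h6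
        calc y i < 2 ^ (z.1 + 1) * H := h6
          _ = 2 * h := by rw [hh, pow_succ]; ring
    have hXabs : ∀ i, ((X i).natAbs : ℤ) = |X i| := fun i => Int.natCast_natAbs _
    have hWC := window_core (A := A) ha3 ha hb hM (k := k) (h := h) (β := h / ω)
      ((Nat.one_le_div_iff hω).2 (hωh.trans hh0')) (Nat.div_le_self _ _) (hk.trans hh0') w
      (by
        intro x hx t ht
        rw [hA, mem_image] at hx
        obtain ⟨i, hi, rfl⟩ := hx
        rw [← hwt i hi t ht]
        simp only [hX]
        rw [← Function.iterate_add_apply, add_comm])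
      (by
        intro x hx j
        rw [hA, mem_image] at hx
        obtain ⟨i, hi, rfl⟩ := hx
        simp only [hX]
        rw [← Function.iterate_add_apply]
        exact hXne _)
      (by
        intro x hx
        rw [hA, mem_image] at hx
        obtain ⟨i, hi, rfl⟩ := hx
        rw [← hXabs]
        have h1 := (hys i hi).1
        have h2 : 2 ^ h ≤ (X i).natAbs :=
          (Nat.pow_le_pow_right (by norm_num) h1).trans
            (Nat.pow_log_le_self 2 (by have := hXne i; omega))
        exact_mod_cast h2)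
      (by
        intro x hx
        rw [hA, mem_image] at hx
        obtain ⟨i, hi, rfl⟩ := hx
        rw [← hXabs]
        have h1 := (hys i hi).2
        have h2 : (X i).natAbs ≤ 2 ^ (2 * h) :=
          (Nat.lt_pow_succ_log_self (b := 2) (by norm_num) (X i).natAbs).le.trans
            (Nat.pow_le_pow_right (by norm_num) h1)
        exact_mod_cast h2)
      (S := (S.filter fun l : ℕ => l.Prime).filter fun l : ℕ => ¬ (l : ℤ) ∣ a)
      (by
        intro l hl
        rw [mem_filter, mem_filter] at hl
        exact hl.1.2)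
      (by
        intro l hl
        rw [mem_filter] at hl
        exact hl.2)
      (by
        intro x hx t ht hwt1 l hl
        rw [hA, mem_image] at hx
        obtain ⟨i, hi, rfl⟩ := hx
        have e : (T a b)^[t] (X i) = (T a b)^[t + i] x0 := by
          simp only [hX]
          rw [← Function.iterate_add_apply]
        rw [e] at hl
        have hlp := Nat.prime_of_mem_primeFactors hl
        rw [mem_filter, mem_filter]
        refine ⟨⟨hsupp _ hl, hlp⟩, ?_⟩
        intro hla
        have := not_dvd ha hb hab hM hx0 hp hper (Nat.prime_iff_prime_int.1 hlp) hla (t + i)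
        apply this
        rw [Int.natCast_dvd]
        exact Nat.dvd_of_mem_primeFactors hl)
      (by
        have h1 := (mem_filter.1 hi0.1).2.2
        refine hκ2.trans (h1.trans (le_of_eq ?_))
        rfl)
    set J := (range k).filter fun t => w t = 1 with hJ
    set S' : Finset ℕ := (S.filter fun l : ℕ => l.Prime).filter fun l : ℕ => ¬ (l : ℤ) ∣ a with hS'
    have hSS : S'.card ≤ S.card := (card_filter_le _ _).trans (card_filter_le _ _)
    have hJk : J.card ≤ k := (card_filter_le _ _).trans (by rw [card_range])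
    have hJκ : κ ≤ J.card := (mem_filter.1 hi0.1).2.2
    have hβ1 : 1 ≤ h / ω := (Nat.one_le_div_iff hω).2 (hωh.trans hh0')
    have hτ : 3 * h / (h / ω) ≤ 6 * ω := by
      apply Nat.div_le_of_le_mul
      have h1 : h < ω * (h / ω + 1) := Nat.lt_mul_div_succ h hω
      have h2 : ω ≤ ω * (h / ω) := Nat.le_mul_of_pos_right ω hβ1
      have h3 : h / ω * (6 * ω) = 6 * (ω * (h / ω)) := by ring
      rw [mul_add, mul_one] at h1
      rw [h3]
      omega
    rcases hWC with h1 | h1
    · rw [← hAcard]
      refine h1.trans (le_trans ?_ hB)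
      apply Nat.add_le_add _ hSS
      calc (J.card * S'.card * (3 * h / (h / ω) + 1) + 1) ^ (64 * (3 * h / (h / ω)))
          ≤ (k * S.card * (6 * ω + 1) + 1) ^ (64 * (3 * h / (h / ω))) := by
            apply Nat.pow_le_pow_left
            apply Nat.add_le_add_right
            exact Nat.mul_le_mul (Nat.mul_le_mul hJk hSS) (Nat.add_le_add_right hτ 1)
        _ ≤ _ := Nat.pow_le_pow_right (by omega) (Nat.mul_le_mul_left _ hτ)
    · exfalso
      have hpos : 0 < h := lt_of_lt_of_le hHpos hhH
      have h2 : J.card * ω * h ≤ 128 * S.card * h := by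
        calc J.card * ω * h = (J.card * h) * ω := by ring
          _ ≤ (128 * (S'.card * (h / ω))) * ω := Nat.mul_le_mul_right _ h1
          _ = 128 * S'.card * (h / ω * ω) := by ring
          _ ≤ 128 * S'.card * h := Nat.mul_le_mul_left _ (Nat.div_mul_le_self _ _)
          _ ≤ 128 * S.card * h := Nat.mul_le_mul_right _ (Nat.mul_le_mul_left _ hSS)
      have h3 := Nat.le_of_mul_le_mul_right h2 hpos
      have h4 : κ * ω ≤ J.card * ω := Nat.mul_le_mul_right _ hJκ
      omega
  have hIle : I.card ≤ (Nat.log 2 (μ * p + 2) + 1) * 2 ^ k * B := by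
    rw [card_eq_sum_card_fiberwise hmaps]
    refine (sum_le_sum hfib).trans (le_of_eq ?_)
    rw [sum_const, card_product, card_range, card_univ, Fintype.card_fun, Fintype.card_bool,
      Fintype.card_fin, smul_eq_mul]
  have : p ≤ 2 * μ * ((Nat.log 2 (μ * p + 2) + 1) * 2 ^ k * B + 2 ^ (h0 + 1)) :=
    hIcard.trans (Nat.mul_le_mul_left _ (Nat.add_le_add_right hIle _))
  omega

end Pool.Agent.N903.PS
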