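import Mathlib
import Pool.Agent.N903.CycleSupport

set_option autoImplicit false

/-!
The choice of the parameters in the bound for the number of the primes dividing the elements of a cycle.
-/

namespace Pool.Agent.N903.PS

open Finset

theorem sq_le_two_pow {s : ℕ} (hs : 18 ≤ s) : (16 * (s + 1)) ^ 2 ≤ 2 ^ s := by
  induction s, hs using Nat.le_induction with
  | base => norm_num
  | succ s hs ih =>
    rw [pow_succ 2 s]
    nlinarith

theorem nu_le {n : ℕ} (hn : 2 ^ 21 ≤ n) : 24576 * (Nat.log 2 n + 1) ≤ n := by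
  have h1 : 21 ≤ Nat.log 2 n := by
    have := Nat.log_mono_right (b := 2) hn
    rwa [Nat.log_pow (by norm_num)] at this
  have h2 : ∀ v : ℕ, 21 ≤ v → 24576 * (v + 1) ≤ 2 ^ v := by
    intro v hv
    induction v, hv using Nat.le_induction with
    | base => norm_num
    | succ v hv ih => rw [pow_succ]; omega
  exact (h2 _ h1).trans (Nat.pow_log_le_self 2 (by omega))

set_option maxHeartbeats 2000000 in
theorem nat_final {a b : ℤ} (ha3 : 3 ≤ a) (ha : a % 2 = 1) (hb : b % 2 = 1) (hab : IsCoprime a b)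
    {μ : ℕ} (hM : |a| + |b| ≤ 2 ^ μ) {x0 : ℤ} {p : ℕ} (hx0 : x0 ≠ 0) (hp : 0 < p)
    (hper : (T a b)^[p] x0 = x0) (hinj : Set.InjOn (fun i => (T a b)^[i] x0) (Set.Iio p))
    {S : Finset ℕ} (hsupp : ∀ i, ((T a b)^[i] x0).natAbs.primeFactors ⊆ S)
    {n : ℕ} (hn1 : 2 ^ n ≤ p) (hn2 : p < 2 ^ (n + 1)) (hn : 2 ^ 26 * μ ^ 2 ≤ n) (hr : S.card ≤ n ^ 2) :
    (n / (32768 * μ ^ 2)) * (n / (24576 * (Nat.log 2 n + 1))) ≤ 128 * S.card := by
  have hμ1 : 1 ≤ μ := by
    by_contra hc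
    have : μ = 0 := by omega
    rw [this] at hM
    have hb0 := abs_nonneg b
    have ha' : |a| = a := abs_of_pos (by linarith)
    simp only [pow_zero] at hM
    linarith
  have hμ2 : μ ≤ μ ^ 2 := by nlinarith
  have hμ3 : 1 ≤ μ ^ 2 := hμ1.trans hμ2
  have hnbig : 2 ^ 26 ≤ n := by nlinarith
  have hnμ : 2 ^ 26 * μ ≤ n := by nlinarith
  have hν := nu_le (n := n) (by omega)
  set ν := Nat.log 2 n + 1 with hνdef
  have hν1 : 1 ≤ ν := by omega
  have hnν : n < 2 ^ ν := Nat.lt_pow_succ_log_self (by norm_num) n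
  have hκ : n / (32768 * μ ^ 2) = n / 2 / (8192 * μ) / (2 * μ) := by
    rw [Nat.div_div_eq_div_mul, Nat.div_div_eq_div_mul]
    congr 1
    ring
  rw [hκ]
  set ω := n / (24576 * ν) with hω
  set s := n / 16 with hs
  have hsn : 16 * s ≤ n := by omega
  have hsn' : n < 16 * (s + 1) := by omega
  have hs18 : 18 ≤ s := by omega
  have hkn : n / 2 / (8192 * μ) ≤ s := by
    refine (Nat.div_le_div_left (show 8192 ≤ 8192 * μ by omega) (by norm_num)).trans ?_
    omega
  have hωle : ω * (24576 * ν) ≤ n := Nat.div_mul_le_self _ _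
  have hωn : 24576 * ω ≤ n := by nlinarith
  have hsq : n ^ 2 ≤ 2 ^ s :=
    (Nat.pow_le_pow_left hsn'.le 2).trans (sq_le_two_pow hs18)
  have hμs : 2 * μ ≤ 2 ^ s := by
    have h1 : 2 * μ ≤ n := by omega
    have h2 : n ≤ n ^ 2 := by nlinarith
    omega
  apply nat_bound ha3 ha hb hab hM hx0 hp hper hinj hsupp (k := n / 2 / (8192 * μ))
    (κ := n / 2 / (8192 * μ) / (2 * μ)) (h0 := n / 2) (ω := ω) (B := 2 ^ s + n ^ 2)
  · rw [hω]
    exact (Nat.one_le_div_iff (by omega)).2 hν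
  · omega
  · have := Nat.div_mul_le_self (n / 2) (8192 * μ)
    nlinarith
  · rw [mul_comm]
    exact Nat.div_mul_le_self _ _
  · rw [← hκ, Nat.le_div_iff_mul_le (by omega)]
    omega
  · apply Nat.add_le_add _ hr
    have b1 : n / 2 / (8192 * μ) * S.card * (6 * ω + 1) + 1 ≤ 2 ^ (4 * ν) := by
      have h1 : n / 2 / (8192 * μ) ≤ n := by omega
      have h2 : 6 * ω + 1 ≤ n := by omega
      have h3 : n / 2 / (8192 * μ) * S.card * (6 * ω + 1) ≤ n * n ^ 2 * n :=
        Nat.mul_le_mul (Nat.mul_le_mul h1 hr) h2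
      have h4 : n * n ^ 2 * n = n ^ 4 := by ring
      have h5 : n ^ 4 < (2 ^ ν) ^ 4 := Nat.pow_lt_pow_left hnν (by norm_num)
      have h6 : (2 ^ ν) ^ 4 = 2 ^ (4 * ν) := by rw [← pow_mul, mul_comm]
      omega
    have b2 : 4 * ν * (64 * (6 * ω)) ≤ s := by
      rw [hs, Nat.le_div_iff_mul_le (by norm_num)]
      calc 4 * ν * (64 * (6 * ω)) * 16 = ω * (24576 * ν) := by ring
        _ ≤ n := hωle
    refine (Nat.pow_le_pow_left b1 _).trans ?_
    rw [← pow_mul]
    exact Nat.pow_le_pow_right (by norm_num) b2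
  · have c1 : Nat.log 2 (μ * p + 2) + 1 ≤ 2 ^ s := by
      have h1 : μ * p + 2 < 2 ^ (μ + n + 2) := by
        have h2 : μ < 2 ^ μ := Nat.lt_two_pow_self
        have h3 : μ * p ≤ 2 ^ μ * 2 ^ (n + 1) := Nat.mul_le_mul h2.le hn2.le
        have h4 : 2 ^ μ * 2 ^ (n + 1) = 2 ^ (μ + n + 1) := by rw [← pow_add]; congr 1
        have h5 : 2 ^ (μ + n + 2) = 2 * 2 ^ (μ + n + 1) := by rw [← pow_succ']
        have h6 : 2 ^ 2 ≤ 2 ^ (μ + n + 1) := Nat.pow_le_pow_right (by norm_num) (by omega)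
        omega
      have h7 := Nat.log_lt_of_lt_pow (by omega) h1
      have h8 : μ + n + 2 ≤ n ^ 2 := by
        have e1 : μ + n + 2 ≤ 3 * n := by omega
        have e2 : 3 * n ≤ n * n := Nat.mul_le_mul_right n (by omega)
        rw [sq]
        exact e1.trans e2
      omega
    have c2 : 2 ^ (n / 2 / (8192 * μ)) ≤ 2 ^ s := Nat.pow_le_pow_right (by norm_num) hkn
    have c3 : 2 ^ s + n ^ 2 ≤ 2 ^ (s + 1) := by rw [pow_succ 2 s]; omega
    have c4 : 2 ^ (n / 2 + 1) ≤ 2 ^ (8 * s + 9) := Nat.pow_le_pow_right (by norm_num) (by omega)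
    calc 2 * μ * ((Nat.log 2 (μ * p + 2) + 1) * 2 ^ (n / 2 / (8192 * μ)) * (2 ^ s + n ^ 2) +
          2 ^ (n / 2 + 1))
        ≤ 2 ^ s * (2 ^ s * 2 ^ s * 2 ^ (s + 1) + 2 ^ (8 * s + 9)) :=
          Nat.mul_le_mul hμs (Nat.add_le_add (Nat.mul_le_mul (Nat.mul_le_mul c1 c2) c3) c4)
      _ = 2 ^ (4 * s + 1) + 2 ^ (9 * s + 9) := by
          rw [mul_add, ← pow_add, ← pow_add, ← pow_add, ← pow_add]
          congr 2 <;> ring
      _ ≤ 2 ^ (9 * s + 9) + 2 ^ (9 * s + 9) :=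
          Nat.add_le_add_right (Nat.pow_le_pow_right (by norm_num) (by omega)) _
      _ = 2 ^ (9 * s + 10) := by rw [pow_succ 2 (9 * s + 9)]; ring
      _ < 2 ^ (16 * s) := Nat.pow_lt_pow_right (by norm_num) (by omega)
      _ ≤ 2 ^ n := Nat.pow_le_pow_right (by norm_num) hsn
      _ ≤ p := hn1

theorem half_floor {n m : ℕ} (hm : 0 < m) (h : m ≤ n) : (n : ℝ) ≤ 2 * m * ((n / m : ℕ) : ℝ) := by
  have h1 : n < m * (n / m + 1) := Nat.lt_mul_div_succ n hm
  have h2 : 1 ≤ n / m := (Nat.one_le_div_iff hm).2 h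
  have h3 : n ≤ 2 * m * (n / m) := by nlinarith
  exact_mod_cast h3

theorem prime_support {a b : ℤ} (ha3 : 3 ≤ a) (ha : a % 2 = 1) (hb : b % 2 = 1) (hab : IsCoprime a b)
    {μ : ℕ} (hM : |a| + |b| ≤ 2 ^ μ) {x0 : ℤ} {p : ℕ} (hx0 : x0 ≠ 0) (hp : 0 < p)
    (hper : (T a b)^[p] x0 = x0) (hinj : Set.InjOn (fun i => (T a b)^[i] x0) (Set.Iio p))
    {S : Finset ℕ} (hsupp : ∀ i, ((T a b)^[i] x0).natAbs.primeFactors ⊆ S) :
    (Real.log p) ^ 2 ≤ 10 ^ 16 * μ ^ 4 * (S.card + 1) * Real.log (Real.log p + 2) := by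
  have hμ1 : 1 ≤ μ := by
    by_contra hc
    have : μ = 0 := by omega
    rw [this] at hM
    have hb0 := abs_nonneg b
    have ha' : |a| = a := abs_of_pos (by linarith)
    simp only [pow_zero] at hM
    linarith
  have hμR : (1 : ℝ) ≤ μ := by exact_mod_cast hμ1
  have hp1 : (1 : ℝ) ≤ p := by exact_mod_cast hp
  have hL0 : 0 ≤ Real.log p := Real.log_nonneg hp1
  set L := Real.log p with hL
  set n := Nat.log 2 p with hn
  have hn1 : 2 ^ n ≤ p := Nat.pow_log_le_self 2 (by omega)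
  have hn2 : p < 2 ^ (n + 1) := Nat.lt_pow_succ_log_self (by norm_num) p
  have hl2 := Real.log_two_gt_d9
  have hl2' := Real.log_two_lt_d9
  have hLn : L ≤ (n + 1) * Real.log 2 := by
    have h1 : (p : ℝ) ≤ 2 ^ (n + 1) := by exact_mod_cast hn2.le
    have h2 := Real.log_le_log (by linarith) h1
    rw [Real.log_pow] at h2
    push_cast at h2
    exact h2
  have hnL : n * Real.log 2 ≤ L := by
    have h1 : (2 : ℝ) ^ n ≤ p := by exact_mod_cast hn1
    have h2 := Real.log_le_log (by positivity) h1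
    rwa [Real.log_pow] at h2
  have hn0 : (0 : ℝ) ≤ n := Nat.cast_nonneg _
  have hlog2 : Real.log 2 ≤ Real.log (L + 2) := Real.log_le_log (by norm_num) (by linarith)
  have hr0 : (0 : ℝ) ≤ S.card := Nat.cast_nonneg _
  have hμ2 : (1 : ℝ) ≤ (μ : ℝ) ^ 2 := one_le_pow₀ hμR
  have hμ4 : ((μ : ℝ) ^ 2) ≤ (μ : ℝ) ^ 4 := pow_le_pow_right₀ hμR (by norm_num)
  set lg := Real.log (L + 2) with hlg
  have hlg0 : 0 < lg := by linarith
  rcases lt_or_ge n (2 ^ 26 * μ ^ 2) with h | h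
  · -- small cycles
    have h1 : (n : ℝ) + 1 ≤ 2 ^ 26 * (μ : ℝ) ^ 2 := by exact_mod_cast h
    have h2 : L ≤ 2 ^ 26 * (μ : ℝ) ^ 2 * 1 := by
      refine hLn.trans ?_
      apply mul_le_mul h1 (by linarith) (by linarith) (by positivity)
    rw [mul_one] at h2
    have h3 : L ^ 2 ≤ 2 ^ 52 * (μ : ℝ) ^ 4 := by
      calc L ^ 2 ≤ (2 ^ 26 * (μ : ℝ) ^ 2) ^ 2 := pow_le_pow_left₀ hL0 h2 2
        _ = _ := by ring
    refine h3.trans ?_
    have h4 : (1 : ℝ) * (69 / 100) ≤ (S.card + 1) * lg :=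
      mul_le_mul (by linarith) (by linarith) (by norm_num) (by linarith)
    have h5 : (10 : ℝ) ^ 16 * μ ^ 4 * (1 * (69 / 100)) ≤ 10 ^ 16 * μ ^ 4 * ((S.card + 1) * lg) :=
      mul_le_mul_of_nonneg_left h4 (by positivity)
    have h6 : (2 : ℝ) ^ 52 * (μ : ℝ) ^ 4 ≤ 10 ^ 16 * μ ^ 4 * (1 * (69 / 100)) := by
      have : (0 : ℝ) ≤ (μ : ℝ) ^ 4 := by positivity
      nlinarith
    linarith
  · -- long cycles
    have hn26 : (2 : ℝ) ^ 26 ≤ n := by
      have : 2 ^ 26 * μ ^ 2 ≤ n := h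
      have h' : (2 : ℝ) ^ 26 * (μ : ℝ) ^ 2 ≤ n := by exact_mod_cast this
      nlinarith
    have hL2 : L ^ 2 ≤ 2 * (n : ℝ) ^ 2 := by
      have h1 : L ≤ 6 / 5 * n := by nlinarith
      calc L ^ 2 ≤ (6 / 5 * n) ^ 2 := pow_le_pow_left₀ hL0 h1 2
        _ ≤ 2 * (n : ℝ) ^ 2 := by nlinarith
    rcases le_or_gt S.card (n ^ 2) with hr | hr
    · have key := nat_final ha3 ha hb hab hM hx0 hp hper hinj hsupp hn1 hn2 h hr
      have hn21 : 2 ^ 21 ≤ n := by
        have : (2 : ℝ) ^ 21 ≤ n := by linarith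
        exact_mod_cast this
      have hν := nu_le hn21
      set ν := Nat.log 2 n + 1 with hνd
      have f1 := half_floor (n := n) (m := 32768 * μ ^ 2) (by positivity) (by
        refine le_trans ?_ h
        apply Nat.mul_le_mul_right
        norm_num)
      have f2 := half_floor (n := n) (m := 24576 * ν) (by positivity) hν
      set u := n / (32768 * μ ^ 2) with hu
      set v := n / (24576 * ν) with hv
      have key' : (u : ℝ) * v ≤ 128 * S.card := by exact_mod_cast key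
      push_cast at f1 f2
      have hu0 : (0 : ℝ) ≤ u := Nat.cast_nonneg _
      have hν0 : (0 : ℝ) ≤ ν := Nat.cast_nonneg _
      have f3 : (n : ℝ) ^ 2 ≤ 412316860416 * μ ^ 2 * ν * S.card := by
        calc (n : ℝ) ^ 2 = n * n := by ring
          _ ≤ (2 * (32768 * (μ : ℝ) ^ 2) * u) * (2 * (24576 * ν) * v) :=
            mul_le_mul f1 f2 hn0 (by positivity)
          _ = 3221225472 * μ ^ 2 * ν * (u * v) := by ring
          _ ≤ 3221225472 * μ ^ 2 * ν * (128 * S.card) := by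
            apply mul_le_mul_of_nonneg_left key' (by positivity)
          _ = 412316860416 * μ ^ 2 * ν * S.card := by ring
      -- the logarithm
      have g1 : (ν : ℝ) * Real.log 2 ≤ 3 * lg := by
        have h1 : (2 : ℝ) ^ (ν - 1) ≤ n := by
          have := Nat.pow_log_le_self 2 (x := n) (by omega)
          have e : ν - 1 = Nat.log 2 n := by omega
          rw [e]
          exact_mod_cast this
        have h2 := Real.log_le_log (by positivity) h1
        rw [Real.log_pow] at h2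
        have h3 : ((ν - 1 : ℕ) : ℝ) = ν - 1 := by
          rw [Nat.cast_sub (by omega)]; norm_num
        rw [h3] at h2
        have h4 : (n : ℝ) ≤ 2 * (L + 2) := by nlinarith
        have h5 : Real.log n ≤ Real.log 2 + lg := by
          rw [hlg, ← Real.log_mul (by norm_num) (by linarith)]
          exact Real.log_le_log (by linarith) h4
        linarith
      have g2 : (ν : ℝ) ≤ 5 * lg := by nlinarith
      have g3 : 412316860416 * μ ^ 2 * ν * S.card ≤ 412316860416 * (μ : ℝ) ^ 4 * (5 * lg) * (S.card + 1) := by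
        apply mul_le_mul _ (by linarith) hr0 (by positivity)
        apply mul_le_mul _ g2 hν0 (by positivity)
        exact mul_le_mul_of_nonneg_left hμ4 (by norm_num)
      have g4 : (0 : ℝ) ≤ (μ : ℝ) ^ 4 * lg * (S.card + 1) := by positivity
      nlinarith
    · have hr' : (n : ℝ) ^ 2 ≤ S.card := by exact_mod_cast hr.le
      have g0 : (S.card + 1 : ℝ) * (69 / 100) ≤ (S.card + 1) * lg :=
        mul_le_mul_of_nonneg_left (by linarith) (by linarith)
      have g1 : 1 * (((S.card : ℝ) + 1) * lg) ≤ (μ : ℝ) ^ 4 * ((S.card + 1) * lg) :=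
        mul_le_mul_of_nonneg_right (by linarith) (by positivity)
      have g2 : (10 : ℝ) ^ 16 * μ ^ 4 * (S.card + 1) * lg = 10 ^ 16 * ((μ : ℝ) ^ 4 * ((S.card + 1) * lg)) := by
        ring
      rw [g2]
      linarith

end Pool.Agent.N903.PS
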