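import Mathlib

set_option autoImplicit false

/-!
# The inequality of Wyner and Ziv (Mrs. Gerber's lemma), and the ratio of the entropies of a bit and
# of the sum of two such bits
-/

namespace Pool.Agent.N903.SS

open Real Set

/-- the binary convolution: the probability that exactly one of two independent bits is one -/
noncomputable def star (a b : ℝ) : ℝ := a * (1 - b) + (1 - a) * b

/-- the derivative of the entropy -/
noncomputable def ell (x : ℝ) : ℝ := log (1 - x) - log x

theorem d_lin (z : ℝ) : HasDerivAt (fun z : ℝ => 1 - 2 * z) (-2) z := by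
  have h := ((hasDerivAt_id' z).const_mul 2).const_sub 1
  exact h.congr_deriv (by norm_num)

theorem d_quad (z : ℝ) : HasDerivAt (fun z : ℝ => z * (1 - z)) (1 - 2 * z) z := by
  have h := (hasDerivAt_id' z).fun_mul ((hasDerivAt_id' z).const_sub 1)
  exact h.congr_deriv (by ring)

theorem hasDerivAt_star (z b : ℝ) : HasDerivAt (fun z : ℝ => star z b) (1 - 2 * b) z := by
  have h := ((hasDerivAt_id' z).mul_const (1 - b)).fun_add
    (((hasDerivAt_id' z).const_sub 1).mul_const b)
  exact h.congr_deriv (by ring)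

theorem star_self (x : ℝ) : star x x = 2 * (x * (1 - x)) := by unfold star; ring

theorem hasDerivAt_star_self (z : ℝ) : HasDerivAt (fun z : ℝ => star z z) (2 * (1 - 2 * z)) z := by
  have h5 : (fun z : ℝ => star z z) = fun z : ℝ => 2 * (z * (1 - z)) := by
    funext z; exact star_self z
  rw [h5]
  exact (d_quad z).const_mul 2

theorem star_comm (a b : ℝ) : star a b = star b a := by unfold star; ring

theorem one_sub_two_star (a b : ℝ) : 1 - 2 * star a b = (1 - 2 * a) * (1 - 2 * b) := by
  unfold star; ring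

theorem star_one_sub (a b : ℝ) : star a (1 - b) = 1 - star a b := by unfold star; ring

theorem star_one_sub' (a b : ℝ) : star (1 - a) b = 1 - star a b := by unfold star; ring

theorem star_nonneg {a b : ℝ} (ha : 0 ≤ a) (ha1 : a ≤ 1) (hb : 0 ≤ b) (hb1 : b ≤ 1) : 0 ≤ star a b := by
  unfold star
  have := mul_nonneg ha (sub_nonneg.2 hb1)
  have := mul_nonneg (sub_nonneg.2 ha1) hb
  linarith

theorem star_le_one {a b : ℝ} (ha : 0 ≤ a) (ha1 : a ≤ 1) (hb : 0 ≤ b) (hb1 : b ≤ 1) : star a b ≤ 1 := by
  have := star_nonneg (sub_nonneg.2 ha1) (by linarith : 1 - a ≤ 1) hb hb1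
  rw [star_one_sub'] at this
  linarith

theorem le_star {a b : ℝ} (ha : a ≤ 1 / 2) (hb : 0 ≤ b) : a ≤ star a b := by
  unfold star; nlinarith

theorem star_lt_half {a b : ℝ} (ha : a < 1 / 2) (hb : b < 1 / 2) : star a b < 1 / 2 := by
  have h := one_sub_two_star a b
  have : 0 < (1 - 2 * a) * (1 - 2 * b) := mul_pos (by linarith) (by linarith)
  linarith

theorem star_le_half {a b : ℝ} (ha : a ≤ 1 / 2) (hb : b ≤ 1 / 2) : star a b ≤ 1 / 2 := by
  have h := one_sub_two_star a b
  have : 0 ≤ (1 - 2 * a) * (1 - 2 * b) := mul_nonneg (by linarith) (by linarith)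
  linarith

theorem hasDerivAt_ell {x : ℝ} (h0 : 0 < x) (h1 : x < 1) : HasDerivAt ell (-(1 / (x * (1 - x)))) x := by
  have h2 : HasDerivAt (fun y : ℝ => 1 - y) (-1) x := by
    simpa using (hasDerivAt_id' x).const_sub 1
  have h3 := (h2.log (by linarith : (1 : ℝ) - x ≠ 0)).fun_sub (Real.hasDerivAt_log h0.ne')
  have h4 : (1 : ℝ) - x ≠ 0 := by linarith
  refine h3.congr_deriv ?_
  field_simp
  ring

theorem ell_half : ell (1 / 2) = 0 := by unfold ell; norm_num

theorem ell_pos {x : ℝ} (h0 : 0 < x) (h1 : x < 1 / 2) : 0 < ell x := by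
  unfold ell
  have := Real.log_lt_log h0 (by linarith : x < 1 - x)
  linarith

theorem ell_nonneg {x : ℝ} (h0 : 0 < x) (h1 : x ≤ 1 / 2) : 0 ≤ ell x := by
  unfold ell
  have := Real.log_le_log h0 (by linarith : x ≤ 1 - x)
  linarith

theorem ell_cont {s : Set ℝ} (hs : ∀ x ∈ s, 0 < x ∧ x < 1) : ContinuousOn ell s := fun x hx =>
  (hasDerivAt_ell (hs x hx).1 (hs x hx).2).continuousAt.continuousWithinAt

/-- lower bound -/
theorem ell_ge {x : ℝ} (h0 : 0 < x) (h1 : x ≤ 1 / 2) : 2 * (1 - 2 * x) ≤ ell x := by
  have hanti : AntitoneOn (fun y : ℝ => ell y - 2 * (1 - 2 * y)) (Icc x (1 / 2)) := by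
    apply antitoneOn_of_deriv_nonpos (convex_Icc _ _)
    · apply ContinuousOn.sub
      · exact ell_cont fun y hy => ⟨by linarith [hy.1], by linarith [hy.2]⟩
      · fun_prop
    · intro y hy
      rw [interior_Icc] at hy
      have h := hasDerivAt_ell (by linarith [hy.1] : 0 < y) (by linarith [hy.2])
      exact (h.fun_sub ((d_lin y).const_mul 2)).differentiableAt.differentiableWithinAt
    · intro y hy
      rw [interior_Icc] at hy
      have hy0 : 0 < y := by linarith [hy.1]
      have hy1 : y < 1 := by linarith [hy.2]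
      have h := hasDerivAt_ell hy0 hy1
      rw [(h.fun_sub ((d_lin y).const_mul 2)).deriv]
      have h3 : 0 < y * (1 - y) := mul_pos hy0 (by linarith)
      have h4 : y * (1 - y) ≤ 1 / 4 := by nlinarith [sq_nonneg (y - 1 / 2)]
      have h5 : 4 ≤ 1 / (y * (1 - y)) := by
        rw [le_div_iff₀ h3]; linarith
      linarith
  have := hanti (left_mem_Icc.2 h1) (right_mem_Icc.2 h1) h1
  simp only [ell_half] at this
  linarith

/-- upper bound -/
theorem ell_le {x : ℝ} (h0 : 0 < x) (h1 : x ≤ 1 / 2) : ell x ≤ (1 - 2 * x) / (2 * (x * (1 - x))) := by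
  have hx1 : 0 < 1 - x := by linarith
  have h2 : ell x = log ((1 - x) / x) := by
    unfold ell; rw [Real.log_div hx1.ne' h0.ne']
  have h3 : 0 ≤ log ((1 - x) / x) := by
    rw [← h2]; exact ell_nonneg h0 h1
  have h4 := Real.self_le_sinh_iff.2 h3
  rw [Real.sinh_log (by positivity)] at h4
  rw [h2]
  refine h4.trans (le_of_eq ?_)
  field_simp
  ring

/-- an increasing function -/
theorem mfun_mono {x y : ℝ} (h0 : 0 < x) (hxy : x ≤ y) (h1 : y < 1 / 2) :
    x * (1 - x) * ell x / (1 - 2 * x) ≤ y * (1 - y) * ell y / (1 - 2 * y) := by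
  have hmono : MonotoneOn (fun z : ℝ => z * (1 - z) * ell z / (1 - 2 * z)) (Icc x y) := by
    have hd : ∀ z, 0 < z → z < 1 / 2 → HasDerivAt (fun z : ℝ => z * (1 - z) * ell z / (1 - 2 * z))
        ((((1 - 2 * z) * ell z - 1) * (1 - 2 * z) + 2 * (z * (1 - z) * ell z)) / (1 - 2 * z) ^ 2) z := by
      intro z hz0 hz1
      have e2 := hasDerivAt_ell hz0 (by linarith : z < 1)
      have e4 := ((d_quad z).fun_mul e2).fun_div (d_lin z) (by linarith : (1 : ℝ) - 2 * z ≠ 0)
      refine e4.congr_deriv ?_
      have hz3 : (1 : ℝ) - z ≠ 0 := by linarith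
      congr 1
      field_simp
      ring
    apply monotoneOn_of_deriv_nonneg (convex_Icc _ _)
    · intro z hz
      exact (hd z (by linarith [hz.1]) (by linarith [hz.2])).continuousAt.continuousWithinAt
    · intro z hz
      rw [interior_Icc] at hz
      exact (hd z (by linarith [hz.1]) (by linarith [hz.2])).differentiableAt.differentiableWithinAt
    · intro z hz
      rw [interior_Icc] at hz
      have hz0 : 0 < z := by linarith [hz.1]
      have hz1 : z < 1 / 2 := by linarith [hz.2]
      rw [(hd z hz0 hz1).deriv]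
      apply div_nonneg _ (sq_nonneg _)
      have h3 := ell_ge hz0 hz1.le
      have h4 : ((1 - 2 * z) * ell z - 1) * (1 - 2 * z) + 2 * (z * (1 - z) * ell z) =
        (1 - 2 * z + 2 * z ^ 2) * ell z - (1 - 2 * z) := by ring
      rw [h4]
      have h5 : 1 / 2 ≤ 1 - 2 * z + 2 * z ^ 2 := by nlinarith [sq_nonneg (z - 1 / 2)]
      nlinarith
  exact hmono (left_mem_Icc.2 hxy) (right_mem_Icc.2 hxy) hxy

/-- the key monotonicity -/
theorem ratio_mono {b x y : ℝ} (hb0 : 0 ≤ b) (hb1 : b < 1 / 2) (h0 : 0 < x) (hxy : x ≤ y)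
    (h1 : y < 1 / 2) : ell (star x b) / ell x ≤ ell (star y b) / ell y := by
  have hd : ∀ z, 0 < z → z < 1 / 2 → HasDerivAt (fun z : ℝ => ell (star z b) / ell z)
      (((-(1 / (star z b * (1 - star z b))) * (1 - 2 * b)) * ell z
        - ell (star z b) * (-(1 / (z * (1 - z))))) / ell z ^ 2) z := by
    intro z hz0 hz1
    have hs0 : 0 < star z b := lt_of_lt_of_le hz0 (le_star hz1.le hb0)
    have hs1 : star z b < 1 / 2 := star_lt_half hz1 hb1
    have e2 : HasDerivAt (fun z : ℝ => ell (star z b))
        (-(1 / (star z b * (1 - star z b))) * (1 - 2 * b)) z :=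
      HasDerivAt.comp (h₂ := ell) (h := fun z => star z b) z (hasDerivAt_ell hs0 (by linarith))
        (hasDerivAt_star z b)
    have e3 := hasDerivAt_ell hz0 (by linarith : z < 1)
    exact e2.fun_div e3 (ell_pos hz0 hz1).ne'
  have hmono : MonotoneOn (fun z : ℝ => ell (star z b) / ell z) (Icc x y) := by
    apply monotoneOn_of_deriv_nonneg (convex_Icc _ _)
    · intro z hz
      exact (hd z (by linarith [hz.1]) (by linarith [hz.2])).continuousAt.continuousWithinAt
    · intro z hz
      rw [interior_Icc] at hz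
      exact (hd z (by linarith [hz.1]) (by linarith [hz.2])).differentiableAt.differentiableWithinAt
    · intro z hz
      rw [interior_Icc] at hz
      have hz0 : 0 < z := by linarith [hz.1]
      have hz1 : z < 1 / 2 := by linarith [hz.2]
      rw [(hd z hz0 hz1).deriv]
      apply div_nonneg _ (sq_nonneg _)
      have hs0 : 0 < star z b := lt_of_lt_of_le hz0 (le_star hz1.le hb0)
      have hs1 : star z b < 1 / 2 := star_lt_half hz1 hb1
      have hm := mfun_mono hz0 (le_star hz1.le hb0) hs1
      have hq := one_sub_two_star z b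
      set q := star z b with hqdef
      have hz2 : 0 < 1 - 2 * z := by linarith
      have hb2 : 0 < 1 - 2 * b := by linarith
      rw [hq, div_le_div_iff₀ hz2 (mul_pos hz2 hb2)] at hm
      have hm2 : z * (1 - z) * ell z * (1 - 2 * b) ≤ q * (1 - q) * ell q := by
        have : (z * (1 - z) * ell z * (1 - 2 * b)) * (1 - 2 * z) ≤ q * (1 - q) * ell q * (1 - 2 * z) := by
          linarith
        exact le_of_mul_le_mul_right this hz2
      have hqq : 0 < q * (1 - q) := mul_pos hs0 (by linarith)
      have hzz : 0 < z * (1 - z) := mul_pos hz0 (by linarith)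
      have hq3 : (1 : ℝ) - q ≠ 0 := by linarith
      have hz3 : (1 : ℝ) - z ≠ 0 := by linarith
      have : -(1 / (q * (1 - q))) * (1 - 2 * b) * ell z - ell q * (-(1 / (z * (1 - z)))) =
          (q * (1 - q) * ell q - z * (1 - z) * ell z * (1 - 2 * b)) / ((q * (1 - q)) * (z * (1 - z))) := by
        field_simp
        ring
      rw [this]
      apply div_nonneg (by linarith) (mul_pos hqq hzz).le
  exact hmono (left_mem_Icc.2 hxy) (right_mem_Icc.2 hxy) hxy

/-- **The inequality of Wyner and Ziv**, with a supporting line; first case. -/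
theorem gerber_aux {α b : ℝ} (hα0 : 0 < α) (hα1 : α < 1 / 2) (hb0 : 0 ≤ b) (hb1 : b ≤ 1 / 2) :
    ∃ c : ℝ, 0 ≤ c ∧ ∀ a, 0 ≤ a → a ≤ 1 / 2 →
      binEntropy (star α b) + c * (binEntropy a - binEntropy α) ≤ binEntropy (star a b) := by
  rcases eq_or_lt_of_le hb1 with hb | hb
  · refine ⟨0, le_rfl, fun a _ _ => ?_⟩
    have : ∀ x, star x b = 1 / 2 := by intro x; unfold star; rw [hb]; ring
    rw [this, this]; simp
  · have hs0 : 0 < star α b := lt_of_lt_of_le hα0 (le_star hα1.le hb0)
    have hs1 : star α b < 1 / 2 := star_lt_half hα1 hb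
    set c : ℝ := (1 - 2 * b) * (ell (star α b) / ell α) with hc
    have hc0 : 0 ≤ c := mul_nonneg (by linarith) (div_nonneg (ell_pos hs0 hs1).le (ell_pos hα0 hα1).le)
    refine ⟨c, hc0, ?_⟩
    have hd : ∀ z, 0 < z → z < 1 / 2 → HasDerivAt (fun z : ℝ => binEntropy (star z b) - c * binEntropy z)
        (ell z * (1 - 2 * b) * (ell (star z b) / ell z - ell (star α b) / ell α)) z := by
      intro z hz0 hz1
      have ht0 : 0 < star z b := lt_of_lt_of_le hz0 (le_star hz1.le hb0)
      have ht1 : star z b < 1 / 2 := star_lt_half hz1 hb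
      have e1 : HasDerivAt binEntropy (ell (star z b)) (star z b) :=
        hasDerivAt_binEntropy ht0.ne' (by linarith)
      have e2 : HasDerivAt binEntropy (ell z) z := hasDerivAt_binEntropy hz0.ne' (by linarith)
      have e4 : HasDerivAt (fun z : ℝ => binEntropy (star z b)) (ell (star z b) * (1 - 2 * b)) z :=
        HasDerivAt.comp (h₂ := binEntropy) (h := fun z => star z b) z e1 (hasDerivAt_star z b)
      refine (e4.fun_sub (e2.const_mul c)).congr_deriv ?_
      have := (ell_pos hz0 hz1).ne'
      rw [hc]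
      field_simp
    have hcont : Continuous (fun z : ℝ => binEntropy (star z b) - c * binEntropy z) := by
      have : Continuous (fun z : ℝ => star z b) := by unfold star; fun_prop
      exact (binEntropy_continuous.comp this).sub (binEntropy_continuous.const_mul c)
      
    have hleft : AntitoneOn (fun z : ℝ => binEntropy (star z b) - c * binEntropy z) (Icc 0 α) := by
      apply antitoneOn_of_deriv_nonpos (convex_Icc _ _) hcont.continuousOn
      · intro z hz
        rw [interior_Icc] at hz
        exact (hd z hz.1 (by linarith [hz.2])).differentiableAt.differentiableWithinAt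
      · intro z hz
        rw [interior_Icc] at hz
        have hz1 : z < 1 / 2 := by linarith [hz.2]
        rw [(hd z hz.1 hz1).deriv]
        apply mul_nonpos_of_nonneg_of_nonpos
        · exact mul_nonneg (ell_pos hz.1 hz1).le (by linarith)
        · have := ratio_mono hb0 hb hz.1 hz.2.le hα1
          linarith
    have hright : MonotoneOn (fun z : ℝ => binEntropy (star z b) - c * binEntropy z) (Icc α (1 / 2)) := by
      apply monotoneOn_of_deriv_nonneg (convex_Icc _ _) hcont.continuousOn
      · intro z hz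
        rw [interior_Icc] at hz
        exact (hd z (by linarith [hz.1]) hz.2).differentiableAt.differentiableWithinAt
      · intro z hz
        rw [interior_Icc] at hz
        have hz0 : 0 < z := by linarith [hz.1]
        rw [(hd z hz0 hz.2).deriv]
        apply mul_nonneg
        · exact mul_nonneg (ell_pos hz0 hz.2).le (by linarith)
        · have := ratio_mono hb0 hb hα0 hz.1.le hz.2
          linarith
    intro a ha0 ha1
    rcases le_total a α with h | h
    · have := hleft ⟨ha0, h⟩ ⟨hα0.le, le_rfl⟩ h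
      simp only at this
      linarith
    · have := hright ⟨le_rfl, hα1.le⟩ ⟨h, ha1⟩ h
      simp only at this
      linarith

/-- **The inequality of Wyner and Ziv**, with a supporting line. -/
theorem gerber {α b : ℝ} (hα0 : 0 < α) (hα1 : α < 1 / 2) (hb0 : 0 ≤ b) (hb1 : b ≤ 1) :
    ∃ c : ℝ, 0 ≤ c ∧ ∀ a, 0 ≤ a → a ≤ 1 →
      binEntropy (star α b) + c * (binEntropy a - binEntropy α) ≤ binEntropy (star a b) := by
  have key : ∀ b, 0 ≤ b → b ≤ 1 / 2 → ∃ c : ℝ, 0 ≤ c ∧ ∀ a, 0 ≤ a → a ≤ 1 →
      binEntropy (star α b) + c * (binEntropy a - binEntropy α) ≤ binEntropy (star a b) := by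
    intro b hb0 hb1
    obtain ⟨c, hc, h⟩ := gerber_aux hα0 hα1 hb0 hb1
    refine ⟨c, hc, fun a ha0 ha1 => ?_⟩
    rcases le_total a (1 / 2) with h2 | h2
    · exact h a ha0 h2
    · have := h (1 - a) (by linarith) (by linarith)
      rw [star_one_sub', binEntropy_one_sub, binEntropy_one_sub] at this
      exact this
  rcases le_total b (1 / 2) with h2 | h2
  · exact key b hb0 h2
  · obtain ⟨c, hc, h⟩ := key (1 - b) (by linarith) (by linarith)
    refine ⟨c, hc, fun a ha0 ha1 => ?_⟩
    have := h a ha0 ha1
    rw [star_one_sub, star_one_sub, binEntropy_one_sub, binEntropy_one_sub] at this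
    exact this

/-! ### the ratio -/

/-- a decreasing function -/
theorem efun_anti {x y : ℝ} (h0 : 0 < x) (hxy : x ≤ y) (h1 : y < 1 / 2) :
    ell y / (1 - 2 * y) ≤ ell x / (1 - 2 * x) := by
  have hd : ∀ z, 0 < z → z < 1 / 2 → HasDerivAt (fun z : ℝ => ell z / (1 - 2 * z))
      ((-(1 / (z * (1 - z))) * (1 - 2 * z) - ell z * (-2)) / (1 - 2 * z) ^ 2) z := by
    intro z hz0 hz1
    have e2 := hasDerivAt_ell hz0 (by linarith : z < 1)
    exact e2.fun_div (d_lin z) (by linarith : (1 : ℝ) - 2 * z ≠ 0)
  have hanti : AntitoneOn (fun z : ℝ => ell z / (1 - 2 * z)) (Icc x y) := by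
    apply antitoneOn_of_deriv_nonpos (convex_Icc _ _)
    · intro z hz
      exact (hd z (by linarith [hz.1]) (by linarith [hz.2])).continuousAt.continuousWithinAt
    · intro z hz
      rw [interior_Icc] at hz
      exact (hd z (by linarith [hz.1]) (by linarith [hz.2])).differentiableAt.differentiableWithinAt
    · intro z hz
      rw [interior_Icc] at hz
      have hz0 : 0 < z := by linarith [hz.1]
      have hz1 : z < 1 / 2 := by linarith [hz.2]
      rw [(hd z hz0 hz1).deriv]
      apply div_nonpos_of_nonpos_of_nonneg _ (sq_nonneg _)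
      have h3 := ell_le hz0 hz1.le
      have hzz : 0 < z * (1 - z) := mul_pos hz0 (by linarith)
      have h4 : (1 - 2 * z) / (2 * (z * (1 - z))) * 2 = 1 / (z * (1 - z)) * (1 - 2 * z) := by
        field_simp
      linarith
  exact hanti (left_mem_Icc.2 hxy) (right_mem_Icc.2 hxy) hxy

/-- another decreasing function -/
theorem wfun_anti {x y : ℝ} (h0 : 0 < x) (hxy : x ≤ y) (h1 : y < 1 / 2) :
    (1 - 2 * y) * ell (star y y) / ell y ≤ (1 - 2 * x) * ell (star x x) / ell x := by
  have hd : ∀ z, 0 < z → z < 1 / 2 → HasDerivAt (fun z : ℝ => (1 - 2 * z) * ell (star z z) / ell z)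
      (((-2 * ell (star z z) + (1 - 2 * z) * (-(1 / (star z z * (1 - star z z))) * (2 * (1 - 2 * z))))
        * ell z - (1 - 2 * z) * ell (star z z) * (-(1 / (z * (1 - z))))) / ell z ^ 2) z := by
    intro z hz0 hz1
    have hs0 : 0 < star z z := lt_of_lt_of_le hz0 (le_star hz1.le hz0.le)
    have hs1 : star z z < 1 / 2 := star_lt_half hz1 hz1
    have e2 : HasDerivAt (fun z : ℝ => ell (star z z))
        (-(1 / (star z z * (1 - star z z))) * (2 * (1 - 2 * z))) z :=
      HasDerivAt.comp (h₂ := ell) (h := fun z => star z z) z (hasDerivAt_ell hs0 (by linarith))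
        (hasDerivAt_star_self z)
    have e3 := hasDerivAt_ell hz0 (by linarith : z < 1)
    exact ((d_lin z).fun_mul e2).fun_div e3 (ell_pos hz0 hz1).ne'
  have hanti : AntitoneOn (fun z : ℝ => (1 - 2 * z) * ell (star z z) / ell z) (Icc x y) := by
    apply antitoneOn_of_deriv_nonpos (convex_Icc _ _)
    · intro z hz
      exact (hd z (by linarith [hz.1]) (by linarith [hz.2])).continuousAt.continuousWithinAt
    · intro z hz
      rw [interior_Icc] at hz
      exact (hd z (by linarith [hz.1]) (by linarith [hz.2])).differentiableAt.differentiableWithinAt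
    · intro z hz
      rw [interior_Icc] at hz
      have hz0 : 0 < z := by linarith [hz.1]
      have hz1 : z < 1 / 2 := by linarith [hz.2]
      rw [(hd z hz0 hz1).deriv]
      apply div_nonpos_of_nonpos_of_nonneg _ (sq_nonneg _)
      have hs0 : 0 < star z z := lt_of_lt_of_le hz0 (le_star hz1.le hz0.le)
      have hs1 : star z z < 1 / 2 := star_lt_half hz1 hz1
      have hm := efun_anti hz0 (le_star hz1.le hz0.le) hs1
      have hq := one_sub_two_star z z
      have hqs := star_self z
      set q := star z z with hqdef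
      have hz2 : 0 < 1 - 2 * z := by linarith
      have hl := ell_pos hz0 hz1
      have hlq := ell_pos hs0 hs1
      rw [hq, div_le_div_iff₀ (mul_pos hz2 hz2) hz2] at hm
      have hm2 : ell q ≤ (1 - 2 * z) * ell z := by
        have : ell q * (1 - 2 * z) ≤ ((1 - 2 * z) * ell z) * (1 - 2 * z) := by linarith
        exact le_of_mul_le_mul_right this hz2
      have hqq : 0 < q * (1 - q) := mul_pos hs0 (by linarith)
      have hzz : 0 < z * (1 - z) := mul_pos hz0 (by linarith)
      have h6 : q * (1 - q) = 2 * (z * (1 - z)) * (1 - 2 * (z * (1 - z))) := by rw [hqs]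
      set s := z * (1 - z) with hs
      have h7 : 0 < 1 - 2 * s := by nlinarith
      have h8 : (1 - 2 * z) * ell q * (1 / s) ≤
          (1 - 2 * z) * (1 / (q * (1 - q)) * (2 * (1 - 2 * z))) * ell z := by
        rw [h6]
        have h9 : (1 - 2 * z) * (1 / (2 * s * (1 - 2 * s)) * (2 * (1 - 2 * z))) * ell z =
            (1 - 2 * z) * (1 / s) * ((1 - 2 * z) * ell z / (1 - 2 * s)) := by
          field_simp
        rw [h9]
        have h10 : ell q ≤ (1 - 2 * z) * ell z / (1 - 2 * s) := by
          rw [le_div_iff₀ h7]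
          have : ell q * (1 - 2 * s) ≤ ell q * 1 := by
            apply mul_le_mul_of_nonneg_left _ hlq.le
            linarith
          linarith
        have h11 : 0 ≤ (1 - 2 * z) * (1 / s) := by positivity
        calc (1 - 2 * z) * ell q * (1 / s) = (1 - 2 * z) * (1 / s) * ell q := by ring
          _ ≤ _ := mul_le_mul_of_nonneg_left h10 h11
      have h12 : 0 ≤ ell q * ell z := mul_nonneg hlq.le hl.le
      nlinarith [h8, h12]
  exact hanti (left_mem_Icc.2 hxy) (right_mem_Icc.2 hxy) hxy

/-- **The ratio is decreasing.** -/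
theorem ratio_anti {x y : ℝ} (h0 : 0 < x) (hxy : x ≤ y) (h1 : y < 1 / 2) :
    binEntropy (star y y) / binEntropy y ≤ binEntropy (star x x) / binEntropy x := by
  have hf : ∀ z, 0 < z → z < 1 / 2 → HasDerivAt (fun z : ℝ => binEntropy (star z z))
      (ell (star z z) * (2 * (1 - 2 * z))) z := by
    intro z hz0 hz1
    have hs0 : 0 < star z z := lt_of_lt_of_le hz0 (le_star hz1.le hz0.le)
    have hs1 : star z z < 1 / 2 := star_lt_half hz1 hz1
    exact HasDerivAt.comp (h₂ := binEntropy) (h := fun z => star z z) z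
      (hasDerivAt_binEntropy hs0.ne' (by linarith)) (hasDerivAt_star_self z)
  have hg : ∀ z, 0 < z → z < 1 / 2 → HasDerivAt binEntropy (ell z) z := fun z hz0 hz1 =>
    hasDerivAt_binEntropy hz0.ne' (by linarith)
  have hcf : Continuous (fun z : ℝ => binEntropy (star z z)) := by
    have : Continuous (fun z : ℝ => star z z) := by unfold star; fun_prop
    exact binEntropy_continuous.comp this
  -- comparison by the mean value theorem of Cauchy
  have hcmp : ∀ z, 0 < z → z < 1 / 2 →
      2 * ((1 - 2 * z) * ell (star z z) / ell z) * binEntropy z ≤ binEntropy (star z z) := by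
    intro z hz0 hz1
    obtain ⟨ξ, hξ, he⟩ := exists_ratio_hasDerivAt_eq_ratio_slope (fun z : ℝ => binEntropy (star z z))
      (fun z => ell (star z z) * (2 * (1 - 2 * z))) hz0 hcf.continuousOn
      (fun w hw => hf w hw.1 (by linarith [hw.2])) binEntropy ell binEntropy_continuous.continuousOn
      (fun w hw => hg w hw.1 (by linarith [hw.2]))
    have hs00 : star 0 0 = 0 := by unfold star; ring
    rw [hs00, binEntropy_zero] at he
    simp only [sub_zero] at he
    have hξ1 : ξ < 1 / 2 := by linarith [hξ.2]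
    have hlξ := ell_pos hξ.1 hξ1
    have hw := wfun_anti hξ.1 hξ.2.le hz1
    have he2 : binEntropy (star z z) = 2 * ((1 - 2 * ξ) * ell (star ξ ξ) / ell ξ) * binEntropy z := by
      field_simp
      linarith
    rw [he2]
    apply mul_le_mul_of_nonneg_right _ (binEntropy_nonneg hz0.le (by linarith))
    linarith
  have hanti : AntitoneOn (fun z : ℝ => binEntropy (star z z) / binEntropy z) (Icc x y) := by
    have hd : ∀ z, 0 < z → z < 1 / 2 → HasDerivAt (fun z : ℝ => binEntropy (star z z) / binEntropy z)
        ((ell (star z z) * (2 * (1 - 2 * z)) * binEntropy z - binEntropy (star z z) * ell z)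
          / binEntropy z ^ 2) z := fun z hz0 hz1 =>
      (hf z hz0 hz1).fun_div (hg z hz0 hz1) (binEntropy_pos hz0 (by linarith)).ne'
    apply antitoneOn_of_deriv_nonpos (convex_Icc _ _)
    · intro z hz
      exact (hd z (by linarith [hz.1]) (by linarith [hz.2])).continuousAt.continuousWithinAt
    · intro z hz
      rw [interior_Icc] at hz
      exact (hd z (by linarith [hz.1]) (by linarith [hz.2])).differentiableAt.differentiableWithinAt
    · intro z hz
      rw [interior_Icc] at hz
      have hz0 : 0 < z := by linarith [hz.1]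
      have hz1 : z < 1 / 2 := by linarith [hz.2]
      rw [(hd z hz0 hz1).deriv]
      apply div_nonpos_of_nonpos_of_nonneg _ (sq_nonneg _)
      have hl := ell_pos hz0 hz1
      have h2 := mul_le_mul_of_nonneg_right (hcmp z hz0 hz1) hl.le
      have h3 : 2 * ((1 - 2 * z) * ell (star z z) / ell z) * binEntropy z * ell z =
          ell (star z z) * (2 * (1 - 2 * z)) * binEntropy z := by
        field_simp
      linarith
  exact hanti (left_mem_Icc.2 hxy) (right_mem_Icc.2 hxy) hxy

end Pool.Agent.N903.SS
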