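import Pool.Agent.N461.LK.Stm

set_option autoImplicit false

/-! Leaf B1 of project LK (helper461): few tuples are not good. -/

open Finset
open scoped Classical

namespace Pool.Agent.N903.LK_B1

open Pool.Agent.TH200.LP
open Pool.Agent.N461.LK

variable {V : Type} [Fintype V] [Nonempty V] (G : V → V → Prop) (H : V → V → V → Prop)

noncomputable def W (x y w : V) : ℝ :=
  ind (¬ G x y ∧ ¬ G x w ∧ G y w) + ind (¬ H x y w ∧ G x y) + ind (Bad G H x y w)

omit [Fintype V] [Nonempty V] in
theorem W_nonneg (x y w : V) : 0 ≤ W G H x y w :=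
  add_nonneg (add_nonneg (ind_nonneg _) (ind_nonneg _)) (ind_nonneg _)

theorem av_W (hG : ∀ x y, G x y → G y x) :
    (av fun x : V => av fun y : V => av fun w : V => W G H x y w) = Q G 2 + Ls G H + T G H := by
  have h1 : Q G 2 = av fun z : V => av fun x : V => av fun y : V =>
      ind (¬ G z x ∧ ¬ G z y ∧ G x y) := by
    rw [Q_two hG]
    congr 1
    funext z
    congr 1
    funext x
    congr 1
    funext y
    rw [← ind_not, ← ind_not, ← ind_and, ← ind_and]
    apply ind_congr
    tauto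
  rw [h1]
  unfold Ls T
  rw [← av_add, ← av_add]
  congr 1
  funext x
  rw [← av_add, ← av_add]
  congr 1
  funext y
  rw [← av_add, ← av_add]
  rfl

theorem av_triple {ι : Type} [Fintype ι] [DecidableEq ι] (hG : ∀ x y, G x y → G y x) {i j l : ι}
    (hij : i ≠ j) (hil : i ≠ l) (hjl : j ≠ l) :
    (av fun z : ι → V => W G H (z i) (z j) (z l)) = Q G 2 + Ls G H + T G H := by
  rw [tri_pull hij hil hjl (W G H), av_W G H hG]

/-- triples of distinct indices -/
noncomputable def D (ι : Type) [Fintype ι] : Finset (ι × ι × ι) :=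
  univ.filter fun s => s.1 ≠ s.2.1 ∧ s.1 ≠ s.2.2 ∧ s.2.1 ≠ s.2.2

/-- injective maps -/
noncomputable def Ei (k : ℕ) (ι : Type) [Fintype ι] : Finset (Fin (k + 1) → ι) :=
  univ.filter fun σ => Function.Injective σ

theorem mem_D {ι : Type} [Fintype ι] {s : ι × ι × ι} (h : s ∈ D ι) :
    s.1 ≠ s.2.1 ∧ s.1 ≠ s.2.2 ∧ s.2.1 ≠ s.2.2 := (mem_filter.1 h).2

theorem mem_Ei {ι : Type} [Fintype ι] {k : ℕ} {σ : Fin (k + 1) → ι} (h : σ ∈ Ei k ι) :
    Function.Injective σ := (mem_filter.1 h).2

omit [Fintype V] [Nonempty V] in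
theorem point {ι : Type} [Fintype ι] (k : ℕ) (z : ι → V) :
    ind (¬ Good k G H z) ≤ (∑ s ∈ D ι, W G H (z s.1) (z s.2.1) (z s.2.2)) +
      ∑ σ ∈ Ei k ι, ind (Cl G (fun a => z (σ a))) := by
  have n1 : 0 ≤ ∑ s ∈ D ι, W G H (z s.1) (z s.2.1) (z s.2.2) :=
    sum_nonneg fun s _ => W_nonneg G H _ _ _
  have n2 : 0 ≤ ∑ σ ∈ Ei k ι, ind (Cl G (fun a => z (σ a))) :=
    sum_nonneg fun s _ => ind_nonneg _
  have key : ∀ i j l : ι, i ≠ j → i ≠ l → j ≠ l → 1 ≤ W G H (z i) (z j) (z l) →
      1 ≤ ∑ s ∈ D ι, W G H (z s.1) (z s.2.1) (z s.2.2) := by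
    intro i j l hij hil hjl h
    refine h.trans ?_
    exact single_le_sum (f := fun s : ι × ι × ι => W G H (z s.1) (z s.2.1) (z s.2.2))
      (fun s _ => W_nonneg G H _ _ _) (show (i, j, l) ∈ D ι from
        mem_filter.2 ⟨mem_univ _, hij, hil, hjl⟩)
  by_cases hg : Good k G H z
  · rw [ind_false (not_not.2 hg)]
    exact add_nonneg n1 n2
  · rw [ind_true hg]
    by_cases c1 : ∀ i j l, i ≠ j → i ≠ l → j ≠ l →
        ¬ (¬ G (z i) (z j) ∧ ¬ G (z i) (z l) ∧ G (z j) (z l))
    · by_cases c2 : ∀ i j l, i ≠ j → i ≠ l → j ≠ l → G (z i) (z j) → H (z i) (z j) (z l)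
      · by_cases c3 : ∀ i j l, i ≠ j → i ≠ l → j ≠ l → ¬ Bad G H (z i) (z j) (z l)
        · have c4 : ¬ ∀ σ : Fin (k + 1) → ι, Function.Injective σ → ¬ Cl G (fun a => z (σ a)) :=
            fun h => hg ⟨c1, c2, c3, h⟩
          push Not at c4
          obtain ⟨σ, h1, h2⟩ := c4
          have h3 : (1 : ℝ) ≤ ∑ σ ∈ Ei k ι, ind (Cl G (fun a => z (σ a))) := by
            rw [← ind_true h2]
            exact single_le_sum (f := fun σ : Fin (k + 1) → ι => ind (Cl G (fun a => z (σ a))))
              (fun s _ => ind_nonneg _) (show σ ∈ Ei k ι from mem_filter.2 ⟨mem_univ _, h1⟩)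
          linarith
        · push Not at c3
          obtain ⟨i, j, l, h1, h2, h3, h4⟩ := c3
          have := key i j l h1 h2 h3 (by
            unfold W
            rw [ind_true h4]
            linarith [ind_nonneg (¬ G (z i) (z j) ∧ ¬ G (z i) (z l) ∧ G (z j) (z l)),
              ind_nonneg (¬ H (z i) (z j) (z l) ∧ G (z i) (z j))])
          linarith
      · push Not at c2
        obtain ⟨i, j, l, h1, h2, h3, h4, h5⟩ := c2
        have := key i j l h1 h2 h3 (by
          unfold W
          rw [ind_true (show ¬ H (z i) (z j) (z l) ∧ G (z i) (z j) from ⟨h5, h4⟩)]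
          linarith [ind_nonneg (¬ G (z i) (z j) ∧ ¬ G (z i) (z l) ∧ G (z j) (z l)),
            ind_nonneg (Bad G H (z i) (z j) (z l))])
        linarith
    · push Not at c1
      obtain ⟨i, j, l, h1, h2, h3, h4⟩ := c1
      have := key i j l h1 h2 h3 (by
        unfold W
        rw [ind_true (show ¬ G (z i) (z j) ∧ ¬ G (z i) (z l) ∧ G (z j) (z l) from h4)]
        linarith [ind_nonneg (¬ H (z i) (z j) (z l) ∧ G (z i) (z j)),
          ind_nonneg (Bad G H (z i) (z j) (z l))])
      linarith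

theorem main : S_B1 := by
  intro k ι _ _ V _ _ G H hG
  calc (av fun z : ι → V => ind (¬ Good k G H z))
      ≤ av fun z : ι → V => (∑ s ∈ D ι, W G H (z s.1) (z s.2.1) (z s.2.2)) +
      ∑ σ ∈ Ei k ι, ind (Cl G (fun a => z (σ a))) := av_mono fun z => point G H k z
    _ = (∑ s ∈ D ι, (Q G 2 + Ls G H + T G H)) + ∑ σ ∈ Ei k ι, t G (k + 1) := by
        rw [av_add, av_sum, av_sum]
        congr 1
        · apply sum_congr rfl
          intro s hs
          obtain ⟨h1, h2, h3⟩ := mem_D hs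
          exact av_triple G H hG h1 h2 h3
        · apply sum_congr rfl
          intro σ hσ
          have h1 := mem_Ei hσ
          exact av_pull σ h1 (fun X : Fin (k + 1) → V => ind (Cl G X))
    _ ≤ (Fintype.card ι : ℝ) ^ 3 * (Q G 2 + Ls G H + T G H) +
        (Fintype.card ι : ℝ) ^ (k + 1) * t G (k + 1) := by
        rw [sum_const, sum_const, nsmul_eq_mul, nsmul_eq_mul]
        have q1 : 0 ≤ Q G 2 + Ls G H + T G H :=
          add_nonneg (add_nonneg (Q_nonneg G 2) (Ls_nonneg G H)) (T_nonneg G H)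
        have c1 : ((D ι).card : ℝ) ≤ (Fintype.card ι : ℝ) ^ 3 := by
          have : (D ι).card ≤ Fintype.card (ι × ι × ι) := card_le_univ _
          rw [Fintype.card_prod, Fintype.card_prod] at this
          calc ((D ι).card : ℝ) ≤ ((Fintype.card ι * (Fintype.card ι * Fintype.card ι) : ℕ) : ℝ) := by
                exact_mod_cast this
            _ = (Fintype.card ι : ℝ) ^ 3 := by push_cast; ring
        have c2 : ((Ei k ι).card : ℝ) ≤ (Fintype.card ι : ℝ) ^ (k + 1) := by
          have : (Ei k ι).card ≤ Fintype.card (Fin (k + 1) → ι) := card_le_univ _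
          rw [Fintype.card_fun, Fintype.card_fin] at this
          exact_mod_cast this
        exact add_le_add (mul_le_mul_of_nonneg_right c1 q1)
          (mul_le_mul_of_nonneg_right c2 (t_nonneg G _))

end Pool.Agent.N903.LK_B1
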