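import Mathlib
import Pool.Agent.H319R2.Cycle
import Pool.Agent.H319R2.Sparse

set_option autoImplicit false

/-!
The multiplicative rank of the cycles of the 3x+1 map.
-/

namespace Pool.Agent.N903.RK

open Finset Pool.Agent.H319R2

/-- the vector of the values `v_p(q) log p`, `p` in the finite set `I` -/
noncomputable def phi (I : Finset ℕ) (q : ℚ) : I → ℝ := fun p => (padicValRat (p : ℕ) q : ℝ) * Real.log (p : ℕ)

section phi

variable {I : Finset ℕ} (hI : ∀ p ∈ I, p.Prime)

include hI in
theorem phi_mul {a b : ℚ} (ha : a ≠ 0) (hb : b ≠ 0) : phi I (a * b) = phi I a + phi I b := by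
  funext p
  have : Fact (p : ℕ).Prime := ⟨hI p p.2⟩
  simp only [phi, Pi.add_apply]
  rw [padicValRat.mul ha hb]
  push_cast; ring

include hI in
theorem phi_zpow (a : ℚ) (n : ℤ) : phi I (a ^ n) = (n : ℝ) • phi I a := by
  funext p
  have : Fact (p : ℕ).Prime := ⟨hI p p.2⟩
  simp only [phi, Pi.smul_apply, smul_eq_mul]
  rw [padicValRat.zpow]
  push_cast; ring

include hI in
theorem phi_prod {r : ℕ} (g : Fin r → ℚ) (hg : ∀ i, g i ≠ 0) (e : Fin r → ℤ) :
    phi I (∏ j, g j ^ e j) = ∑ j, (e j : ℝ) • phi I (g j) := by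
  classical
  have : ∀ s : Finset (Fin r), phi I (∏ j ∈ s, g j ^ e j) = ∑ j ∈ s, (e j : ℝ) • phi I (g j) := by
    intro s
    induction s using Finset.induction_on with
    | empty =>
      funext p
      simp [phi]
    | insert a s ha ih =>
      rw [prod_insert ha, sum_insert ha, phi_mul hI (zpow_ne_zero _ (hg a))
        (prod_ne_zero_iff.2 fun j _ => zpow_ne_zero _ (hg j)), phi_zpow hI (g a), ih]
  exact this univ

include hI in
theorem phi_nat (n : ℕ) (p : I) : phi I (n : ℚ) p = (n.factorization (p : ℕ) : ℝ) * Real.log (p : ℕ) := by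
  simp only [phi]
  rw [padicValRat.of_nat, Nat.factorization_def _ (hI p p.2), Int.cast_natCast]

end phi

/-- `log n` as a sum over a finite set of primes containing all prime factors -/
theorem log_eq_sum {I : Finset ℕ} {n : ℕ} (h : n.primeFactors ⊆ I) :
    Real.log n = ∑ p : I, (n.factorization (p : ℕ) : ℝ) * Real.log (p : ℕ) := by
  classical
  rw [Finset.sum_coe_sort I (fun p => (n.factorization p : ℝ) * Real.log p)]
  rw [Real.log_nat_eq_sum_factorization, Finsupp.sum]
  rw [Nat.support_factorization]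
  apply sum_subset h
  intro p _ hp
  have : n.factorization p = 0 := by
    rw [← Nat.support_factorization, Finsupp.notMem_support_iff] at hp
    exact hp
  rw [this]; simp

/-- sum of the minima: the gcd -/
theorem log_gcd_eq {I : Finset ℕ} {a b : ℕ} (ha : a ≠ 0) (hb : b ≠ 0) (h : a.primeFactors ⊆ I) :
    Real.log (Nat.gcd a b) = ∑ p : I, min ((a.factorization (p : ℕ) : ℝ) * Real.log (p : ℕ))
      ((b.factorization (p : ℕ) : ℝ) * Real.log (p : ℕ)) := by
  rw [log_eq_sum ((Nat.primeFactors_mono (Nat.gcd_dvd_left a b) ha).trans h)]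
  apply sum_congr rfl
  intro p _
  rw [Nat.factorization_gcd ha hb, Finsupp.inf_apply]
  have hlog : 0 ≤ Real.log (p : ℕ) := Real.log_natCast_nonneg _
  rw [← min_mul_of_nonneg _ _ hlog]
  congr 1
  exact_mod_cast rfl

/-- three times the absolute value -/
def A (x : ℤ) : ℕ := 3 * x.natAbs

/-- the absolute value of `3 x + 1` -/
def B (x : ℤ) : ℕ := (3 * x + 1).natAbs

theorem A_ge {x : ℤ} (hx : x ≠ 0) : 3 ≤ A x := by unfold A; omega

theorem B_ge {x : ℤ} (h2 : x % 2 = 1) : 2 ≤ B x := by unfold B; omega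

theorem AB_coprime (x : ℤ) : Nat.Coprime (A x) (B x) := by
  unfold A B
  have h1 : 3 * x.natAbs = (3 * x).natAbs := by omega
  rw [h1, ← Int.isCoprime_iff_nat_coprime]
  exact ⟨-1, 1, by ring⟩

/-- the size -/
noncomputable def L (x : ℤ) : ℝ := Real.log (A x) + Real.log (B x)

theorem L_ge {x : ℤ} (hx : x ≠ 0) (h2 : x % 2 = 1) : Real.log 6 ≤ L x := by
  have h3 : (3 : ℝ) ≤ A x := by exact_mod_cast A_ge hx
  have h4 : (2 : ℝ) ≤ B x := by exact_mod_cast B_ge h2
  unfold L
  rw [← Real.log_mul (by linarith) (by linarith)]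
  apply Real.log_le_log (by norm_num)
  nlinarith

theorem log6 : (1.79 : ℝ) < Real.log 6 := by
  have h1 : Real.log 6 = Real.log 2 + Real.log 3 := by
    rw [← Real.log_mul (by norm_num) (by norm_num)]; norm_num
  have h2 := Real.log_two_gt_d9
  have h3 := log3_lower
  rw [h1]
  linarith

theorem log32 : Real.log (3 / 2) < 0.41 := by
  have h2 := Real.log_two_gt_d9
  have h4 : Real.log 3 < 1.0987 := by
    rw [Real.log_lt_iff_lt_exp (by norm_num)]
    have h5 : Real.exp 1 ^ 10987 = Real.exp 1.0987 ^ 10000 := by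
      rw [← Real.exp_nat_mul, ← Real.exp_nat_mul]
      norm_num
    by_contra hcon
    push Not at hcon
    have h6 := Real.exp_one_gt_d9
    -- use a coarser route: `exp 1.0987 = exp 1 * exp 0.0987`
    have h7 : Real.exp 1.0987 = Real.exp 1 * Real.exp 0.0987 := by
      rw [← Real.exp_add]; norm_num
    have h8 : (1 : ℝ) + 0.0987 + 0.0987 ^ 2 / 2 + 0.0987 ^ 3 / 6 ≤ Real.exp 0.0987 := by
      have := Real.sum_le_exp_of_nonneg (show (0 : ℝ) ≤ 0.0987 by norm_num) 4
      simp only [sum_range_succ, sum_range_zero, Nat.factorial] at this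
      norm_num at this ⊢
      linarith
    rw [h7] at hcon
    have h9 : (2.7182818283 : ℝ) * (1 + 0.0987 + 0.0987 ^ 2 / 2 + 0.0987 ^ 3 / 6) ≤
        Real.exp 1 * Real.exp 0.0987 := by
      apply mul_le_mul h6.le h8 (by norm_num) (Real.exp_pos _).le
    norm_num at h9
    linarith
  rw [Real.log_div (by norm_num) (by norm_num)]
  linarith

/-- the vector of a pair -/
noncomputable def vec (I : Finset ℕ) (a b : ℚ) : PiLp 1 (fun _ : I ⊕ I => ℝ) :=
  WithLp.toLp 1 (Sum.elim (phi I a) (phi I b))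

theorem phi_nonneg {I : Finset ℕ} (hI : ∀ p ∈ I, p.Prime) (n : ℕ) (p : I) : 0 ≤ phi I (n : ℚ) p := by
  rw [phi_nat hI]
  exact mul_nonneg (Nat.cast_nonneg _) (Real.log_natCast_nonneg _)

theorem norm_vec {I : Finset ℕ} (hI : ∀ p ∈ I, p.Prime) {a b : ℕ} (ha : a.primeFactors ⊆ I)
    (hb : b.primeFactors ⊆ I) : ‖vec I a b‖ = Real.log a + Real.log b := by
  rw [PiLp.norm_eq_of_L1, Fintype.sum_sum_type, log_eq_sum ha, log_eq_sum hb]
  congr 1
  · apply sum_congr rfl
    intro p _
    rw [← phi_nat hI]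
    simp only [vec, Sum.elim_inl, Real.norm_eq_abs]
    exact abs_of_nonneg (phi_nonneg hI a p)
  · apply sum_congr rfl
    intro p _
    rw [← phi_nat hI]
    simp only [vec, Sum.elim_inr, Real.norm_eq_abs]
    exact abs_of_nonneg (phi_nonneg hI b p)

theorem sep {I : Finset ℕ} (hI : ∀ p ∈ I, p.Prime) {a b a' b' : ℕ} (ha0 : a ≠ 0) (hb0 : b ≠ 0)
    (ha0' : a' ≠ 0) (hb0' : b' ≠ 0) (ha : a.primeFactors ⊆ I)
    (hb : b.primeFactors ⊆ I) (ha' : a'.primeFactors ⊆ I) (hb' : b'.primeFactors ⊆ I)
    {l l' : ℝ} (hl : l = Real.log a + Real.log b) (hl' : l' = Real.log a' + Real.log b') (hl0 : 0 < l)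
    (hll : l ≤ l') (h : ‖(2 / l) • vec I a b - (2 / l') • vec I a' b'‖ < 1) :
    3 / 4 * l < Real.log (Nat.gcd a a') + Real.log (Nat.gcd b b') := by
  have hl0' : 0 < l' := by linarith
  have key : ∀ x y : ℝ, |x - y| = x + y - 2 * min x y := by
    intro x y
    rcases le_total x y with h | h
    · rw [min_eq_left h, abs_of_nonpos (by linarith)]; ring
    · rw [min_eq_right h, abs_of_nonneg (by linarith)]; ring
  have hsum : ∀ (u v : I → ℝ), ∑ p, |2 / l * u p - 2 / l' * v p| =
      2 / l * ∑ p, u p + 2 / l' * ∑ p, v p - 2 * ∑ p, min (2 / l * u p) (2 / l' * v p) := by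
    intro u v
    rw [mul_sum, mul_sum, mul_sum, ← sum_add_distrib, ← sum_sub_distrib]
    exact sum_congr rfl fun p _ => key _ _
  have hmin : ∀ (u v : I → ℝ), (∀ p, 0 ≤ v p) →
      ∑ p, min (2 / l * u p) (2 / l' * v p) ≤ 2 / l * ∑ p, min (u p) (v p) := by
    intro u v hv
    rw [mul_sum]
    apply sum_le_sum
    intro p _
    rw [mul_min_of_nonneg _ _ (by positivity : 0 ≤ 2 / l)]
    apply min_le_min le_rfl
    apply mul_le_mul_of_nonneg_right _ (hv p)
    exact div_le_div_of_nonneg_left (by norm_num) hl0 hll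
  rw [PiLp.norm_eq_of_L1, Fintype.sum_sum_type] at h
  simp only [vec, PiLp.sub_apply, PiLp.smul_apply, Sum.elim_inl, Sum.elim_inr, smul_eq_mul,
    Real.norm_eq_abs] at h
  rw [hsum, hsum] at h
  have e1 : ∑ p, phi I (a : ℚ) p = Real.log a := by
    rw [log_eq_sum ha]; exact sum_congr rfl fun p _ => phi_nat hI a p
  have e2 : ∑ p, phi I (b : ℚ) p = Real.log b := by
    rw [log_eq_sum hb]; exact sum_congr rfl fun p _ => phi_nat hI b p
  have e3 : ∑ p, phi I (a' : ℚ) p = Real.log a' := by
    rw [log_eq_sum ha']; exact sum_congr rfl fun p _ => phi_nat hI a' p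
  have e4 : ∑ p, phi I (b' : ℚ) p = Real.log b' := by
    rw [log_eq_sum hb']; exact sum_congr rfl fun p _ => phi_nat hI b' p
  have e5 : ∑ p, min (phi I (a : ℚ) p) (phi I (a' : ℚ) p) = Real.log (Nat.gcd a a') := by
    rw [log_gcd_eq ha0 ha0' ha]
    exact sum_congr rfl fun p _ => by rw [phi_nat hI, phi_nat hI]
  have e6 : ∑ p, min (phi I (b : ℚ) p) (phi I (b' : ℚ) p) = Real.log (Nat.gcd b b') := by
    rw [log_gcd_eq hb0 hb0' hb]
    exact sum_congr rfl fun p _ => by rw [phi_nat hI, phi_nat hI]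
  have m1 := hmin (phi I a) (phi I a') (fun p => phi_nonneg hI a' p)
  have m2 := hmin (phi I b) (phi I b') (fun p => phi_nonneg hI b' p)
  rw [e5] at m1
  rw [e6] at m2
  rw [e1, e2, e3, e4] at h
  have t1 : 2 / l * Real.log a + 2 / l * Real.log b = 2 := by
    rw [← mul_add, ← hl]; field_simp
  have t2 : 2 / l' * Real.log a' + 2 / l' * Real.log b' = 2 := by
    rw [← mul_add, ← hl']; field_simp
  have t3 : 3 / 2 < 2 / l * (Real.log (Nat.gcd a a') + Real.log (Nat.gcd b b')) := by
    rw [mul_add]; linarith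
  rw [div_mul_eq_mul_div, lt_div_iff₀ hl0] at t3
  linarith

/-- two odd integers of the same sign and comparable size have separated vectors -/
theorem sep_cycle {I : Finset ℕ} (hI : ∀ p ∈ I, p.Prime) {x y : ℤ} (hx : x ≠ 0) (hy : y ≠ 0)
    (hx2 : x % 2 = 1) (hy2 : y % 2 = 1) (hs : 0 < x * y) (hne : x ≠ y)
    (h1 : (A x).primeFactors ⊆ I) (h2 : (B x).primeFactors ⊆ I) (h3 : (A y).primeFactors ⊆ I)
    (h4 : (B y).primeFactors ⊆ I) (hl : L x ≤ L y) (hl2 : L y ≤ 5 / 4 * L x) :
    1 ≤ ‖(2 / L x) • vec I (A x) (B x) - (2 / L y) • vec I (A y) (B y)‖ := by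
  by_contra hcon
  push Not at hcon
  have hAx := A_ge hx
  have hAy := A_ge hy
  have hBx := B_ge hx2
  have hBy := B_ge hy2
  have hAx' : (3 : ℝ) ≤ A x := by exact_mod_cast hAx
  have hAy' : (3 : ℝ) ≤ A y := by exact_mod_cast hAy
  have hBx' : (2 : ℝ) ≤ B x := by exact_mod_cast hBx
  have hBy' : (2 : ℝ) ≤ B y := by exact_mod_cast hBy
  have hLx := L_ge hx hx2
  have h6 := log6
  have h32 := log32
  have key := sep hI (l := L x) (l' := L y) (by omega) (by omega) (by omega) (by omega) h1 h2 h3 h4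
    rfl rfl (by linarith) hl hcon
  -- the sizes
  have hlt : A x < A y ∧ (B y : ℤ) - B x = (A y : ℤ) - A x := by
    have hsgn : (0 < x ∧ 0 < y) ∨ (x < 0 ∧ y < 0) := by
      rcases lt_trichotomy x 0 with h | h | h
      · right
        refine ⟨h, ?_⟩
        by_contra h'
        push Not at h'
        nlinarith
      · exact absurd h hx
      · left
        refine ⟨h, ?_⟩
        by_contra h'
        push Not at h'
        nlinarith
    have hle : ¬ (A y < A x) := by
      intro hlt
      have hB : B y < B x := by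
        unfold A at hlt; unfold B
        rcases hsgn with h | h <;> omega
      have g1 : Real.log (A y) < Real.log (A x) := Real.log_lt_log (by linarith) (by exact_mod_cast hlt)
      have g2 : Real.log (B y) < Real.log (B x) := Real.log_lt_log (by linarith) (by exact_mod_cast hB)
      unfold L at hl
      linarith
    unfold A B at *
    rcases hsgn with h | h <;> constructor <;> omega
  -- the gcds
  set g := Nat.gcd (A x) (A y) with hg
  set h := Nat.gcd (B x) (B y) with hh
  have hgh : g * h < A y := by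
    have c1 : (g : ℤ) ∣ (A y : ℤ) - A x :=
      dvd_sub (Int.natCast_dvd_natCast.2 (Nat.gcd_dvd_right _ _))
        (Int.natCast_dvd_natCast.2 (Nat.gcd_dvd_left _ _))
    have c2 : (h : ℤ) ∣ (A y : ℤ) - A x := by
      rw [← hlt.2]
      exact dvd_sub (Int.natCast_dvd_natCast.2 (Nat.gcd_dvd_right _ _))
        (Int.natCast_dvd_natCast.2 (Nat.gcd_dvd_left _ _))
    have c3 : Nat.Coprime g h :=
      Nat.Coprime.coprime_dvd_left (Nat.gcd_dvd_left _ _)
        (Nat.Coprime.coprime_dvd_right (Nat.gcd_dvd_left _ _) (AB_coprime x))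
    have c4 : (A y : ℤ) - A x = ((A y - A x : ℕ) : ℤ) := by
      rw [Nat.cast_sub hlt.1.le]
    rw [c4, Int.natCast_dvd_natCast] at c1 c2
    have c5 : g * h ∣ A y - A x := c3.mul_dvd_of_dvd_of_dvd c1 c2
    have c6 := Nat.le_of_dvd (by omega) c5
    omega
  have hg0 : 0 < g := Nat.gcd_pos_of_pos_left _ (by omega)
  have hh0 : 0 < h := Nat.gcd_pos_of_pos_left _ (by omega)
  have hg0' : (0 : ℝ) < g := by exact_mod_cast hg0
  have hh0' : (0 : ℝ) < h := by exact_mod_cast hh0
  rw [← Real.log_mul hg0'.ne' hh0'.ne'] at key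
  have k2 : Real.log ((g : ℝ) * h) ≤ Real.log (A y) :=
    Real.log_le_log (by positivity) (by exact_mod_cast hgh.le)
  -- `log (A y)` versus `L y`
  have k3 : Real.log (A y) ≤ Real.log (B y) + Real.log (3 / 2) := by
    rw [← Real.log_mul (by linarith) (by norm_num)]
    apply Real.log_le_log (by linarith)
    have : (A y : ℝ) ≤ B y + 1 := by
      have : A y ≤ B y + 1 := by unfold A B; omega
      exact_mod_cast this
    have h5 : (A y : ℝ) ≤ 3 / 2 * B y := by linarith
    linarith
  have k4 : 2 * Real.log (A y) ≤ L y + Real.log (3 / 2) := by unfold L; linarith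
  linarith

/-- the size of the terms along an orbit -/
theorem T_le {y : ℤ} (_hy : y ≠ 0) : |T y| ≤ 2 * |y| := by
  rcases par y with h | h
  · have := T_even h
    rcases abs_cases (T y) with h1 | h1 <;> rcases abs_cases y with h2 | h2 <;> omega
  · have := T_odd h
    rcases abs_cases (T y) with h1 | h1 <;> rcases abs_cases y with h2 | h2 <;> omega

theorem iter_le {y : ℤ} (hy : y ≠ 0) (k : ℕ) : |T^[k] y| ≤ 2 ^ k * |y| := by
  induction k with
  | zero => simp
  | succ k ih =>
    rw [Function.iterate_succ_apply', pow_succ]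
    have := T_le (iter_ne_zero hy k)
    linarith

/-- at least half of the elements of a cycle are odd -/
theorem half_odd {x : ℤ} (hx : x ≠ 0) (k : ℕ) :
    |T^[k] x| * 2 ^ k ≤ |x| * 2 ^ (2 * od k x) := by
  induction k with
  | zero => simp [od]
  | succ k ih =>
    have hne := iter_ne_zero hx k
    rw [Function.iterate_succ_apply']
    rcases par (T^[k] x) with h | h
    · rw [od_succ_even h]
      have h1 : 2 * |T (T^[k] x)| = |T^[k] x| := by
        have := T_even h
        rw [← this, abs_mul]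
        norm_num
        rw [this]
      rw [pow_succ]
      calc |T (T^[k] x)| * (2 ^ k * 2) = (2 * |T (T^[k] x)|) * 2 ^ k := by ring
        _ = |T^[k] x| * 2 ^ k := by rw [h1]
        _ ≤ _ := ih
    · rw [od_succ_odd h]
      have h1 := T_le hne
      calc |T (T^[k] x)| * 2 ^ (k + 1) ≤ (2 * |T^[k] x|) * 2 ^ (k + 1) :=
            mul_le_mul_of_nonneg_right h1 (by positivity)
        _ = 4 * (|T^[k] x| * 2 ^ k) := by ring
        _ ≤ 4 * (|x| * 2 ^ (2 * od k x)) := mul_le_mul_of_nonneg_left ih (by norm_num)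
        _ = |x| * 2 ^ (2 * (od k x + 1)) := by ring

theorem sign_iter {x : ℤ} (hx : x ≠ 0) (k : ℕ) : 0 < x * T^[k] x := by
  induction k with
  | zero => simp only [Function.iterate_zero, id]; exact mul_self_pos.2 hx
  | succ k ih =>
    rw [Function.iterate_succ_apply']
    have hne := iter_ne_zero hx k
    have h0 : 0 < T^[k] x * T (T^[k] x) := by
      rcases par (T^[k] x) with h | h
      · have h1 := T_even h
        have h2 := mul_self_pos.2 (T_ne_zero hne)
        have e : T^[k] x * T (T^[k] x) = 2 * (T (T^[k] x) * T (T^[k] x)) := by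
          linear_combination (-(T (T^[k] x))) * h1
        rw [e]; linarith
      · have h1 := T_odd h
        rcases lt_or_gt_of_ne hne with h2 | h2
        · have : T (T^[k] x) < 0 := by omega
          nlinarith
        · have : 0 < T (T^[k] x) := by omega
          nlinarith
    rcases lt_or_gt_of_ne hx with h2 | h2
    · have h3 : T^[k] x < 0 := by
        by_contra h'
        push Not at h'
        nlinarith
      have h4 : T (T^[k] x) < 0 := by
        by_contra h'
        push Not at h'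
        nlinarith
      nlinarith
    · have h3 : 0 < T^[k] x := by
        by_contra h'
        push Not at h'
        nlinarith
      have h4 : 0 < T (T^[k] x) := by
        by_contra h'
        push Not at h'
        nlinarith
      nlinarith

/-- the number of odd elements whose size is in a short range -/
theorem range_count {I : Finset ℕ} (hI : ∀ p ∈ I, p.Prime)
    (F : Submodule ℝ (PiLp 1 (fun _ : I ⊕ I => ℝ))) (O : Finset ℤ)
    (hO : ∀ x ∈ O, x ≠ 0 ∧ x % 2 = 1 ∧ (A x).primeFactors ⊆ I ∧ (B x).primeFactors ⊆ I ∧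
      vec I (A x) (B x) ∈ F) (hs : ∀ x ∈ O, ∀ y ∈ O, 0 < x * y) (l : ℝ)
    (hl : ∀ x ∈ O, l ≤ L x ∧ L x < 5 / 4 * l) :
    O.card ≤ 5 ^ Module.finrank ℝ F := by
  classical
  set f : ℤ → F := fun x => if h : vec I (A x) (B x) ∈ F then (2 / L x) • (⟨_, h⟩ : F) else 0 with hf
  have hfx : ∀ x ∈ O, ((f x : F) : PiLp 1 (fun _ : I ⊕ I => ℝ)) = (2 / L x) • vec I (A x) (B x) := by
    intro x hx
    rw [hf]
    simp only [dif_pos (hO x hx).2.2.2.2]
    rfl
  have hsep : ∀ x ∈ O, ∀ y ∈ O, x ≠ y → 1 ≤ ‖f x - f y‖ := by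
    have aux : ∀ x ∈ O, ∀ y ∈ O, x ≠ y → L x ≤ L y → 1 ≤ ‖f x - f y‖ := by
      intro x hx y hy hne hle
      have h1 := hO x hx
      have h2 := hO y hy
      have h3 := hl x hx
      have h4 := hl y hy
      have := sep_cycle hI h1.1 h2.1 h1.2.1 h2.2.1 (hs x hx y hy) hne h1.2.2.1 h1.2.2.2.1
        h2.2.2.1 h2.2.2.2.1 hle (by linarith)
      rw [← hfx x hx, ← hfx y hy] at this
      exact this
    intro x hx y hy hne
    rcases le_total (L x) (L y) with h | h
    · exact aux x hx y hy hne h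
    · rw [norm_sub_rev]; exact aux y hy x hx (Ne.symm hne) h
  have hinj : Set.InjOn f O := by
    intro x hx y hy hxy
    by_contra hne
    have := hsep x hx y hy hne
    rw [hxy, sub_self, norm_zero] at this
    linarith
  rw [← card_image_of_injOn hinj]
  apply Besicovitch.card_le_of_separated
  · intro c hc
    rw [mem_image] at hc
    obtain ⟨x, hx, rfl⟩ := hc
    have h1 := hO x hx
    change ‖((f x : F) : PiLp 1 (fun _ : I ⊕ I => ℝ))‖ ≤ 2
    rw [hfx x hx, norm_smul, norm_vec hI h1.2.2.1 h1.2.2.2.1]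
    have h5 := L_ge h1.1 h1.2.1
    have h6 := log6
    have h7 : 0 < L x := by linarith
    rw [Real.norm_eq_abs, abs_of_pos (by positivity)]
    have : 2 / L x * (Real.log (A x) + Real.log (B x)) = 2 := by
      change 2 / L x * L x = 2
      field_simp
    rw [this]
  · intro c hc d hd hcd
    rw [mem_image] at hc hd
    obtain ⟨x, hx, rfl⟩ := hc
    obtain ⟨y, hy, rfl⟩ := hd
    exact hsep x hx y hy (fun h => hcd (by rw [h]))

/-- the embedding of the first coordinates -/
noncomputable def inL (I : Finset ℕ) : (I → ℝ) →ₗ[ℝ] PiLp 1 (fun _ : I ⊕ I => ℝ) where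
  toFun u := WithLp.toLp 1 (Sum.elim u 0)
  map_add' u v := by
    ext j
    rcases j with j | j <;> simp
  map_smul' c u := by
    ext j
    rcases j with j | j <;> simp

/-- the embedding of the last coordinates -/
noncomputable def inR (I : Finset ℕ) : (I → ℝ) →ₗ[ℝ] PiLp 1 (fun _ : I ⊕ I => ℝ) where
  toFun u := WithLp.toLp 1 (Sum.elim 0 u)
  map_add' u v := by
    ext j
    rcases j with j | j <;> simp
  map_smul' c u := by
    ext j
    rcases j with j | j <;> simp

theorem vec_eq (I : Finset ℕ) (a b : ℚ) : vec I a b = inL I (phi I a) + inR I (phi I b) := by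
  ext j
  rcases j with j | j <;> simp [vec, inL, inR]

/-- the spanning vectors -/
noncomputable def gens (I : Finset ℕ) {r : ℕ} (g : Fin r → ℚ) :
    Option (Fin r) ⊕ Option (Fin r) → PiLp 1 (fun _ : I ⊕ I => ℝ)
  | .inl none => inL I (phi I 3)
  | .inl (some i) => inL I (phi I (g i))
  | .inr none => inR I (phi I 2)
  | .inr (some i) => inR I (phi I (g i))

theorem finrank_le (I : Finset ℕ) {r : ℕ} (g : Fin r → ℚ) :
    Module.finrank ℝ (Submodule.span ℝ (Set.range (gens I g))) ≤ 2 * (r + 1) := by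
  have h := finrank_range_le_card (R := ℝ) (gens I g)
  unfold Set.finrank at h
  refine h.trans ?_
  simp only [Fintype.card_sum, Fintype.card_option, Fintype.card_fin]
  omega

theorem vec_mem {I : Finset ℕ} (hI : ∀ p ∈ I, p.Prime) {r : ℕ} (g : Fin r → ℚ) (hg : ∀ i, g i ≠ 0)
    (e f : Fin r → ℤ) (a b : ℚ) (ha : a = 3 * ∏ j, g j ^ e j) (hb : b = 2 * ∏ j, g j ^ f j) :
    vec I a b ∈ Submodule.span ℝ (Set.range (gens I g)) := by
  have hprod : ∀ e : Fin r → ℤ, (∏ j, g j ^ e j) ≠ 0 :=
    fun e => prod_ne_zero_iff.2 fun j _ => zpow_ne_zero _ (hg j)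
  have hmem : ∀ k, gens I g k ∈ Submodule.span ℝ (Set.range (gens I g)) :=
    fun k => Submodule.subset_span ⟨k, rfl⟩
  rw [vec_eq, ha, hb, phi_mul hI (by norm_num) (hprod e), phi_mul hI (by norm_num) (hprod f),
    phi_prod hI g hg, phi_prod hI g hg, map_add, map_add, map_sum, map_sum]
  simp only [map_smul]
  apply Submodule.add_mem
  · apply Submodule.add_mem
    · exact hmem (.inl none)
    · apply Submodule.sum_mem
      intro j _
      exact Submodule.smul_mem _ _ (hmem (.inl (some j)))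
  · apply Submodule.add_mem
    · exact hmem (.inr none)
    · apply Submodule.sum_mem
      intro j _
      exact Submodule.smul_mem _ _ (hmem (.inr (some j)))

/-- **The multiplicative rank of a cycle.** -/
theorem rank_bound (x0 : ℤ) (hx0 : x0 ≠ 0) (p : ℕ) (hp : 0 < p) (hper : T^[p] x0 = x0)
    (hinj : Set.InjOn (fun i => T^[i] x0) (Set.Iio p)) (r : ℕ) (g : Fin r → ℚ)
    (hg : ∀ i, g i ≠ 0)
    (h : ∀ i, ∃ e : Fin r → ℤ, ((|T^[i] x0| : ℤ) : ℚ) = ∏ j, g j ^ e j) :
    (p : ℝ) ≤ 400 * 25 ^ r * (1 + Real.log p) := by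
  classical
  have hpR : (1 : ℝ) ≤ p := by exact_mod_cast hp
  have hlogp : 0 ≤ Real.log p := Real.log_nonneg hpR
  -- the odd elements
  set O : Finset ℤ := ((range p).filter fun i => (T^[i] x0) % 2 = 1).image fun i => T^[i] x0 with hO
  have hOcard : O.card = od p x0 := by
    rw [hO, card_image_of_injOn]
    · rfl
    · intro i hi j hj hij
      rw [mem_coe, mem_filter, mem_range] at hi hj
      exact hinj hi.1 hj.1 hij
  have hOmem : ∀ x ∈ O, ∃ i < p, (T^[i] x0) % 2 = 1 ∧ T^[i] x0 = x := by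
    intro x hx
    rw [hO, mem_image] at hx
    obtain ⟨i, hi, rfl⟩ := hx
    rw [mem_filter, mem_range] at hi
    exact ⟨i, hi.1, hi.2, rfl⟩
  -- at least half of the elements are odd
  have hhalf : p ≤ 2 * O.card := by
    rw [hOcard]
    have h1 := half_odd hx0 p
    rw [hper] at h1
    have h2 : 0 < |x0| := abs_pos.2 hx0
    have h3 : (2 : ℤ) ^ p ≤ 2 ^ (2 * od p x0) := le_of_mul_le_mul_left h1 h2
    exact (pow_le_pow_iff_right₀ (by norm_num : (1 : ℤ) < 2)).1 h3
  have hOne : O.Nonempty := by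
    rw [← card_pos]; omega
  set I : Finset ℕ := O.biUnion fun x => (A x).primeFactors ∪ (B x).primeFactors with hIdef
  have hI : ∀ q ∈ I, q.Prime := by
    intro q hq
    rw [hIdef, mem_biUnion] at hq
    obtain ⟨x, _, hq⟩ := hq
    rw [mem_union] at hq
    rcases hq with hq | hq <;> exact Nat.prime_of_mem_primeFactors hq
  set F := Submodule.span ℝ (Set.range (gens I g)) with hF
  have hOprop : ∀ x ∈ O, x ≠ 0 ∧ x % 2 = 1 ∧ (A x).primeFactors ⊆ I ∧ (B x).primeFactors ⊆ I ∧
      vec I (A x) (B x) ∈ F := by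
    intro x hx
    obtain ⟨i, hi, h1, rfl⟩ := hOmem x hx
    refine ⟨iter_ne_zero hx0 i, h1, ?_, ?_, ?_⟩
    · intro q hq
      rw [hIdef, mem_biUnion]
      exact ⟨_, hx, mem_union_left _ hq⟩
    · intro q hq
      rw [hIdef, mem_biUnion]
      exact ⟨_, hx, mem_union_right _ hq⟩
    · obtain ⟨e, he⟩ := h i
      obtain ⟨f, hf⟩ := h (i + 1)
      apply vec_mem hI g hg e f
      · rw [← he]
        unfold A
        push_cast
        rw [Nat.cast_natAbs]
        push_cast; ring
      · rw [← hf, Function.iterate_succ_apply']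
        have h2 := T_odd h1
        unfold B
        rw [← h2, Nat.cast_natAbs, abs_mul]
        push_cast
        norm_num
  have hs : ∀ x ∈ O, ∀ y ∈ O, 0 < x * y := by
    intro x hx y hy
    obtain ⟨i, hi, -, rfl⟩ := hOmem x hx
    obtain ⟨j, hj, -, rfl⟩ := hOmem y hy
    have h1 := sign_iter hx0 i
    have h2 := sign_iter hx0 j
    have h3 : 0 < (x0 * x0) * (T^[i] x0 * T^[j] x0) := by
      calc 0 < (x0 * T^[i] x0) * (x0 * T^[j] x0) := mul_pos h1 h2
        _ = _ := by ring
    have h4 : 0 < x0 * x0 := mul_self_pos.2 hx0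
    exact (mul_pos_iff_of_pos_left h4).1 h3
  -- the smallest one
  obtain ⟨xm, hxm, hmin⟩ := exists_min_image O L hOne
  have hl6 := log6
  have hLm : Real.log 6 ≤ L xm := L_ge (hOprop xm hxm).1 (hOprop xm hxm).2.1
  have hLm0 : 0 < L xm := by linarith
  have hLmax : ∀ x ∈ O, L x ≤ 3 * p * L xm := by
    intro x hx
    have hxm0 : xm ≠ 0 := (hOprop xm hxm).1
    have hx0' : x ≠ 0 := (hOprop x hx).1
    have hle : |x| ≤ 2 ^ p * |xm| := by
      obtain ⟨i, hi, -, hxi⟩ := hOmem x hx
      obtain ⟨j, hj, -, hxj⟩ := hOmem xm hxm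
      have hk : ∃ k ≤ p, T^[k] xm = x := by
        rcases le_total j i with hji | hji
        · refine ⟨i - j, by omega, ?_⟩
          rw [← hxj, ← Function.iterate_add_apply, ← hxi]
          congr 1; congr 1; omega
        · refine ⟨p + i - j, by omega, ?_⟩
          rw [← hxj, ← Function.iterate_add_apply, ← hxi]
          have : p + i - j + j = i + p := by omega
          rw [this, Function.iterate_add_apply, hper]
      obtain ⟨k, hk, rfl⟩ := hk
      refine (iter_le hxm0 k).trans ?_
      apply mul_le_mul_of_nonneg_right _ (abs_nonneg _)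
      exact pow_le_pow_right₀ (by norm_num) hk
    have hle' : |(x : ℝ)| ≤ 2 ^ p * |(xm : ℝ)| := by exact_mod_cast hle
    have hx1 : (1 : ℝ) ≤ |(x : ℝ)| := by exact_mod_cast Int.one_le_abs hx0'
    have hxm1 : (1 : ℝ) ≤ |(xm : ℝ)| := by exact_mod_cast Int.one_le_abs hxm0
    have hAr : ∀ y : ℤ, ((A y : ℕ) : ℝ) = 3 * |(y : ℝ)| := by
      intro y; unfold A; push_cast; rw [Nat.cast_natAbs]; push_cast; ring
    have hB1 : ((B x : ℕ) : ℝ) ≤ 4 * |(x : ℝ)| := by
      have : ((B x : ℕ) : ℝ) = |3 * (x : ℝ) + 1| := by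
        unfold B; rw [Nat.cast_natAbs]; push_cast; rfl
      rw [this]
      refine (abs_add_le _ _).trans ?_
      rw [abs_mul]; norm_num; linarith
    have hB2 : 2 * |(xm : ℝ)| ≤ ((B xm : ℕ) : ℝ) := by
      have : ((B xm : ℕ) : ℝ) = |3 * (xm : ℝ) + 1| := by
        unfold B; rw [Nat.cast_natAbs]; push_cast; rfl
      rw [this]
      have h1 := abs_sub_abs_le_abs_sub (3 * (xm : ℝ)) (-1)
      rw [abs_mul, abs_neg, abs_one, sub_neg_eq_add] at h1
      norm_num at h1
      linarith
    have hBx0 : (0 : ℝ) < ((B x : ℕ) : ℝ) := by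
      have := B_ge (hOprop x hx).2.1
      have h2 : (2 : ℝ) ≤ B x := by exact_mod_cast this
      linarith
    have l1 : L x ≤ Real.log 12 + 2 * (p * Real.log 2 + Real.log |(xm : ℝ)|) := by
      unfold L
      rw [hAr]
      have m1 : Real.log (3 * |(x : ℝ)|) = Real.log 3 + Real.log |(x : ℝ)| :=
        Real.log_mul (by norm_num) (by linarith)
      have m2 : Real.log ((B x : ℕ) : ℝ) ≤ Real.log 4 + Real.log |(x : ℝ)| := by
        rw [← Real.log_mul (by norm_num) (by linarith)]
        exact Real.log_le_log hBx0 hB1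
      have m3 : Real.log |(x : ℝ)| ≤ p * Real.log 2 + Real.log |(xm : ℝ)| := by
        rw [← Real.log_pow, ← Real.log_mul (by positivity) (by linarith)]
        exact Real.log_le_log (by linarith) hle'
      have m4 : Real.log 12 = Real.log 3 + Real.log 4 := by
        rw [← Real.log_mul (by norm_num) (by norm_num)]; norm_num
      rw [m1, m4]
      linarith
    have l2 : Real.log 6 + 2 * Real.log |(xm : ℝ)| ≤ L xm := by
      unfold L
      rw [hAr]
      have m1 : Real.log (3 * |(xm : ℝ)|) = Real.log 3 + Real.log |(xm : ℝ)| :=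
        Real.log_mul (by norm_num) (by linarith)
      have m2 : Real.log 2 + Real.log |(xm : ℝ)| ≤ Real.log ((B xm : ℕ) : ℝ) := by
        rw [← Real.log_mul (by norm_num) (by linarith)]
        exact Real.log_le_log (by linarith) hB2
      have m4 : Real.log 6 = Real.log 3 + Real.log 2 := by
        rw [← Real.log_mul (by norm_num) (by norm_num)]; norm_num
      rw [m1, m4]
      linarith
    have l3 : Real.log 12 = Real.log 6 + Real.log 2 := by
      rw [← Real.log_mul (by norm_num) (by norm_num)]; norm_num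
    have hl2 := Real.log_two_lt_d9
    have hl20 : 0 < Real.log 2 := Real.log_pos (by norm_num)
    have l4 : L x ≤ L xm + (2 * p + 1) * Real.log 2 := by
      rw [l3] at l1
      linarith
    have l5 : (2 * (p : ℝ) + 1) * Real.log 2 ≤ (2 * p + 1) * (2 / 5 * L xm) := by
      apply mul_le_mul_of_nonneg_left _ (by positivity)
      linarith
    nlinarith
  -- the ranges
  have hl54 : (1 : ℝ) / 5 ≤ Real.log (5 / 4) := by
    have := Real.one_sub_inv_le_log_of_pos (show (0 : ℝ) < 5 / 4 by norm_num)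
    norm_num at this ⊢
    linarith
  have hl54p : 0 < Real.log (5 / 4) := by linarith
  set kk : ℤ → ℕ := fun x => ⌊Real.log (L x / L xm) / Real.log (5 / 4)⌋₊ with hkk
  set K : ℕ := ⌊Real.log (3 * p) / Real.log (5 / 4)⌋₊ with hK
  have hLx : ∀ x ∈ O, 1 ≤ L x / L xm := by
    intro x hx
    rw [le_div_iff₀ hLm0, one_mul]
    exact hmin x hx
  have hmaps : ∀ x ∈ O, kk x ∈ range (K + 1) := by
    intro x hx
    rw [mem_range, Nat.lt_succ_iff]
    apply Nat.floor_le_floor
    apply div_le_div_of_nonneg_right _ hl54p.le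
    apply Real.log_le_log (by linarith [hLx x hx])
    rw [div_le_iff₀ hLm0]
    exact hLmax x hx
  have hfib : ∀ k ∈ range (K + 1), (O.filter fun x => kk x = k).card ≤ 25 ^ (r + 1) := by
    intro k _
    have hb := range_count hI F (O.filter fun x => kk x = k) (fun x hx => hOprop x (mem_filter.1 hx).1)
      (fun x hx y hy => hs x (mem_filter.1 hx).1 y (mem_filter.1 hy).1) ((5 / 4) ^ k * L xm) (by
      intro x hx
      rw [mem_filter] at hx
      have h1 := hLx x hx.1
      have h2 : 0 ≤ Real.log (L x / L xm) / Real.log (5 / 4) :=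
        div_nonneg (Real.log_nonneg h1) hl54p.le
      have h3 := Nat.floor_le h2
      have h4 := Nat.lt_floor_add_one (Real.log (L x / L xm) / Real.log (5 / 4))
      rw [show ⌊Real.log (L x / L xm) / Real.log (5 / 4)⌋₊ = k from hx.2] at h3 h4
      rw [le_div_iff₀ hl54p, ← Real.log_pow, Real.log_le_log_iff (by positivity) (by linarith),
        le_div_iff₀ hLm0] at h3
      have h5 : ((k : ℝ) + 1) = ((k + 1 : ℕ) : ℝ) := by push_cast; ring
      rw [div_lt_iff₀ hl54p, h5, ← Real.log_pow, Real.log_lt_log_iff (by linarith) (by positivity),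
        div_lt_iff₀ hLm0, pow_succ] at h4
      refine ⟨h3, ?_⟩
      linarith)
    refine hb.trans ?_
    have h1 : (5 : ℕ) ^ Module.finrank ℝ F ≤ 5 ^ (2 * (r + 1)) :=
      Nat.pow_le_pow_right (by norm_num) (finrank_le I g)
    refine h1.trans (le_of_eq ?_)
    rw [pow_mul]; norm_num
  have hcount : O.card ≤ (K + 1) * 25 ^ (r + 1) := by
    rw [card_eq_sum_card_fiberwise hmaps]
    refine (sum_le_sum hfib).trans ?_
    rw [sum_const, card_range, smul_eq_mul]
  have hKle : (K : ℝ) + 1 ≤ 15 / 2 * (1 + Real.log p) := by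
    have h1 : (K : ℝ) ≤ Real.log (3 * p) / Real.log (5 / 4) := by
      apply Nat.floor_le
      apply div_nonneg _ hl54p.le
      apply Real.log_nonneg
      linarith
    have h2 : Real.log (3 * p) = Real.log 3 + Real.log p :=
      Real.log_mul (by norm_num) (by linarith)
    have h32 := log32
    have hl2 := Real.log_two_lt_d9
    have h3 : Real.log 3 < 1.11 := by
      have : Real.log 3 = Real.log (3 / 2) + Real.log 2 := by
        rw [← Real.log_mul (by norm_num) (by norm_num)]; norm_num
      rw [this]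
      linarith
    have h4 : Real.log (3 * p) / Real.log (5 / 4) ≤ Real.log (3 * p) * 5 := by
      rw [div_le_iff₀ hl54p]
      have h5 : 0 ≤ Real.log (3 * p) := by
        apply Real.log_nonneg; linarith
      nlinarith
    rw [h2] at h4 h1
    linarith
  have hfinal : (p : ℝ) ≤ 2 * ((K + 1) * 25 ^ (r + 1)) := by
    have h1 : p ≤ 2 * ((K + 1) * 25 ^ (r + 1)) := hhalf.trans (Nat.mul_le_mul_left 2 hcount)
    exact_mod_cast h1
  have h25 : (0 : ℝ) < 25 ^ r := by positivity
  have : 2 * (((K : ℝ) + 1) * 25 ^ (r + 1)) ≤ 2 * (15 / 2 * (1 + Real.log p) * 25 ^ (r + 1)) := by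
    apply mul_le_mul_of_nonneg_left _ (by norm_num)
    exact mul_le_mul_of_nonneg_right hKle (by positivity)
  have e : 2 * (15 / 2 * (1 + Real.log p) * 25 ^ (r + 1)) = 375 * 25 ^ r * (1 + Real.log p) := by
    rw [pow_succ]; ring
  rw [e] at this
  have h6 : 375 * 25 ^ r * (1 + Real.log p) ≤ 400 * 25 ^ r * (1 + Real.log p) := by
    apply mul_le_mul_of_nonneg_right _ (by linarith)
    linarith
  linarith

end Pool.Agent.N903.RK
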