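import Mathlib
import Pool.Agent.N903.Gerber

set_option autoImplicit false

/-!
# Averages over classes, and the number of elements of a sumset which is coloured by two colours
-/

namespace Pool.Agent.N903.SS

open Real Finset

section avg

variable {ι β γ : Type*} [DecidableEq β] [DecidableEq γ]

/-- the class of `x` -/
def cls (S : Finset ι) (κ : ι → β) (x : ι) : Finset ι := S.filter fun y => κ y = κ x

theorem mem_cls {S : Finset ι} {κ : ι → β} {x y : ι} : y ∈ cls S κ x ↔ y ∈ S ∧ κ y = κ x := by
  unfold cls; rw [mem_filter]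

theorem self_mem_cls {S : Finset ι} {κ : ι → β} {x : ι} (hx : x ∈ S) : x ∈ cls S κ x :=
  mem_cls.2 ⟨hx, rfl⟩

theorem cls_eq {S : Finset ι} {κ : ι → β} {x y : ι} (h : κ y = κ x) : cls S κ y = cls S κ x := by
  unfold cls; rw [h]

theorem cls_card_pos {S : Finset ι} {κ : ι → β} {x : ι} (hx : x ∈ S) : 0 < (cls S κ x).card :=
  Finset.card_pos.2 ⟨x, self_mem_cls hx⟩

/-- the average over the class -/
noncomputable def avg (S : Finset ι) (κ : ι → β) (f : ι → ℝ) (x : ι) : ℝ :=
  (∑ y ∈ cls S κ x, f y) / (cls S κ x).card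

theorem avg_sum (S : Finset ι) (κ : ι → β) (f : ι → ℝ) : ∑ x ∈ S, avg S κ f x = ∑ x ∈ S, f x := by
  have h1 : ∀ x ∈ S, avg S κ f x = ∑ y ∈ S, if κ y = κ x then f y / (cls S κ y).card else 0 := by
    intro x hx
    rw [avg, Finset.sum_div, cls, Finset.sum_filter]
    apply Finset.sum_congr rfl
    intro y _
    split_ifs with h
    · have := cls_eq (S := S) h
      rw [this]; rfl
    · rfl
  rw [Finset.sum_congr rfl h1, Finset.sum_comm]
  apply Finset.sum_congr rfl
  intro y hy
  have h2 : ∀ x ∈ S, (if κ y = κ x then f y / ((cls S κ y).card : ℝ) else 0) =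
      if κ x = κ y then f y / ((cls S κ y).card : ℝ) else 0 := by
    intro x _
    by_cases h : κ y = κ x
    · rw [if_pos h, if_pos h.symm]
    · rw [if_neg h, if_neg (fun h' => h h'.symm)]
  rw [Finset.sum_congr rfl h2, ← Finset.sum_filter]
  change ∑ x ∈ cls S κ y, f y / ((cls S κ y).card : ℝ) = f y
  rw [Finset.sum_const, nsmul_eq_mul]
  have : ((cls S κ y).card : ℝ) ≠ 0 := by
    exact_mod_cast (cls_card_pos hy).ne'
  field_simp

theorem avg_tower {S : Finset ι} {κ : ι → β} {κ' : ι → γ}
    (href : ∀ x ∈ S, ∀ y ∈ S, κ' x = κ' y → κ x = κ y) (f : ι → ℝ) (x : ι) :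
    avg S κ (avg S κ' f) x = avg S κ f x := by
  unfold avg
  congr 1
  have h := avg_sum (cls S κ x) κ' f
  rw [← h]
  apply Finset.sum_congr rfl
  intro y hy
  have hy' := mem_cls.1 hy
  have h2 : cls S κ' y = cls (cls S κ x) κ' y := by
    ext z
    rw [mem_cls, mem_cls, mem_cls]
    constructor
    · rintro ⟨h3, h4⟩
      exact ⟨⟨h3, (href z h3 y hy'.1 h4).trans hy'.2⟩, h4⟩
    · rintro ⟨⟨h3, _⟩, h4⟩
      exact ⟨h3, h4⟩
  rw [avg, ← h2]

theorem avg_nonneg {S : Finset ι} {κ : ι → β} {f : ι → ℝ} (hf : ∀ x, 0 ≤ f x) (x : ι) :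
    0 ≤ avg S κ f x := div_nonneg (Finset.sum_nonneg fun y _ => hf y) (Nat.cast_nonneg _)

theorem avg_le_one {S : Finset ι} {κ : ι → β} {f : ι → ℝ} (hf : ∀ x, f x ≤ 1) (x : ι) :
    avg S κ f x ≤ 1 := by
  unfold avg
  rcases Nat.eq_zero_or_pos (cls S κ x).card with h | h
  · rw [h]; simp
  · rw [div_le_one (by exact_mod_cast h)]
    calc ∑ y ∈ cls S κ x, f y ≤ ∑ y ∈ cls S κ x, (1 : ℝ) := Finset.sum_le_sum fun y _ => hf y
      _ = (cls S κ x).card := by simp

/-- Jensen's inequality for the entropy -/
theorem jensen_sum {S : Finset ι} (hS : S.Nonempty) {f : ι → ℝ} (h0 : ∀ x ∈ S, 0 ≤ f x)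
    (h1 : ∀ x ∈ S, f x ≤ 1) :
    ∑ x ∈ S, binEntropy (f x) ≤ S.card * binEntropy ((∑ x ∈ S, f x) / S.card) := by
  have hc : (0 : ℝ) < S.card := by exact_mod_cast Finset.card_pos.2 hS
  have hj := strictConcave_binEntropy.concaveOn.le_map_sum (t := S) (w := fun _ => 1 / (S.card : ℝ))
    (p := f) (fun _ _ => by positivity) (by simp [hc.ne']) (fun x hx => ⟨h0 x hx, h1 x hx⟩)
  simp only [smul_eq_mul, ← Finset.mul_sum] at hj
  have h2 : 1 / (S.card : ℝ) * ∑ x ∈ S, f x = (∑ x ∈ S, f x) / S.card := by ring
  rw [h2] at hj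
  have h3 := mul_le_mul_of_nonneg_left hj hc.le
  have h4 : (S.card : ℝ) * (1 / (S.card : ℝ) * ∑ x ∈ S, binEntropy (f x)) =
      ∑ x ∈ S, binEntropy (f x) := by field_simp
  rw [h4] at h3
  exact h3

/-- Jensen's inequality for averages over a class -/
theorem jensen_avg {S : Finset ι} {κ : ι → β} {f : ι → ℝ} (h0 : ∀ x, 0 ≤ f x) (h1 : ∀ x, f x ≤ 1)
    {x : ι} (hx : x ∈ S) :
    avg S κ (fun y => binEntropy (f y)) x ≤ binEntropy (avg S κ f x) := by
  have h := jensen_sum (S := cls S κ x) ⟨x, self_mem_cls hx⟩ (fun y _ => h0 y) (fun y _ => h1 y)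
  have hc : (0 : ℝ) < (cls S κ x).card := by exact_mod_cast cls_card_pos hx
  unfold avg
  rw [div_le_iff₀ hc]
  linarith

end avg

/-- entropy of a bit in terms of numbers of elements -/
theorem ent_id {n a : ℝ} (hn : 0 < n) (ha : 0 ≤ a) (han : a ≤ n) :
    n * binEntropy (a / n) = n * log n - a * log a - (n - a) * log (n - a) := by
  rcases eq_or_lt_of_le ha with h0 | h0
  · rw [← h0]; simp
  rcases eq_or_lt_of_le han with h1 | h1
  · rw [h1, div_self hn.ne']; simp
  have h2 : 0 < n - a := by linarith
  rw [binEntropy_eq_negMulLog_add_negMulLog_one_sub, negMulLog, negMulLog]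
  have h3 : 1 - a / n = (n - a) / n := by field_simp
  rw [h3, Real.log_div h0.ne' hn.ne', Real.log_div h2.ne' hn.ne']
  field_simp
  ring

theorem gibbs {e o E O : ℝ} (he : 0 ≤ e) (ho : 0 ≤ o) (hN : 0 < e + o) (hE0 : 0 ≤ E) (hO0 : 0 ≤ O)
    (hE : 0 < e → 0 < E) (hO : 0 < o → 0 < O) :
    (e + o) * binEntropy (o / (e + o)) + e * log E + o * log O ≤ (e + o) * log (E + O) := by
  rw [ent_id hN ho (by linarith)]
  have h1 : e + o - o = e := by ring
  rw [h1]
  rcases eq_or_lt_of_le he with h0 | h0
  · rw [← h0] at hN ⊢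
    have hO' := hO (by linarith)
    have := Real.log_le_log hO' (by linarith : O ≤ E + O)
    simp only [zero_add, zero_mul, sub_zero, add_zero]
    nlinarith
  rcases eq_or_lt_of_le ho with h2 | h2
  · rw [← h2] at hN ⊢
    have hE' := hE h0
    have := Real.log_le_log hE' (by linarith : E ≤ E + O)
    simp only [add_zero, zero_mul, sub_zero]
    nlinarith
  have hE' := hE h0
  have hO' := hO h2
  have hEO : 0 < E + O := by linarith
  have k1 := Real.log_le_sub_one_of_pos (show 0 < E * (e + o) / (e * (E + O)) by positivity)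
  have k2 := Real.log_le_sub_one_of_pos (show 0 < O * (e + o) / (o * (E + O)) by positivity)
  rw [Real.log_div (by positivity) (by positivity), Real.log_mul hE'.ne' hN.ne',
    Real.log_mul h0.ne' hEO.ne'] at k1
  rw [Real.log_div (by positivity) (by positivity), Real.log_mul hO'.ne' hN.ne',
    Real.log_mul h2.ne' hEO.ne'] at k2
  have k3 := mul_le_mul_of_nonneg_left k1 he
  have k4 := mul_le_mul_of_nonneg_left k2 ho
  have k5 : e * (E * (e + o) / (e * (E + O)) - 1) + o * (O * (e + o) / (o * (E + O)) - 1) = 0 := by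
    field_simp
    ring
  nlinarith

/-- the number of the elements of a Boolean colour -/
noncomputable def frac (A : Finset ℤ) (α : ℤ → Bool) : ℝ :=
  ((A.filter fun x => α x = true).card : ℝ) / A.card

/-- **One step.** -/
theorem one_step (f : ℤ → ℤ → ℤ) {A B : Finset ℤ} (hA : A.Nonempty) (hB : B.Nonempty)
    (α β : ℤ → Bool)
    (hwd : ∀ a ∈ A, ∀ a' ∈ A, ∀ b ∈ B, ∀ b' ∈ B, f a b = f a' b' → xor (α a) (β b) = xor (α a') (β b')) :
    binEntropy (star (frac A α) (frac B β)) + (∑ x ∈ A, ∑ y ∈ B,
      log (image₂ f (A.filter fun z => α z = α x) (B.filter fun z => β z = β y)).card)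
        / (A.card * B.card) ≤ log (image₂ f A B).card := by
  classical
  set G := A ×ˢ B with hG
  set Ev := (G.filter fun q => xor (α q.1) (β q.2) = false) with hEv
  set Od := (G.filter fun q => xor (α q.1) (β q.2) = true) with hOd
  set FE := Ev.image (fun q => f q.1 q.2) with hFE
  set FO := Od.image (fun q => f q.1 q.2) with hFO
  have hF : image₂ f A B = FE ∪ FO := by
    ext s
    simp only [mem_image₂, hFE, hFO, hEv, hOd, hG, mem_union, mem_image, mem_filter, mem_product,
      Prod.exists]
    constructor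
    · rintro ⟨a, ha, b, hb, rfl⟩
      cases h : xor (α a) (β b)
      · exact Or.inl ⟨a, b, ⟨⟨ha, hb⟩, h⟩, rfl⟩
      · exact Or.inr ⟨a, b, ⟨⟨ha, hb⟩, h⟩, rfl⟩
    · rintro (⟨a, b, ⟨⟨ha, hb⟩, _⟩, rfl⟩ | ⟨a, b, ⟨⟨ha, hb⟩, _⟩, rfl⟩)
      · exact ⟨a, ha, b, hb, rfl⟩
      · exact ⟨a, ha, b, hb, rfl⟩
  have hdis : Disjoint FE FO := by
    rw [Finset.disjoint_left]
    intro s h1 h2
    rw [hFE, mem_image] at h1
    rw [hFO, mem_image] at h2
    obtain ⟨q, hq, rfl⟩ := h1
    obtain ⟨q', hq', he⟩ := h2
    rw [hEv, mem_filter, hG, mem_product] at hq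
    rw [hOd, mem_filter, hG, mem_product] at hq'
    have := hwd q.1 hq.1.1 q'.1 hq'.1.1 q.2 hq.1.2 q'.2 hq'.1.2 he.symm
    rw [hq.2, hq'.2] at this
    exact Bool.noConfusion this
  have hcard : (image₂ f A B).card = FE.card + FO.card := by rw [hF, card_union_of_disjoint hdis]
  have hAc : (0 : ℝ) < A.card := by exact_mod_cast Finset.card_pos.2 hA
  have hBc : (0 : ℝ) < B.card := by exact_mod_cast Finset.card_pos.2 hB
  have hEO : (Ev.card : ℝ) + Od.card = A.card * B.card := by
    have h1 : Ev.card + Od.card = G.card := by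
      have h2 := Finset.card_filter_add_card_filter_not (s := G) (fun q => xor (α q.1) (β q.2) = false)
      have h3 : (G.filter fun q => ¬ (xor (α q.1) (β q.2) = false)) = Od := by
        rw [hOd]
        apply Finset.filter_congr
        intro q _
        simp
      rw [h3] at h2
      exact h2
    rw [hG, card_product] at h1
    exact_mod_cast h1
  -- the number of pairs of odd colour
  have hOdc : (Od.card : ℝ) / (A.card * B.card) = star (frac A α) (frac B β) := by
    set A1 := A.filter fun x => α x = true with hA1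
    set B1 := B.filter fun x => β x = true with hB1
    set A0 := A.filter fun x => α x = false with hA0
    set B0 := B.filter fun x => β x = false with hB0
    have h1 : Od = (A1 ×ˢ B0) ∪ (A0 ×ˢ B1) := by
      ext ⟨a, b⟩
      simp only [hOd, hG, hA1, hB1, hA0, hB0, mem_filter, mem_product, mem_union]
      cases α a <;> cases β b <;> simp
    have h2 : Disjoint (A1 ×ˢ B0) (A0 ×ˢ B1) := by
      rw [Finset.disjoint_left]
      rintro ⟨a, b⟩ h3 h4
      rw [mem_product, hA1, mem_filter] at h3
      rw [mem_product, hA0, mem_filter] at h4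
      have := h3.1.2.symm.trans h4.1.2
      exact Bool.noConfusion this
    have hfA : A0.card + A1.card = A.card := by
      have h2 := Finset.card_filter_add_card_filter_not (s := A) (fun x => α x = false)
      have h3 : (A.filter fun x => ¬ (α x = false)) = A1 := by
        rw [hA1]; apply Finset.filter_congr; intro q _; simp
      rw [h3] at h2; exact h2
    have hfB : B0.card + B1.card = B.card := by
      have h2 := Finset.card_filter_add_card_filter_not (s := B) (fun x => β x = false)
      have h3 : (B.filter fun x => ¬ (β x = false)) = B1 := by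
        rw [hB1]; apply Finset.filter_congr; intro q _; simp
      rw [h3] at h2; exact h2
    have hfA' : (A0.card : ℝ) = A.card - A1.card := by
      have : (A0.card : ℝ) + A1.card = A.card := by exact_mod_cast hfA
      linarith
    have hfB' : (B0.card : ℝ) = B.card - B1.card := by
      have : (B0.card : ℝ) + B1.card = B.card := by exact_mod_cast hfB
      linarith
    rw [h1, card_union_of_disjoint h2, card_product, card_product]
    unfold star frac
    rw [← hA1, ← hB1]
    push_cast
    rw [hfA', hfB']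
    field_simp
  -- the sum of logarithms
  have hsum : ∑ x ∈ A, ∑ y ∈ B,
      log (image₂ f (A.filter fun z => α z = α x) (B.filter fun z => β z = β y)).card
      ≤ Ev.card * log FE.card + Od.card * log FO.card := by
    rw [← Finset.sum_product']
    change ∑ q ∈ G, _ ≤ _
    have hsplit : ∀ g : ℤ × ℤ → ℝ, ∑ q ∈ G, g q = ∑ q ∈ Ev, g q + ∑ q ∈ Od, g q := by
      intro g
      rw [hEv, hOd, ← Finset.sum_filter_add_sum_filter_not G (fun q => xor (α q.1) (β q.2) = false) g]
      congr 1
      apply Finset.sum_congr _ fun _ _ => rfl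
      apply Finset.filter_congr
      intro q _
      simp
    rw [hsplit]
    apply add_le_add
    · calc _ ≤ ∑ q ∈ Ev, log (FE.card : ℝ) := by
            apply Finset.sum_le_sum
            intro q hq
            have hq' := hq
            rw [hEv, mem_filter, hG, mem_product] at hq
            have hne : (image₂ f (A.filter fun z => α z = α q.1) (B.filter fun z => β z = β q.2)).Nonempty :=
              ⟨f q.1 q.2, mem_image₂_of_mem (mem_filter.2 ⟨hq.1.1, rfl⟩) (mem_filter.2 ⟨hq.1.2, rfl⟩)⟩
            apply Real.log_le_log (by exact_mod_cast Finset.card_pos.2 hne)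
            norm_cast
            apply Finset.card_le_card
            intro s hs
            rw [mem_image₂] at hs
            obtain ⟨a, ha, b, hb, rfl⟩ := hs
            rw [mem_filter] at ha hb
            rw [hFE, mem_image]
            refine ⟨(a, b), ?_, rfl⟩
            rw [hEv, mem_filter, hG, mem_product]
            refine ⟨⟨ha.1, hb.1⟩, ?_⟩
            simp only [ha.2, hb.2]
            exact hq.2
        _ = _ := by rw [Finset.sum_const, nsmul_eq_mul]
    · calc _ ≤ ∑ q ∈ Od, log (FO.card : ℝ) := by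
            apply Finset.sum_le_sum
            intro q hq
            rw [hOd, mem_filter, hG, mem_product] at hq
            have hne : (image₂ f (A.filter fun z => α z = α q.1) (B.filter fun z => β z = β q.2)).Nonempty :=
              ⟨f q.1 q.2, mem_image₂_of_mem (mem_filter.2 ⟨hq.1.1, rfl⟩) (mem_filter.2 ⟨hq.1.2, rfl⟩)⟩
            apply Real.log_le_log (by exact_mod_cast Finset.card_pos.2 hne)
            norm_cast
            apply Finset.card_le_card
            intro s hs
            rw [mem_image₂] at hs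
            obtain ⟨a, ha, b, hb, rfl⟩ := hs
            rw [mem_filter] at ha hb
            rw [hFO, mem_image]
            refine ⟨(a, b), ?_, rfl⟩
            rw [hOd, mem_filter, hG, mem_product]
            refine ⟨⟨ha.1, hb.1⟩, ?_⟩
            simp only [ha.2, hb.2]
            exact hq.2
        _ = _ := by rw [Finset.sum_const, nsmul_eq_mul]
  have hg := gibbs (e := Ev.card) (o := Od.card) (E := FE.card) (O := FO.card) (Nat.cast_nonneg _)
    (Nat.cast_nonneg _) (by rw [hEO]; positivity) (Nat.cast_nonneg _) (Nat.cast_nonneg _)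
    (by
      intro h
      have : 0 < Ev.card := by exact_mod_cast h
      exact_mod_cast Finset.card_pos.2 ((Finset.card_pos.1 this).image _))
    (by
      intro h
      have : 0 < Od.card := by exact_mod_cast h
      exact_mod_cast Finset.card_pos.2 ((Finset.card_pos.1 this).image _))
  rw [hEO, hOdc] at hg
  have hN : (0 : ℝ) < A.card * B.card := by positivity
  rw [hcard]
  push_cast
  have h5 := div_le_div_of_nonneg_right hsum hN.le
  have h6 : (A.card * B.card : ℝ) * (binEntropy (star (frac A α) (frac B β)) +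
      (Ev.card * log FE.card + Od.card * log FO.card) / (A.card * B.card)) ≤
      A.card * B.card * log (FE.card + FO.card) := by
    rw [mul_add, mul_div_cancel₀ _ hN.ne']
    linarith
  have h7 := le_of_mul_le_mul_left h6 hN
  linarith

end Pool.Agent.N903.SS
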