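import Mathlib
import Pool.Agent.N903.Tree

set_option autoImplicit false

/-!
# Sums of dilates of a finite set which is permuted by the map `x ↦ x / 2`, `(a x + b) / 2`
-/

namespace Pool.Agent.N903.SS

open Real Finset

/-- the map `T_{a,b}` -/
def T (a b x : ℤ) : ℤ := if x % 2 = 0 then x / 2 else (a * x + b) / 2

theorem T_even {a b x : ℤ} (h : x % 2 = 0) : 2 * T a b x = x := by
  unfold T; rw [if_pos h]; omega

theorem T_odd {a b x : ℤ} (ha : a % 2 = 1) (hb : b % 2 = 1) (h : x % 2 = 1) :
    2 * T a b x = a * x + b := by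
  unfold T
  rw [if_neg (by omega)]
  have h1 : (a * x + b) % 2 = 0 := by
    rw [Int.add_emod, Int.mul_emod, ha, h, hb]; rfl
  omega

theorem emod_iff (x y m : ℤ) : x % m = y % m ↔ m ∣ x - y := by
  rw [Int.emod_eq_emod_iff_emod_sub_eq_zero, Int.dvd_iff_emod_eq_zero]

theorem pow_dvd_odd_mul {a x : ℤ} (ha : a % 2 = 1) (n : ℕ) (h : (2 : ℤ) ^ n ∣ a * x) : (2 : ℤ) ^ n ∣ x := by
  apply IsCoprime.dvd_of_dvd_mul_left _ h
  apply IsCoprime.pow_left
  rw [Int.isCoprime_iff_gcd_eq_one]
  have : Int.gcd 2 a ∣ 2 := by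
    have := Int.gcd_dvd_left (a := 2) (b := a)
    exact_mod_cast this
  have h2 : (Int.gcd 2 a : ℤ) ∣ a := Int.gcd_dvd_right _ _
  rcases (Nat.dvd_prime Nat.prime_two).1 this with h3 | h3
  · exact h3
  · rw [h3] at h2
    omega

/-- one step of the tree -/
theorem shift {a b : ℤ} (ha : a % 2 = 1) (hb : b % 2 = 1) (k : ℕ) (x y : ℤ) :
    x % 2 ^ (k + 1) = y % 2 ^ (k + 1) ↔ x % 2 = y % 2 ∧ T a b x % 2 ^ k = T a b y % 2 ^ k := by
  rw [emod_iff, emod_iff x y 2, emod_iff]
  constructor
  · intro h
    have h2 : (2 : ℤ) ∣ x - y := (dvd_pow_self 2 (by omega)).trans h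
    refine ⟨h2, ?_⟩
    have h3 : (2 : ℤ) ^ (k + 1) ∣ 2 * (T a b x - T a b y) := by
      rcases Int.emod_two_eq_zero_or_one x with hx | hx
      · have hy : y % 2 = 0 := by omega
        have := T_even (a := a) (b := b) hx
        have := T_even (a := a) (b := b) hy
        have e : 2 * (T a b x - T a b y) = x - y := by linarith
        rw [e]; exact h
      · have hy : y % 2 = 1 := by omega
        have := T_odd ha hb hx
        have := T_odd ha hb hy
        have e : 2 * (T a b x - T a b y) = a * (x - y) := by linarith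
        rw [e]; exact h.mul_left a
    rw [pow_succ, mul_comm] at h3
    exact Int.dvd_of_mul_dvd_mul_left (by norm_num) h3
  · rintro ⟨h2, h3⟩
    have h4 : (2 : ℤ) ^ (k + 1) ∣ 2 * (T a b x - T a b y) := by
      rw [pow_succ, mul_comm]; exact mul_dvd_mul_left 2 h3
    rcases Int.emod_two_eq_zero_or_one x with hx | hx
    · have hy : y % 2 = 0 := by omega
      have := T_even (a := a) (b := b) hx
      have := T_even (a := a) (b := b) hy
      have e : 2 * (T a b x - T a b y) = x - y := by linarith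
      rw [← e]; exact h4
    · have hy : y % 2 = 1 := by omega
      have := T_odd ha hb hx
      have := T_odd ha hb hy
      have e : 2 * (T a b x - T a b y) = a * (x - y) := by linarith
      rw [e] at h4
      exact pow_dvd_odd_mul ha _ h4

/-- the parity of the `k`-th iterate is the next digit -/
theorem terras {a b : ℤ} (ha : a % 2 = 1) (hb : b % 2 = 1) (k : ℕ) : ∀ x y : ℤ,
    x % 2 ^ (k + 1) = y % 2 ^ (k + 1) ↔
      x % 2 ^ k = y % 2 ^ k ∧ (T a b)^[k] x % 2 = (T a b)^[k] y % 2 := by
  induction k with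
  | zero => intro x y; simp
  | succ k ih =>
    intro x y
    rw [shift ha hb (k + 1), ih, shift ha hb k, and_assoc, Function.iterate_succ_apply,
      Function.iterate_succ_apply]

section

variable (a b : ℤ) (Z : Finset ℤ)

/-- the parity of the `k`-th iterate -/
def od (k : ℕ) (x : ℤ) : Bool := decide ((T a b)^[k] x % 2 = 1)

/-- the residue class -/
def key (k : ℕ) (x : ℤ) : ℤ := x % 2 ^ k

/-- indicator function -/
noncomputable def ind (k : ℕ) (x : ℤ) : ℝ := if od a b k x then 1 else 0

/-- the proportion of odd `k`-th iterates in the class -/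
noncomputable def th (k : ℕ) (x : ℤ) : ℝ := avg Z (key k) (ind a b k) x

/-- the number of elements of the class -/
noncomputable def num (k : ℕ) (x : ℤ) : ℝ := ((cls Z (key k) x).card : ℝ)

/-- conditional entropy, multiplied by the number of elements -/
noncomputable def HH (k : ℕ) : ℝ := ∑ x ∈ Z, binEntropy (th a b Z k x)

variable {a b Z}

theorem ind_nonneg (k : ℕ) (x : ℤ) : 0 ≤ ind a b k x := by unfold ind; split_ifs <;> norm_num

theorem ind_le_one (k : ℕ) (x : ℤ) : ind a b k x ≤ 1 := by unfold ind; split_ifs <;> norm_num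

theorem th_nonneg (k : ℕ) (x : ℤ) : 0 ≤ th a b Z k x := avg_nonneg (ind_nonneg k) x

theorem th_le_one (k : ℕ) (x : ℤ) : th a b Z k x ≤ 1 := avg_le_one (ind_le_one k) x

theorem HH_nonneg (k : ℕ) : 0 ≤ HH a b Z k :=
  Finset.sum_nonneg fun x _ => binEntropy_nonneg (th_nonneg k x) (th_le_one k x)

theorem frac_eq (k : ℕ) (x : ℤ) : frac (cls Z (key k) x) (od a b k) = th a b Z k x := by
  unfold frac th avg ind
  congr 1
  rw [Finset.sum_boole]

theorem key_refine (ha : a % 2 = 1) (hb : b % 2 = 1) (k : ℕ) {x y : ℤ}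
    (h : key (k + 1) x = key (k + 1) y) : key k x = key k y := ((terras ha hb k x y).1 h).1

/-- the classes of the next level -/
theorem cls_succ (ha : a % 2 = 1) (hb : b % 2 = 1) (k : ℕ) {x z : ℤ} (hz : z ∈ cls Z (key k) x) :
    ((cls Z (key k) x).filter fun y => od a b k y = od a b k z) = cls Z (key (k + 1)) z := by
  ext y
  rw [mem_filter, mem_cls, mem_cls]
  have hz' := mem_cls.1 hz
  have ht := terras ha hb k y z
  have hod : od a b k y = od a b k z ↔ (T a b)^[k] y % 2 = (T a b)^[k] z % 2 := by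
    unfold od
    rw [decide_eq_decide]
    have h1 := Int.emod_two_eq_zero_or_one ((T a b)^[k] y)
    have h2 := Int.emod_two_eq_zero_or_one ((T a b)^[k] z)
    omega
  rw [hod]
  unfold key at *
  constructor
  · rintro ⟨⟨h1, h2⟩, h3⟩
    exact ⟨h1, ht.2 ⟨h2.trans hz'.2.symm, h3⟩⟩
  · rintro ⟨h1, h2⟩
    have h3 := ht.1 h2
    exact ⟨⟨h1, h3.1.trans hz'.2⟩, h3.2⟩

/-- entropy and numbers of elements -/
theorem th_ent (ha : a % 2 = 1) (hb : b % 2 = 1) (k : ℕ) {x : ℤ} (hx : x ∈ Z) :
    binEntropy (th a b Z k x) = log (num Z k x) - avg Z (key k) (fun y => log (num Z (k + 1) y)) x := by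
  set C := cls Z (key k) x with hC
  have hCc : (0 : ℝ) < C.card := by exact_mod_cast cls_card_pos hx
  set C1 := C.filter fun y => od a b k y = true with hC1
  set C0 := C.filter fun y => od a b k y = false with hC0
  have hfA : C0.card + C1.card = C.card := by
    have h2 := Finset.card_filter_add_card_filter_not (s := C) (fun x => od a b k x = false)
    have h3 : (C.filter fun x => ¬ (od a b k x = false)) = C1 := by
      rw [hC1]; apply Finset.filter_congr; intro q _; simp
    rw [h3] at h2; exact h2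
  have hfA' : (C0.card : ℝ) = C.card - C1.card := by
    have : (C0.card : ℝ) + C1.card = C.card := by exact_mod_cast hfA
    linarith
  have h1 : ∑ y ∈ C, log (num Z (k + 1) y) = C0.card * log C0.card + C1.card * log C1.card := by
    rw [← Finset.sum_filter_add_sum_filter_not C (fun y => od a b k y = false)]
    congr 1
    · change ∑ y ∈ C0, _ = _
      rw [Finset.sum_congr rfl (g := fun _ => log (C0.card : ℝ)), Finset.sum_const, nsmul_eq_mul]
      intro y hy
      have hy' := mem_filter.1 hy
      unfold num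
      rw [← cls_succ ha hb k hy'.1, hy'.2]
    · have h3 : (C.filter fun x => ¬ (od a b k x = false)) = C1 := by
        rw [hC1]; apply Finset.filter_congr; intro q _; simp
      rw [h3, Finset.sum_congr rfl (g := fun _ => log (C1.card : ℝ)), Finset.sum_const, nsmul_eq_mul]
      intro y hy
      have hy' := mem_filter.1 hy
      unfold num
      rw [← cls_succ ha hb k hy'.1, hy'.2]
  have h2 : th a b Z k x = (C1.card : ℝ) / C.card := by rw [← frac_eq]; rfl
  have h3 := ent_id (n := (C.card : ℝ)) (a := (C1.card : ℝ)) hCc (Nat.cast_nonneg _)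
    (by exact_mod_cast Finset.card_le_card (Finset.filter_subset _ _))
  rw [← hfA'] at h3
  unfold avg
  rw [h2, h1]
  change _ = log (C.card : ℝ) - (_ / (C.card : ℝ))
  field_simp
  linarith

/-- the sum telescopes -/
theorem HH_eq (ha : a % 2 = 1) (hb : b % 2 = 1) (k : ℕ) :
    HH a b Z k = ∑ x ∈ Z, log (num Z k x) - ∑ x ∈ Z, log (num Z (k + 1) x) := by
  unfold HH
  rw [Finset.sum_congr rfl fun x hx => th_ent ha hb k hx, Finset.sum_sub_distrib, avg_sum]

theorem num_zero (x : ℤ) : num Z 0 x = Z.card := by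
  unfold num cls key
  simp

theorem exists_level (Z : Finset ℤ) : ∃ K : ℕ, ∀ k, K ≤ k → ∀ x ∈ Z, num Z k x = 1 := by
  set M := ∑ x ∈ Z, x.natAbs with hM
  refine ⟨2 * M + 1, fun k hk x hx => ?_⟩
  unfold num
  have h1 : cls Z (key k) x = {x} := by
    ext y
    rw [mem_cls, mem_singleton]
    constructor
    · rintro ⟨hy, h⟩
      unfold key at h
      rw [emod_iff] at h
      by_contra hne
      have h2 : (2 : ℤ) ^ k ≤ |y - x| := Int.le_of_dvd (abs_pos.2 (sub_ne_zero.2 hne)) ((dvd_abs _ _).2 h)
      have h3 : y.natAbs ≤ M := Finset.single_le_sum (f := fun x : ℤ => x.natAbs) (fun _ _ => Nat.zero_le _) hy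
      have h4 : x.natAbs ≤ M := Finset.single_le_sum (f := fun x : ℤ => x.natAbs) (fun _ _ => Nat.zero_le _) hx
      have h5 : |y - x| ≤ 2 * M := by
        have := abs_sub y x
        have e1 : |y| = y.natAbs := Int.abs_eq_natAbs y
        have e2 : |x| = x.natAbs := Int.abs_eq_natAbs x
        have : (y.natAbs : ℤ) ≤ M := by exact_mod_cast h3
        have : (x.natAbs : ℤ) ≤ M := by exact_mod_cast h4
        omega
      have h6 : k < 2 ^ k := Nat.lt_two_pow_self
      have h7 : (k : ℤ) < 2 ^ k := by exact_mod_cast h6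
      have h8 : (2 * M + 1 : ℤ) ≤ k := by exact_mod_cast hk
      omega
    · rintro rfl
      exact ⟨hx, rfl⟩
  rw [h1]; simp

theorem sum_log_num_nonneg (k : ℕ) : 0 ≤ ∑ x ∈ Z, log (num Z k x) := by
  apply Finset.sum_nonneg
  intro x hx
  apply Real.log_nonneg
  unfold num
  exact_mod_cast cls_card_pos (κ := key k) hx

/-- the total entropy -/
theorem sum_HH (ha : a % 2 = 1) (hb : b % 2 = 1) (n : ℕ) (hn : ∀ x ∈ Z, num Z n x = 1) :
    ∑ k ∈ range n, HH a b Z k = Z.card * log Z.card := by
  rw [Finset.sum_congr rfl fun k _ => HH_eq (Z := Z) ha hb k,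
    Finset.sum_range_sub' (fun k => ∑ x ∈ Z, log (num Z k x))]
  rw [Finset.sum_congr rfl fun x _ => by rw [num_zero], Finset.sum_const, nsmul_eq_mul,
    Finset.sum_eq_zero (s := Z) (f := fun x => log (num Z n x))]
  · ring
  · intro x hx; rw [hn x hx]; simp

/-! ### invariance -/

/-- `Z` is permuted by the map -/
def Inv (a b : ℤ) (Z : Finset ℤ) : Prop := (∀ x ∈ Z, T a b x ∈ Z) ∧ Set.InjOn (T a b) Z

theorem sum_comp_T (h : Inv a b Z) (f : ℤ → ℝ) : ∑ x ∈ Z, f (T a b x) = ∑ x ∈ Z, f x := by
  classical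
  have himg : Z.image (T a b) = Z := by
    apply Finset.eq_of_subset_of_card_le
    · intro y hy
      rw [Finset.mem_image] at hy
      obtain ⟨x, hx, rfl⟩ := hy
      exact h.1 x hx
    · rw [Finset.card_image_of_injOn h.2]
  conv_rhs => rw [← himg]
  rw [Finset.sum_image fun x hx y hy => h.2 hx hy]

theorem sum_comp_T_iter (h : Inv a b Z) (k : ℕ) : ∀ f : ℤ → ℝ,
    ∑ x ∈ Z, f ((T a b)^[k] x) = ∑ x ∈ Z, f x := by
  induction k with
  | zero => intro f; rfl
  | succ k ih =>
    intro f
    have : ∀ x, f ((T a b)^[k + 1] x) = (fun y => f (T a b y)) ((T a b)^[k] x) := by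
      intro x; rw [Function.iterate_succ_apply']
    rw [Finset.sum_congr rfl fun x _ => this x, ih (fun y => f (T a b y)), sum_comp_T h]

/-- the number of odd elements -/
noncomputable def rho (Z : Finset ℤ) : ℝ := ((Z.filter fun x => x % 2 = 1).card : ℝ) / Z.card

theorem sum_ind (h : Inv a b Z) (k : ℕ) :
    ∑ x ∈ Z, ind a b k x = ((Z.filter fun x => x % 2 = 1).card : ℝ) := by
  have : ∀ x, ind a b k x = (fun y : ℤ => if y % 2 = 1 then (1 : ℝ) else 0) ((T a b)^[k] x) := by
    intro x; unfold ind od; simp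
  rw [Finset.sum_congr rfl fun x _ => this x, sum_comp_T_iter h k
    (fun y : ℤ => if y % 2 = 1 then (1 : ℝ) else 0), Finset.sum_boole]

theorem HH_le (h : Inv a b Z) (hZ : Z.Nonempty) (k : ℕ) :
    HH a b Z k ≤ Z.card * binEntropy (rho Z) := by
  unfold HH
  refine (jensen_sum hZ (fun x _ => th_nonneg k x) fun x _ => th_le_one k x).trans (le_of_eq ?_)
  unfold rho th
  rw [avg_sum, sum_ind h]

/-- the conditional entropies decrease -/
theorem HH_anti (ha : a % 2 = 1) (hb : b % 2 = 1) (h : Inv a b Z) (k : ℕ) :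
    HH a b Z (k + 1) ≤ HH a b Z k := by
  -- the coarser key
  set κ : ℤ → ℤ := fun x => key k (T a b x) with hκ
  have href : ∀ x ∈ Z, ∀ y ∈ Z, key (k + 1) x = key (k + 1) y → κ x = κ y := by
    intro x _ y _ hxy
    exact ((shift ha hb k x y).1 hxy).2
  have h1 : ∀ x ∈ Z, avg Z κ (fun y => binEntropy (th a b Z (k + 1) y)) x ≤
      binEntropy (th a b Z k (T a b x)) := by
    intro x hx
    refine (jensen_avg (κ := κ) (fun y => th_nonneg (k + 1) y) (fun y => th_le_one (k + 1) y) hx).trans
      (le_of_eq ?_)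
    congr 1
    have e1 : avg Z κ (fun y => th a b Z (k + 1) y) x = avg Z κ (ind a b (k + 1)) x :=
      avg_tower href _ x
    rw [e1]
    unfold th avg
    -- the class of `x` for the coarser key is mapped by `T` to the class of `T x`
    have himg : (cls Z κ x).image (T a b) = cls Z (key k) (T a b x) := by
      have hbij : Z.image (T a b) = Z := by
        apply Finset.eq_of_subset_of_card_le
        · intro y hy
          rw [Finset.mem_image] at hy
          obtain ⟨x, hx, rfl⟩ := hy
          exact h.1 x hx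
        · rw [Finset.card_image_of_injOn h.2]
      ext y
      rw [Finset.mem_image, mem_cls]
      constructor
      · rintro ⟨z, hz, rfl⟩
        rw [mem_cls] at hz
        exact ⟨h.1 z hz.1, hz.2⟩
      · rintro ⟨hy, hy2⟩
        rw [← hbij, Finset.mem_image] at hy
        obtain ⟨z, hz, rfl⟩ := hy
        exact ⟨z, mem_cls.2 ⟨hz, hy2⟩, rfl⟩
    have hinj : Set.InjOn (T a b) (cls Z κ x) := h.2.mono (by
      intro z hz
      exact (mem_cls.1 hz).1)
    rw [← himg, Finset.card_image_of_injOn hinj, Finset.sum_image fun x hx y hy => hinj hx hy]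
    congr 1
  have h2 : HH a b Z k = ∑ x ∈ Z, binEntropy (th a b Z k (T a b x)) := by
    unfold HH
    rw [sum_comp_T h fun y => binEntropy (th a b Z k y)]
  rw [h2]
  unfold HH
  rw [← avg_sum Z κ]
  exact Finset.sum_le_sum h1

theorem HH_anti' (ha : a % 2 = 1) (hb : b % 2 = 1) (h : Inv a b Z) {k l : ℕ} (hkl : k ≤ l) :
    HH a b Z l ≤ HH a b Z k := by
  induction l, hkl using Nat.le_induction with
  | base => exact le_rfl
  | succ l _ ih => exact (HH_anti ha hb h l).trans ih

end

/-! ### the pair sums -/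

theorem ent_star_ge {x y : ℝ} (hx0 : 0 ≤ x) (hx1 : x ≤ 1) (hy0 : 0 ≤ y) (hy1 : y ≤ 1) :
    binEntropy y ≤ binEntropy (star x y) := by
  have hc := strictConcave_binEntropy.concaveOn.2 (⟨hy0, hy1⟩ : y ∈ Set.Icc (0 : ℝ) 1)
    (⟨by linarith, by linarith⟩ : 1 - y ∈ Set.Icc (0 : ℝ) 1) (sub_nonneg.2 hx1) hx0
    (by ring : (1 : ℝ) - x + x = 1)
  simp only [smul_eq_mul, binEntropy_one_sub] at hc
  have : (1 - x) * y + x * (1 - y) = star x y := by unfold star; ring
  rw [this] at hc
  linarith

/-- **Double sums.** -/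
theorem pair_sum {ι : Type*} {S : Finset ι} (hS : S.Nonempty) {f g : ι → ℝ} (hf0 : ∀ x, 0 ≤ f x)
    (hf1 : ∀ x, f x ≤ 1) (hg0 : ∀ x, 0 ≤ g x) (hg1 : ∀ x, g x ≤ 1) {β : ℝ} (hβ0 : 0 < β)
    (hβ1 : β < 1 / 2)
    (hle : ∑ x ∈ S, binEntropy (f x) ≤ S.card * binEntropy β)
    (hfg : ∑ x ∈ S, binEntropy (f x) ≤ ∑ x ∈ S, binEntropy (g x)) :
    S.card * (∑ x ∈ S, binEntropy (f x) +
      (1 - binEntropy β / binEntropy (star β β)) * ∑ x ∈ S, binEntropy (g x)) ≤
      ∑ x ∈ S, ∑ y ∈ S, binEntropy (star (f x) (g y)) := by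
  have hc : (0 : ℝ) < S.card := by exact_mod_cast Finset.card_pos.2 hS
  set n : ℝ := (S.card : ℝ) with hn
  set U := ∑ x ∈ S, binEntropy (f x) with hU
  set V := ∑ x ∈ S, binEntropy (g x) with hV
  set W := ∑ x ∈ S, ∑ y ∈ S, binEntropy (star (f x) (g y)) with hW
  have hbb0 : 0 < star β β := lt_of_lt_of_le hβ0 (le_star hβ1.le hβ0.le)
  have hbb1 : star β β < 1 / 2 := star_lt_half hβ1 hβ1
  have hhb : 0 < binEntropy β := binEntropy_pos hβ0 (by linarith)
  have hhbb : 0 < binEntropy (star β β) := binEntropy_pos hbb0 (by linarith)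
  have hr1 : binEntropy β ≤ binEntropy (star β β) :=
    ent_star_ge hβ0.le (by linarith) hβ0.le (by linarith)
  have hU0 : 0 ≤ U := Finset.sum_nonneg fun x _ => binEntropy_nonneg (hf0 x) (hf1 x)
  -- first bound
  have hW1 : n * V ≤ W := by
    rw [hW, Finset.sum_comm]
    rw [Finset.sum_comm]
    calc n * V = ∑ x ∈ S, ∑ y ∈ S, binEntropy (g y) := by
          rw [Finset.sum_const, nsmul_eq_mul]
      _ ≤ _ := Finset.sum_le_sum fun x _ => Finset.sum_le_sum fun y _ =>
          ent_star_ge (hf0 x) (hf1 x) (hg0 y) (hg1 y)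
  -- second bound
  have hW2 : n * (binEntropy (star β β) / binEntropy β * U) ≤ W := by
    rcases eq_or_lt_of_le hU0 with h0 | h0
    · rw [← h0, mul_zero, mul_zero]
      exact Finset.sum_nonneg fun x _ => Finset.sum_nonneg fun y _ =>
        binEntropy_nonneg (star_nonneg (hf0 x) (hf1 x) (hg0 y) (hg1 y))
          (star_le_one (hf0 x) (hf1 x) (hg0 y) (hg1 y))
    · -- choose `α`
      have hUn : U / n ≤ binEntropy β := by rw [div_le_iff₀ hc]; linarith
      obtain ⟨α, hα, hαe⟩ : ∃ α ∈ Set.Icc (0 : ℝ) β, binEntropy α = U / n := by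
        have := intermediate_value_Icc hβ0.le (binEntropy_continuous.continuousOn (s := Set.Icc 0 β))
        apply this
        rw [binEntropy_zero]
        exact ⟨by positivity, hUn⟩
      have hα0 : 0 < α := by
        rcases eq_or_lt_of_le hα.1 with h | h
        · exfalso
          rw [← h, binEntropy_zero] at hαe
          have : 0 < U / n := by positivity
          linarith
        · exact h
      have hα1 : α < 1 / 2 := lt_of_le_of_lt hα.2 hβ1
      have hUe : U = n * binEntropy α := by rw [hαe]; field_simp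
      -- first summation
      have s1 : ∀ y ∈ S, n * binEntropy (star α (g y)) ≤ ∑ x ∈ S, binEntropy (star (f x) (g y)) := by
        intro y _
        obtain ⟨c, hc0, hcc⟩ := gerber hα0 hα1 (hg0 y) (hg1 y)
        calc n * binEntropy (star α (g y)) = ∑ x ∈ S, (binEntropy (star α (g y)) +
              c * (binEntropy (f x) - binEntropy α)) := by
              rw [Finset.sum_add_distrib, Finset.sum_const, nsmul_eq_mul, ← Finset.mul_sum,
                Finset.sum_sub_distrib, Finset.sum_const, nsmul_eq_mul, ← hU, hUe]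
              ring
          _ ≤ _ := Finset.sum_le_sum fun x _ => hcc (f x) (hf0 x) (hf1 x)
      have s2 : n * binEntropy (star α α) ≤ ∑ y ∈ S, binEntropy (star α (g y)) := by
        obtain ⟨c, hc0, hcc⟩ := gerber hα0 hα1 (b := α) hα0.le (by linarith)
        calc n * binEntropy (star α α) ≤ ∑ y ∈ S, (binEntropy (star α α) +
              c * (binEntropy (g y) - binEntropy α)) := by
              rw [Finset.sum_add_distrib, Finset.sum_const, nsmul_eq_mul, ← Finset.mul_sum,
                Finset.sum_sub_distrib, Finset.sum_const, nsmul_eq_mul, ← hV]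
              have : 0 ≤ c * (V - n * binEntropy α) := mul_nonneg hc0 (by rw [← hUe]; linarith)
              linarith
          _ ≤ ∑ y ∈ S, binEntropy (star (g y) α) := Finset.sum_le_sum fun y _ => hcc (g y) (hg0 y) (hg1 y)
          _ = _ := Finset.sum_congr rfl fun y _ => by rw [star_comm]
      have s3 : n * (n * binEntropy (star α α)) ≤ W := by
        calc n * (n * binEntropy (star α α)) ≤ n * ∑ y ∈ S, binEntropy (star α (g y)) :=
              mul_le_mul_of_nonneg_left s2 hc.le
          _ = ∑ y ∈ S, n * binEntropy (star α (g y)) := by rw [Finset.mul_sum]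
          _ ≤ ∑ y ∈ S, ∑ x ∈ S, binEntropy (star (f x) (g y)) := Finset.sum_le_sum s1
          _ = W := by rw [hW, Finset.sum_comm]
      refine le_trans (mul_le_mul_of_nonneg_left ?_ hc.le) s3
      have hra := ratio_anti hα0 hα.2 hβ1
      have hha : 0 < binEntropy α := binEntropy_pos hα0 (by linarith)
      rw [hUe]
      rw [le_div_iff₀ hha] at hra
      calc binEntropy (star β β) / binEntropy β * (n * binEntropy α) =
            n * (binEntropy (star β β) / binEntropy β * binEntropy α) := by ring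
        _ ≤ n * binEntropy (star α α) := mul_le_mul_of_nonneg_left hra hc.le
  -- combination
  set q : ℝ := binEntropy β / binEntropy (star β β) with hq
  have hq0 : 0 < q := by positivity
  have hq1 : q ≤ 1 := by rw [hq, div_le_one hhbb]; exact hr1
  have e1 : q * (binEntropy (star β β) / binEntropy β * U) = U := by
    rw [hq]; field_simp
  have e2 : n * (U + (1 - q) * V) = q * (n * (binEntropy (star β β) / binEntropy β * U)) +
      (1 - q) * (n * V) := by
    calc n * (U + (1 - q) * V) = n * (q * (binEntropy (star β β) / binEntropy β * U)) +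
        (1 - q) * (n * V) := by rw [e1]; ring
      _ = _ := by ring
  rw [e2]
  have e3 := mul_le_mul_of_nonneg_left hW2 hq0.le
  have e4 := mul_le_mul_of_nonneg_left hW1 (sub_nonneg.2 hq1)
  linarith

end Pool.Agent.N903.SS
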