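import Mathlib
import Pool.Agent.N903.Tree2

set_option autoImplicit false

/-!
# Sums of dilates of a finite set which is permuted by the map `x ↦ x / 2`, `(a x + b) / 2`: the theorem
-/

namespace Pool.Agent.N903.SS

open Real Finset

theorem double_avg {β γ : Type*} [DecidableEq β] [DecidableEq γ] (S : Finset ℤ) (κ : ℤ → β)
    (κ' : ℤ → γ) (F : ℤ → ℤ → ℝ) :
    ∑ x ∈ S, ∑ y ∈ S, (∑ x' ∈ cls S κ x, ∑ y' ∈ cls S κ' y, F x' y') /
      ((cls S κ x).card * (cls S κ' y).card) = ∑ x ∈ S, ∑ y ∈ S, F x y := by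
  have h1 : ∀ x ∈ S, ∑ y ∈ S, (∑ x' ∈ cls S κ x, ∑ y' ∈ cls S κ' y, F x' y') /
      ((cls S κ x).card * (cls S κ' y).card : ℝ) =
      ∑ y ∈ S, avg S κ' (fun y' => avg S κ (fun x' => F x' y') x) y := by
    intro x _
    apply Finset.sum_congr rfl
    intro y _
    unfold avg
    rw [← Finset.sum_div, Finset.sum_comm, div_div]
  rw [Finset.sum_congr rfl h1, Finset.sum_congr rfl fun x _ => avg_sum S κ' _, Finset.sum_comm]
  conv_rhs => rw [Finset.sum_comm]
  apply Finset.sum_congr rfl
  intro y _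
  exact avg_sum S κ fun x' => F x' y

/-- sums of dilates -/
def dil (u v : ℤ) (Z : Finset ℤ) : Finset ℤ := image₂ (fun x y => u * x + v * y) Z Z

section

variable {a b : ℤ} {Z : Finset ℤ}

/-- the sum over pairs of elements of the logarithms of the sizes of the sumsets of the classes -/
noncomputable def pairS (u v : ℤ) (Z : Finset ℤ) (k i : ℕ) : ℝ :=
  ∑ x ∈ Z, ∑ y ∈ Z, log (image₂ (fun x y => u * x + v * y) (cls Z (key k) x) (cls Z (key i) y)).card

theorem pairS_nonneg (u v : ℤ) (k i : ℕ) : 0 ≤ pairS u v Z k i :=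
  Finset.sum_nonneg fun _ _ => Finset.sum_nonneg fun _ _ => Real.log_natCast_nonneg _

theorem key_zero (x : ℤ) : key 0 x = 0 := by unfold key; simp

theorem cls_key_zero (x : ℤ) : cls Z (key 0) x = Z := by
  unfold cls
  apply Finset.filter_true_of_mem
  intro y _
  rw [key_zero, key_zero]

theorem pairS_zero (u v : ℤ) : pairS u v Z 0 0 = Z.card * (Z.card * log (dil u v Z).card) := by
  unfold pairS
  rw [Finset.sum_congr rfl fun x _ => Finset.sum_congr rfl fun y _ => by rw [cls_key_zero, cls_key_zero]]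
  rw [Finset.sum_const, nsmul_eq_mul, Finset.sum_const, nsmul_eq_mul]
  rfl

theorem od_iff {a b : ℤ} (ha : a % 2 = 1) (hb : b % 2 = 1) (k : ℕ) {x y : ℤ} (h : key k x = key k y) :
    od a b k x = od a b k y ↔ (2 : ℤ) ^ (k + 1) ∣ x - y := by
  rw [← emod_iff, terras ha hb k x y]
  unfold key at h
  unfold od
  rw [decide_eq_decide]
  have h1 := Int.emod_two_eq_zero_or_one ((T a b)^[k] x)
  have h2 := Int.emod_two_eq_zero_or_one ((T a b)^[k] y)
  constructor
  · intro h3; exact ⟨h, by omega⟩
  · rintro ⟨_, h3⟩; omega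

/-- a step where only the first summand is refined -/
theorem pairS_step1 (ha : a % 2 = 1) (hb : b % 2 = 1) {u v : ℤ} {j : ℕ} (hu : u % 2 = 1) {k : ℕ}
    (hk : k < j) : pairS u (2 ^ j * v) Z (k + 1) 0 + Z.card * HH a b Z k ≤ pairS u (2 ^ j * v) Z k 0 := by
  set f : ℤ → ℤ → ℤ := fun x y => u * x + 2 ^ j * v * y with hf
  have key1 : ∀ x ∈ Z, ∀ y ∈ Z, binEntropy (th a b Z k x) +
      (∑ x' ∈ cls Z (key k) x, ∑ y' ∈ cls Z (key 0) y,
        log (image₂ f (cls Z (key (k + 1)) x') (cls Z (key 0) y')).card) /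
        ((cls Z (key k) x).card * (cls Z (key 0) y).card) ≤
      log (image₂ f (cls Z (key k) x) (cls Z (key 0) y)).card := by
    intro x hx y hy
    have h := one_step f (A := cls Z (key k) x) (B := cls Z (key 0) y) ⟨x, self_mem_cls hx⟩
      ⟨y, self_mem_cls hy⟩ (od a b k) (fun _ => false) (by
        intro p hp p' hp' q _ q' _ he
        simp only [Bool.xor_false]
        have hp2 := (mem_cls.1 hp).2
        have hp2' := (mem_cls.1 hp').2
        rw [od_iff ha hb k (hp2.trans hp2'.symm)]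
        simp only [hf] at he
        have e1 : u * (p - p') = 2 ^ j * (v * (q' - q)) := by linarith
        have e2 : (2 : ℤ) ^ (k + 1) ∣ u * (p - p') := by
          rw [e1]
          exact (pow_dvd_pow 2 hk).mul_right _
        exact pow_dvd_odd_mul hu _ e2)
    have h0 : frac (cls Z (key 0) y) (fun _ => false) = 0 := by unfold frac; simp
    have h1 : ∀ p : ℝ, star p 0 = p := by intro p; unfold star; ring
    rw [h0, h1, frac_eq] at h
    refine le_trans (le_of_eq ?_) h
    congr 2
    apply Finset.sum_congr rfl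
    intro x' hx'
    apply Finset.sum_congr rfl
    intro y' _
    rw [cls_succ ha hb k hx', cls_key_zero, cls_key_zero]
    simp
  have hsum := Finset.sum_le_sum fun x hx => Finset.sum_le_sum fun y hy => key1 x hx y hy
  simp only [Finset.sum_add_distrib] at hsum
  rw [double_avg] at hsum
  have e : ∑ x ∈ Z, ∑ y ∈ Z, binEntropy (th a b Z k x) = Z.card * HH a b Z k := by
    rw [Finset.sum_comm, Finset.sum_const, nsmul_eq_mul]; rfl
  rw [e] at hsum
  unfold pairS
  linarith

/-- a step where both summands are refined -/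
theorem pairS_step2 (ha : a % 2 = 1) (hb : b % 2 = 1) {u v : ℤ} {j : ℕ} (hu : u % 2 = 1) (hv : v % 2 = 1)
    (i : ℕ) :
    pairS u (2 ^ j * v) Z (j + i + 1) (i + 1) +
      ∑ x ∈ Z, ∑ y ∈ Z, binEntropy (star (th a b Z (j + i) x) (th a b Z i y)) ≤
      pairS u (2 ^ j * v) Z (j + i) i := by
  set f : ℤ → ℤ → ℤ := fun x y => u * x + 2 ^ j * v * y with hf
  have key1 : ∀ x ∈ Z, ∀ y ∈ Z, binEntropy (star (th a b Z (j + i) x) (th a b Z i y)) +
      (∑ x' ∈ cls Z (key (j + i)) x, ∑ y' ∈ cls Z (key i) y,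
        log (image₂ f (cls Z (key (j + i + 1)) x') (cls Z (key (i + 1)) y')).card) /
        ((cls Z (key (j + i)) x).card * (cls Z (key i) y).card) ≤
      log (image₂ f (cls Z (key (j + i)) x) (cls Z (key i) y)).card := by
    intro x hx y hy
    have h := one_step f (A := cls Z (key (j + i)) x) (B := cls Z (key i) y) ⟨x, self_mem_cls hx⟩
      ⟨y, self_mem_cls hy⟩ (od a b (j + i)) (od a b i) (by
        intro p hp p' hp' q hq q' hq' he
        have hp2 := ((mem_cls.1 hp).2).trans ((mem_cls.1 hp').2).symm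
        have hq2 := ((mem_cls.1 hq).2).trans ((mem_cls.1 hq').2).symm
        have i1 := od_iff ha hb (j + i) hp2
        have i2 := od_iff ha hb i hq2
        simp only [hf] at he
        have e1 : u * (p - p') = 2 ^ j * (v * (q' - q)) := by linarith
        have e3 : (2 : ℤ) ^ (j + i + 1) ∣ p - p' ↔ (2 : ℤ) ^ (i + 1) ∣ q - q' := by
          have e5 : (2 : ℤ) ^ (j + i + 1) = 2 ^ j * 2 ^ (i + 1) := by
            rw [add_assoc, pow_add]
          constructor
          · intro h1
            have h2 : (2 : ℤ) ^ (j + i + 1) ∣ 2 ^ j * (v * (q' - q)) := by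
              rw [← e1]; exact h1.mul_left u
            rw [e5] at h2
            have h3 := Int.dvd_of_mul_dvd_mul_left (by positivity) h2
            have h4 := pow_dvd_odd_mul hv _ h3
            have h6 : q - q' = -(q' - q) := by ring
            rw [h6]; exact (dvd_neg).2 h4
          · intro h1
            have h6 : q' - q = -(q - q') := by ring
            have h2 : (2 : ℤ) ^ (j + i + 1) ∣ u * (p - p') := by
              rw [e1, e5, h6]
              exact mul_dvd_mul_left _ (((dvd_neg).2 h1).mul_left v)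
            exact pow_dvd_odd_mul hu _ h2
        rw [e3, ← i2] at i1
        revert i1
        cases od a b (j + i) p <;> cases od a b (j + i) p' <;> cases od a b i q <;>
          cases od a b i q' <;> simp)
    rw [frac_eq, frac_eq] at h
    refine le_trans (le_of_eq ?_) h
    congr 2
    apply Finset.sum_congr rfl
    intro x' hx'
    apply Finset.sum_congr rfl
    intro y' hy'
    rw [cls_succ ha hb (j + i) hx', cls_succ ha hb i hy']
  have hsum := Finset.sum_le_sum fun x hx => Finset.sum_le_sum fun y hy => key1 x hx y hy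
  simp only [Finset.sum_add_distrib] at hsum
  rw [double_avg] at hsum
  unfold pairS
  linarith

/-- **Sums of dilates**: an odd dilate and a dilate by `2 ^ j v`, `v` odd. -/
theorem main_odd (ha : a % 2 = 1) (hb : b % 2 = 1) (h : Inv a b Z) (hZ : Z.Nonempty) {β : ℝ}
    (hβ0 : 0 < β) (hβ1 : β < 1 / 2) (hρ : binEntropy (rho Z) ≤ binEntropy β) {u v : ℤ} {j : ℕ}
    (hu : u % 2 = 1) (hv : v % 2 = 1) :
    (2 - binEntropy β / binEntropy (star β β)) * log Z.card ≤ log (dil u (2 ^ j * v) Z).card := by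
  obtain ⟨K, hK⟩ := exists_level Z
  have hc : (0 : ℝ) < Z.card := by exact_mod_cast Finset.card_pos.2 hZ
  set p : ℝ := (Z.card : ℝ) with hp
  set δ : ℝ := 1 - binEntropy β / binEntropy (star β β) with hδ
  -- first part
  have hpart1 : ∀ n ≤ j, pairS u (2 ^ j * v) Z n 0 + p * ∑ k ∈ range n, HH a b Z k ≤
      pairS u (2 ^ j * v) Z 0 0 := by
    intro n
    induction n with
    | zero => intro _; simp
    | succ n ih =>
      intro hn
      have h1 := ih (by omega)
      have h2 := pairS_step1 (Z := Z) ha hb (v := v) hu (show n < j by omega)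
      rw [Finset.sum_range_succ, mul_add]
      linarith
  -- second part
  have hpart2 : ∀ n, pairS u (2 ^ j * v) Z (j + n) n + p * ∑ i ∈ range n, (HH a b Z (j + i) +
      δ * HH a b Z i) ≤ pairS u (2 ^ j * v) Z j 0 := by
    intro n
    induction n with
    | zero => simp
    | succ n ih =>
      have h2 := pairS_step2 (Z := Z) ha hb (j := j) hu hv n
      have h3 := pair_sum hZ (f := th a b Z (j + n)) (g := th a b Z n) (th_nonneg _) (th_le_one _)
        (th_nonneg _) (th_le_one _) hβ0 hβ1 (by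
          have := HH_le h hZ (j + n)
          refine this.trans (mul_le_mul_of_nonneg_left hρ hc.le))
        (HH_anti' ha hb h (show n ≤ j + n by omega))
      rw [Finset.sum_range_succ, mul_add]
      have h4 : pairS u (2 ^ j * v) Z (j + (n + 1)) (n + 1) = pairS u (2 ^ j * v) Z (j + n + 1) (n + 1) := by
        rw [add_assoc]
      rw [h4]
      change p * (HH a b Z (j + n) + δ * HH a b Z n) ≤ _ at h3
      linarith
  have h1 := hpart1 j le_rfl
  have h2 := hpart2 K
  have h3 := pairS_nonneg (Z := Z) u (2 ^ j * v) (j + K) K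
  rw [pairS_zero] at h1
  rw [Finset.sum_add_distrib, ← Finset.mul_sum] at h2
  have e1 := sum_HH (Z := Z) ha hb K (hK K le_rfl)
  have e2 := sum_HH (Z := Z) ha hb (j + K) (hK (j + K) (by omega))
  rw [Finset.sum_range_add] at e2
  rw [e1] at h2
  have h4 : p * (p * ((1 + δ) * log p)) ≤ p * (p * log (dil u (2 ^ j * v) Z).card) := by
    have h5 : p * (p * ((1 + δ) * log p)) =
        p * (∑ k ∈ range j, HH a b Z k + ∑ x ∈ range K, HH a b Z (j + x) + δ * (p * log p)) := by
      rw [e2]; ring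
    rw [h5]
    linarith
  have h5 := le_of_mul_le_mul_left (le_of_mul_le_mul_left h4 hc) hc
  have h6 : 1 + δ = 2 - binEntropy β / binEntropy (star β β) := by rw [hδ]; ring
  rwa [h6] at h5

theorem dil_comm (u v : ℤ) (Z : Finset ℤ) : dil u v Z = dil v u Z := by
  ext s
  unfold dil
  rw [mem_image₂, mem_image₂]
  constructor
  · rintro ⟨x, hx, y, hy, rfl⟩
    exact ⟨y, hy, x, hx, by ring⟩
  · rintro ⟨x, hx, y, hy, rfl⟩
    exact ⟨y, hy, x, hx, by ring⟩

theorem dil_mul {c : ℤ} (hc : c ≠ 0) (u v : ℤ) (Z : Finset ℤ) :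
    (dil (c * u) (c * v) Z).card = (dil u v Z).card := by
  have : dil (c * u) (c * v) Z = (dil u v Z).image fun s => c * s := by
    ext s
    unfold dil
    rw [mem_image₂, mem_image]
    constructor
    · rintro ⟨x, hx, y, hy, rfl⟩
      exact ⟨u * x + v * y, mem_image₂_of_mem hx hy, by ring⟩
    · rintro ⟨t, ht, rfl⟩
      rw [mem_image₂] at ht
      obtain ⟨x, hx, y, hy, rfl⟩ := ht
      exact ⟨x, hx, y, hy, by ring⟩
  rw [this, Finset.card_image_of_injective]
  intro x y hxy
  exact mul_left_cancel₀ hc hxy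

theorem exists_two_pow {u : ℤ} (hu : u ≠ 0) : ∃ (i : ℕ) (u' : ℤ), u' % 2 = 1 ∧ u = 2 ^ i * u' := by
  have hfin : FiniteMultiplicity (2 : ℤ) u := Int.finiteMultiplicity_iff.2 ⟨by decide, hu⟩
  obtain ⟨c, hc, hnd⟩ := hfin.exists_eq_pow_mul_and_not_dvd
  exact ⟨_, c, by omega, hc⟩

/-- **Sums of dilates.** -/
theorem main (ha : a % 2 = 1) (hb : b % 2 = 1) (h : Inv a b Z) (hZ : Z.Nonempty) {β : ℝ}
    (hβ0 : 0 < β) (hβ1 : β < 1 / 2) (hρ : binEntropy (rho Z) ≤ binEntropy β) {u v : ℤ}
    (hu : u ≠ 0) (hv : v ≠ 0) :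
    (2 - binEntropy β / binEntropy (star β β)) * log Z.card ≤ log (dil u v Z).card := by
  obtain ⟨i, u', hu', rfl⟩ := exists_two_pow hu
  obtain ⟨l, v', hv', rfl⟩ := exists_two_pow hv
  rcases le_total i l with hil | hil
  · obtain ⟨j, rfl⟩ := Nat.exists_eq_add_of_le hil
    have e : dil (2 ^ i * u') (2 ^ (i + j) * v') Z = dil (2 ^ i * u') (2 ^ i * (2 ^ j * v')) Z := by
      rw [pow_add, mul_assoc]
    rw [e, dil_mul (by positivity)]
    exact main_odd ha hb h hZ hβ0 hβ1 hρ hu' hv'
  · obtain ⟨j, rfl⟩ := Nat.exists_eq_add_of_le hil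
    have e : dil (2 ^ (l + j) * u') (2 ^ l * v') Z = dil (2 ^ l * (2 ^ j * u')) (2 ^ l * v') Z := by
      rw [pow_add, mul_assoc]
    rw [e, dil_mul (by positivity), dil_comm]
    exact main_odd ha hb h hZ hβ0 hβ1 hρ hv' hu'

end

end Pool.Agent.N903.SS
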