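import Mathlib
import Pool.Agent.N903.Tree3

set_option autoImplicit false

/-!
# Sums of dilates of the sets of terms of a trajectory
-/

namespace Pool.Agent.N903.SS

open Real Finset

section growth

variable {a b : ℤ} {Z : Finset ℤ}

theorem pairS_ge (u v : ℤ) (hu : u ≠ 0) (k : ℕ) :
    Z.card * ∑ x ∈ Z, log (num Z k x) ≤ pairS u v Z k k := by
  unfold pairS
  have h1 : (Z.card : ℝ) * ∑ x ∈ Z, log (num Z k x) = ∑ x ∈ Z, ∑ y ∈ Z, log (num Z k x) := by
    rw [Finset.mul_sum]
    apply Finset.sum_congr rfl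
    intro x _
    rw [Finset.sum_const, nsmul_eq_mul]
  rw [h1]
  apply Finset.sum_le_sum
  intro x hx
  apply Finset.sum_le_sum
  intro y hy
  unfold num
  apply Real.log_le_log (by exact_mod_cast cls_card_pos hx)
  norm_cast
  apply Finset.card_le_card_of_injOn (fun z => u * z + v * y)
  · intro z hz
    exact Finset.mem_image₂_of_mem hz (self_mem_cls hy)
  · intro z _ w _ h
    simp only [add_left_inj] at h
    exact mul_left_cancel₀ hu h

/-- growth, without invariance -/
theorem growth (ha : a % 2 = 1) (hb : b % 2 = 1) (hZ : Z.Nonempty) {β : ℝ} (hβ0 : 0 < β)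
    (hβ1 : β < 1 / 2) {K : ℕ} (hle : ∀ k < K, HH a b Z k ≤ Z.card * binEntropy β) {u v : ℤ}
    (hu : u % 2 = 1) (hv : v % 2 = 1) :
    (Z.card : ℝ) * log Z.card + (1 - binEntropy β / binEntropy (star β β)) *
      (Z.card * log Z.card - ∑ x ∈ Z, log (num Z K x)) ≤ Z.card * log (dil u v Z).card := by
  have hc : (0 : ℝ) < Z.card := by exact_mod_cast Finset.card_pos.2 hZ
  set p : ℝ := (Z.card : ℝ) with hp
  set δ : ℝ := 1 - binEntropy β / binEntropy (star β β) with hδ
  have hpart : ∀ n ≤ K, pairS u v Z n n + p * ∑ i ∈ range n, (HH a b Z i + δ * HH a b Z i) ≤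
      pairS u v Z 0 0 := by
    intro n
    induction n with
    | zero => intro _; simp
    | succ n ih =>
      intro hn
      have h1 := ih (by omega)
      have h2 := pairS_step2 (Z := Z) ha hb (j := 0) hu hv n
      simp only [zero_add, pow_zero, one_mul] at h2
      have h3 := pair_sum hZ (f := th a b Z n) (g := th a b Z n) (th_nonneg _) (th_le_one _)
        (th_nonneg _) (th_le_one _) hβ0 hβ1 (hle n (by omega)) le_rfl
      rw [Finset.sum_range_succ, mul_add]
      change p * (HH a b Z n + δ * HH a b Z n) ≤ _ at h3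
      linarith
  have h1 := hpart K le_rfl
  have h2 := pairS_ge (Z := Z) u v (by rintro rfl; norm_num at hu) K
  rw [pairS_zero] at h1
  rw [Finset.sum_add_distrib, ← Finset.mul_sum] at h1
  have h3 : ∑ k ∈ range K, HH a b Z k = p * log p - ∑ x ∈ Z, log (num Z K x) := by
    rw [Finset.sum_congr rfl fun k _ => HH_eq (Z := Z) ha hb k,
      Finset.sum_range_sub' (fun k => ∑ x ∈ Z, log (num Z k x))]
    rw [Finset.sum_congr rfl fun x _ => by rw [num_zero], Finset.sum_const, nsmul_eq_mul]
  rw [h3] at h1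
  set L := ∑ x ∈ Z, log (num Z K x) with hL
  change p * L ≤ _ at h2
  have h4 : p * (p * log p + δ * (p * log p - L)) ≤ p * (p * log (dil u v Z).card) := by
    have h5 : p * (p * log p + δ * (p * log p - L)) = p * L + p * (p * log p - L +
      δ * (p * log p - L)) := by ring
    rw [h5]
    linarith
  exact le_of_mul_le_mul_left h4 hc

end growth

/-! ### repetitions -/

/-- exactly divisible by `2 ^ V` -/
def Ex (z : ℤ) (V : ℕ) : Prop := ∃ m : ℤ, m % 2 = 1 ∧ z = 2 ^ V * m

theorem Ex.unique {z : ℤ} {V W : ℕ} (h1 : Ex z V) (h2 : Ex z W) : V = W := by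
  obtain ⟨m, hm, rfl⟩ := h1
  obtain ⟨l, hl, he⟩ := h2
  rcases lt_trichotomy V W with h | h | h
  · exfalso
    obtain ⟨k, rfl⟩ := Nat.exists_eq_add_of_lt h
    rw [show V + k + 1 = V + (k + 1) by ring, pow_add, mul_assoc] at he
    have h3 := mul_left_cancel₀ (pow_ne_zero V (by norm_num : (2 : ℤ) ≠ 0)) he
    rw [pow_succ] at h3
    have : m = 2 * (2 ^ k * l) := by rw [h3]; ring
    omega
  · exact h
  · exfalso
    obtain ⟨k, rfl⟩ := Nat.exists_eq_add_of_lt h
    rw [show W + k + 1 = W + (k + 1) by ring, pow_add, mul_assoc] at he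
    have h3 := mul_left_cancel₀ (pow_ne_zero W (by norm_num : (2 : ℤ) ≠ 0)) he
    rw [pow_succ] at h3
    have : l = 2 * (2 ^ k * m) := by rw [← h3]; ring
    omega

theorem Ex.ne_zero {z : ℤ} {V : ℕ} (h : Ex z V) : z ≠ 0 := by
  obtain ⟨m, hm, rfl⟩ := h
  have : m ≠ 0 := by omega
  positivity

theorem Ex.add {z w : ℤ} {V W : ℕ} (h1 : Ex z V) (h2 : Ex w W) (hVW : V < W) : Ex (z + w) V := by
  obtain ⟨m, hm, rfl⟩ := h1
  obtain ⟨l, hl, rfl⟩ := h2
  obtain ⟨k, rfl⟩ := Nat.exists_eq_add_of_lt hVW
  refine ⟨m + 2 * (2 ^ k * l), by omega, ?_⟩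
  rw [show V + k + 1 = V + (k + 1) by ring, pow_add, pow_succ]
  ring

theorem Ex.neg {z : ℤ} {V : ℕ} (h : Ex z V) : Ex (-z) V := by
  obtain ⟨m, hm, rfl⟩ := h
  exact ⟨-m, by omega, by ring⟩

theorem Ex.mul_odd {z u : ℤ} {V : ℕ} (h : Ex z V) (hu : u % 2 = 1) : Ex (u * z) V := by
  obtain ⟨m, hm, rfl⟩ := h
  refine ⟨u * m, ?_, by ring⟩
  rw [Int.mul_emod, hu, hm]; rfl

/-- an iterate of the difference of two elements with the same parities -/
theorem iter_diff {a b : ℤ} (ha : a % 2 = 1) (hb : b % 2 = 1) (d : ℕ) : ∀ z w : ℤ,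
    z % 2 ^ d = w % 2 ^ d → ∃ m : ℤ, m % 2 = 1 ∧ 2 ^ d * ((T a b)^[d] z - (T a b)^[d] w) = m * (z - w) := by
  induction d with
  | zero => intro z w _; exact ⟨1, by norm_num, by simp⟩
  | succ d ih =>
    intro z w h
    obtain ⟨h1, h2⟩ := (shift ha hb d z w).1 h
    obtain ⟨m, hm, he⟩ := ih _ _ h2
    rw [Function.iterate_succ_apply, Function.iterate_succ_apply]
    rcases Int.emod_two_eq_zero_or_one z with hz | hz
    · have hw : w % 2 = 0 := by omega
      refine ⟨m, hm, ?_⟩
      have e1 := T_even (a := a) (b := b) hz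
      have e2 := T_even (a := a) (b := b) hw
      rw [pow_succ]
      linear_combination 2 * he + m * e1 - m * e2
    · have hw : w % 2 = 1 := by omega
      refine ⟨m * a, by rw [Int.mul_emod, hm, ha]; rfl, ?_⟩
      have e1 := T_odd ha hb hz
      have e2 := T_odd ha hb hw
      rw [pow_succ]
      linear_combination 2 * he + m * e1 - m * e2

/-- **A long repetition gives many sums.** -/
theorem repetition {a b : ℤ} (ha : a % 2 = 1) (hb : b % 2 = 1) {x : ℤ} {i d K h : ℕ}
    (hd : 0 < d) (hK : 2 * h * d ≤ K)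
    (hcong : (T a b)^[i] x % 2 ^ K = (T a b)^[i + d] x % 2 ^ K)
    (hne : (T a b)^[i] x ≠ (T a b)^[i + d] x) {W : Finset ℤ}
    (hW : ∀ s ≤ 2 * h, (T a b)^[i + s * d] x ∈ W) {u v : ℤ} (hu : u % 2 = 1) (hv : v % 2 = 1) :
    h * h ≤ (dil u v W).card := by
  set y : ℕ → ℤ := fun s => (T a b)^[i + s * d] x with hy
  -- congruences
  have hstep : ∀ s, y (s + 1) = (T a b)^[d] (y s) := by
    intro s
    simp only [hy]
    rw [← Function.iterate_add_apply, show d + (i + s * d) = i + (s + 1) * d by ring]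
  have hc : ∀ s, s * d ≤ K → y s % 2 ^ (K - s * d) = y (s + 1) % 2 ^ (K - s * d) := by
    intro s hs
    induction s with
    | zero => simpa [hy] using hcong
    | succ s ih =>
      have h1 : s * d + d ≤ K := by
        have : (s + 1) * d = s * d + d := by ring
        omega
      have ih' := ih (by omega)
      have h2 : y s % 2 ^ d = y (s + 1) % 2 ^ d := by
        rw [emod_iff] at ih' ⊢
        exact (pow_dvd_pow 2 (by omega)).trans ih'
      obtain ⟨m, hm, he⟩ := iter_diff ha hb d _ _ h2
      rw [← hstep, ← hstep] at he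
      rw [emod_iff] at ih' ⊢
      have h3 : K - s * d = d + (K - (s + 1) * d) := by
        have : (s + 1) * d = s * d + d := by ring
        omega
      rw [h3, pow_add] at ih'
      have h4 : (2 : ℤ) ^ d * 2 ^ (K - (s + 1) * d) ∣ 2 ^ d * (y (s + 1) - y (s + 1 + 1)) := by
        rw [he]; exact ih'.mul_left m
      exact Int.dvd_of_mul_dvd_mul_left (by positivity) h4
  -- exact powers for consecutive differences
  obtain ⟨V, m0, hm0, he0⟩ := exists_two_pow (show y 1 - y 0 ≠ 0 by
    simp only [hy, one_mul, zero_mul, add_zero]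
    exact sub_ne_zero.2 hne.symm)
  have hex1 : ∀ s, s * d ≤ K → ∃ U, U + s * d = V ∧ Ex (y (s + 1) - y s) U := by
    intro s hs
    induction s with
    | zero => exact ⟨V, by ring, ⟨m0, hm0, he0⟩⟩
    | succ s ih =>
      have h1 : s * d + d ≤ K := by
        have : (s + 1) * d = s * d + d := by ring
        omega
      obtain ⟨U, hU, m, hm, he⟩ := ih (by omega)
      have h2 : y s % 2 ^ d = y (s + 1) % 2 ^ d := by
        have := hc s (by omega)
        rw [emod_iff] at this ⊢
        exact (pow_dvd_pow 2 (by omega)).trans this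
      obtain ⟨l, hl, he2⟩ := iter_diff ha hb d _ _ h2
      rw [← hstep, ← hstep] at he2
      have h3 : 2 ^ d * (y (s + 1 + 1) - y (s + 1)) = 2 ^ U * (l * m) := by
        linear_combination -he2 + l * he
      have hlm : l * m % 2 = 1 := by rw [Int.mul_emod, hl, hm]; rfl
      have hdU : d ≤ U := by
        by_contra hcon
        push Not at hcon
        obtain ⟨k, rfl⟩ := Nat.exists_eq_add_of_lt hcon
        rw [show U + k + 1 = U + (k + 1) by ring, pow_add, mul_assoc] at h3
        have h4 := mul_left_cancel₀ (pow_ne_zero U (by norm_num : (2 : ℤ) ≠ 0)) h3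
        rw [pow_succ] at h4
        have : l * m = 2 * (2 ^ k * (y (s + 1 + 1) - y (s + 1))) := by rw [← h4]; ring
        omega
      obtain ⟨U', rfl⟩ := Nat.exists_eq_add_of_le hdU
      refine ⟨U', by rw [← hU]; ring, l * m, hlm, ?_⟩
      rw [pow_add, mul_assoc] at h3
      exact mul_left_cancel₀ (pow_ne_zero d (by norm_num : (2 : ℤ) ≠ 0)) h3
  -- exact powers for all differences
  have hex2 : ∀ s' s, s < s' → (s' - 1) * d ≤ K → ∃ U, U + (s' - 1) * d = V ∧ Ex (y s' - y s) U := by
    intro s'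
    induction s' with
    | zero => intro s hs; omega
    | succ s' ih =>
      intro s hs hK'
      simp only [Nat.add_sub_cancel] at hK' ⊢
      obtain ⟨U, hU, hE⟩ := hex1 s' hK'
      rcases Nat.lt_succ_iff_lt_or_eq.1 hs with h1 | h1
      · have hs'1 : (s' - 1) * d + d = s' * d := by
          obtain ⟨t, rfl⟩ : ∃ t, s' = t + 1 := ⟨s' - 1, by omega⟩
          simp; ring
        obtain ⟨U2, hU2, hE2⟩ := ih s h1 (by omega)
        refine ⟨U, hU, ?_⟩
        have := hE.add hE2 (by omega)
        have e : y (s' + 1) - y s' + (y s' - y s) = y (s' + 1) - y s := by ring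
        rwa [e] at this
      · subst h1
        exact ⟨U, hU, hE⟩
  -- injectivity
  have hinj : Set.InjOn (fun q : ℕ × ℕ => u * y q.1 + v * y q.2)
      ((Finset.Ioc h (2 * h)) ×ˢ (Finset.range h) : Finset (ℕ × ℕ)) := by
    have key : ∀ s t s' t' : ℕ, s ∈ Finset.Ioc h (2 * h) → s' ∈ Finset.Ioc h (2 * h) →
        t ∈ Finset.range h → t' ∈ Finset.range h → s < s' →
        u * y s + v * y t ≠ u * y s' + v * y t' := by
      intro s t s' t' hs hs' ht ht' hlt he
      rw [Finset.mem_Ioc] at hs hs'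
      rw [Finset.mem_range] at ht ht'
      have hKs : ∀ r, r ≤ 2 * h → (r - 1) * d ≤ K := by
        intro r hr
        refine le_trans ?_ hK
        exact Nat.mul_le_mul_right d (by omega)
      obtain ⟨U, hU, hE⟩ := hex2 s' s hlt (hKs s' hs'.2)
      have e : u * (y s' - y s) = v * (y t - y t') := by linear_combination -he
      have hE1 := hE.mul_odd hu
      rcases lt_trichotomy t t' with h1 | h1 | h1
      · obtain ⟨U2, hU2, hE2⟩ := hex2 t' t h1 (hKs t' (by omega))
        have hE3 := (hE2.neg).mul_odd hv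
        have e2 : v * -(y t' - y t) = u * (y s' - y s) := by rw [e]; ring
        rw [e2] at hE3
        have h4 := hE1.unique hE3
        subst h4
        have h5 : (s' - 1) * d = (t' - 1) * d := by omega
        have h6 := Nat.eq_of_mul_eq_mul_right hd h5
        omega
      · rw [h1, sub_self, mul_zero] at e
        exact hE1.ne_zero e
      · obtain ⟨U2, hU2, hE2⟩ := hex2 t t' h1 (hKs t (by omega))
        have hE3 := hE2.mul_odd hv
        rw [← e] at hE3
        have h4 := hE1.unique hE3
        subst h4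
        have h5 : (s' - 1) * d = (t - 1) * d := by omega
        have h6 := Nat.eq_of_mul_eq_mul_right hd h5
        omega
    rintro ⟨s, t⟩ hq ⟨s', t'⟩ hq' he
    rw [Finset.mem_coe, Finset.mem_product] at hq hq'
    simp only at he hq hq'
    rcases lt_trichotomy s s' with h1 | h1 | h1
    · exact absurd he (key s t s' t' hq.1 hq'.1 hq.2 hq'.2 h1)
    · subst h1
      have h2 : v * y t = v * y t' := by linarith
      have hv0 : v ≠ 0 := by rintro rfl; norm_num at hv
      have h3 := mul_left_cancel₀ hv0 h2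
      rcases lt_trichotomy t t' with h4 | h4 | h4
      · exfalso
        have hq2 := Finset.mem_range.1 hq'.2
        obtain ⟨U, hU, hE⟩ := hex2 t' t h4 (le_trans (Nat.mul_le_mul_right d (by omega)) hK)
        exact hE.ne_zero (by rw [h3]; ring)
      · rw [h4]
      · exfalso
        have hq2 := Finset.mem_range.1 hq.2
        obtain ⟨U, hU, hE⟩ := hex2 t t' h4 (le_trans (Nat.mul_le_mul_right d (by omega)) hK)
        exact hE.ne_zero (by rw [h3]; ring)
    · exact absurd he.symm (key s' t' s t hq'.1 hq.1 hq'.2 hq.2 h1)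
  have hcard : ((Finset.Ioc h (2 * h)) ×ˢ (Finset.range h) : Finset (ℕ × ℕ)).card = h * h := by
    rw [Finset.card_product, Nat.card_Ioc, Finset.card_range]
    congr 1
    omega
  rw [← hcard]
  apply Finset.card_le_card_of_injOn _ _ hinj
  rintro ⟨s, t⟩ hq
  rw [Finset.mem_coe, Finset.mem_product, Finset.mem_Ioc, Finset.mem_range] at hq
  exact Finset.mem_image₂_of_mem (hW s hq.1.2) (hW t (by omega))

end Pool.Agent.N903.SS
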