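import Mathlib
import Pool.Agent.N903.Traj

set_option autoImplicit false

/-!
# Sums of dilates of the sets of terms of a trajectory of the 3x+1 map
-/

namespace Pool.Agent.N903.SS

open Real Finset

/-- the terms of the trajectory -/
def tr (x : ℤ) (i : ℕ) : ℤ := (T 3 1)^[i] x

theorem tr_zero (x : ℤ) : tr x 0 = x := rfl

theorem tr_succ (x : ℤ) (i : ℕ) : tr x (i + 1) = T 3 1 (tr x i) := by
  unfold tr; rw [Function.iterate_succ_apply']

theorem T_ne_zero {x : ℤ} (hx : x ≠ 0) : T 3 1 x ≠ 0 := by
  rcases Int.emod_two_eq_zero_or_one x with h | h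
  · have := T_even (a := 3) (b := 1) h
    omega
  · have := T_odd (a := 3) (b := 1) (by norm_num) (by norm_num) h
    omega

theorem tr_ne_zero {x : ℤ} (hx : x ≠ 0) (i : ℕ) : tr x i ≠ 0 := by
  induction i with
  | zero => exact hx
  | succ i ih => rw [tr_succ]; exact T_ne_zero ih

/-- the number of odd terms -/
def on (x : ℤ) (n : ℕ) : ℕ := ((range n).filter fun i => tr x i % 2 = 1).card

/-- the number of small terms -/
def sn (x : ℤ) (n : ℕ) : ℕ := ((range n).filter fun i => |tr x i| < 1000).card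

theorem on_succ (x : ℤ) (n : ℕ) : on x (n + 1) = if tr x n % 2 = 1 then on x n + 1 else on x n := by
  unfold on
  rw [range_add_one, filter_insert]
  split_ifs with h
  · rw [card_insert_of_notMem (by simp)]
  · rfl

theorem sn_succ (x : ℤ) (n : ℕ) : sn x (n + 1) = if |tr x n| < 1000 then sn x n + 1 else sn x n := by
  unfold sn
  rw [range_add_one, filter_insert]
  split_ifs with h
  · rw [card_insert_of_notMem (by simp)]
  · rfl

theorem size {x : ℤ} (hx : x ≠ 0) (n : ℕ) :
    (2 : ℝ) ^ n * |(tr x n : ℝ)| ≤ |(x : ℝ)| * 4 ^ sn x n * (3001 / 1000) ^ on x n := by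
  induction n with
  | zero => simp [sn, on, tr_zero]
  | succ n ih =>
    have hne := tr_ne_zero hx n
    have h1 : (1 : ℝ) ≤ |(tr x n : ℝ)| := by
      have : (1 : ℤ) ≤ |tr x n| := Int.one_le_abs hne
      exact_mod_cast this
    set y : ℤ := tr x n with hy
    have hs := sn_succ x n
    have ho := on_succ x n
    rw [tr_succ, ← hy]
    rw [← hy] at hs ho
    set A : ℝ := |(x : ℝ)| * 4 ^ sn x n * (3001 / 1000) ^ on x n with hA
    have hA0 : 0 ≤ A := by positivity
    rcases Int.emod_two_eq_zero_or_one y with h | h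
    · have e : 2 * ((T 3 1 y : ℤ) : ℝ) = y := by exact_mod_cast T_even (a := 3) (b := 1) h
      have e2 : 2 * |((T 3 1 y : ℤ) : ℝ)| = |(y : ℝ)| := by
        rw [← e, abs_mul]; norm_num
      rw [if_neg (by omega)] at ho
      rw [ho, pow_succ, mul_assoc, e2]
      refine ih.trans ?_
      rw [hs]
      split_ifs
      · rw [pow_succ]
        have : |(x : ℝ)| * (4 ^ sn x n * 4) * (3001 / 1000) ^ on x n = 4 * A := by rw [hA]; ring
        rw [this]; linarith
      · exact le_rfl
    · have e : 2 * ((T 3 1 y : ℤ) : ℝ) = 3 * y + 1 := by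
        exact_mod_cast T_odd (a := 3) (b := 1) (by norm_num) (by norm_num) h
      have e2 : 2 * |((T 3 1 y : ℤ) : ℝ)| = |3 * (y : ℝ) + 1| := by
        rw [← e, abs_mul]; norm_num
      have e3 : |3 * (y : ℝ) + 1| ≤ 3 * |(y : ℝ)| + 1 := by
        have := abs_add_le (3 * (y : ℝ)) 1
        rw [abs_mul] at this
        norm_num at this
        exact this
      rw [if_pos h] at ho
      rw [ho, pow_succ, mul_assoc, e2]
      have hpow : (0 : ℝ) < 2 ^ n := by positivity
      rw [hs]
      split_ifs with hsm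
      · have e4 : |3 * (y : ℝ) + 1| ≤ 4 * |(y : ℝ)| := by linarith
        calc (2 : ℝ) ^ n * |3 * (y : ℝ) + 1| ≤ 2 ^ n * (4 * |(y : ℝ)|) := mul_le_mul_of_nonneg_left e4 hpow.le
          _ = 4 * (2 ^ n * |(y : ℝ)|) := by ring
          _ ≤ 4 * A := by linarith
          _ ≤ |(x : ℝ)| * 4 ^ (sn x n + 1) * (3001 / 1000) ^ (on x n + 1) := by
            rw [pow_succ, pow_succ]
            have : |(x : ℝ)| * (4 ^ sn x n * 4) * ((3001 / 1000) ^ on x n * (3001 / 1000)) =
              4 * (3001 / 1000) * A := by rw [hA]; ring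
            rw [this]
            nlinarith
      · have hbig : (1000 : ℝ) ≤ |(y : ℝ)| := by
          have : (1000 : ℤ) ≤ |y| := not_lt.1 hsm
          exact_mod_cast this
        have e4 : |3 * (y : ℝ) + 1| ≤ 3001 / 1000 * |(y : ℝ)| := by linarith
        calc (2 : ℝ) ^ n * |3 * (y : ℝ) + 1| ≤ 2 ^ n * (3001 / 1000 * |(y : ℝ)|) :=
              mul_le_mul_of_nonneg_left e4 hpow.le
          _ = 3001 / 1000 * (2 ^ n * |(y : ℝ)|) := by ring
          _ ≤ 3001 / 1000 * A := by linarith
          _ = |(x : ℝ)| * 4 ^ sn x n * (3001 / 1000) ^ (on x n + 1) := by rw [hA, pow_succ]; ring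

theorem sn_le {x : ℤ} {n : ℕ} (hinj : Set.InjOn (tr x) (Set.Iio n)) : sn x n ≤ 1999 := by
  unfold sn
  have h1 : ((range n).filter fun i => |tr x i| < 1000).card ≤ (Finset.Ioo (-1000 : ℤ) 1000).card := by
    apply Finset.card_le_card_of_injOn (tr x)
    · intro i hi
      rw [Finset.mem_coe, mem_filter] at hi
      rw [Finset.mem_coe, Finset.mem_Ioo]
      exact abs_lt.1 hi.2
    · intro i hi j hj h
      rw [Finset.mem_coe, mem_filter, mem_range] at hi hj
      exact hinj hi.1 hj.1 h
  simpa using h1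

/-- the proportion of odd terms -/
theorem on_ge {x : ℤ} (hx : x ≠ 0) {n : ℕ} (hinj : Set.InjOn (tr x) (Set.Iio n)) :
    0.63 * (n : ℝ) - 2519 - 0.92 * log |(x : ℝ)| ≤ on x n := by
  have h1 := size hx n
  have hs := sn_le hinj
  have hx1 : (1 : ℝ) ≤ |(x : ℝ)| := by
    have : (1 : ℤ) ≤ |x| := Int.one_le_abs hx
    exact_mod_cast this
  have ht1 : (1 : ℝ) ≤ |(tr x n : ℝ)| := by
    have : (1 : ℤ) ≤ |tr x n| := Int.one_le_abs (tr_ne_zero hx n)
    exact_mod_cast this
  have h2 : (2 : ℝ) ^ n ≤ |(x : ℝ)| * 4 ^ 1999 * (3001 / 1000) ^ on x n := by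
    calc (2 : ℝ) ^ n ≤ 2 ^ n * |(tr x n : ℝ)| := le_mul_of_one_le_right (by positivity) ht1
      _ ≤ _ := h1
      _ ≤ _ := by
        apply mul_le_mul_of_nonneg_right _ (by positivity)
        apply mul_le_mul_of_nonneg_left _ (by positivity)
        exact pow_le_pow_right₀ (by norm_num) hs
  have h3 := Real.log_le_log (by positivity) h2
  rw [Real.log_mul (by positivity) (by positivity), Real.log_mul (by positivity) (by positivity),
    Real.log_pow, Real.log_pow, Real.log_pow] at h3
  have hl4 : log 4 = 2 * log 2 := by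
    rw [show (4 : ℝ) = 2 ^ 2 by norm_num, Real.log_pow]; norm_num
  rw [hl4] at h3
  have hl3 : 63 * log (3001 / 1000) ≤ 100 * log 2 := by
    have : Real.log ((3001 / 1000 : ℝ) ^ 63) ≤ Real.log ((2 : ℝ) ^ 100) :=
      Real.log_le_log (by positivity) (by norm_num)
    rw [Real.log_pow, Real.log_pow] at this
    exact_mod_cast this
  have hl2 := Real.log_two_gt_d9
  have hlx : 0 ≤ log |(x : ℝ)| := Real.log_nonneg hx1
  push_cast at h3
  set o : ℝ := (on x n : ℝ) with ho
  have ho0 : 0 ≤ o := Nat.cast_nonneg _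
  set l := log 2 with hl
  set X := log |(x : ℝ)| with hX
  have h4 : o * (63 * log (3001 / 1000)) ≤ o * (100 * l) := mul_le_mul_of_nonneg_left hl3 ho0
  -- 63 n l ≤ 63 X + 63 * 3998 l + 100 o l
  have h5 : 63 * ((n : ℝ) * l) ≤ 63 * X + 63 * 3998 * l + 100 * o * l := by nlinarith
  by_contra hcon
  push Not at hcon
  have h6 : o * l < (0.63 * (n : ℝ) - 2519 - 0.92 * X) * l :=
    mul_lt_mul_of_pos_right hcon (by linarith)
  nlinarith

section core

variable {x : ℤ} {m : ℕ}

/-- the set of the first `m` terms -/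
def ZZ (x : ℤ) (m : ℕ) : Finset ℤ := (range m).image (tr x)

theorem ZZ_card (hinj : Set.InjOn (tr x) (Set.Iio m)) : (ZZ x m).card = m := by
  unfold ZZ
  rw [Finset.card_image_of_injOn, card_range]
  intro i hi j hj h
  rw [Finset.mem_coe, mem_range] at hi hj
  exact hinj hi hj h

theorem sum_ZZ (hinj : Set.InjOn (tr x) (Set.Iio m)) (f : ℤ → ℝ) :
    ∑ z ∈ ZZ x m, f z = ∑ i ∈ range m, f (tr x i) := by
  unfold ZZ
  rw [Finset.sum_image]
  intro i hi j hj h
  rw [Finset.mem_coe, mem_range] at hi hj
  exact hinj hi hj h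

theorem HH_traj (hinj : Set.InjOn (tr x) (Set.Iio m)) (hm : 0 < m) {k : ℕ}
    (hk : 5 / 8 * (m : ℝ) ≤ (on x m : ℝ) - k) :
    HH 3 1 (ZZ x m) k ≤ (ZZ x m).card * binEntropy (3 / 8) := by
  have hcard := ZZ_card hinj
  have hne : (ZZ x m).Nonempty := by rw [← Finset.card_pos, hcard]; exact hm
  have hmr : (0 : ℝ) < m := by exact_mod_cast hm
  unfold HH
  refine (jensen_sum hne (fun x _ => th_nonneg k x) fun x _ => th_le_one k x).trans ?_
  apply mul_le_mul_of_nonneg_left _ (Nat.cast_nonneg _)
  have h1 : ∑ z ∈ ZZ x m, th 3 1 (ZZ x m) k z = ∑ i ∈ range m, ind 3 1 k (tr x i) := by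
    unfold th
    rw [avg_sum, sum_ZZ hinj]
  rw [h1, hcard]
  set q : ℝ := (∑ i ∈ range m, ind 3 1 k (tr x i)) / m with hq
  have hq1 : q ≤ 1 := by
    rw [hq, div_le_one hmr]
    calc ∑ i ∈ range m, ind 3 1 k (tr x i) ≤ ∑ i ∈ range m, (1 : ℝ) :=
          Finset.sum_le_sum fun i _ => ind_le_one k _
      _ = m := by simp
  have hq2 : 5 / 8 ≤ q := by
    rw [hq, le_div_iff₀ hmr]
    refine hk.trans ?_
    -- the number of odd terms with indices in `[k, k + m)` is at least `on - k`
    have h2 : ∑ i ∈ range m, ind 3 1 k (tr x i) =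
        (((range m).filter fun i => tr x (k + i) % 2 = 1).card : ℝ) := by
      have : ∀ i ∈ range m, ind 3 1 k (tr x i) = if tr x (k + i) % 2 = 1 then (1 : ℝ) else 0 := by
        intro i _
        unfold ind od tr
        rw [← Function.iterate_add_apply]
        simp
      rw [Finset.sum_congr rfl this, Finset.sum_boole]
    rw [h2]
    have h3 : on x m ≤ k + ((range m).filter fun i => tr x (k + i) % 2 = 1).card := by
      unfold on
      calc ((range m).filter fun i => tr x i % 2 = 1).card ≤
            (range k ∪ ((range m).filter fun i => tr x (k + i) % 2 = 1).image fun i => k + i).card := by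
            apply Finset.card_le_card
            intro i hi
            rw [mem_filter, mem_range] at hi
            rw [mem_union, mem_range, mem_image]
            by_cases h : i < k
            · exact Or.inl h
            · right
              refine ⟨i - k, ?_, by omega⟩
              rw [mem_filter, mem_range]
              refine ⟨by omega, ?_⟩
              have : k + (i - k) = i := by omega
              rw [this]; exact hi.2
        _ ≤ (range k).card + _ := Finset.card_union_le _ _
        _ ≤ k + _ := by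
            rw [card_range]
            exact Nat.add_le_add_left Finset.card_image_le _
    have h4 : (on x m : ℝ) ≤ k + (((range m).filter fun i => tr x (k + i) % 2 = 1).card : ℝ) := by
      exact_mod_cast h3
    linarith
  rw [← binEntropy_one_sub]
  apply binEntropy_strictMonoOn.monotoneOn
  · exact ⟨by linarith, by norm_num; linarith⟩
  · constructor <;> norm_num
  · linarith

/-- pigeonhole principle -/
theorem pigeon {I : Finset ℕ} (hI : I ⊆ range m) {D : ℕ} (hD : 0 < D) (hc : m / D + 1 < I.card) :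
    ∃ i ∈ I, ∃ d, 0 < d ∧ d < D ∧ i + d ∈ I := by
  have hmap : ∀ i ∈ I, i / D ∈ range (m / D + 1) := by
    intro i hi
    rw [mem_range]
    have := mem_range.1 (hI hi)
    have : i / D ≤ m / D := Nat.div_le_div_right this.le
    omega
  obtain ⟨i, hi, j, hj, hne, he⟩ := Finset.exists_ne_map_eq_of_card_lt_of_maps_to
    (by rw [card_range]; exact hc) hmap
  have key : ∀ i j : ℕ, i / D = j / D → i < j → j - i < D := by
    intro i j he hlt
    have h1 := Nat.div_add_mod i D
    have h2 := Nat.div_add_mod j D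
    have h3 := Nat.mod_lt i hD
    have h4 := Nat.mod_lt j hD
    rw [he] at h1
    omega
  rcases lt_or_gt_of_ne hne with h | h
  · exact ⟨i, hi, j - i, by omega, key i j he h, by rwa [Nat.add_sub_of_le h.le]⟩
  · exact ⟨j, hj, i - j, by omega, key j i he.symm h, by rwa [Nat.add_sub_of_le h.le]⟩

end core

end Pool.Agent.N903.SS
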