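import Mathlib
import Pool.Agent.N903.Traj2

set_option autoImplicit false

/-!
# Sums of dilates of the sets of terms of a trajectory of the 3x+1 map: the theorem
-/

namespace Pool.Agent.N903.SS

open Real Finset

/-- numerical values -/
theorem numerics38 : binEntropy (3 / 8) / binEntropy (star (3 / 8) (3 / 8)) ≤ 0.958 := by
  have hl2 : 0 < log 2 := Real.log_pos (by norm_num)
  have hs : star (3 / 8 : ℝ) (3 / 8) = 15 / 32 := by
    unfold star; norm_num
  have e1 : binEntropy (3 / 8) = 3 * log 2 - 3 / 8 * log 3 - 5 / 8 * log 5 := by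
    unfold binEntropy
    have h8 : log 8 = 3 * log 2 := by
      rw [show (8 : ℝ) = 2 ^ 3 by norm_num, Real.log_pow]; norm_num
    rw [show (1 - 3 / 8 : ℝ) = 5 / 8 by norm_num, Real.log_inv, Real.log_inv,
      Real.log_div (by norm_num) (by norm_num), Real.log_div (by norm_num) (by norm_num), h8]
    ring
  have e2 : binEntropy (15 / 32) = 5 * log 2 - 15 / 32 * (log 3 + log 5) - 17 / 32 * log 17 := by
    unfold binEntropy
    have h8 : log 32 = 5 * log 2 := by
      rw [show (32 : ℝ) = 2 ^ 5 by norm_num, Real.log_pow]; norm_num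
    have h15 : log 15 = log 3 + log 5 := by
      rw [← Real.log_mul (by norm_num) (by norm_num)]; norm_num
    rw [show (1 - 15 / 32 : ℝ) = 17 / 32 by norm_num, Real.log_inv, Real.log_inv,
      Real.log_div (by norm_num) (by norm_num), Real.log_div (by norm_num) (by norm_num), h8, h15]
    ring
  have a1 : 84 * log 2 ≤ 53 * log 3 := by
    have : Real.log ((2 : ℝ) ^ 84) ≤ Real.log ((3 : ℝ) ^ 53) := Real.log_le_log (by positivity) (by norm_num)
    rw [Real.log_pow, Real.log_pow] at this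
    exact_mod_cast this
  have a2 : 147 * log 3 ≤ 233 * log 2 := by
    have : Real.log ((3 : ℝ) ^ 147) ≤ Real.log ((2 : ℝ) ^ 233) := Real.log_le_log (by positivity) (by norm_num)
    rw [Real.log_pow, Real.log_pow] at this
    exact_mod_cast this
  have a3 : 202 * log 2 ≤ 87 * log 5 := by
    have : Real.log ((2 : ℝ) ^ 202) ≤ Real.log ((5 : ℝ) ^ 87) := Real.log_le_log (by positivity) (by norm_num)
    rw [Real.log_pow, Real.log_pow] at this
    exact_mod_cast this
  have a4 : 59 * log 5 ≤ 137 * log 2 := by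
    have : Real.log ((5 : ℝ) ^ 59) ≤ Real.log ((2 : ℝ) ^ 137) := Real.log_le_log (by positivity) (by norm_num)
    rw [Real.log_pow, Real.log_pow] at this
    exact_mod_cast this
  have a5 : 57 * log 17 ≤ 233 * log 2 := by
    have : Real.log ((17 : ℝ) ^ 57) ≤ Real.log ((2 : ℝ) ^ 233) := Real.log_le_log (by positivity) (by norm_num)
    rw [Real.log_pow, Real.log_pow] at this
    exact_mod_cast this
  have hpos : 0 < binEntropy (15 / 32) := binEntropy_pos (by norm_num) (by norm_num)
  rw [hs, div_le_iff₀ hpos, e1, e2]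
  linarith

theorem dil_mono {u v : ℤ} {Z W : Finset ℤ} (h : Z ⊆ W) : dil u v Z ⊆ dil u v W :=
  Finset.image₂_subset h h

/-- the case of few repetitions -/
theorem caseA {x : ℤ} {m : ℕ} (hm : 2 ≤ m) (hinj : Set.InjOn (tr x) (Set.Iio m)) {K : ℕ}
    (hk : ∀ k < K, 5 / 8 * (m : ℝ) ≤ (on x m : ℝ) - k)
    (hL : ∑ z ∈ ZZ x m, log (num (ZZ x m) K z) ≤ 0.515 * (m * log m)) {u v : ℤ}
    (hu : u % 2 = 1) (hv : v % 2 = 1) : (m : ℝ) ^ (1.0203 : ℝ) ≤ (dil u v (ZZ x m)).card := by
  have hcard := ZZ_card hinj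
  have hne : (ZZ x m).Nonempty := by rw [← Finset.card_pos, hcard]; omega
  have hmr : (1 : ℝ) ≤ m := by exact_mod_cast (by omega : 1 ≤ m)
  have hlog : 0 ≤ log m := Real.log_nonneg hmr
  have hg := growth (a := 3) (b := 1) (by norm_num) (by norm_num) hne (β := 3 / 8) (by norm_num)
    (by norm_num) (K := K) (fun k hk' => HH_traj hinj (by omega) (hk k hk')) hu hv
  rw [hcard] at hg
  have hnum := numerics38
  set δ : ℝ := 1 - binEntropy (3 / 8) / binEntropy (star (3 / 8) (3 / 8)) with hδ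
  have hδ1 : 0.042 ≤ δ := by rw [hδ]; linarith
  set L := ∑ z ∈ ZZ x m, log (num (ZZ x m) K z) with hLdef
  have h1 : 0.485 * ((m : ℝ) * log m) ≤ m * log m - L := by linarith
  have h2 : 0 ≤ (m : ℝ) * log m := by positivity
  have h3 : 0.042 * (0.485 * ((m : ℝ) * log m)) ≤ δ * (m * log m - L) := by
    apply mul_le_mul hδ1 h1 (by positivity) (by linarith)
  have h4 : (m : ℝ) * (1.0203 * log m) ≤ m * log (dil u v (ZZ x m)).card := by nlinarith
  have h5 := le_of_mul_le_mul_left h4 (by linarith)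
  have hd : (0 : ℝ) < (dil u v (ZZ x m)).card := by
    obtain ⟨z, hz⟩ := hne
    exact_mod_cast Finset.card_pos.2 ⟨_, Finset.mem_image₂_of_mem hz hz⟩
  rw [← Real.log_rpow (by linarith)] at h5
  exact (Real.log_le_log_iff (Real.rpow_pos_of_pos (by linarith) _) hd).1 h5

/-- the case of many repetitions -/
theorem caseB {x : ℤ} {m : ℕ} (hm : 1000000 ≤ m) (ht : (10000 : ℝ) ≤ (m : ℝ) ^ (0.0048 : ℝ))
    (hinj : Set.InjOn (tr x) (Set.Iio (2 * m)))
    (hL : 0.515 * (m * log m) < ∑ z ∈ ZZ x m, log (num (ZZ x m) (m / 400) z)) {u v : ℤ}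
    (hu : u % 2 = 1) (hv : v % 2 = 1) : (m : ℝ) ^ (1.0203 : ℝ) ≤ (dil u v (ZZ x (2 * m))).card := by
  have hinj' : Set.InjOn (tr x) (Set.Iio m) := hinj.mono (Set.Iio_subset_Iio (by omega))
  have hcard := ZZ_card hinj'
  have hmr : (1000000 : ℝ) ≤ m := by exact_mod_cast hm
  have hm0 : (0 : ℝ) < m := by linarith
  set K := m / 400 with hK
  -- a popular class
  obtain ⟨z, hz, hzn⟩ : ∃ z ∈ ZZ x m, (m : ℝ) ^ (0.515 : ℝ) < num (ZZ x m) K z := by
    by_contra hcon
    push Not at hcon
    have h1 : ∑ z ∈ ZZ x m, log (num (ZZ x m) K z) ≤ ∑ z ∈ ZZ x m, 0.515 * log m := by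
      apply Finset.sum_le_sum
      intro z hz
      rw [← Real.log_rpow hm0]
      apply Real.log_le_log _ (hcon z hz)
      unfold num
      exact_mod_cast cls_card_pos hz
    rw [Finset.sum_const, nsmul_eq_mul, hcard] at h1
    linarith
  -- its indices
  set C := cls (ZZ x m) (key K) z with hC
  set I := (range m).filter fun i => tr x i ∈ C with hI
  have hIcard : I.card = C.card := by
    have : C = I.image (tr x) := by
      ext y
      rw [mem_image]
      constructor
      · intro hy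
        have hy2 := (mem_cls.1 hy).1
        unfold ZZ at hy2
        rw [mem_image] at hy2
        obtain ⟨i, hi, rfl⟩ := hy2
        exact ⟨i, mem_filter.2 ⟨hi, hy⟩, rfl⟩
      · rintro ⟨i, hi, rfl⟩
        exact (mem_filter.1 hi).2
    rw [this, Finset.card_image_of_injOn]
    intro i hi j hj h
    rw [Finset.mem_coe, hI, mem_filter, mem_range] at hi hj
    exact hinj' hi.1 hj.1 h
  have hcbig : (m : ℝ) ^ (0.515 : ℝ) < I.card := by
    rw [hIcard]; exact hzn
  -- powers of `m`
  set A : ℝ := (m : ℝ) ^ (0.485 : ℝ) with hA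
  set B : ℝ := (m : ℝ) ^ (0.5102 : ℝ) with hB
  set t : ℝ := (m : ℝ) ^ (0.0048 : ℝ) with htt
  have hA1 : 1 ≤ A := Real.one_le_rpow (by linarith) (by norm_num)
  have hB1 : 1 ≤ B := Real.one_le_rpow (by linarith) (by norm_num)
  have hBt : (m : ℝ) ^ (0.515 : ℝ) = B * t := by
    rw [hB, htt, ← Real.rpow_add hm0]; norm_num
  have hAB : A * (B * t) = m := by
    rw [← hBt, hA, ← Real.rpow_add hm0]; norm_num
  rw [hBt] at hcbig
  set D := ⌊2 * A⌋₊ + 1 with hD
  have hDA : 2 * A < D := by
    rw [hD]; push_cast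
    exact Nat.lt_floor_add_one _
  have hpig : m / D + 1 < I.card := by
    have h1 : ((m / D : ℕ) : ℝ) ≤ (m : ℝ) / D := Nat.cast_div_le
    have h2 : (m : ℝ) / D ≤ B * t / 2 := by
      rw [div_le_iff₀ (by linarith)]
      calc (m : ℝ) = A * (B * t) := hAB.symm
        _ = B * t / 2 * (2 * A) := by ring
        _ ≤ B * t / 2 * D := mul_le_mul_of_nonneg_left hDA.le (by positivity)
    have h3 : (2 : ℝ) < B * t := by nlinarith
    have h4 : ((m / D : ℕ) : ℝ) + 1 < I.card := by linarith
    exact_mod_cast h4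
  obtain ⟨i, hi, d, hd0, hdD, hid⟩ := pigeon (m := m) (Finset.filter_subset _ _) (by omega) hpig
  have hi' := mem_filter.1 hi
  have hid' := mem_filter.1 hid
  have him := mem_range.1 hi'.1
  have hidm := mem_range.1 hid'.1
  have hdA : (d : ℝ) ≤ 2 * A := by
    have h1 : d ≤ ⌊2 * A⌋₊ := by omega
    exact (Nat.cast_le.2 h1).trans (Nat.floor_le (by linarith))
  have hd0' : (0 : ℝ) < d := by exact_mod_cast hd0
  -- the number `h`
  set h := K / (2 * d) with hh
  have hKh : 2 * h * d ≤ K := by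
    have := Nat.div_mul_le_self K (2 * d)
    calc 2 * h * d = K / (2 * d) * (2 * d) := by rw [hh]; ring
      _ ≤ K := this
  have hrep := repetition (a := 3) (b := 1) (by norm_num) (by norm_num) (x := x) (i := i) (d := d)
    (K := K) (h := h) hd0 hKh (by
      have h1 := (mem_cls.1 hi'.2).2
      have h2 := (mem_cls.1 hid'.2).2
      exact h1.trans h2.symm) (by
      intro he
      have := hinj (show i ∈ Set.Iio (2 * m) by simp; omega) (show i + d ∈ Set.Iio (2 * m) by simp; omega) he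
      omega) (W := ZZ x (2 * m)) (by
      intro s hs
      unfold ZZ
      rw [mem_image]
      refine ⟨i + s * d, ?_, rfl⟩
      rw [mem_range]
      have h1 : s * d ≤ 2 * h * d := Nat.mul_le_mul_right d hs
      have h2 : K ≤ m := Nat.div_le_self _ _
      omega) hu hv
  have hhB : B ≤ h := by
    have h1 : (K : ℝ) / (2 * d) - 1 ≤ h := by
      have := Nat.lt_floor_add_one ((K : ℝ) / (2 * d))
      rw [hh]
      have h2 : ((K / (2 * d) : ℕ) : ℝ) = (⌊(K : ℝ) / ((2 * d : ℕ) : ℝ)⌋₊ : ℝ) := by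
        rw [Nat.floor_div_natCast, Nat.floor_natCast]
      rw [h2]
      push_cast
      linarith
    have h3 : (m : ℝ) / 400 - 1 ≤ K := by
      have h2 : ((m / 400 : ℕ) : ℝ) = (⌊(m : ℝ) / ((400 : ℕ) : ℝ)⌋₊ : ℝ) := by
        rw [Nat.floor_div_natCast, Nat.floor_natCast]
      rw [hK, h2]
      push_cast
      have := Nat.lt_floor_add_one ((m : ℝ) / 400)
      linarith
    have h4 : (m : ℝ) / 800 ≤ K := by linarith
    have h5 : 2 * B ≤ (K : ℝ) / (2 * d) := by
      rw [le_div_iff₀ (by linarith)]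
      calc 2 * B * (2 * d) ≤ 2 * B * (2 * (2 * A)) := by
            apply mul_le_mul_of_nonneg_left _ (by positivity)
            linarith
        _ = A * (B * 8) := by ring
        _ ≤ A * (B * (t / 800)) := by
            apply mul_le_mul_of_nonneg_left _ (by linarith)
            apply mul_le_mul_of_nonneg_left _ (by linarith)
            linarith
        _ = A * (B * t) / 800 := by ring
        _ = (m : ℝ) / 800 := by rw [hAB]
        _ ≤ K := h4
    linarith
  have hBB : (m : ℝ) ^ (1.0203 : ℝ) ≤ B * B := by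
    rw [hB, ← Real.rpow_add hm0]
    exact Real.rpow_le_rpow_of_exponent_le (by linarith) (by norm_num)
  calc (m : ℝ) ^ (1.0203 : ℝ) ≤ B * B := hBB
    _ ≤ (h : ℝ) * h := mul_le_mul hhB hhB (by linarith) (Nat.cast_nonneg _)
    _ = ((h * h : ℕ) : ℝ) := by push_cast; ring
    _ ≤ _ := by exact_mod_cast hrep

/-- **Sums of dilates of trajectories.** -/
theorem core : ∃ N0 : ℕ, ∀ m ≥ N0, ∀ x : ℤ, x ≠ 0 → 400 * log |(x : ℝ)| ≤ m →
    Set.InjOn (tr x) (Set.Iio (2 * m)) → ∀ u v : ℤ, u % 2 = 1 → v % 2 = 1 →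
      (m : ℝ) ^ (1.0203 : ℝ) ≤ (dil u v (ZZ x (2 * m))).card := by
  have h1 : Filter.Tendsto (fun m : ℕ => (m : ℝ) ^ (0.0048 : ℝ)) Filter.atTop Filter.atTop :=
    (tendsto_rpow_atTop (by norm_num)).comp tendsto_natCast_atTop_atTop
  obtain ⟨N1, hN1⟩ := Filter.eventually_atTop.1 (h1.eventually_ge_atTop 10000)
  refine ⟨max N1 13000000, fun m hm x hx hlx hinj u v hu hv => ?_⟩
  have ht := hN1 m ((le_max_left _ _).trans hm)
  have hm1 : 13000000 ≤ m := (le_max_right _ _).trans hm
  have hmr : (13000000 : ℝ) ≤ m := by exact_mod_cast hm1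
  have hinj' : Set.InjOn (tr x) (Set.Iio m) := hinj.mono (Set.Iio_subset_Iio (by omega))
  rcases le_or_gt (∑ z ∈ ZZ x m, log (num (ZZ x m) (m / 400) z)) (0.515 * (m * log m)) with h | h
  · have hA := caseA (x := x) (m := m) (by omega) hinj' (K := m / 400) (by
      intro k hk
      have ho := on_ge hx hinj'
      have hk' : (k : ℝ) ≤ (m : ℝ) / 400 := by
        have h2 : ((m / 400 : ℕ) : ℝ) ≤ (m : ℝ) / ((400 : ℕ) : ℝ) := Nat.cast_div_le
        have h3 : (k : ℝ) ≤ ((m / 400 : ℕ) : ℝ) := by exact_mod_cast hk.le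
        push_cast at h2
        linarith
      linarith) h hu hv
    refine hA.trans ?_
    norm_cast
    apply Finset.card_le_card
    apply dil_mono
    unfold ZZ
    apply Finset.image_subset_image
    intro i hi
    rw [mem_range] at hi ⊢
    omega
  · exact caseB (by omega) ht hinj h hu hv

end Pool.Agent.N903.SS
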